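import Mathlib

/-!
# The Vietoris-Rips shadow of a compact set need not be an ANR: helper file
-/

set_option autoImplicit false

namespace Pool.Agent.R796.Anr

open Set Topology Metric

/-- `Y` is an absolute neighbourhood retract (for metrizable spaces): it is metrizable, and
whenever it is embedded as a closed subset of a metrizable space `Z`, some neighbourhood `U` of the
image retracts onto it. -/
def IsANR (Y : Type) [TopologicalSpace Y] : Prop :=
  TopologicalSpace.MetrizableSpace Y ∧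
    ∀ (Z : Type) [TopologicalSpace Z] [TopologicalSpace.MetrizableSpace Z] (i : Y → Z),
      IsClosedEmbedding i → ∃ U : Set Z, IsOpen U ∧ range i ⊆ U ∧
        ∃ r : U → Y, Continuous r ∧ ∀ (y : Y) (h : i y ∈ U), r ⟨i y, h⟩ = y

/-- The simplices of the Vietoris-Rips complex `R_β(M)`: the nonempty finite subsets of `M` of
diameter less than `β`. -/
def rips {V : Type*} [PseudoMetricSpace V] (β : ℝ) (M : Set V) : Set (Finset V) :=
  {σ | σ.Nonempty ∧ (σ : Set V) ⊆ M ∧ Metric.diam (σ : Set V) < β}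

/-- The shadow: the union of the convex hulls of the simplices. -/
def shadow {V : Type*} [NormedAddCommGroup V] [NormedSpace ℝ V] (β : ℝ) (M : Set V) : Set V :=
  ⋃ σ ∈ rips β M, convexHull ℝ (σ : Set V)

section LocallyConnected

variable {V : Type} [NormedAddCommGroup V] [NormedSpace ℝ V]

/-- If a subset `S` of a normed space is an ANR then it is locally connected in the following weak
sense. -/
theorem local_of_isANR {S : Set V} (h : IsANR S) (p : V) (hp : p ∈ S) (ρ : ℝ) (hρ : 0 < ρ) :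
    ∃ ε > 0, ∀ q ∈ S, dist q p < ε → ∃ C : Set V, IsPreconnected C ∧ C ⊆ S ∧ C ⊆ ball p ρ ∧
      p ∈ C ∧ q ∈ C := by
  classical
  let Zs : Set (V × ℝ) := {z | 0 < z.2 ∨ (z.2 = 0 ∧ z.1 ∈ S)}
  let i : S → Zs := fun v => ⟨(v.1, 0), Or.inr ⟨rfl, v.2⟩⟩
  have hi : IsClosedEmbedding i := by
    refine ⟨⟨⟨?_⟩, ?_⟩, ?_⟩
    · -- inducing
      apply le_antisymm
      · refine (Continuous.le_induced ?_)
        fun_prop
      · have : (Subtype.val : S → V) = (fun z : Zs => z.1.1) ∘ i := rfl
        rw [show (instTopologicalSpaceSubtype : TopologicalSpace S) =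
          TopologicalSpace.induced (Subtype.val : S → V) inferInstance from rfl, this,
          ← induced_compose]
        apply induced_mono
        exact (Continuous.le_induced (by fun_prop))
    · intro a b hab
      have := congrArg (fun z : Zs => z.1.1) hab
      exact Subtype.ext this
    · have : range i = (fun z : Zs => z.1.2) ⁻¹' {0} := by
        ext z
        constructor
        · rintro ⟨v, rfl⟩
          rfl
        · intro hz
          have hz' : z.1.2 = 0 := hz
          rcases z.2 with h1 | h1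
          · exact absurd hz' (ne_of_gt h1)
          · exact ⟨⟨z.1.1, h1.2⟩, Subtype.ext (Prod.ext rfl hz'.symm)⟩
      rw [this]
      exact isClosed_singleton.preimage (by fun_prop)
  obtain ⟨U, hU, hiU, r, hr, hri⟩ := h.2 Zs i hi
  -- the point over `p`
  let z0 : Zs := i ⟨p, hp⟩
  have hz0 : z0 ∈ U := hiU (mem_range_self _)
  -- neighbourhood on which `r` is close to `p`
  have hcont : ContinuousAt (fun u : U => ((r u : S) : V)) ⟨z0, hz0⟩ :=
    (continuous_subtype_val.comp hr).continuousAt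
  have hval : ((r ⟨z0, hz0⟩ : S) : V) = p := by
    rw [hri ⟨p, hp⟩ hz0]
  have h1 : ∀ᶠ u : U in 𝓝 ⟨z0, hz0⟩, ((r u : S) : V) ∈ ball p ρ := by
    apply hcont
    show ball p ρ ∈ 𝓝 ((r ⟨z0, hz0⟩ : S) : V)
    rw [hval]
    exact ball_mem_nhds p hρ
  obtain ⟨ε1, hε1, h2⟩ := Metric.eventually_nhds_iff.1 h1
  obtain ⟨ε2, hε2, h3⟩ := Metric.isOpen_iff.1 hU z0 hz0
  set ε := min ε1 ε2 with hε
  have hε0 : 0 < ε := lt_min hε1 hε2
  refine ⟨ε, hε0, fun q hq hqp => ?_⟩
  -- the connected neighbourhood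
  let A : Set (V × ℝ) := ball p ε ×ˢ Ioo 0 ε
  let B : Set (V × ℝ) := {z | z ∈ Zs ∧ dist z (p, 0) < ε}
  have hA : IsPreconnected A := by
    apply Convex.isPreconnected
    exact (convex_ball p ε).prod (convex_Ioo 0 ε)
  have hAB : A ⊆ B := by
    rintro ⟨v, t⟩ ⟨hv, ht⟩
    refine ⟨Or.inl ht.1, ?_⟩
    rw [Prod.dist_eq]
    simp only [max_lt_iff]
    refine ⟨hv, ?_⟩
    rw [Real.dist_eq, sub_zero, abs_of_pos ht.1]
    exact ht.2
  have hBA : B ⊆ closure A := by
    rintro ⟨v, t⟩ ⟨hz, hd⟩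
    rw [Prod.dist_eq] at hd
    simp only [max_lt_iff, Real.dist_eq, sub_zero] at hd
    have ht0 : 0 ≤ t := by
      rcases hz with h | h
      · exact le_of_lt h
      · exact le_of_eq h.1.symm
    rw [abs_of_nonneg ht0] at hd
    rw [closure_prod_eq]
    refine ⟨subset_closure hd.1, ?_⟩
    rw [closure_Ioo (ne_of_lt hε0)]
    exact ⟨ht0, hd.2.le⟩
  have hB : IsPreconnected B := hA.subset_closure hAB hBA
  let B' : Set Zs := Subtype.val ⁻¹' B
  have hB' : IsPreconnected B' := by
    rw [← Topology.IsInducing.subtypeVal.isPreconnected_image]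
    have : Subtype.val '' B' = B := by
      rw [Subtype.image_preimage_coe]
      ext z
      constructor
      · rintro ⟨_, h⟩
        exact h
      · intro h
        exact ⟨h.1, h⟩
    rwa [this]
  have hB'U : B' ⊆ U := by
    intro z hz
    apply h3
    have h4 : dist z.1 (p, 0) < ε := hz.2
    exact lt_of_lt_of_le h4 (min_le_right _ _)
  let B'' : Set U := Subtype.val ⁻¹' B'
  have hB'' : IsPreconnected B'' := by
    rw [← Topology.IsInducing.subtypeVal.isPreconnected_image]
    have : Subtype.val '' B'' = B' := by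
      rw [Subtype.image_preimage_coe]
      exact inter_eq_right.2 hB'U
    rwa [this]
  refine ⟨(fun u : U => ((r u : S) : V)) '' B'', ?_, ?_, ?_, ?_, ?_⟩
  · exact hB''.image _ (continuous_subtype_val.comp hr).continuousOn
  · rintro _ ⟨u, -, rfl⟩
    exact (r u).2
  · rintro _ ⟨u, hu, rfl⟩
    apply h2
    have h4 : dist u.1.1 (p, 0) < ε := hu.2
    exact lt_of_lt_of_le h4 (min_le_left _ _)
  · refine ⟨⟨z0, hz0⟩, ?_, hval⟩
    refine ⟨Or.inr ⟨rfl, hp⟩, ?_⟩
    change dist (p, (0:ℝ)) (p, 0) < ε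
    rw [dist_self]
    exact hε0
  · have hq1 : i ⟨q, hq⟩ ∈ U := hiU (mem_range_self _)
    refine ⟨⟨i ⟨q, hq⟩, hq1⟩, ?_, ?_⟩
    · refine ⟨Or.inr ⟨rfl, hq⟩, ?_⟩
      change dist (q, (0:ℝ)) (p, 0) < ε
      rw [Prod.dist_eq]
      simpa using hqp
    · change ((r ⟨i ⟨q, hq⟩, hq1⟩ : S) : V) = q
      rw [hri]

end LocallyConnected

section Example

/-- The parameters `0` and `2^{-n}/100`. -/
def K : Set ℝ := insert 0 (range fun n : ℕ => (1 / 100 : ℝ) * (1 / 2) ^ n)

theorem isCompact_K : IsCompact K := by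
  apply Filter.Tendsto.isCompact_insert_range
  have := (tendsto_pow_atTop_nhds_zero_of_lt_one (r := (1/2 : ℝ)) (by norm_num)
    (by norm_num)).const_mul (1/100)
  simpa using this

theorem K_bounds {u : ℝ} (hu : u ∈ K) : 0 ≤ u ∧ u ≤ 1 / 100 := by
  rcases hu with rfl | ⟨n, rfl⟩
  · norm_num
  · have h1 : (1/2 : ℝ) ^ n ≤ 1 := pow_le_one₀ (by norm_num) (by norm_num)
    have h2 : (0 : ℝ) ≤ (1/2 : ℝ) ^ n := by positivity
    constructor
    · positivity
    · simp only
      linarith

theorem K_sep {u v : ℝ} (hu : u ∈ K) (hv : v ∈ K) (h : u ≠ v) : u / 2 ≤ |v - u| := by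
  have hu0 := (K_bounds hu).1
  have hv0 := (K_bounds hv).1
  rcases hu with rfl | ⟨n, rfl⟩
  · simp
  · rcases hv with rfl | ⟨m, rfl⟩
    · simp only at hu0 ⊢
      rw [zero_sub, abs_neg, abs_of_nonneg hu0]
      linarith
    · simp only at hu0 hv0 ⊢
      rcases lt_trichotomy n m with hnm | hnm | hnm
      · have : (1/2 : ℝ) ^ m ≤ (1/2) ^ (n+1) :=
          pow_le_pow_of_le_one (by norm_num) (by norm_num) hnm
        rw [pow_succ] at this
        rw [abs_sub_comm]
        refine le_trans ?_ (le_abs_self _)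
        linarith
      · exact absurd (by rw [hnm]) h
      · have : (1/2 : ℝ) ^ n ≤ (1/2) ^ (m+1) :=
          pow_le_pow_of_le_one (by norm_num) (by norm_num) hnm
        rw [pow_succ] at this
        refine le_trans ?_ (le_abs_self _)
        linarith

theorem K_small (ε : ℝ) (hε : 0 < ε) : ∃ v ∈ K, 0 < v ∧ v < ε := by
  obtain ⟨n, hn⟩ := exists_pow_lt_of_lt_one hε (by norm_num : (1/2 : ℝ) < 1)
  refine ⟨(1/100) * (1/2)^n, Or.inr ⟨n, rfl⟩, by positivity, ?_⟩
  have : (0:ℝ) < (1/2)^n := by positivity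
  linarith

variable {N : ℕ} (hN : 3 ≤ N)

/-- The point with first three coordinates `a, b, c`, the others being `0`. -/
noncomputable def J (a b c : ℝ) : EuclideanSpace ℝ (Fin N) :=
  a • EuclideanSpace.single ⟨0, by omega⟩ (1 : ℝ) + b • EuclideanSpace.single ⟨1, by omega⟩ (1 : ℝ) +
    c • EuclideanSpace.single ⟨2, by omega⟩ (1 : ℝ)

/-- coordinates -/
def co (i : Fin 3) (v : EuclideanSpace ℝ (Fin N)) : ℝ := v ⟨i, by omega⟩

@[simp] theorem co0 (a b c : ℝ) : co hN 0 (J hN a b c) = a := by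
  simp [co, J]
@[simp] theorem co1 (a b c : ℝ) : co hN 1 (J hN a b c) = b := by
  simp [co, J]
@[simp] theorem co2 (a b c : ℝ) : co hN 2 (J hN a b c) = c := by
  simp [co, J]

theorem norm_J (a b c : ℝ) : ‖J hN a b c‖ ^ 2 = a ^ 2 + b ^ 2 + c ^ 2 := by
  unfold J
  rw [norm_add_sq_real, norm_add_sq_real]
  simp [inner_add_left, inner_smul_left, inner_smul_right, norm_smul,
    EuclideanSpace.inner_single_left, EuclideanSpace.inner_single_right]

theorem J_sub (a b c a' b' c' : ℝ) :
    J hN a b c - J hN a' b' c' = J hN (a - a') (b - b') (c - c') := by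
  unfold J
  module

theorem J_comb (s t a b c a' b' c' : ℝ) :
    s • J hN a b c + t • J hN a' b' c' =
      J hN (s * a + t * a') (s * b + t * b') (s * c + t * c') := by
  unfold J
  module

theorem dist_J (a b c a' b' c' : ℝ) : dist (J hN a b c) (J hN a' b' c') ^ 2 =
    (a - a') ^ 2 + (b - b') ^ 2 + (c - c') ^ 2 := by
  rw [dist_eq_norm, J_sub, norm_J]

theorem continuous_J : Continuous fun p : ℝ × ℝ × ℝ => J hN p.1 p.2.1 p.2.2 := by
  unfold J
  fun_prop

theorem continuous_co (i : Fin 3) : Continuous (co hN i) := by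
  unfold co
  fun_prop

theorem co_le (i : Fin 3) (v : EuclideanSpace ℝ (Fin N)) : |co hN i v| ≤ ‖v‖ := by
  have := PiLp.norm_apply_le v (⟨i, by omega⟩ : Fin N)
  simpa [co] using this

variable (β : ℝ)

noncomputable def X (u : ℝ) : EuclideanSpace ℝ (Fin N) := J hN 0 (β * u) (β * (1/10 - u^2/8))
noncomputable def Y (u : ℝ) : EuclideanSpace ℝ (Fin N) := J hN (β * (u^2/8)) (β * u) (β * (-9/10))
noncomputable def A : EuclideanSpace ℝ (Fin N) := J hN 0 (β * (-9/20)) 0
noncomputable def B : EuclideanSpace ℝ (Fin N) := J hN 0 (β * (9/20)) 0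

/-- The points in the plane `x = 0`. -/
def PA : Set (EuclideanSpace ℝ (Fin N)) := {A hN β, B hN β} ∪ X hN β '' K

/-- The compact set. -/
def M : Set (EuclideanSpace ℝ (Fin N)) := PA hN β ∪ Y hN β '' K

theorem isCompact_M : IsCompact (M hN β) := by
  unfold M PA
  refine IsCompact.union (IsCompact.union ?_ ?_) ?_
  · exact (Set.toFinite _).isCompact
  · apply isCompact_K.image
    unfold X J
    fun_prop
  · apply isCompact_K.image
    unfold Y J
    fun_prop

variable (hβ : 0 < β)
include hβ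

theorem adj {p : EuclideanSpace ℝ (Fin N)} {v : ℝ} (hp : p ∈ PA hN β) (hv : v ∈ K)
    (h : dist p (Y hN β v) < β) : p = X hN β v ∧ 0 < v := by
  have hvb := K_bounds hv
  have h2 : dist p (Y hN β v) ^ 2 < β ^ 2 := by
    apply pow_lt_pow_left₀ h dist_nonneg (by norm_num)
  have hb2 : 0 < β ^ 2 := by positivity
  rcases hp with (rfl | rfl) | ⟨u, hu, rfl⟩
  · exfalso
    unfold A Y at h2
    rw [dist_J] at h2
    have : (0 - β * (v ^ 2 / 8)) ^ 2 + (β * (-9 / 20) - β * v) ^ 2 + (0 - β * (-9 / 10)) ^ 2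
      = β ^ 2 * ((v^2/8)^2 + (9/20 + v)^2 + (9/10)^2) := by ring
    rw [this] at h2
    have h3 : 1 ≤ (v^2/8)^2 + (9/20 + v)^2 + (9/10)^2 := by nlinarith [sq_nonneg (v^2/8), hvb.1]
    nlinarith
  · exfalso
    unfold B Y at h2
    rw [dist_J] at h2
    have : (0 - β * (v ^ 2 / 8)) ^ 2 + (β * (9 / 20) - β * v) ^ 2 + (0 - β * (-9 / 10)) ^ 2
      = β ^ 2 * ((v^2/8)^2 + (9/20 - v)^2 + (9/10)^2) := by ring
    rw [this] at h2
    have h3 : 1 ≤ (v^2/8)^2 + (9/20 - v)^2 + (9/10)^2 := by
      nlinarith [sq_nonneg (v^2/8), hvb.1, hvb.2]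
    nlinarith
  · unfold X Y at h2
    rw [dist_J] at h2
    have : (0 - β * (v ^ 2 / 8)) ^ 2 + (β * u - β * v) ^ 2 +
        (β * (1/10 - u^2/8) - β * (-9 / 10)) ^ 2
      = β ^ 2 * ((v^2/8)^2 + (v - u)^2 + (1 - u^2/8)^2) := by ring
    rw [this] at h2
    have h4 : (v^2/8)^2 + (v - u)^2 + (1 - u^2/8)^2 < 1 := by
      by_contra hcon
      push Not at hcon
      nlinarith
    by_cases huv : u = v
    · subst huv
      refine ⟨rfl, ?_⟩
      rcases hvb.1.lt_or_eq with h5 | h5
      · exact h5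
      · rw [← h5] at h4
        norm_num at h4
    · exfalso
      have h5 := K_sep hu hv huv
      have h6 : (u/2)^2 ≤ (v-u)^2 := by
        rw [← sq_abs (v - u)]
        exact pow_le_pow_left₀ (by linarith [(K_bounds hu).1]) h5 2
      nlinarith [sq_nonneg (v^2/8), sq_nonneg (u^2/8)]

theorem classify {z : EuclideanSpace ℝ (Fin N)} (hz : z ∈ shadow β (M hN β)) :
    co hN 0 z = 0 ∨ co hN 2 z = β * (-9/10) ∨
      ∃ v ∈ K, 0 < v ∧ z ∈ segment ℝ (X hN β v) (Y hN β v) := by
  classical
  simp only [shadow, mem_iUnion] at hz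
  obtain ⟨σ, ⟨hne, hσM, hdiam⟩, hz⟩ := hz
  have hd : ∀ p ∈ σ, ∀ q ∈ σ, dist p q < β := fun p hp q hq =>
    lt_of_le_of_lt (dist_le_diam_of_mem σ.finite_toSet.isBounded hp hq) hdiam
  by_cases h1 : (σ : Set (EuclideanSpace ℝ (Fin N))) ⊆ PA hN β
  · left
    have : convexHull ℝ (σ : Set (EuclideanSpace ℝ (Fin N))) ⊆ {z | co hN 0 z = 0} := by
      apply convexHull_min
      · intro p hp
        rcases h1 hp with (rfl | rfl) | ⟨u, -, rfl⟩
        · simp [A]
        · simp [B]
        · simp [X]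
      · intro x hx y hy a b _ _ _
        simp only [mem_ofPred_eq, co] at *
        simp only [PiLp.add_apply, PiLp.smul_apply, smul_eq_mul, hx, hy, mul_zero, add_zero]
    exact this hz
  · rw [not_subset] at h1
    obtain ⟨q, hq, hqA⟩ := h1
    have hqY : q ∈ Y hN β '' K := by
      rcases hσM hq with h | h
      · exact absurd h hqA
      · exact h
    obtain ⟨v, hv, rfl⟩ := hqY
    right
    by_cases h2 : (σ : Set (EuclideanSpace ℝ (Fin N))) ⊆ Y hN β '' K
    · left
      have : convexHull ℝ (σ : Set (EuclideanSpace ℝ (Fin N))) ⊆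
          {z | co hN 2 z = β * (-9/10)} := by
        apply convexHull_min
        · intro p hp
          obtain ⟨u, -, rfl⟩ := h2 hp
          simp [Y]
        · intro x hx y hy a b _ _ hab
          simp only [mem_ofPred_eq, co] at *
          simp only [PiLp.add_apply, PiLp.smul_apply, smul_eq_mul, hx, hy]
          rw [← add_mul, hab, one_mul]
      exact this hz
    · right
      rw [not_subset] at h2
      obtain ⟨p, hp, hpY⟩ := h2
      have hpA : p ∈ PA hN β := by
        rcases hσM hp with h | h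
        · exact h
        · exact absurd h hpY
      obtain ⟨rfl, hv0⟩ := adj hN β hβ hpA hv (hd p hp _ hq)
      refine ⟨v, hv, hv0, ?_⟩
      rw [← convexHull_pair]
      refine convexHull_mono ?_ hz
      intro w hw
      rcases hσM hw with h | ⟨v', hv', rfl⟩
      · left
        exact (adj hN β hβ h hv (hd w hw _ hq)).1
      · right
        have h3 := (adj hN β hβ hpA hv' (hd _ hp _ hw)).1
        have h4 := congrArg (co hN 1) h3
        simp only [X, co1] at h4
        have h5 : v = v' := mul_left_cancel₀ hβ.ne' h4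
        rw [h5]
        rfl

theorem local_form {z : EuclideanSpace ℝ (Fin N)} (hz : z ∈ shadow β (M hN β))
    (hz' : z ∈ ball (0 : EuclideanSpace ℝ (Fin N)) (β/20)) :
    co hN 0 z = 0 ∨ ∃ v ∈ K, 0 < v ∧ co hN 1 z = β * v ∧ β * (v^2/200) ≤ co hN 0 z := by
  rw [mem_ball_zero_iff] at hz'
  have h2 : |co hN 2 z| < β / 20 := lt_of_le_of_lt (co_le hN 2 z) hz'
  rw [abs_lt] at h2
  rcases classify hN β hβ hz with h | h | ⟨v, hv, hv0, h⟩
  · exact Or.inl h
  · exfalso
    rw [h] at h2
    linarith [h2.1]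
  · right
    refine ⟨v, hv, hv0, ?_⟩
    obtain ⟨s, t, hs, ht, hst, rfl⟩ := h
    have hvb := K_bounds hv
    unfold X Y at *
    rw [J_comb] at *
    simp only [co0, co1, co2] at *
    constructor
    · have : s * (β * v) + t * (β * v) = (s + t) * (β * v) := by ring
      rw [this, hst, one_mul]
    · have h3 : s = 1 - t := by linarith
      subst h3
      have h4 : (1 - t) * (β * (1/10 - v^2/8)) + t * (β * (-9/10)) =
        β * (1/10 - v^2/8 - t * (1 - v^2/8)) := by ring
      rw [h4] at h2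
      have h5 : 1/10 - v^2/8 - t * (1 - v^2/8) < 1/20 := by
        have := h2.2
        by_contra hcon
        push Not at hcon
        nlinarith
      have h6 : 1/25 ≤ t := by nlinarith
      have h7 : (1 - t) * 0 + t * (β * (v^2/8)) = β * (t * (v^2/8)) := by ring
      rw [h7]
      apply mul_le_mul_of_nonneg_left _ hβ.le
      nlinarith [sq_nonneg v]

theorem mem_shadow_pair {p q : EuclideanSpace ℝ (Fin N)} (hp : p ∈ M hN β) (hq : q ∈ M hN β)
    (hpq : dist p q < β) : segment ℝ p q ⊆ shadow β (M hN β) := by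
  classical
  intro z hz
  simp only [shadow, mem_iUnion]
  refine ⟨{p, q}, ⟨by simp, ?_, ?_⟩, ?_⟩
  · intro w hw
    simp only [Finset.coe_insert, Finset.coe_singleton, mem_insert_iff, mem_singleton_iff] at hw
    rcases hw with rfl | rfl
    · exact hp
    · exact hq
  · simp only [Finset.coe_insert, Finset.coe_singleton, Metric.diam_pair]
    exact hpq
  · simp only [Finset.coe_insert, Finset.coe_singleton]
    rwa [convexHull_pair]

theorem dist_lt_of_sq {p q : EuclideanSpace ℝ (Fin N)} (h : dist p q ^ 2 < β ^ 2) :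
    dist p q < β := lt_of_pow_lt_pow_left₀ 2 hβ.le h

theorem zero_mem : (0 : EuclideanSpace ℝ (Fin N)) ∈ shadow β (M hN β) := by
  apply mem_shadow_pair hN β hβ (p := A hN β) (q := B hN β)
  · exact Or.inl (Or.inl (Or.inl rfl))
  · exact Or.inl (Or.inl (Or.inr rfl))
  · apply dist_lt_of_sq β hβ
    unfold A B
    rw [dist_J]
    nlinarith [sq_pos_of_pos hβ]
  · refine ⟨1/2, 1/2, by norm_num, by norm_num, by norm_num, ?_⟩
    unfold A B
    rw [J_comb]
    unfold J
    ring_nf
    simp

theorem q_mem {v : ℝ} (hv : v ∈ K) (hv0 : 0 < v) :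
    ∃ q ∈ shadow β (M hN β), dist q 0 < 3 * β * v ∧ co hN 1 q = β * v ∧
      β * (v^2/200) ≤ co hN 0 q := by
  have hvb := K_bounds hv
  set t : ℝ := (1/10 - v^2/8) / (1 - v^2/8) with ht
  have hden : 0 < 1 - v^2/8 := by nlinarith
  have ht0 : 1/25 ≤ t := by
    rw [ht, le_div_iff₀ hden]
    nlinarith
  have ht1 : t ≤ 1 := by
    rw [ht, div_le_one hden]
    linarith
  have hs : segment ℝ (X hN β v) (Y hN β v) ⊆ shadow β (M hN β) := by
    apply mem_shadow_pair hN β hβ
    · exact Or.inl (Or.inr ⟨v, hv, rfl⟩)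
    · exact Or.inr ⟨v, hv, rfl⟩
    · apply dist_lt_of_sq β hβ
      unfold X Y
      rw [dist_J]
      have : (0 - β * (v ^ 2 / 8)) ^ 2 + (β * v - β * v) ^ 2 +
        (β * (1/10 - v^2/8) - β * (-9 / 10)) ^ 2
        = β ^ 2 * (1 - v^2/4 + 2 * (v^2/8)^2) := by ring
      rw [this]
      have hb2 : 0 < β ^ 2 := by positivity
      have : 1 - v^2/4 + 2 * (v^2/8)^2 < 1 := by
        have : 0 < v^2 := by positivity
        nlinarith
      nlinarith
  refine ⟨J hN (β * (t * (v^2/8))) (β * v) 0, ?_, ?_, ?_, ?_⟩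
  · apply hs
    refine ⟨1 - t, t, by linarith, by linarith, by ring, ?_⟩
    unfold X Y
    rw [J_comb]
    have h1 : (1 - t) * 0 + t * (β * (v^2/8)) = β * (t * (v^2/8)) := by ring
    have h2 : (1 - t) * (β * v) + t * (β * v) = β * v := by ring
    have h3 : (1 - t) * (β * (1 / 10 - v ^ 2 / 8)) + t * (β * (-9 / 10)) = 0 := by
      have : t * (1 - v^2/8) = 1/10 - v^2/8 := by
        rw [ht, div_mul_cancel₀ _ hden.ne']
      linear_combination β * (-1) * this
    rw [h1, h2, h3]
  · have h0 : (0 : EuclideanSpace ℝ (Fin N)) = J hN 0 0 0 := by simp [J]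
    rw [h0]
    apply lt_of_pow_lt_pow_left₀ 2 (by positivity)
    rw [dist_J]
    have h1 : t * (v^2/8) ≤ v := by nlinarith
    have h2 : 0 ≤ t * (v^2/8) := by positivity
    have h3 : (t * (v^2/8))^2 ≤ v^2 := pow_le_pow_left₀ h2 h1 2
    have h4 : (β * (t * (v ^ 2 / 8)) - 0) ^ 2 + (β * v - 0) ^ 2 + (0 - 0) ^ 2 =
      β^2 * ((t * (v^2/8))^2 + v^2) := by ring
    rw [h4]
    have h5 : (3 * β * v)^2 = β^2 * (9 * v^2) := by ring
    rw [h5]
    have hb2 : 0 < β ^ 2 := by positivity
    have hv2 : 0 < v ^ 2 := by positivity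
    nlinarith
  · simp
  · simp only [co0]
    apply mul_le_mul_of_nonneg_left _ hβ.le
    nlinarith [sq_nonneg v]

theorem not_local (v : ℝ) (hv : v ∈ K) (hv0 : 0 < v) (C : Set (EuclideanSpace ℝ (Fin N)))
    (hC : IsPreconnected C) (hCs : C ⊆ shadow β (M hN β)) (hCb : C ⊆ ball 0 (β/20))
    (h0 : (0 : EuclideanSpace ℝ (Fin N)) ∈ C) (q : EuclideanSpace ℝ (Fin N)) (hq : q ∈ C)
    (hq1 : co hN 1 q = β * v) (hq0 : β * (v^2/200) ≤ co hN 0 q) : False := by
  let U1 : Set (EuclideanSpace ℝ (Fin N)) :=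
    {z | β * (v^2/400) < co hN 0 z} ∩ {z | |co hN 1 z - β * v| < β * v / 2}
  let U2 : Set (EuclideanSpace ℝ (Fin N)) :=
    {z | co hN 0 z < β * (v^2/200)} ∪ {z | β * v / 4 < |co hN 1 z - β * v|}
  have hU1 : IsOpen U1 := by
    apply IsOpen.inter
    · exact isOpen_lt continuous_const (continuous_co hN 0)
    · exact isOpen_lt ((continuous_co hN 1).sub continuous_const).abs continuous_const
  have hU2 : IsOpen U2 := by
    apply IsOpen.union
    · exact isOpen_lt (continuous_co hN 0) continuous_const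
    · exact isOpen_lt continuous_const ((continuous_co hN 1).sub continuous_const).abs
  have hβv : 0 < β * v := by positivity
  have hβv2 : 0 < β * v ^ 2 := by positivity
  have hform : ∀ z ∈ C, co hN 0 z = 0 ∨
      ∃ v ∈ K, 0 < v ∧ co hN 1 z = β * v ∧ β * (v^2/200) ≤ co hN 0 z :=
    fun z hz => local_form hN β hβ (hCs hz) (hCb hz)
  have hcov : C ⊆ U1 ∪ U2 := by
    intro z hz
    rcases hform z hz with h | ⟨v', hv', hv'0, h1, h2⟩
    · right
      left
      simp only [mem_ofPred_eq, h]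
      linarith
    · by_cases hvv : v = v'
      · subst hvv
        left
        refine ⟨?_, ?_⟩
        · simp only [mem_ofPred_eq]
          linarith
        · simp only [mem_ofPred_eq, h1, sub_self, abs_zero]
          linarith
      · right
        right
        simp only [mem_ofPred_eq, h1]
        rw [← mul_sub, abs_mul, abs_of_pos hβ]
        have := K_sep hv hv' hvv
        nlinarith
  have hne1 : (C ∩ U1).Nonempty := by
    refine ⟨q, hq, ?_, ?_⟩
    · simp only [mem_ofPred_eq]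
      linarith
    · simp only [mem_ofPred_eq, hq1, sub_self, abs_zero]
      linarith
  have hne2 : (C ∩ U2).Nonempty := by
    refine ⟨0, h0, Or.inl ?_⟩
    have : co hN 0 (0 : EuclideanSpace ℝ (Fin N)) = 0 := by simp [co]
    simp only [mem_ofPred_eq, this]
    linarith
  obtain ⟨z, hz, hz1, hz2⟩ := hC U1 U2 hU1 hU2 hcov hne1 hne2
  rcases hform z hz with h | ⟨v', hv', hv'0, h1, h2⟩
  · have := hz1.1
    simp only [mem_ofPred_eq, h] at this
    linarith
  · have h3 := hz1.2
    simp only [mem_ofPred_eq, h1] at h3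
    rw [← mul_sub, abs_mul, abs_of_pos hβ] at h3
    have hvv : v = v' := by
      by_contra hvv
      have := K_sep hv hv' hvv
      nlinarith
    subst hvv
    rcases hz2 with h4 | h4
    · simp only [mem_ofPred_eq] at h4
      linarith
    · simp only [mem_ofPred_eq, h1, sub_self, abs_zero] at h4
      linarith

theorem not_isANR : ¬ IsANR (shadow β (M hN β)) := by
  intro h
  obtain ⟨ε, hε, h1⟩ := local_of_isANR h 0 (zero_mem hN β hβ) (β/20) (by positivity)
  obtain ⟨v, hv, hv0, hvε⟩ := K_small (ε / (3 * β)) (by positivity)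
  obtain ⟨q, hqS, hqd, hq1, hq0⟩ := q_mem hN β hβ hv hv0
  have hqε : dist q 0 < ε := by
    refine lt_trans hqd ?_
    rw [lt_div_iff₀ (by positivity)] at hvε
    linarith
  obtain ⟨C, hC, hCs, hCb, h0C, hqC⟩ := h1 q hqS hqε
  exact not_local hN β hβ v hv hv0 C hC hCs hCb h0C q hqC hq1 hq0

end Example

end Pool.Agent.R796.Anr
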