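import Mathlib

/-!
# Vietoris-Rips complexes of closed Riemannian manifolds: definitions
-/

set_option autoImplicit false

namespace Pool.Agent.R796.BC

open Set Topology
open scoped ENNReal ContDiff

/-- Euclidean space `ℝ^N`. -/
abbrev E (N : ℕ) : Type := EuclideanSpace ℝ (Fin N)

/-- A closed connected smooth submanifold of `ℝ^N`, given as a regular level set: `M` is compact and
connected, and it is the zero set of a `C^∞` map `F : ℝ^N → ℝ^k` whose derivative is surjective at
all points of `M`. With the Riemannian metric induced by `ℝ^N` it is a closed connected Riemannian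
manifold of dimension `N - k`. -/
structure IsClosedManifold {N : ℕ} (k : ℕ) (M : Set (E N)) : Prop where
  compact : IsCompact M
  connected : IsConnected M
  smooth : ∃ F : E N → E k, ContDiff ℝ ∞ F ∧ M = {x | F x = 0} ∧
    ∀ x ∈ M, Function.Surjective (fderiv ℝ F x)

/-- The geodesic (path-length) distance of the submanifold `M`: the infimum of the lengths (total
variations) of the paths in `M` from `p` to `q`. -/
noncomputable def dM {N : ℕ} (M : Set (E N)) (p q : E N) : ℝ≥0∞ :=
  ⨅ γ : {γ : C(unitInterval, E N) // γ 0 = p ∧ γ 1 = q ∧ ∀ t, γ t ∈ M}, eVariationOn γ.1 univ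

/-- The simplices of the Vietoris-Rips complex `VR_<(X; r)` of a subset `X` of `M` with the
restriction of the geodesic distance of `M`: the nonempty finite subsets of `X` of diameter less
than `r`. -/
def VR {N : ℕ} (M X : Set (E N)) (r : ℝ) : Set (Finset (E N)) :=
  {σ | σ.Nonempty ∧ (σ : Set (E N)) ⊆ X ∧ ∀ x ∈ σ, ∀ y ∈ σ, dM M x y < ENNReal.ofReal r}

/-- The geometric realization of a simplicial complex with vertices in `V` and set of simplices
`K` (a set of nonempty finite sets, closed under nonempty subsets): the finitely supported functions
`t : V → [0, ∞)` with sum `1` (barycentric coordinates) whose support is contained in a simplex. -/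
def Realization {V : Type*} (K : Set (Finset V)) : Type _ :=
  {t : V →₀ ℝ // (∀ v, 0 ≤ t v) ∧ t.sum (fun _ a => a) = 1 ∧ ∃ σ ∈ K, t.support ⊆ σ}

/-- The closed simplex of the realization with vertex set `σ`. -/
def Realization.face {V : Type*} (K : Set (Finset V)) (σ : Finset V) : Set (Realization K) :=
  {t | t.1.support ⊆ σ}

/-- The topology of the closed simplex: the topology of `ℝ^V` (that is of `ℝ^σ`). -/
@[reducible] def Realization.faceTop {V : Type*} (K : Set (Finset V)) (σ : Finset V) :
    TopologicalSpace (Realization.face K σ) :=
  TopologicalSpace.induced (fun t => (t.1.1 : V → ℝ)) inferInstance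

/-- The usual (weak) topology of the geometric realization: a subset is open if and only if its
intersection with every closed simplex is open. -/
instance {V : Type*} (K : Set (Finset V)) : TopologicalSpace (Realization K) :=
  ⨆ σ ∈ K, TopologicalSpace.coinduced (Subtype.val : Realization.face K σ → Realization K)
    (Realization.faceTop K σ)

theorem isOpen_realization {V : Type*} {K : Set (Finset V)} {U : Set (Realization K)} :
    IsOpen U ↔ ∀ σ ∈ K, ∃ O : Set (V → ℝ), IsOpen O ∧
      ∀ t : Realization K, t.1.support ⊆ σ → ((t.1 : V → ℝ) ∈ O ↔ t ∈ U) := by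
  simp only [isOpen_iSup_iff, isOpen_coinduced]
  apply forall₂_congr
  intro σ _
  rw [Realization.faceTop, isOpen_induced_iff]
  apply exists_congr
  intro O
  apply and_congr_right
  intro _
  rw [Set.ext_iff]
  constructor
  · intro h t ht
    exact h ⟨t, ht⟩
  · intro h t
    exact h t.1 t.2

end Pool.Agent.R796.BC
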