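import Mathlib
import Pool.Agent.Helper31.GZ.Brouwer

/-!
# The inclusion of the unit sphere is not null-homotopic in the complement of the origin
-/

set_option autoImplicit false

namespace Pool.Agent.R796.BC

open Set Metric Topology
open scoped unitInterval

/-- The complement of the origin. -/
abbrev Pun (W : Type*) [Zero W] : Type _ := {w : W // w ≠ 0}

variable {W : Type*} [NormedAddCommGroup W] [NormedSpace ℝ W]

/-- The inclusion of the unit sphere. -/
def inclS (W : Type*) [NormedAddCommGroup W] : C(sphere (0 : W) 1, Pun W) :=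
  ⟨fun s => ⟨s, by
    have := mem_sphere_zero_iff_norm.1 s.2
    intro h
    rw [h, norm_zero] at this
    exact zero_ne_one this⟩, by fun_prop⟩

theorem not_nullhomotopic [FiniteDimensional ℝ W] (c : Pun W) :
    ¬ (inclS W).Homotopic (ContinuousMap.const _ c) := by
  classical
  rintro ⟨Φ⟩
  -- the unit vector in the direction of `x`
  have hunit : ∀ x : W, x ≠ 0 → ‖x‖⁻¹ • x ∈ sphere (0 : W) 1 := by
    intro x hx
    rw [mem_sphere_zero_iff_norm, norm_smul, norm_inv, norm_norm,
      inv_mul_cancel₀ (norm_ne_zero_iff.2 hx)]
  let τ : W → I := fun x => projIcc 0 1 zero_le_one (2 * (1 - ‖x‖))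
  have hτc : Continuous τ := continuous_projIcc.comp (by fun_prop)
  let G : W → W := fun x => if h : x = 0 then (c : W) else Φ (τ x, ⟨‖x‖⁻¹ • x, hunit x h⟩)
  have hG0 : ∀ x : W, ‖x‖ ≤ 1 / 2 → G x = c := by
    intro x hx
    by_cases h : x = 0
    · simp [G, h]
    · simp only [G, h, dite_false]
      have h1 : τ x = 1 := by
        simp only [τ]
        rw [projIcc_of_right_le]
        · rfl
        · linarith
      rw [h1, Φ.apply_one]
      rfl
  have hG1 : ∀ x : W, ‖x‖ = 1 → G x = x := by
    intro x hx
    have h : x ≠ 0 := by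
      rintro rfl
      simp at hx
    simp only [G, h, dite_false]
    have h1 : τ x = 0 := by
      simp only [τ]
      rw [projIcc_of_le_left]
      · rfl
      · linarith
    rw [h1, Φ.apply_zero]
    show ‖x‖⁻¹ • x = x
    rw [hx, inv_one, one_smul]
  have hGne : ∀ x, G x ≠ 0 := by
    intro x
    by_cases h : x = 0
    · simp only [G, h, dite_true]
      exact c.2
    · simp only [G, h, dite_false]
      exact (Φ _).2
  have hGc : Continuous G := by
    rw [continuous_iff_continuousAt]
    intro x
    by_cases hx : x = 0
    · have h1 : G =ᶠ[𝓝 x] fun _ => (c : W) := by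
        have : {y : W | ‖y‖ < 1 / 2} ∈ 𝓝 x := by
          rw [hx]
          exact (isOpen_lt continuous_norm continuous_const).mem_nhds (by simp)
        filter_upwards [this] with y hy
        exact hG0 y (le_of_lt hy)
      exact (continuousAt_const).congr h1.symm
    · have hopen : IsOpen {y : W | y ≠ 0} := isOpen_ne
      have h1 : ContinuousOn G {y : W | y ≠ 0} := by
        rw [continuousOn_iff_continuous_domRestrict]
        have h2 : Set.domRestrict {y : W | y ≠ 0} G = fun y : {y : W | y ≠ 0} =>
            ((Φ (τ (y : W), ⟨‖(y : W)‖⁻¹ • (y : W), hunit y y.2⟩) : Pun W) : W) := by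
          funext y
          have hy : (y : W) ≠ 0 := y.2
          simp [Set.domRestrict, G, hy]
        rw [h2]
        apply continuous_subtype_val.comp
        apply Φ.continuous.comp
        apply Continuous.prodMk
        · exact hτc.comp continuous_subtype_val
        · apply Continuous.subtype_mk
          apply Continuous.smul
          · exact (continuous_norm.comp continuous_subtype_val).inv₀
              (fun y => norm_ne_zero_iff.2 y.2)
          · exact continuous_subtype_val
      exact h1.continuousAt (hopen.mem_nhds hx)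
  obtain ⟨x, hx⟩ := Pool.Agent.Helper31.GZ.Brouwer.brouwer (fun x => -(‖G x‖⁻¹ • G x))
    (Continuous.neg (Continuous.smul (hGc.norm.inv₀ fun x => norm_ne_zero_iff.2 (hGne x)) hGc)) 1
    (by
      intro x
      rw [norm_neg, norm_smul, norm_inv, norm_norm,
        inv_mul_cancel₀ (norm_ne_zero_iff.2 (hGne x))])
  have hxn : ‖x‖ = 1 := by
    rw [← hx, norm_neg, norm_smul, norm_inv, norm_norm,
      inv_mul_cancel₀ (norm_ne_zero_iff.2 (hGne x))]
  rw [hG1 x hxn, hxn, inv_one, one_smul] at hx
  have : (2 : ℝ) • x = 0 := by
    rw [two_smul]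
    nth_rewrite 1 [← hx]
    simp
  rcases smul_eq_zero.1 this with h | h
  · norm_num at h
  · rw [h, norm_zero] at hxn
    exact zero_ne_one hxn

end Pool.Agent.R796.BC
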