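import Mathlib
import Pool.Agent.R796.BCDefs
import Pool.Agent.R796.BCNR

/-!
# Maps into and out of geometric realizations
-/

set_option autoImplicit false

namespace Pool.Agent.R796.BC

open Set Topology Metric

variable {V : Type*} {K : Set (Finset V)}

/-- A map out of the realization is continuous if it is continuous on the closed simplices. -/
theorem continuous_out {Y : Type*} [TopologicalSpace Y] {f : Realization K → Y}
    (h : ∀ s ∈ K, @Continuous _ _ (Realization.faceTop K s) _
      (fun t : Realization.face K s => f t.1)) : Continuous f := by
  rw [continuous_iSup_dom]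
  intro s
  rw [continuous_iSup_dom]
  intro hs
  rw [continuous_coinduced_dom]
  exact h s hs

/-- The affine extension of a map on the vertices. -/
noncomputable def ext {W : Type*} [AddCommGroup W] [Module ℝ W] (G : V → W)
    (t : Realization K) : W := t.1.sum fun v a => a • G v

theorem continuous_ext {W : Type*} [AddCommGroup W] [Module ℝ W] [TopologicalSpace W]
    [IsTopologicalAddGroup W] [ContinuousSMul ℝ W] (G : V → W) :
    Continuous (ext G : Realization K → W) := by
  apply continuous_out
  intro s _
  let _ := Realization.faceTop K s
  have h1 : (fun t : Realization.face K s => ext G t.1) =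
      fun t : Realization.face K s => ∑ v ∈ s, (t.1.1 v) • G v := by
    funext t
    rw [ext, Finsupp.sum_of_support_subset _ t.2]
    intro v _
    rw [zero_smul]
  rw [h1]
  apply continuous_finsetSum
  intro v _
  apply Continuous.smul _ continuous_const
  exact (continuous_apply v).comp continuous_induced_dom

/-- A simplicial complex: a set of nonempty finite sets closed under nonempty subsets. -/
def IsCpx (K : Set (Finset V)) : Prop :=
  ∀ s ∈ K, s.Nonempty ∧ ∀ t : Finset V, t ⊆ s → t.Nonempty → t ∈ K

theorem Realization.support_nonempty (t : Realization K) : t.1.support.Nonempty := by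
  by_contra h
  rw [Finset.not_nonempty_iff_eq_empty, Finsupp.support_eq_empty] at h
  have := t.2.2.1
  rw [h] at this
  simp at this

theorem Realization.support_mem (hK : IsCpx K) (t : Realization K) : t.1.support ∈ K := by
  obtain ⟨s, hs, hts⟩ := t.2.2.2
  exact (hK s hs).2 _ hts t.support_nonempty

/-- A map into the realization of a complex is continuous if its coordinates are continuous and
its values have supports in a finite set. -/
theorem continuous_in (hK : IsCpx K) {S : Type*} [TopologicalSpace S] {f : S → Realization K}
    (T : Finset V) (hT : ∀ s, (f s).1.support ⊆ T) (hf : ∀ v, Continuous fun s => (f s).1 v) :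
    Continuous f := by
  classical
  apply LocallyFinite.continuous (ι := {s : Finset V // s ∈ T.powerset ∧ s ∈ K})
    (f := fun s => {x | (f x).1.support ⊆ s.1})
  · have : Finite {s : Finset V // s ∈ T.powerset ∧ s ∈ K} :=
      Finite.of_injective (fun s => (⟨s.1, s.2.1⟩ : {s : Finset V // s ∈ T.powerset}))
        (by
          intro a b h
          simp only [Subtype.mk.injEq] at h
          exact Subtype.ext h)
    exact locallyFinite_of_finite _
  · rw [eq_univ_iff_forall]
    intro x
    rw [mem_iUnion]
    exact ⟨⟨(f x).1.support, Finset.mem_powerset.2 (hT x), (f x).support_mem hK⟩,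
      Finset.Subset.rfl⟩
  · intro s
    have h1 : {x | (f x).1.support ⊆ s.1} = ⋂ v ∈ (s.1 : Set V)ᶜ, {x | (f x).1 v = 0} := by
      ext x
      simp only [mem_ofPred_eq, mem_iInter, mem_compl_iff, Finset.mem_coe]
      constructor
      · intro h v hv
        by_contra h'
        exact hv (h (Finsupp.mem_support_iff.2 h'))
      · intro h v hv
        by_contra h'
        exact (Finsupp.mem_support_iff.1 hv) (h v h')
    rw [h1]
    exact isClosed_biInter fun v _ => isClosed_eq (hf v) continuous_const
  · intro s
    rw [continuousOn_iff_continuous_domRestrict]
    let _ := Realization.faceTop K s.1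
    have h2 : Continuous (fun x : {x | (f x).1.support ⊆ s.1} =>
        (⟨f x.1, x.2⟩ : Realization.face K s.1)) := by
      rw [continuous_induced_rng]
      apply continuous_pi
      intro v
      exact (hf v).comp continuous_subtype_val
    have h3 : Continuous (Subtype.val : Realization.face K s.1 → Realization K) := by
      rw [continuous_iff_coinduced_le]
      exact le_iSup₂ (f := fun (σ : Finset V) (_ : σ ∈ K) =>
        TopologicalSpace.coinduced (Subtype.val : Realization.face K σ → Realization K)
          (Realization.faceTop K σ)) s.1 s.2.2
    exact h3.comp h2

/-- The realization of a finite complex is compact. -/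
theorem compact_of_finite (hK : IsCpx K) (hfin : K.Finite) : CompactSpace (Realization K) := by
  classical
  constructor
  -- the parametrizations of the closed simplices
  let φ : (s : K) → stdSimplex ℝ s.1 → Realization K := fun s x =>
    ⟨Finsupp.onFinset s.1 (fun v => if h : v ∈ s.1 then x.1 ⟨v, h⟩ else 0) (by
        intro v hv
        by_contra h
        simp [h] at hv), by
      refine ⟨?_, ?_, s.1, s.2, ?_⟩
      · intro v
        rw [Finsupp.onFinset_apply]
        split_ifs with h
        · exact x.2.1 _
        · exact le_rfl
      · rw [Finsupp.sum_of_support_subset _ (Finsupp.support_onFinset_subset) _ (by simp)]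
        simp only [Finsupp.onFinset_apply]
        rw [← Finset.sum_attach]
        have := x.2.2
        rw [← this, Finset.univ_eq_attach]
        apply Finset.sum_congr rfl
        intro v _
        simp
      · exact Finsupp.support_onFinset_subset⟩
  have hφ : ∀ s, Continuous (φ s) := by
    intro s
    apply continuous_in hK s.1
    · intro x v hv
      by_contra h
      exact (Finsupp.mem_support_iff.1 hv) (dif_neg h)
    · intro v
      simp only [φ, Finsupp.onFinset_apply]
      by_cases h : v ∈ s.1
      · simp only [h, dite_true]
        exact (continuous_apply _).comp continuous_subtype_val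
      · simp only [h, dite_false]
        exact continuous_const
  have : Finite K := hfin.to_subtype
  have h1 : (univ : Set (Realization K)) = ⋃ s : K, range (φ s) := by
    symm
    rw [eq_univ_iff_forall]
    intro t
    rw [mem_iUnion]
    obtain ⟨h2, h3, s, hs, hts⟩ := t.2
    refine ⟨⟨s, hs⟩, ⟨fun v => t.1 v.1, fun v => h2 _, ?_⟩, ?_⟩
    · rw [Finsupp.sum_of_support_subset _ hts _ (by simp), ← Finset.sum_attach] at h3
      exact h3
    · apply Subtype.ext
      ext v
      simp only [φ, Finsupp.onFinset_apply]
      split_ifs with h
      · rfl
      · symm
        by_contra h'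
        exact h (hts (Finsupp.mem_support_iff.2 h'))
  rw [h1]
  apply isCompact_iUnion
  intro s
  have : CompactSpace (stdSimplex ℝ s.1) := isCompact_iff_compactSpace.1 (isCompact_stdSimplex _ _)
  exact isCompact_range (hφ s)

end Pool.Agent.R796.BC
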