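import Mathlib
import Pool.Agent.R796.BCTop

/-!
# A criterion for a realization not to be homotopy equivalent to a compact space
-/

set_option autoImplicit false

namespace Pool.Agent.R796.BC

open Set Topology Metric

variable {V : Type*} {K : Set (Finset V)}
variable {W : Type*} [NormedAddCommGroup W] [NormedSpace ℝ W]

/-- The map to the complement of a missed point. -/
noncomputable def off (G : V → W) (p : W) (hp : ∀ t : Realization K, ext G t ≠ p) :
    C(Realization K, Pun W) :=
  ⟨fun t => ⟨ext G t - p, sub_ne_zero.2 (hp t)⟩,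
    Continuous.subtype_mk ((continuous_ext G).sub continuous_const) _⟩

/-- Linear homotopies in the complement of the origin. -/
theorem homotopic_of_line {S : Type*} [TopologicalSpace S] (f g : C(S, Pun W))
    (h : ∀ (s : S) (a : ℝ), 0 ≤ a → a ≤ 1 → (1 - a) • (f s : W) + a • (g s : W) ≠ 0) :
    f.Homotopic g := by
  refine ⟨⟨⟨fun x => ⟨(1 - (x.1 : ℝ)) • (f x.2 : W) + (x.1 : ℝ) • (g x.2 : W),
    h x.2 x.1 x.1.2.1 x.1.2.2⟩, ?_⟩, ?_, ?_⟩⟩
  · apply Continuous.subtype_mk
    fun_prop
  · intro s
    apply Subtype.ext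
    simp
  · intro s
    apply Subtype.ext
    simp

theorem not_equiv_compact [FiniteDimensional ℝ W] (G : V → W) (p₀ : W)
    (hp₀ : ∀ t : Realization K, ext G t ≠ p₀)
    (h : ∀ δ : ℝ, 0 < δ → ∃ (p : W) (hp : ∀ t : Realization K, ext G t ≠ p)
      (u : C(sphere (0 : W) 1, Realization K)), ‖p - p₀‖ < δ ∧
        (inclS W).Homotopic ((off G p hp).comp u) ∧
        ∃ c : Pun W, ((off G p₀ hp₀).comp u).Homotopic (ContinuousMap.const _ c))
    (Y : Type*) [TopologicalSpace Y] [CompactSpace Y] :
    ¬ Nonempty (ContinuousMap.HomotopyEquiv Y (Realization K)) := by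
  rintro ⟨e⟩
  -- `g ∘ f` is homotopic to the identity of `|K|`
  let gf : C(Realization K, Realization K) := e.toFun.comp e.invFun
  have hgf : (ContinuousMap.id (Realization K)).Homotopic gf := e.right_inv.symm
  have hcomp : IsCompact (range fun y => ext G (e.toFun y)) :=
    isCompact_range ((continuous_ext G).comp e.toFun.continuous)
  have hmem : p₀ ∈ (range fun y => ext G (e.toFun y))ᶜ := by
    rintro ⟨y, hy⟩
    exact hp₀ _ hy
  obtain ⟨δ, hδ, hball⟩ := Metric.isOpen_iff.1 hcomp.isClosed.isOpen_compl p₀ hmem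
  obtain ⟨p, hp, u, hpp, h1, c, h5⟩ := h δ hδ
  have hfar : ∀ (q : W), ‖q - p₀‖ < δ → ∀ t, ext G (gf t) ≠ q := by
    intro q hq t ht
    have : q ∈ ball p₀ δ := by rwa [mem_ball, dist_eq_norm]
    exact hball this ⟨e.invFun t, ht⟩
  have h2 : ((off G p hp).comp u).Homotopic (((off G p hp).comp gf).comp u) := by
    have := (ContinuousMap.Homotopic.refl (off G p hp)).comp (hgf.comp
      (ContinuousMap.Homotopic.refl u))
    simpa [ContinuousMap.comp_assoc] using this
  have h4 : ((off G p₀ hp₀).comp u).Homotopic (((off G p₀ hp₀).comp gf).comp u) := by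
    have := (ContinuousMap.Homotopic.refl (off G p₀ hp₀)).comp (hgf.comp
      (ContinuousMap.Homotopic.refl u))
    simpa [ContinuousMap.comp_assoc] using this
  have h3 : (((off G p hp).comp gf).comp u).Homotopic (((off G p₀ hp₀).comp gf).comp u) := by
    apply homotopic_of_line
    intro s a ha0 ha1
    show (1 - a) • (ext G (gf (u s)) - p) + a • (ext G (gf (u s)) - p₀) ≠ 0
    have h6 : (1 - a) • (ext G (gf (u s)) - p) + a • (ext G (gf (u s)) - p₀) =
        ext G (gf (u s)) - ((1 - a) • p + a • p₀) := by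
      module
    rw [h6]
    apply sub_ne_zero.2
    apply hfar
    have h7 : (1 - a) • p + a • p₀ - p₀ = (1 - a) • (p - p₀) := by module
    rw [h7, norm_smul, Real.norm_of_nonneg (by linarith)]
    calc (1 - a) * ‖p - p₀‖ ≤ 1 * ‖p - p₀‖ :=
          mul_le_mul_of_nonneg_right (by linarith) (norm_nonneg _)
      _ < δ := by rwa [one_mul]
  exact not_nullhomotopic c ((((h1.trans h2).trans h3).trans h4.symm).trans h5)

end Pool.Agent.R796.BC
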