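import Mathlib
import Pool.Agent.R796.BCDefs

/-!
# The profile function
-/

set_option autoImplicit false

namespace Pool.Agent.R796.BC

open Set Topology Metric
open scoped ContDiff Real

/-- The closed set `{0} ∪ {1/(k+1)}`. -/
def zeroSet : Set ℝ := insert 0 (range fun k : ℕ => 1 / ((k : ℝ) + 1))

theorem isClosed_zeroSet : IsClosed zeroSet :=
  (tendsto_one_div_add_atTop_nhds_zero_nat (𝕜 := ℝ)).isCompact_insert_range.isClosed

/-- The properties of the profile function. -/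
structure Prof (Ψ : ℝ → ℝ) : Prop where
  smooth : ContDiff ℝ ∞ Ψ
  bound : ∀ x, |Ψ x| ≤ 1 / 2
  lip : ∀ x ∈ Icc (-1 : ℝ) 1, ∀ y ∈ Icc (-1 : ℝ) 1, π * |Ψ x - Ψ y| ≤ |x - y|
  zero : ∀ x, Ψ x = 0 ↔ x ∈ zeroSet

theorem exists_prof : ∃ Ψ : ℝ → ℝ, Prof Ψ := by
  obtain ⟨f, hsupp, hf, hrange⟩ :=
    (isClosed_zeroSet.isOpen_compl).exists_contDiff_support_eq (n := ⊤)
  have hdiff : Differentiable ℝ f := hf.differentiable (by simp)
  have hderiv : Continuous (deriv f) := hf.continuous_deriv (by simp)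
  obtain ⟨C, hC⟩ := (isCompact_Icc (a := (-1 : ℝ)) (b := 1)).exists_bound_of_continuousOn
    hderiv.continuousOn
  have hlip : ∀ x ∈ Icc (-1 : ℝ) 1, ∀ y ∈ Icc (-1 : ℝ) 1, |f x - f y| ≤ max C 1 * |x - y| := by
    intro x hx y hy
    exact (convex_Icc (-1 : ℝ) 1).norm_image_sub_le_of_norm_deriv_le
      (fun z _ => hdiff z) (fun z hz => (hC z hz).trans (le_max_left _ _)) hy hx
  have hC1 : (1 : ℝ) ≤ max C 1 := le_max_right _ _
  have hκ : (0 : ℝ) < 1 / (2 * π * max C 1) := by positivity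
  refine ⟨fun x => 1 / (2 * π * max C 1) * f x, ⟨?_, ?_, ?_, ?_⟩⟩
  · exact contDiff_const.mul hf
  · intro x
    have h1 : f x ∈ Icc (0 : ℝ) 1 := hrange ⟨x, rfl⟩
    rw [abs_mul, abs_of_pos hκ, abs_of_nonneg h1.1]
    have h2 : 1 / (2 * π * max C 1) ≤ 1 / 2 := by
      apply one_div_le_one_div_of_le (by norm_num)
      have := Real.pi_gt_three
      nlinarith
    calc 1 / (2 * π * max C 1) * f x ≤ 1 / 2 * 1 := by
          apply mul_le_mul h2 h1.2 h1.1 (by norm_num)
      _ = 1 / 2 := by norm_num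
  · intro x hx y hy
    rw [← mul_sub, abs_mul, abs_of_pos hκ]
    have h1 := hlip x hx y hy
    have h2 : π * (1 / (2 * π * max C 1) * |f x - f y|) ≤
        π * (1 / (2 * π * max C 1) * (max C 1 * |x - y|)) := by gcongr
    have h3 : π * (1 / (2 * π * max C 1) * (max C 1 * |x - y|)) = |x - y| / 2 := by
      field_simp
    rw [h3] at h2
    have := abs_nonneg (x - y)
    linarith
  · intro x
    have h1 : (1 / (2 * π * max C 1) * f x = 0) ↔ f x = 0 := by
      rw [mul_eq_zero, or_iff_right hκ.ne']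
    rw [h1]
    have h2 : x ∈ Function.support f ↔ x ∈ zeroSetᶜ := by rw [hsupp]
    rw [Function.mem_support, mem_compl_iff] at h2
    exact not_iff_not.1 h2

end Pool.Agent.R796.BC
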