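import Mathlib
import Pool.Agent.R796.BCDefs
import Pool.Agent.R796.BCPsi

/-!
# The surface and the lower bound for the lengths of its paths
-/

set_option autoImplicit false

namespace Pool.Agent.R796.BC

open Set Topology Metric InnerProductGeometry
open scoped ContDiff Real ENNReal

variable {Ψ : ℝ → ℝ}

/-- The surface in `ℝ⁴`. -/
def surf (Ψ : ℝ → ℝ) : Set (E 4) := {x | x 0 ^ 2 + x 1 ^ 2 = 1 ∧ x 2 ^ 2 + x 3 ^ 2 = 1 - Ψ (x 1) ^ 2}

/-- The last two coordinates as a complex number. -/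
noncomputable def vv (x : E 4) : ℂ := ⟨x 2, x 3⟩

theorem continuous_vv : Continuous vv := by
  have h : vv = fun x : E 4 => (x 2 : ℂ) + (x 3 : ℂ) * Complex.I := by
    funext x
    apply Complex.ext <;> simp [vv]
  rw [h]
  fun_prop

theorem norm_vv_sq {x : E 4} : ‖vv x‖ ^ 2 = x 2 ^ 2 + x 3 ^ 2 := by
  rw [← Complex.normSq_eq_norm_sq, Complex.normSq_apply]
  simp only [vv]
  ring

theorem mem_Icc_of_surf {x : E 4} (hx : x ∈ surf Ψ) : x 1 ∈ Icc (-1 : ℝ) 1 := by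
  obtain ⟨h, _⟩ := hx
  constructor <;> nlinarith [sq_nonneg (x 0), sq_nonneg (x 1 + 1), sq_nonneg (x 1 - 1)]

theorem norm_sub_sq (x y : E 4) : ‖x - y‖ ^ 2 =
    (x 0 - y 0) ^ 2 + (x 1 - y 1) ^ 2 + ‖vv x - vv y‖ ^ 2 := by
  have h1 : ‖vv x - vv y‖ ^ 2 = (x 2 - y 2) ^ 2 + (x 3 - y 3) ^ 2 := by
    rw [← Complex.normSq_eq_norm_sq, Complex.normSq_apply]
    simp only [vv, Complex.sub_re, Complex.sub_im]
    ring
  rw [EuclideanSpace.norm_sq_eq, Fin.sum_univ_four, h1]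
  simp only [PiLp.sub_apply, Real.norm_eq_abs, sq_abs]
  ring

theorem vv_ne_zero (hΨ : Prof Ψ) {x : E 4} (hx : x ∈ surf Ψ) : vv x ≠ 0 := by
  intro h
  have h1 := norm_vv_sq (x := x)
  rw [h, norm_zero, hx.2] at h1
  have := abs_le.1 (hΨ.bound (x 1))
  nlinarith

/-- The angle between the last two coordinates of two points. -/
noncomputable def an (x y : E 4) : ℝ := angle (vv x) (vv y)

theorem an_nonneg (x y : E 4) : 0 ≤ an x y := angle_nonneg _ _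

theorem an_le_pi (x y : E 4) : an x y ≤ π := angle_le_pi _ _

/-- The basic inequality. -/
theorem chord (hΨ : Prof Ψ) {B : ℝ} (hB0 : 0 ≤ B) (hB1 : B ≤ 1) {x y : E 4} (hx : x ∈ surf Ψ)
    (hy : y ∈ surf Ψ) (hxB : |Ψ (x 1)| ≤ B) (hyB : |Ψ (y 1)| ≤ B) :
    B * (π * |Ψ (x 1) - Ψ (y 1)|) + (1 - B ^ 2) * (2 * Real.sin (an x y / 2)) ≤ ‖x - y‖ := by
  have hP := hΨ.lip _ (mem_Icc_of_surf hx) _ (mem_Icc_of_surf hy)
  set P := π * |Ψ (x 1) - Ψ (y 1)| with hPdef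
  have hP0 : 0 ≤ P := by positivity
  set Q := 2 * Real.sin (an x y / 2) with hQdef
  have hQ0 : 0 ≤ Q := by
    have : 0 ≤ Real.sin (an x y / 2) := Real.sin_nonneg_of_nonneg_of_le_pi
      (by have := an_nonneg x y; linarith) (by have := an_le_pi x y; have := Real.pi_pos; linarith)
    positivity
  have hx2 := norm_vv_sq (x := x)
  have hy2 := norm_vv_sq (x := y)
  rw [hx.2] at hx2
  rw [hy.2] at hy2
  have hxΨ : Ψ (x 1) ^ 2 ≤ B ^ 2 := sq_le_sq' (by linarith [(abs_le.1 hxB).1]) (abs_le.1 hxB).2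
  have hyΨ : Ψ (y 1) ^ 2 ≤ B ^ 2 := sq_le_sq' (by linarith [(abs_le.1 hyB).1]) (abs_le.1 hyB).2
  have hB2 : 0 ≤ 1 - B ^ 2 := by nlinarith
  have hprod : 1 - B ^ 2 ≤ ‖vv x‖ * ‖vv y‖ := by
    have h1 : (1 - B ^ 2) ^ 2 ≤ (‖vv x‖ * ‖vv y‖) ^ 2 := by
      rw [mul_pow, hx2, hy2, pow_two (1 - B ^ 2)]
      apply mul_le_mul <;> nlinarith
    exact (abs_le_of_sq_le_sq' h1 (by positivity)).2
  have hv : (1 - B ^ 2) * Q ^ 2 ≤ ‖vv x - vv y‖ ^ 2 := by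
    have h1 := norm_sub_sq_eq_norm_sq_add_norm_sq_sub_two_mul_norm_mul_norm_mul_cos_angle
      (vv x) (vv y)
    have h2 : Real.cos (angle (vv x) (vv y)) = 1 - Q ^ 2 / 2 := by
      have : angle (vv x) (vv y) = 2 * (an x y / 2) := by rw [an]; ring
      rw [this, Real.cos_two_mul, hQdef, mul_pow, Real.sin_sq]
      ring
    have h3 : ‖vv x - vv y‖ ^ 2 = (‖vv x‖ - ‖vv y‖) ^ 2 + ‖vv x‖ * ‖vv y‖ * Q ^ 2 := by
      rw [pow_two ‖vv x - vv y‖, h1, h2]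
      ring
    rw [h3]
    nlinarith [sq_nonneg (‖vv x‖ - ‖vv y‖), mul_le_mul_of_nonneg_right hprod (sq_nonneg Q)]
  have hmain : P ^ 2 + (1 - B ^ 2) * Q ^ 2 ≤ ‖x - y‖ ^ 2 := by
    rw [norm_sub_sq]
    have h1 : P ^ 2 ≤ (x 1 - y 1) ^ 2 := by
      rw [← sq_abs (x 1 - y 1)]
      exact pow_le_pow_left₀ hP0 hP 2
    nlinarith [sq_nonneg (x 0 - y 0)]
  apply abs_le_of_sq_le_sq' _ (norm_nonneg _) |>.2
  nlinarith [mul_nonneg hB2 (sq_nonneg (P - B * Q))]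

end Pool.Agent.R796.BC
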