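import Mathlib
import Pool.Agent.R796.BCGeo

/-!
# Lower bounds for the lengths of paths and loops in the surface
-/

set_option autoImplicit false

namespace Pool.Agent.R796.BC

open Set Topology Metric InnerProductGeometry
open scoped ContDiff Real ENNReal

variable {Ψ : ℝ → ℝ}

/-- The height function. -/
noncomputable def fn (Ψ : ℝ → ℝ) (x : E 4) : ℝ := π * |Ψ (x 1)|

theorem fn_nonneg (x : E 4) : 0 ≤ fn Ψ x := mul_nonneg Real.pi_pos.le (abs_nonneg _)

theorem fn_sub_le (x y : E 4) : |fn Ψ x - fn Ψ y| ≤ π * |Ψ (x 1) - Ψ (y 1)| := by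
  rw [fn, fn, ← mul_sub, abs_mul, abs_of_pos Real.pi_pos]
  exact mul_le_mul_of_nonneg_left (abs_abs_sub_abs_le_abs_sub _ _) Real.pi_pos.le

theorem an_self (hΨ : Prof Ψ) {x : E 4} (hx : x ∈ surf Ψ) : an x x = 0 :=
  angle_self (vv_ne_zero hΨ hx)

theorem an_triangle (x y z : E 4) : an x z ≤ an x y + an y z := angle_le_angle_add_angle _ _ _

theorem an_comm (x y : E 4) : an x y = an y x := angle_comm _ _

theorem continuous_an (hΨ : Prof Ψ) (γ : C(unitInterval, E 4)) (hγ : ∀ t, γ t ∈ surf Ψ) :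
    Continuous fun q : unitInterval × unitInterval => an (γ q.1) (γ q.2) := by
  rw [continuous_iff_continuousAt]
  intro q
  have h1 : ContinuousAt (fun y : ℂ × ℂ => angle y.1 y.2) (vv (γ q.1), vv (γ q.2)) :=
    continuousAt_angle (vv_ne_zero hΨ (hγ _)) (vv_ne_zero hΨ (hγ _))
  have h2 : ContinuousAt (fun q : unitInterval × unitInterval => (vv (γ q.1), vv (γ q.2))) q := by
    apply Continuous.continuousAt
    exact (continuous_vv.comp (γ.continuous.comp continuous_fst)).prodMk
      (continuous_vv.comp (γ.continuous.comp continuous_snd))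
  exact ContinuousAt.comp (f := fun q : unitInterval × unitInterval => (vv (γ q.1), vv (γ q.2)))
    (g := fun y : ℂ × ℂ => angle y.1 y.2) h1 h2

theorem two_sin_ge {θ ε : ℝ} (h0 : 0 ≤ θ) (hε1 : ε ≤ 1) (h1 : θ ≤ ε) :
    (1 - ε) * θ ≤ 2 * Real.sin (θ / 2) := by
  rcases h0.eq_or_lt with rfl | h0
  · simp
  · have h2 := Real.sin_gt_sub_cube (x := θ / 2) (by linarith)
    have h3 : θ * θ ≤ ε * 1 := mul_le_mul h1 (h1.trans hε1) h0.le (h0.le.trans h1)
    nlinarith [mul_pos h0 h0, mul_pos (mul_pos h0 h0) h0, mul_le_mul_of_nonneg_left h3 h0.le]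

/-- The length of a path from above. -/
theorem seg (hΨ : Prof Ψ) {B : ℝ} (hB0 : 0 ≤ B) (hB1 : B ≤ 1) (γ : C(unitInterval, E 4))
    (hγ : ∀ t, γ t ∈ surf Ψ) (hB : ∀ t, |Ψ ((γ t) 1)| ≤ B) {s t : unitInterval} (hst : s ≤ t) :
    ENNReal.ofReal (B * |fn Ψ (γ s) - fn Ψ (γ t)| + (1 - B ^ 2) * an (γ s) (γ t)) ≤
      eVariationOn γ (Icc s t) := by
  by_contra hcon
  push Not at hcon
  set D := B * |fn Ψ (γ s) - fn Ψ (γ t)| + (1 - B ^ 2) * an (γ s) (γ t) with hD
  have hB2 : 0 ≤ 1 - B ^ 2 := by nlinarith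
  have htop : eVariationOn γ (Icc s t) ≠ ⊤ := ne_top_of_lt hcon
  set w := (eVariationOn γ (Icc s t)).toReal with hw
  have hwD : w < D := by
    rw [← ENNReal.ofReal_toReal htop] at hcon
    exact (ENNReal.ofReal_lt_ofReal_iff_of_nonneg ENNReal.toReal_nonneg).1 hcon
  have hw0 : 0 ≤ w := ENNReal.toReal_nonneg
  have hDpos : 0 < D := lt_of_le_of_lt hw0 hwD
  -- the approximation parameter
  obtain ⟨ε, hε0, hε1, hεD⟩ : ∃ ε : ℝ, 0 < ε ∧ ε ≤ 1 ∧ w < (1 - ε) * D := by
    refine ⟨(D - w) / (2 * D), by apply div_pos <;> linarith, ?_, ?_⟩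
    · rw [div_le_one (by linarith)]
      linarith
    · have : (1 - (D - w) / (2 * D)) * D = D - (D - w) / 2 := by
        field_simp
      rw [this]
      linarith
  -- uniform continuity
  have huc := CompactSpace.uniformContinuous_of_continuous (continuous_an hΨ γ hγ)
  rw [Metric.uniformContinuous_iff] at huc
  obtain ⟨δ, hδ, hδ'⟩ := huc ε hε0
  have hsmall : ∀ a b : unitInterval, dist a b < δ → an (γ a) (γ b) ≤ ε := by
    intro a b hab
    have h1 := hδ' (a := (a, b)) (b := (a, a)) (by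
      rw [Prod.dist_eq, max_lt_iff]
      refine ⟨?_, ?_⟩
      · rw [dist_self]
        exact hδ
      · rw [dist_comm]
        exact hab)
    simp only at h1
    rw [an_self hΨ (hγ a), Real.dist_eq, sub_zero, abs_of_nonneg (an_nonneg _ _)] at h1
    exact h1.le
  obtain ⟨n, hn⟩ := exists_nat_gt (1 / δ)
  have hn0 : 0 < n := by
    have : (0 : ℝ) < n := lt_trans (by positivity) hn
    exact_mod_cast this
  have hnR : (0 : ℝ) < n := by exact_mod_cast hn0
  -- the partition
  have hst' : (s : ℝ) ≤ t := hst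
  have hs0 := s.2.1
  have ht1 := t.2.2
  let c : ℕ → ℝ := fun i => min (i : ℝ) n / n
  have hc0 : ∀ i, 0 ≤ c i := fun i => by positivity
  have hc1 : ∀ i, c i ≤ 1 := fun i => by
    rw [div_le_one hnR]
    exact min_le_right _ _
  have hcm : Monotone c := by
    intro i j hij
    apply div_le_div_of_nonneg_right _ hnR.le
    exact min_le_min_right _ (by exact_mod_cast hij)
  have hc_zero : c 0 = 0 := by simp [c]
  have hc_n : c n = 1 := by simp [c, hnR.ne']
  have hcstep : ∀ i, c (i + 1) - c i ≤ 1 / n := by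
    intro i
    rw [← sub_div]
    apply div_le_div_of_nonneg_right _ hnR.le
    rcases le_total (i : ℝ) n with h | h
    · rw [min_eq_left h]
      have := min_le_left ((i + 1 : ℕ) : ℝ) n
      push_cast at this ⊢
      linarith
    · rw [min_eq_right h]
      have := min_le_right ((i + 1 : ℕ) : ℝ) n
      linarith
  let u : ℕ → unitInterval := fun i => ⟨s + (t - s) * c i, by
    have := hc0 i
    have := hc1 i
    constructor
    · have : 0 ≤ ((t : ℝ) - s) * c i := mul_nonneg (by linarith) (hc0 i)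
      linarith
    · have : ((t : ℝ) - s) * c i ≤ (t - s) * 1 := mul_le_mul_of_nonneg_left (hc1 i) (by linarith)
      linarith⟩
  have hum : Monotone u := by
    intro i j hij
    apply Subtype.mk_le_mk.2
    have := mul_le_mul_of_nonneg_left (hcm hij) (show (0 : ℝ) ≤ t - s by linarith)
    linarith
  have hu0 : u 0 = s := Subtype.ext (by simp [u, hc_zero])
  have hun : u n = t := Subtype.ext (by simp [u, hc_n])
  have hus : ∀ i, u i ∈ Icc s t := by
    intro i
    constructor
    · apply Subtype.coe_le_coe.1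
      have : 0 ≤ ((t : ℝ) - s) * c i := mul_nonneg (by linarith) (hc0 i)
      show (s : ℝ) ≤ s + (t - s) * c i
      linarith
    · apply Subtype.coe_le_coe.1
      have : ((t : ℝ) - s) * c i ≤ (t - s) * 1 := mul_le_mul_of_nonneg_left (hc1 i) (by linarith)
      show s + (t - s) * c i ≤ (t : ℝ)
      linarith
  have hustep : ∀ i, dist (u i) (u (i + 1)) < δ := by
    intro i
    rw [Subtype.dist_eq, Real.dist_eq]
    have h1 : ((u i : ℝ) - u (i + 1)) = -((t - s) * (c (i + 1) - c i)) := by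
      show (s + (t - s) * c i : ℝ) - (s + (t - s) * c (i + 1)) = _
      ring
    rw [h1, abs_neg, abs_of_nonneg (mul_nonneg (by linarith)
      (by linarith [hcm (Nat.le_succ i)]))]
    calc (t - s : ℝ) * (c (i + 1) - c i) ≤ 1 * (1 / n) := by
          apply mul_le_mul (by linarith) (hcstep i) (by linarith [hcm (Nat.le_succ i)])
            zero_le_one
      _ < δ := by
          rw [one_mul, div_lt_iff₀ hnR, mul_comm]
          rwa [div_lt_iff₀ hδ] at hn
  -- the sum
  have hsum := eVariationOn.sum_le (f := γ) (n := n) hum hus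
  have hsum' : ∑ i ∈ Finset.range n, ‖γ (u i) - γ (u (i + 1))‖ ≤ w := by
    rw [hw, ← ENNReal.ofReal_le_iff_le_toReal htop, ENNReal.ofReal_sum_of_nonneg
      (fun i _ => norm_nonneg _)]
    refine le_trans (le_of_eq ?_) hsum
    apply Finset.sum_congr rfl
    intro i _
    rw [edist_comm, edist_dist, dist_eq_norm]
  have hterm : ∀ i, (1 - ε) * (B * |fn Ψ (γ (u i)) - fn Ψ (γ (u (i + 1)))| +
      (1 - B ^ 2) * an (γ (u i)) (γ (u (i + 1)))) ≤ ‖γ (u i) - γ (u (i + 1))‖ := by
    intro i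
    have h1 := chord hΨ hB0 hB1 (hγ (u i)) (hγ (u (i + 1))) (hB _) (hB _)
    have h2 := two_sin_ge (an_nonneg (γ (u i)) (γ (u (i + 1)))) hε1 (hsmall _ _ (hustep i))
    have h3 := fn_sub_le (Ψ := Ψ) (γ (u i)) (γ (u (i + 1)))
    have h4 : 0 ≤ B * |fn Ψ (γ (u i)) - fn Ψ (γ (u (i + 1)))| := by positivity
    have h5 := mul_le_mul_of_nonneg_left h3 hB0
    have h6 := mul_le_mul_of_nonneg_left h2 hB2
    nlinarith
  have hA : ∀ k, B * |fn Ψ (γ (u 0)) - fn Ψ (γ (u k))| + (1 - B ^ 2) * an (γ (u 0)) (γ (u k)) ≤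
      ∑ i ∈ Finset.range k, (B * |fn Ψ (γ (u i)) - fn Ψ (γ (u (i + 1)))| +
        (1 - B ^ 2) * an (γ (u i)) (γ (u (i + 1)))) := by
    intro k
    induction k with
    | zero => simp [an_self hΨ (hγ _)]
    | succ k ih =>
      rw [Finset.sum_range_succ]
      have h1 := abs_sub_le (fn Ψ (γ (u 0))) (fn Ψ (γ (u k))) (fn Ψ (γ (u (k + 1))))
      have h2 := an_triangle (γ (u 0)) (γ (u k)) (γ (u (k + 1)))
      have h3 := mul_le_mul_of_nonneg_left h1 hB0
      have h4 := mul_le_mul_of_nonneg_left h2 hB2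
      linarith
  have hfin := hA n
  rw [hu0, hun] at hfin
  have h7 : (1 - ε) * D ≤ w := by
    calc (1 - ε) * D ≤ (1 - ε) * ∑ i ∈ Finset.range n,
          (B * |fn Ψ (γ (u i)) - fn Ψ (γ (u (i + 1)))| +
            (1 - B ^ 2) * an (γ (u i)) (γ (u (i + 1)))) :=
          mul_le_mul_of_nonneg_left hfin (by linarith)
      _ ≤ ∑ i ∈ Finset.range n, ‖γ (u i) - γ (u (i + 1))‖ := by
          rw [Finset.mul_sum]
          exact Finset.sum_le_sum fun i _ => hterm i
      _ ≤ w := hsum'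
  linarith

end Pool.Agent.R796.BC
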