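import Mathlib
import Pool.Agent.R796.BCPath

/-!
# Short triangles winding around the surface do not meet the levels of zeros
-/

set_option autoImplicit false

namespace Pool.Agent.R796.BC

open Set Topology Metric InnerProductGeometry
open scoped ContDiff Real ENNReal

variable {Ψ : ℝ → ℝ}

/-- The lower bound for the length of a segment. -/
noncomputable def dd (Ψ : ℝ → ℝ) (B : ℝ) (x y : E 4) : ℝ :=
  B * |fn Ψ x - fn Ψ y| + (1 - B ^ 2) * an x y

theorem dd_nonneg {B : ℝ} (hB0 : 0 ≤ B) (hB1 : B ≤ 1) (x y : E 4) : 0 ≤ dd Ψ B x y := by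
  have h1 : 0 ≤ 1 - B ^ 2 := by nlinarith
  have := an_nonneg x y
  unfold dd
  positivity

theorem leg (hΨ : Prof Ψ) {B : ℝ} (hB0 : 0 ≤ B) (hB1 : B ≤ 1) (γ : C(unitInterval, E 4))
    (hγ : ∀ t, γ t ∈ surf Ψ) (hB : ∀ t, |Ψ ((γ t) 1)| ≤ B) {r : ℝ}
    (hr : eVariationOn γ univ < ENNReal.ofReal r) {s t : unitInterval} (hst : s ≤ t) :
    dd Ψ B (γ 0) (γ s) + dd Ψ B (γ s) (γ t) + dd Ψ B (γ t) (γ 1) < r := by
  have h1 := seg hΨ hB0 hB1 γ hγ hB (unitInterval.nonneg' (t := s))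
  have h2 := seg hΨ hB0 hB1 γ hγ hB hst
  have h3 := seg hΨ hB0 hB1 γ hγ hB (unitInterval.le_one' (t := t))
  have h4 := eVariationOn.Icc_add_Icc (γ : unitInterval → E 4) (s := univ)
    (unitInterval.nonneg' (t := s)) hst (mem_univ _)
  have h5 := eVariationOn.Icc_add_Icc (γ : unitInterval → E 4) (s := univ)
    (unitInterval.nonneg' (t := t)) (unitInterval.le_one' (t := t)) (mem_univ _)
  simp only [univ_inter] at h4 h5
  have h6 : (Icc 0 1 : Set unitInterval) = univ := by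
    ext x
    simp [unitInterval.le_one']
  rw [h6] at h5
  rw [← h5, ← h4] at hr
  have h7 : ENNReal.ofReal (dd Ψ B (γ 0) (γ s) + dd Ψ B (γ s) (γ t) + dd Ψ B (γ t) (γ 1)) <
      ENNReal.ofReal r := by
    rw [ENNReal.ofReal_add (add_nonneg (dd_nonneg hB0 hB1 _ _) (dd_nonneg hB0 hB1 _ _))
      (dd_nonneg hB0 hB1 _ _), ENNReal.ofReal_add (dd_nonneg hB0 hB1 _ _)
      (dd_nonneg hB0 hB1 _ _)]
    exact lt_of_le_of_lt (add_le_add (add_le_add h1 h2) h3) hr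
  exact (ENNReal.ofReal_lt_ofReal_iff'.1 h7).1

theorem exists_path {M : Set (E 4)} {x y : E 4} {r : ℝ} (h : dM M x y < ENNReal.ofReal r) :
    ∃ γ : C(unitInterval, E 4), γ 0 = x ∧ γ 1 = y ∧ (∀ t, γ t ∈ M) ∧
      eVariationOn γ univ < ENNReal.ofReal r := by
  rw [dM, iInf_lt_iff] at h
  obtain ⟨⟨γ, h1, h2, h3⟩, h4⟩ := h
  exact ⟨γ, h1, h2, h3, h4⟩

/-- Short triangles which wind around do not cross the levels of zeros. -/
theorem no_triple (hΨ : Prof Ψ) {x y z : E 4}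
    (hxy : dM (surf Ψ) x y < ENNReal.ofReal (2 * π / 3))
    (hyz : dM (surf Ψ) y z < ENNReal.ofReal (2 * π / 3))
    (hzx : dM (surf Ψ) z x < ENNReal.ofReal (2 * π / 3))
    (hang : 2 * π ≤ an x y + an y z + an z x) {a : ℝ} (ha : Ψ a = 0)
    (h1 : x 1 ≤ a) (h2 : a ≤ y 1) : False := by
  obtain ⟨γ₁, a0, a1, aM, aL⟩ := exists_path hxy
  obtain ⟨γ₂, b0, b1, bM, bL⟩ := exists_path hyz
  obtain ⟨γ₃, c0, c1, cM, cL⟩ := exists_path hzx
  have hcont : ∀ γ : C(unitInterval, E 4), Continuous fun t => (γ t) 1 := by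
    intro γ
    fun_prop
  have hmax : ∀ γ : C(unitInterval, E 4), ∃ t, ∀ s, |Ψ ((γ s) 1)| ≤ |Ψ ((γ t) 1)| := by
    intro γ
    obtain ⟨t, _, ht⟩ := isCompact_univ.exists_isMaxOn (univ_nonempty (α := unitInterval))
      (f := fun t => |Ψ ((γ t) 1)|)
      ((hΨ.smooth.continuous.comp (hcont γ)).abs.continuousOn)
    exact ⟨t, fun s => ht (mem_univ s)⟩
  obtain ⟨p, hp⟩ : ∃ p, (γ₁ p) 1 = a := by
    apply mem_range_of_exists_le_of_exists_ge (hcont γ₁)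
    · exact ⟨0, by rw [a0]; exact h1⟩
    · exact ⟨1, by rw [a1]; exact h2⟩
  have hfp : fn Ψ (γ₁ p) = 0 := by rw [fn, hp, ha, abs_zero, mul_zero]
  obtain ⟨t₁, ht₁⟩ := hmax γ₁
  obtain ⟨t₂, ht₂⟩ := hmax γ₂
  obtain ⟨t₃, ht₃⟩ := hmax γ₃
  have hX := fn_nonneg (Ψ := Ψ) x
  have hY := fn_nonneg (Ψ := Ψ) y
  have hZ := fn_nonneg (Ψ := Ψ) z
  -- the final computation
  have key : ∀ (B S n : ℝ), 0 ≤ B → B ≤ 1 → 2 * (π * B) ≤ S → 2 * π ≤ n →
      B * S + (1 - B ^ 2) * n < 2 * π → False := by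
    intro B S n hB0 hB1 hS hn h
    have h3 := mul_le_mul_of_nonneg_left hS hB0
    have h4 := mul_le_mul_of_nonneg_left hn (show 0 ≤ 1 - B ^ 2 by nlinarith)
    nlinarith
  have hπ := Real.pi_pos
  by_cases hc1 : |Ψ ((γ₂ t₂) 1)| ≤ |Ψ ((γ₁ t₁) 1)| ∧ |Ψ ((γ₃ t₃) 1)| ≤ |Ψ ((γ₁ t₁) 1)|
  · set B := |Ψ ((γ₁ t₁) 1)| with hB
    have hB0 : 0 ≤ B := abs_nonneg _
    have hB1 : B ≤ 1 := (hΨ.bound _).trans (by norm_num)
    have hft : fn Ψ (γ₁ t₁) = π * B := rfl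
    have e2 := leg hΨ hB0 hB1 γ₂ bM (fun s => (ht₂ s).trans hc1.1) bL (le_refl 0)
    have e3 := leg hΨ hB0 hB1 γ₃ cM (fun s => (ht₃ s).trans hc1.2) cL (le_refl 0)
    have n2 := an_nonneg y y
    have n3 := an_nonneg z z
    simp only [dd, b0, b1, sub_self, abs_zero, mul_zero, zero_add] at e2
    simp only [dd, c0, c1, sub_self, abs_zero, mul_zero, zero_add] at e3
    have hU : 0 ≤ 1 - B ^ 2 := by nlinarith
    have m2 := mul_nonneg hU n2
    have m3 := mul_nonneg hU n3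
    rcases le_total p t₁ with hpt | hpt
    · have e1 := leg hΨ hB0 hB1 γ₁ aM ht₁ aL hpt
      simp only [dd, a0, a1, hfp, hft] at e1
      have n1 := an_triangle x (γ₁ p) y
      have n1' := an_triangle (γ₁ p) (γ₁ t₁) y
      refine key B (|fn Ψ x - 0| + |0 - π * B| + |π * B - fn Ψ y| + |fn Ψ y - fn Ψ z| +
        |fn Ψ z - fn Ψ x|) (an x (γ₁ p) + an (γ₁ p) (γ₁ t₁) + an (γ₁ t₁) y + an y z + an z x)
        hB0 hB1 ?_ (by linarith) ?_
      · have q1 := le_abs_self (fn Ψ x - 0)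
        have q2 := neg_abs_le (0 - π * B)
        have q3 := le_abs_self (π * B - fn Ψ y)
        have q4 := le_abs_self (fn Ψ y - fn Ψ z)
        have q5 := le_abs_self (fn Ψ z - fn Ψ x)
        linarith
      · linarith
    · have e1 := leg hΨ hB0 hB1 γ₁ aM ht₁ aL hpt
      simp only [dd, a0, a1, hfp, hft] at e1
      have n1 := an_triangle x (γ₁ t₁) y
      have n1' := an_triangle (γ₁ t₁) (γ₁ p) y
      refine key B (|fn Ψ x - π * B| + |π * B - 0| + |0 - fn Ψ y| + |fn Ψ y - fn Ψ z| +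
        |fn Ψ z - fn Ψ x|) (an x (γ₁ t₁) + an (γ₁ t₁) (γ₁ p) + an (γ₁ p) y + an y z + an z x)
        hB0 hB1 ?_ (by linarith) ?_
      · have q1 := neg_abs_le (fn Ψ x - π * B)
        have q2 := le_abs_self (π * B - 0)
        have q3 := neg_abs_le (0 - fn Ψ y)
        have q4 := neg_abs_le (fn Ψ y - fn Ψ z)
        have q5 := neg_abs_le (fn Ψ z - fn Ψ x)
        linarith
      · linarith
  · by_cases hc2 : |Ψ ((γ₁ t₁) 1)| ≤ |Ψ ((γ₂ t₂) 1)| ∧ |Ψ ((γ₃ t₃) 1)| ≤ |Ψ ((γ₂ t₂) 1)|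
    · set B := |Ψ ((γ₂ t₂) 1)| with hB
      have hB0 : 0 ≤ B := abs_nonneg _
      have hB1 : B ≤ 1 := (hΨ.bound _).trans (by norm_num)
      have hft : fn Ψ (γ₂ t₂) = π * B := rfl
      have e1 := leg hΨ hB0 hB1 γ₁ aM (fun s => (ht₁ s).trans hc2.1) aL (le_refl p)
      have e2 := leg hΨ hB0 hB1 γ₂ bM ht₂ bL (le_refl t₂)
      have e3 := leg hΨ hB0 hB1 γ₃ cM (fun s => (ht₃ s).trans hc2.2) cL (le_refl 0)
      simp only [dd, a0, a1, hfp, sub_self, abs_zero, mul_zero, zero_add] at e1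
      simp only [dd, b0, b1, hft, sub_self, abs_zero, mul_zero, zero_add] at e2
      simp only [dd, c0, c1, sub_self, abs_zero, mul_zero, zero_add] at e3
      have hU : 0 ≤ 1 - B ^ 2 := by nlinarith
      have m1 := mul_nonneg hU (an_nonneg (γ₁ p) (γ₁ p))
      have m2 := mul_nonneg hU (an_nonneg (γ₂ t₂) (γ₂ t₂))
      have m3 := mul_nonneg hU (an_nonneg z z)
      have n1 := an_triangle x (γ₁ p) y
      have n2 := an_triangle y (γ₂ t₂) z
      refine key B (|fn Ψ x - 0| + |0 - fn Ψ y| + |fn Ψ y - π * B| + |π * B - fn Ψ z| +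
        |fn Ψ z - fn Ψ x|) (an x (γ₁ p) + an (γ₁ p) y + an y (γ₂ t₂) + an (γ₂ t₂) z + an z x)
        hB0 hB1 ?_ (by linarith) ?_
      · have q1 := le_abs_self (fn Ψ x - 0)
        have q2 := neg_abs_le (0 - fn Ψ y)
        have q3 := neg_abs_le (fn Ψ y - π * B)
        have q4 := le_abs_self (π * B - fn Ψ z)
        have q5 := le_abs_self (fn Ψ z - fn Ψ x)
        linarith
      · linarith
    · have hc3 : |Ψ ((γ₁ t₁) 1)| ≤ |Ψ ((γ₃ t₃) 1)| ∧ |Ψ ((γ₂ t₂) 1)| ≤ |Ψ ((γ₃ t₃) 1)| := by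
        rw [not_and_or] at hc1 hc2
        push Not at hc1 hc2
        rcases hc1 with h | h <;> rcases hc2 with h' | h' <;>
          constructor <;> linarith
      set B := |Ψ ((γ₃ t₃) 1)| with hB
      have hB0 : 0 ≤ B := abs_nonneg _
      have hB1 : B ≤ 1 := (hΨ.bound _).trans (by norm_num)
      have hft : fn Ψ (γ₃ t₃) = π * B := rfl
      have e1 := leg hΨ hB0 hB1 γ₁ aM (fun s => (ht₁ s).trans hc3.1) aL (le_refl p)
      have e2 := leg hΨ hB0 hB1 γ₂ bM (fun s => (ht₂ s).trans hc3.2) bL (le_refl 0)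
      have e3 := leg hΨ hB0 hB1 γ₃ cM ht₃ cL (le_refl t₃)
      simp only [dd, a0, a1, hfp, sub_self, abs_zero, mul_zero, zero_add] at e1
      simp only [dd, b0, b1, sub_self, abs_zero, mul_zero, zero_add] at e2
      simp only [dd, c0, c1, hft, sub_self, abs_zero, mul_zero, zero_add] at e3
      have hU : 0 ≤ 1 - B ^ 2 := by nlinarith
      have m1 := mul_nonneg hU (an_nonneg (γ₁ p) (γ₁ p))
      have m2 := mul_nonneg hU (an_nonneg y y)
      have m3 := mul_nonneg hU (an_nonneg (γ₃ t₃) (γ₃ t₃))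
      have n1 := an_triangle x (γ₁ p) y
      have n3 := an_triangle z (γ₃ t₃) x
      refine key B (|fn Ψ x - 0| + |0 - fn Ψ y| + |fn Ψ y - fn Ψ z| + |fn Ψ z - π * B| +
        |π * B - fn Ψ x|) (an x (γ₁ p) + an (γ₁ p) y + an y z + an z (γ₃ t₃) + an (γ₃ t₃) x)
        hB0 hB1 ?_ (by linarith) ?_
      · have q1 := le_abs_self (fn Ψ x - 0)
        have q2 := neg_abs_le (0 - fn Ψ y)
        have q3 := neg_abs_le (fn Ψ y - fn Ψ z)
        have q4 := neg_abs_le (fn Ψ z - π * B)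
        have q5 := le_abs_self (π * B - fn Ψ x)
        linarith
      · linarith

end Pool.Agent.R796.BC
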