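import Mathlib
import Pool.Agent.R796.BCLoop
import Pool.Agent.R796.BCTop

/-!
# The affine extension misses the points of the axis at the levels of zeros
-/

set_option autoImplicit false

namespace Pool.Agent.R796.BC

open Set Topology Metric InnerProductGeometry
open scoped ContDiff Real ENNReal

variable {Ψ : ℝ → ℝ}

theorem dM_comm_le {N : ℕ} (M : Set (E N)) (p q : E N) : dM M p q ≤ dM M q p := by
  rw [dM, dM]
  apply le_iInf
  rintro ⟨γ, h0, h1, hM⟩
  refine iInf_le_of_le ⟨γ.comp ⟨unitInterval.symm, unitInterval.continuous_symm⟩, ?_, ?_,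
    fun t => hM _⟩ ?_
  · simp [h1]
  · simp [h0]
  · have : eVariationOn ((γ : unitInterval → E N) ∘ unitInterval.symm) univ ≤
        eVariationOn γ univ := by
      apply eVariationOn.comp_le_of_antitoneOn (γ : unitInterval → E N) unitInterval.symm
      · intro a _ b _ hab
        exact unitInterval.symm_le_symm.2 hab
      · exact fun _ _ => mem_univ _
    exact this

theorem dM_comm {N : ℕ} (M : Set (E N)) (p q : E N) : dM M p q = dM M q p :=
  le_antisymm (dM_comm_le M p q) (dM_comm_le M q p)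

/-- Points at small distance are not antipodal. -/
theorem an_lt_pi (hΨ : Prof Ψ) {x y : E 4} (h : dM (surf Ψ) x y < ENNReal.ofReal (2 * π / 3)) :
    an x y < π := by
  obtain ⟨γ, h0, h1, hM, hL⟩ := exists_path h
  have h2 := leg hΨ (B := 1 / 2) (by norm_num) (by norm_num) γ hM (fun t => hΨ.bound _) hL
    (le_refl 0)
  have h3 := dd_nonneg (Ψ := Ψ) (B := 1 / 2) (by norm_num) (by norm_num) x x
  simp only [h0, h1] at h2
  have h4 : (1 - (1 / 2 : ℝ) ^ 2) * an x y ≤ dd Ψ (1 / 2) x y := by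
    unfold dd
    have := abs_nonneg (fn Ψ x - fn Ψ y)
    linarith
  have := Real.pi_pos
  nlinarith

theorem int_cycle {a b c : ℂ} (h : a * b * c = 1) : ∃ k : ℤ,
    a.arg + b.arg + c.arg = 2 * π * k := by
  have hc : c ≠ 0 := by
    rintro rfl
    simp at h
  have hab : a * b ≠ 0 := by
    intro h'
    rw [h', zero_mul] at h
    exact zero_ne_one h
  have ha : a ≠ 0 := left_ne_zero_of_mul hab
  have hb : b ≠ 0 := right_ne_zero_of_mul hab
  have h1 : ((a.arg + b.arg + c.arg : ℝ) : Real.Angle) = ((0 : ℝ) : Real.Angle) := by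
    rw [Real.Angle.coe_add, Real.Angle.coe_add, ← Complex.arg_mul_coe_angle ha hb,
      ← Complex.arg_mul_coe_angle hab hc, h, Complex.arg_one]
  rw [Real.Angle.angle_eq_iff_two_pi_dvd_sub] at h1
  obtain ⟨k, hk⟩ := h1
  exact ⟨k, by rw [← hk, sub_zero]⟩

/-- The oriented angle from `x` to `y`. -/
noncomputable def al (x y : E 4) : ℝ := (vv y / vv x).arg

theorem abs_al (hΨ : Prof Ψ) {x y : E 4} (hx : x ∈ surf Ψ) (hy : y ∈ surf Ψ) :
    |al x y| = an x y := by
  rw [al, ← Complex.angle_eq_abs_arg (vv_ne_zero hΨ hy) (vv_ne_zero hΨ hx), an, angle_comm]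

theorem al_anti (hΨ : Prof Ψ) {x y : E 4} (hx : x ∈ surf Ψ) (hy : y ∈ surf Ψ)
    (h : an x y < π) : al y x = - al x y := by
  have h1 : vv x / vv y = (vv y / vv x)⁻¹ := by rw [inv_div]
  rw [al, h1, Complex.arg_inv, if_neg]
  · rfl
  · intro h2
    have h3 : |al x y| = π := by
      rw [al, h2, abs_of_pos Real.pi_pos]
    rw [abs_al hΨ hx hy] at h3
    linarith

/-- The winding number of a triangle, times `2π`. -/
noncomputable def wind (x y z : E 4) : ℝ := al x y + al y z + al z x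

theorem wind_ge (hΨ : Prof Ψ) {x y z : E 4} (hx : x ∈ surf Ψ) (hy : y ∈ surf Ψ)
    (hz : z ∈ surf Ψ) (h : wind x y z ≠ 0) : 2 * π ≤ an x y + an y z + an z x := by
  have hx' := vv_ne_zero hΨ hx
  have hy' := vv_ne_zero hΨ hy
  have hz' := vv_ne_zero hΨ hz
  obtain ⟨k, hk⟩ := int_cycle (a := vv y / vv x) (b := vv z / vv y) (c := vv x / vv z)
    (by field_simp)
  have hk' : wind x y z = 2 * π * k := hk
  have hk0 : k ≠ 0 := by
    rintro rfl
    apply h
    rw [hk']
    simp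
  have h1 : (1 : ℝ) ≤ |(k : ℝ)| := by
    have : (1 : ℤ) ≤ |k| := Int.one_le_abs hk0
    exact_mod_cast this
  have h2 : |wind x y z| = 2 * π * |(k : ℝ)| := by
    rw [hk', abs_mul, abs_of_pos (by positivity : (0 : ℝ) < 2 * π)]
  have h3 : |wind x y z| ≤ an x y + an y z + an z x := by
    rw [← abs_al hΨ hx hy, ← abs_al hΨ hy hz, ← abs_al hΨ hz hx]
    exact (abs_add_le _ _).trans (by linarith [abs_add_le (al x y) (al y z)])
  have := Real.pi_pos
  nlinarith

theorem no_triple' (hΨ : Prof Ψ) {x y z : E 4} (hx : x ∈ surf Ψ) (hy : y ∈ surf Ψ)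
    (hz : z ∈ surf Ψ)
    (hxy : dM (surf Ψ) x y < ENNReal.ofReal (2 * π / 3))
    (hyz : dM (surf Ψ) y z < ENNReal.ofReal (2 * π / 3))
    (hzx : dM (surf Ψ) z x < ENNReal.ofReal (2 * π / 3))
    (hw : wind x y z ≠ 0) {a : ℝ} (ha : Ψ a = 0) :
    (x 1 < a ∧ y 1 < a ∧ z 1 < a) ∨ (a < x 1 ∧ a < y 1 ∧ a < z 1) := by
  have h0 := wind_ge hΨ hx hy hz hw
  have hyx : dM (surf Ψ) y x < ENNReal.ofReal (2 * π / 3) := by rwa [dM_comm]
  have hzy : dM (surf Ψ) z y < ENNReal.ofReal (2 * π / 3) := by rwa [dM_comm]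
  have hxz : dM (surf Ψ) x z < ENNReal.ofReal (2 * π / 3) := by rwa [dM_comm]
  have c1 := an_comm x y
  have c2 := an_comm y z
  have c3 := an_comm z x
  have e1 := no_triple hΨ hxy hyz hzx h0 ha
  have e2 := no_triple hΨ hyz hzx hxy (by linarith) ha
  have e3 := no_triple hΨ hzx hxy hyz (by linarith) ha
  have e4 := no_triple hΨ hyx hxz hzy (by linarith) ha
  have e5 := no_triple hΨ hzy hyx hxz (by linarith) ha
  have e6 := no_triple hΨ hxz hzy hyx (by linarith) ha
  rcases lt_or_ge (x 1) a with h | h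
  · left
    refine ⟨h, ?_, ?_⟩
    · by_contra h'
      exact e1 h.le (not_lt.1 h')
    · by_contra h'
      exact e6 h.le (not_lt.1 h')
  · right
    have hy1 : a < y 1 := by
      by_contra h'
      exact e4 (not_lt.1 h') h
    refine ⟨?_, hy1, ?_⟩
    · by_contra h'
      exact e1 (not_lt.1 h') hy1.le
    · by_contra h'
      exact e3 (not_lt.1 h') h

/-- If no triangle at `l` winds around, the points lie in a half plane. -/
theorem half_plane (hΨ : Prof Ψ) (S : Finset (E 4)) (hS : ∀ x ∈ S, x ∈ surf Ψ)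
    (hπ : ∀ x ∈ S, ∀ y ∈ S, an x y < π) {l : E 4} (hl : l ∈ S)
    (h0 : ∀ i ∈ S, ∀ j ∈ S, wind l i j = 0) (t : E 4 → ℝ) (ht : ∀ x ∈ S, 0 < t x)
    (hsum : ∑ x ∈ S, (t x : ℂ) * vv x = 0) : False := by
  have hdiff : ∀ i ∈ S, ∀ j ∈ S, |al l j - al l i| < π := by
    intro i hi j hj
    have h1 := h0 i hi j hj
    have h2 := al_anti hΨ (hS l hl) (hS j hj) (hπ l hl j hj)
    have h3 : al l j - al l i = al i j := by
      unfold wind at h1
      linarith
    rw [h3, abs_al hΨ (hS i hi) (hS j hj)]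
    exact hπ i hi j hj
  obtain ⟨i1, hi1, hmax⟩ := S.exists_max_image (fun i => al l i) ⟨l, hl⟩
  obtain ⟨i0, hi0, hmin⟩ := S.exists_min_image (fun i => al l i) ⟨l, hl⟩
  set m := (al l i1 + al l i0) / 2 with hm
  have hd := hdiff i0 hi0 i1 hi1
  have hpos : ∀ i ∈ S, 0 < ((vv i / vv l) * Complex.exp (-(m * Complex.I))).re := by
    intro i hi
    have h1 := hmax i hi
    have h2 := hmin i hi
    have h3 : (vv i / vv l) = (‖vv i / vv l‖ : ℂ) * Complex.exp ((al l i : ℂ) * Complex.I) :=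
      (Complex.norm_mul_exp_arg_mul_I _).symm
    have h4 : (vv i / vv l) * Complex.exp (-(m * Complex.I)) =
        (‖vv i / vv l‖ : ℂ) * Complex.exp (((al l i - m : ℝ) : ℂ) * Complex.I) := by
      rw [h3, mul_assoc, ← Complex.exp_add]
      simp only [norm_mul, Complex.norm_real, norm_norm, Complex.norm_exp_ofReal_mul_I, mul_one]
      congr 2
      push_cast
      ring
    rw [h4, Complex.re_ofReal_mul, Complex.exp_ofReal_mul_I_re]
    apply mul_pos
    · exact norm_pos_iff.2 (div_ne_zero (vv_ne_zero hΨ (hS i hi)) (vv_ne_zero hΨ (hS l hl)))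
    · apply Real.cos_pos_of_mem_Ioo
      have := abs_lt.1 hd
      constructor
      · linarith
      · linarith
  have h5 : ∑ x ∈ S, t x * ((vv x / vv l) * Complex.exp (-(m * Complex.I))).re = 0 := by
    have h6 : ∑ x ∈ S, (t x : ℂ) * ((vv x / vv l) * Complex.exp (-(m * Complex.I))) = 0 := by
      have : ∑ x ∈ S, (t x : ℂ) * ((vv x / vv l) * Complex.exp (-(m * Complex.I))) =
          (∑ x ∈ S, (t x : ℂ) * vv x) * ((vv l)⁻¹ * Complex.exp (-(m * Complex.I))) := by
        rw [Finset.sum_mul]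
        apply Finset.sum_congr rfl
        intro x _
        rw [div_eq_mul_inv]
        ring
      rw [this, hsum, zero_mul]
    have h7 := congrArg Complex.re h6
    rw [Complex.re_sum, Complex.zero_re] at h7
    rw [← h7]
    apply Finset.sum_congr rfl
    intro x _
    rw [Complex.re_ofReal_mul]
  have h8 : 0 < ∑ x ∈ S, t x * ((vv x / vv l) * Complex.exp (-(m * Complex.I))).re :=
    Finset.sum_pos (fun x hx => mul_pos (ht x hx) (hpos x hx)) ⟨l, hl⟩
  linarith

theorem no_combination (hΨ : Prof Ψ) (S : Finset (E 4)) (hne : S.Nonempty)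
    (hS : ∀ x ∈ S, x ∈ surf Ψ)
    (hd : ∀ x ∈ S, ∀ y ∈ S, dM (surf Ψ) x y < ENNReal.ofReal (2 * π / 3))
    (t : E 4 → ℝ) (ht : ∀ x ∈ S, 0 < t x) (ht1 : ∑ x ∈ S, t x = 1)
    (hsum : ∑ x ∈ S, (t x : ℂ) * vv x = 0) {a : ℝ} (ha : Ψ a = 0)
    (hsum' : ∑ x ∈ S, t x * x 1 = a) : False := by
  obtain ⟨l, hl⟩ := hne
  have hπ : ∀ x ∈ S, ∀ y ∈ S, an x y < π := fun x hx y hy => an_lt_pi hΨ (hd x hx y hy)
  have hex : ∃ i ∈ S, ∃ j ∈ S, wind l i j ≠ 0 := by
    by_contra hcon
    push Not at hcon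
    exact half_plane hΨ S hS hπ hl hcon t ht hsum
  obtain ⟨i, hi, j, hj, hw⟩ := hex
  have hanti : ∀ x ∈ S, ∀ y ∈ S, al y x = - al x y := fun x hx y hy =>
    al_anti hΨ (hS x hx) (hS y hy) (hπ x hx y hy)
  have htri : ∀ x ∈ S, ∀ y ∈ S, ∀ z ∈ S, wind x y z ≠ 0 →
      (x 1 < a ∧ y 1 < a ∧ z 1 < a) ∨ (a < x 1 ∧ a < y 1 ∧ a < z 1) :=
    fun x hx y hy z hz hw => no_triple' hΨ (hS x hx) (hS y hy) (hS z hz) (hd x hx y hy)
      (hd y hy z hz) (hd z hz x hx) hw ha
  have hex2 : ∀ l' ∈ S, wind i j l' ≠ 0 ∨ wind l j l' ≠ 0 ∨ wind l i l' ≠ 0 := by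
    intro l' hl'
    by_contra hcon
    push Not at hcon
    obtain ⟨h1, h2, h3⟩ := hcon
    apply hw
    have a1 := hanti l' hl' i hi
    have a2 := hanti l hl j hj
    unfold wind at h1 h2 h3 ⊢
    linarith
  rcases htri l hl i hi j hj hw with ⟨h1, h2, h3⟩ | ⟨h1, h2, h3⟩
  · -- some point lies above
    have : ∃ l' ∈ S, a ≤ l' 1 := by
      by_contra hcon
      push Not at hcon
      have h4 : ∑ x ∈ S, t x * x 1 < ∑ x ∈ S, t x * a :=
        Finset.sum_lt_sum_of_nonempty ⟨l, hl⟩ fun x hx =>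
          mul_lt_mul_of_pos_left (hcon x hx) (ht x hx)
      rw [← Finset.sum_mul, ht1, one_mul, hsum'] at h4
      exact lt_irrefl _ h4
    obtain ⟨l', hl', hl'a⟩ := this
    rcases hex2 l' hl' with h | h | h
    · rcases htri i hi j hj l' hl' h with h' | h' <;> linarith [h'.1, h'.2.1, h'.2.2]
    · rcases htri l hl j hj l' hl' h with h' | h' <;> linarith [h'.1, h'.2.1, h'.2.2]
    · rcases htri l hl i hi l' hl' h with h' | h' <;> linarith [h'.1, h'.2.1, h'.2.2]
  · have : ∃ l' ∈ S, l' 1 ≤ a := by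
      by_contra hcon
      push Not at hcon
      have h4 : ∑ x ∈ S, t x * a < ∑ x ∈ S, t x * x 1 :=
        Finset.sum_lt_sum_of_nonempty ⟨l, hl⟩ fun x hx =>
          mul_lt_mul_of_pos_left (hcon x hx) (ht x hx)
      rw [← Finset.sum_mul, ht1, one_mul, hsum'] at h4
      exact lt_irrefl _ h4
    obtain ⟨l', hl', hl'a⟩ := this
    rcases hex2 l' hl' with h | h | h
    · rcases htri i hi j hj l' hl' h with h' | h' <;> linarith [h'.1, h'.2.1, h'.2.2]
    · rcases htri l hl j hj l' hl' h with h' | h' <;> linarith [h'.1, h'.2.1, h'.2.2]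
    · rcases htri l hl i hi l' hl' h with h' | h' <;> linarith [h'.1, h'.2.1, h'.2.2]

/-- The projection to the last three coordinates. -/
noncomputable def proj (x : E 4) : ℝ × ℝ × ℝ := (x 1, x 2, x 3)

/-- The affine extension misses the points `(a, 0, 0)` with `Ψ(a) = 0`. -/
theorem ext_ne (hΨ : Prof Ψ) (t : Realization (VR (surf Ψ) (surf Ψ) (2 * π / 3))) {a : ℝ}
    (ha : Ψ a = 0) : ext proj t ≠ (a, 0, 0) := by
  intro h
  obtain ⟨h1, h2, s, hs, hts⟩ := t.2
  rw [ext, Finsupp.sum] at h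
  rw [Finsupp.sum] at h2
  have e1 := congrArg Prod.fst h
  have e2 := congrArg (fun q => q.2.1) h
  have e3 := congrArg (fun q => q.2.2) h
  simp only [Prod.fst_sum, Prod.snd_sum, Prod.smul_fst, Prod.smul_snd, proj, smul_eq_mul]
    at e1 e2 e3
  refine no_combination hΨ t.1.support t.support_nonempty (fun x hx => hs.2.1 (hts hx))
    (fun x hx y hy => hs.2.2 x (hts hx) y (hts hy)) t.1
    (fun x hx => lt_of_le_of_ne (h1 x) (Ne.symm (Finsupp.mem_support_iff.1 hx))) h2 ?_ ha e1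
  apply Complex.ext
  · rw [Complex.re_sum, Complex.zero_re]
    refine Eq.trans ?_ e2
    apply Finset.sum_congr rfl
    intro x _
    rw [Complex.re_ofReal_mul]
    rfl
  · rw [Complex.im_sum, Complex.zero_im]
    refine Eq.trans ?_ e3
    apply Finset.sum_congr rfl
    intro x _
    rw [Complex.im_ofReal_mul]
    rfl

end Pool.Agent.R796.BC
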