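import Mathlib
import Pool.Agent.R796.BCConv

/-!
# The parametrization of the surface and upper bounds for the distance
-/

set_option autoImplicit false

namespace Pool.Agent.R796.BC

open Set Topology Metric
open scoped ContDiff Real ENNReal

variable {Ψ : ℝ → ℝ}

/-- The radius function. -/
noncomputable def rho (Ψ : ℝ → ℝ) (h : ℝ) : ℝ := √(1 - Ψ h ^ 2)

theorem rho_sq (hΨ : Prof Ψ) (h : ℝ) : rho Ψ h ^ 2 = 1 - Ψ h ^ 2 := by
  rw [rho, Real.sq_sqrt]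
  have := abs_le.1 (hΨ.bound h)
  nlinarith

theorem rho_ge (hΨ : Prof Ψ) (h : ℝ) : 1 / 2 ≤ rho Ψ h := by
  apply Real.le_sqrt_of_sq_le
  have := abs_le.1 (hΨ.bound h)
  nlinarith

theorem rho_le (h : ℝ) : rho Ψ h ≤ 1 := by
  rw [rho]
  apply Real.sqrt_le_one.2
  nlinarith [sq_nonneg (Ψ h)]

theorem rho_lt {h : ℝ} (h0 : Ψ h ≠ 0) : rho Ψ h < 1 := by
  rw [rho, Real.sqrt_lt' one_pos]
  have : 0 < Ψ h ^ 2 := by positivity
  linarith

theorem rho_lip (hΨ : Prof Ψ) {h h' : ℝ} (hh : h ∈ Icc (-1 : ℝ) 1) (hh' : h' ∈ Icc (-1 : ℝ) 1) :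
    |rho Ψ h - rho Ψ h'| ≤ |h - h'| := by
  have h1 := rho_sq hΨ h
  have h2 := rho_sq hΨ h'
  have h3 := rho_ge hΨ h
  have h4 := rho_ge hΨ h'
  have h5 : (rho Ψ h - rho Ψ h') * (rho Ψ h + rho Ψ h') = -(Ψ h - Ψ h') * (Ψ h + Ψ h') := by
    linear_combination h1 - h2
  have h6 : |rho Ψ h - rho Ψ h'| * |rho Ψ h + rho Ψ h'| = |Ψ h - Ψ h'| * |Ψ h + Ψ h'| := by
    rw [← abs_mul, h5, abs_mul, abs_neg]
  have h7 : (1 : ℝ) ≤ |rho Ψ h + rho Ψ h'| := by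
    rw [abs_of_pos (by linarith)]
    linarith
  have h8 : |Ψ h + Ψ h'| ≤ 1 := by
    have e1 := hΨ.bound h
    have e2 := hΨ.bound h'
    exact (abs_add_le _ _).trans (by linarith)
  have h9 := hΨ.lip h hh h' hh'
  have h10 := Real.pi_gt_three
  have h11 := abs_nonneg (Ψ h - Ψ h')
  have h12 := abs_nonneg (rho Ψ h - rho Ψ h')
  calc |rho Ψ h - rho Ψ h'| ≤ |rho Ψ h - rho Ψ h'| * |rho Ψ h + rho Ψ h'| :=
        le_mul_of_one_le_right h12 h7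
    _ = |Ψ h - Ψ h'| * |Ψ h + Ψ h'| := h6
    _ ≤ |Ψ h - Ψ h'| * 1 := mul_le_mul_of_nonneg_left h8 h11
    _ ≤ π * |Ψ h - Ψ h'| := by nlinarith
    _ ≤ |h - h'| := h9

/-- The parametrization. -/
noncomputable def TT (Ψ : ℝ → ℝ) (φ θ : ℝ) : E 4 :=
  !₂[Real.cos φ, Real.sin φ, rho Ψ (Real.sin φ) * Real.cos θ, rho Ψ (Real.sin φ) * Real.sin θ]

theorem TT_zero (φ θ : ℝ) : (TT Ψ φ θ) 0 = Real.cos φ := rfl
theorem TT_one (φ θ : ℝ) : (TT Ψ φ θ) 1 = Real.sin φ := rfl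
theorem TT_two (φ θ : ℝ) : (TT Ψ φ θ) 2 = rho Ψ (Real.sin φ) * Real.cos θ := rfl
theorem TT_three (φ θ : ℝ) : (TT Ψ φ θ) 3 = rho Ψ (Real.sin φ) * Real.sin θ := rfl

theorem TT_mem (hΨ : Prof Ψ) (φ θ : ℝ) : TT Ψ φ θ ∈ surf Ψ := by
  constructor
  · rw [TT_zero, TT_one]
    exact Real.cos_sq_add_sin_sq φ
  · rw [TT_one, TT_two, TT_three, ← rho_sq hΨ]
    linear_combination (rho Ψ (Real.sin φ)) ^ 2 * Real.cos_sq_add_sin_sq θ

theorem TT_periodic (φ θ : ℝ) (n : ℤ) : TT Ψ φ (θ + n * (2 * π)) = TT Ψ φ θ := by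
  rw [TT, TT, Real.cos_add_int_mul_two_pi, Real.sin_add_int_mul_two_pi]

theorem surf_eq (hΨ : Prof Ψ) {x : E 4} (hx : x ∈ surf Ψ) :
    ∃ φ ∈ Icc (-π) π, ∃ θ ∈ Icc (-π) π, x = TT Ψ φ θ := by
  obtain ⟨h1, h2⟩ := hx
  refine ⟨(⟨x 0, x 1⟩ : ℂ).arg, ⟨(Complex.neg_pi_lt_arg _).le, Complex.arg_le_pi _⟩,
    (vv x).arg, ⟨(Complex.neg_pi_lt_arg _).le, Complex.arg_le_pi _⟩, ?_⟩
  have hz : ‖(⟨x 0, x 1⟩ : ℂ)‖ = 1 := by
    have : ‖(⟨x 0, x 1⟩ : ℂ)‖ ^ 2 = 1 := by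
      rw [← Complex.normSq_eq_norm_sq, Complex.normSq_apply]
      simp only
      linarith
    rw [← Real.sqrt_sq (norm_nonneg (⟨x 0, x 1⟩ : ℂ)), this, Real.sqrt_one]
  have h0 : Real.cos (⟨x 0, x 1⟩ : ℂ).arg = x 0 := by
    rw [Complex.cos_arg (by intro h; rw [h, norm_zero] at hz; exact zero_ne_one hz), hz, div_one]
  have h1' : Real.sin (⟨x 0, x 1⟩ : ℂ).arg = x 1 := by
    rw [Complex.sin_arg, hz, div_one]
  have hv : ‖vv x‖ = rho Ψ (x 1) := by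
    rw [rho, ← h2, ← norm_vv_sq, Real.sqrt_sq (norm_nonneg _)]
  have hv0 : vv x ≠ 0 := vv_ne_zero hΨ ⟨h1, h2⟩
  have hn0 : ‖vv x‖ ≠ 0 := norm_ne_zero_iff.2 hv0
  have h3 : rho Ψ (x 1) * Real.cos (vv x).arg = x 2 := by
    rw [Complex.cos_arg hv0, ← hv, mul_div_cancel₀ _ hn0]
    rfl
  have h4 : rho Ψ (x 1) * Real.sin (vv x).arg = x 3 := by
    rw [Complex.sin_arg, ← hv, mul_div_cancel₀ _ hn0]
    rfl
  ext i
  fin_cases i
  · exact h0.symm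
  · exact h1'.symm
  · show x 2 = rho Ψ (Real.sin _) * Real.cos _
    rw [h1', h3]
  · show x 3 = rho Ψ (Real.sin _) * Real.sin _
    rw [h1', h4]

theorem circ_le (s t : ℝ) :
    (Real.cos s - Real.cos t) ^ 2 + (Real.sin s - Real.sin t) ^ 2 ≤ (s - t) ^ 2 := by
  have h1 := Real.one_sub_sq_div_two_le_cos (x := s - t)
  rw [Real.cos_sub] at h1
  nlinarith [Real.cos_sq_add_sin_sq s, Real.cos_sq_add_sin_sq t]

theorem norm_TT_sub (φ φ' θ θ' : ℝ) : ‖TT Ψ φ θ - TT Ψ φ' θ'‖ ^ 2 =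
    (Real.cos φ - Real.cos φ') ^ 2 + (Real.sin φ - Real.sin φ') ^ 2 +
      (rho Ψ (Real.sin φ) * Real.cos θ - rho Ψ (Real.sin φ') * Real.cos θ') ^ 2 +
      (rho Ψ (Real.sin φ) * Real.sin θ - rho Ψ (Real.sin φ') * Real.sin θ') ^ 2 := by
  rw [EuclideanSpace.norm_sq_eq, Fin.sum_univ_four]
  simp only [PiLp.sub_apply, Real.norm_eq_abs, sq_abs, TT_zero, TT_one, TT_two, TT_three]

theorem TT_lip_circle (hΨ : Prof Ψ) (φ θ θ' : ℝ) :
    ‖TT Ψ φ θ - TT Ψ φ θ'‖ ≤ rho Ψ (Real.sin φ) * |θ - θ'| := by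
  have hr := rho_ge hΨ (Real.sin φ)
  apply abs_le_of_sq_le_sq' _ (by positivity) |>.2
  rw [norm_TT_sub, mul_pow, sq_abs]
  have := circ_le θ θ'
  nlinarith [mul_le_mul_of_nonneg_left this (sq_nonneg (rho Ψ (Real.sin φ)))]

theorem TT_lip (hΨ : Prof Ψ) (φ φ' θ θ' : ℝ) :
    ‖TT Ψ φ θ - TT Ψ φ' θ'‖ ≤ 2 * |φ - φ'| + |θ - θ'| := by
  apply abs_le_of_sq_le_sq' _ (by positivity) |>.2
  have h1 := circ_le φ φ'
  have h2 := circ_le θ θ'
  have h3 : |Real.sin φ - Real.sin φ'| ≤ |φ - φ'| := by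
    apply sq_le_sq.1
    nlinarith [sq_nonneg (Real.cos φ - Real.cos φ')]
  have h4 := (rho_lip hΨ (Real.sin_mem_Icc φ) (Real.sin_mem_Icc φ')).trans h3
  have hr := rho_ge hΨ (Real.sin φ)
  have hr1 := rho_le (Ψ := Ψ) (Real.sin φ)
  have hr' := rho_ge hΨ (Real.sin φ')
  have hr1' := rho_le (Ψ := Ψ) (Real.sin φ')
  rw [norm_TT_sub]
  set p := rho Ψ (Real.sin φ)
  set p' := rho Ψ (Real.sin φ')
  have h5 : (p * Real.cos θ - p' * Real.cos θ') ^ 2 + (p * Real.sin θ - p' * Real.sin θ') ^ 2 =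
      (p - p') ^ 2 + p * p' * ((Real.cos θ - Real.cos θ') ^ 2 +
        (Real.sin θ - Real.sin θ') ^ 2) := by
    linear_combination (p ^ 2 - p * p') * Real.cos_sq_add_sin_sq θ +
      (p' ^ 2 - p * p') * Real.cos_sq_add_sin_sq θ'
  have h6 : (p - p') ^ 2 ≤ (φ - φ') ^ 2 := sq_le_sq.2 h4
  have h7 : p * p' ≤ 1 := by nlinarith
  have h8 : p * p' * ((Real.cos θ - Real.cos θ') ^ 2 + (Real.sin θ - Real.sin θ') ^ 2) ≤
      1 * (θ - θ') ^ 2 := mul_le_mul h7 h2 (by positivity) zero_le_one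
  have h9 : |φ - φ'| ^ 2 = (φ - φ') ^ 2 := sq_abs _
  have h10 : |θ - θ'| ^ 2 = (θ - θ') ^ 2 := sq_abs _
  have h11 : 0 ≤ |φ - φ'| * |θ - θ'| := by positivity
  nlinarith

/-- The length of a Lipschitz path. -/
theorem var_le {N : ℕ} {L : ℝ} (hL : 0 ≤ L) (γ : unitInterval → E N)
    (h : ∀ s t : unitInterval, ‖γ s - γ t‖ ≤ L * |(s : ℝ) - t|) :
    eVariationOn γ univ ≤ ENNReal.ofReal L := by
  rw [eVariationOn]
  apply iSup_le
  rintro ⟨n, u, hu, _⟩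
  simp only
  have h1 : ∀ i ∈ Finset.range n, edist (γ (u (i + 1))) (γ (u i)) ≤
      ENNReal.ofReal (L * ((u (i + 1) : ℝ) - u i)) := by
    intro i _
    rw [edist_dist, dist_eq_norm]
    apply ENNReal.ofReal_le_ofReal
    refine (h _ _).trans (le_of_eq ?_)
    rw [abs_of_nonneg]
    exact sub_nonneg.2 (hu (Nat.le_succ i))
  refine (Finset.sum_le_sum h1).trans ?_
  rw [← ENNReal.ofReal_sum_of_nonneg]
  · apply ENNReal.ofReal_le_ofReal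
    rw [← Finset.mul_sum, Finset.sum_range_sub (fun i => (u i : ℝ))]
    have h2 := (u n).2.2
    have h3 := (u 0).2.1
    calc L * ((u n : ℝ) - u 0) ≤ L * 1 := mul_le_mul_of_nonneg_left (by linarith) hL
      _ = L := mul_one L
  · intro i _
    exact mul_nonneg hL (sub_nonneg.2 (hu (Nat.le_succ i)))

theorem continuous_rho (hΨ : Prof Ψ) : Continuous (rho Ψ) :=
  (continuous_const.sub (hΨ.smooth.continuous.pow 2)).sqrt

theorem continuous_TT (hΨ : Prof Ψ) {X : Type*} [TopologicalSpace X] {f g : X → ℝ}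
    (hf : Continuous f) (hg : Continuous g) : Continuous fun x => TT Ψ (f x) (g x) := by
  have h := (continuous_rho hΨ).comp (Real.continuous_sin.comp hf)
  have h1 : Continuous fun x => (![Real.cos (f x), Real.sin (f x),
      rho Ψ (Real.sin (f x)) * Real.cos (g x), rho Ψ (Real.sin (f x)) * Real.sin (g x)] :
        Fin 4 → ℝ) := by
    apply continuous_pi
    intro i
    fin_cases i
    · exact Real.continuous_cos.comp hf
    · exact Real.continuous_sin.comp hf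
    · exact h.mul (Real.continuous_cos.comp hg)
    · exact h.mul (Real.continuous_sin.comp hg)
  exact (PiLp.continuous_toLp 2 (fun _ : Fin 4 => ℝ)).comp h1

/-- Upper bounds for the distance along segments in the parameter space. -/
theorem dM_TT_le (hΨ : Prof Ψ) {φ φ' θ θ' L : ℝ} (hL : 0 ≤ L)
    (h : ∀ s t : ℝ, ‖TT Ψ (φ + s * (φ' - φ)) (θ + s * (θ' - θ)) -
      TT Ψ (φ + t * (φ' - φ)) (θ + t * (θ' - θ))‖ ≤ L * |s - t|) :
    dM (surf Ψ) (TT Ψ φ θ) (TT Ψ φ' θ') ≤ ENNReal.ofReal L := by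
  have h2 : Continuous fun t : unitInterval =>
      TT Ψ (φ + (t : ℝ) * (φ' - φ)) (θ + (t : ℝ) * (θ' - θ)) :=
    continuous_TT hΨ (by fun_prop) (by fun_prop)
  have h3 := var_le hL (fun t : unitInterval =>
      TT Ψ (φ + (t : ℝ) * (φ' - φ)) (θ + (t : ℝ) * (θ' - θ))) fun s t => h s t
  refine iInf_le_of_le ⟨⟨_, h2⟩, ?_, ?_, fun t => TT_mem hΨ _ _⟩ h3
  · simp
  · simp

theorem dM_circle (hΨ : Prof Ψ) (φ θ θ' : ℝ) :
    dM (surf Ψ) (TT Ψ φ θ) (TT Ψ φ θ') ≤ ENNReal.ofReal (rho Ψ (Real.sin φ) * |θ - θ'|) := by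
  have hr := rho_ge hΨ (Real.sin φ)
  apply dM_TT_le hΨ (by positivity)
  intro s t
  simp only [sub_self, mul_zero, add_zero]
  refine (TT_lip_circle hΨ _ _ _).trans (le_of_eq ?_)
  rw [mul_assoc]
  congr 1
  rw [← abs_mul, ← abs_neg]
  congr 1
  ring

theorem dM_general (hΨ : Prof Ψ) (φ φ' θ θ' : ℝ) :
    dM (surf Ψ) (TT Ψ φ θ) (TT Ψ φ' θ') ≤ ENNReal.ofReal (2 * |φ - φ'| + |θ - θ'|) := by
  apply dM_TT_le hΨ (by positivity)
  intro s t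
  refine (TT_lip hΨ _ _ _ _).trans (le_of_eq ?_)
  have h1 : (φ + s * (φ' - φ)) - (φ + t * (φ' - φ)) = -((φ - φ') * (s - t)) := by ring
  have h2 : (θ + s * (θ' - θ)) - (θ + t * (θ' - θ)) = -((θ - θ') * (s - t)) := by ring
  rw [h1, h2, abs_neg, abs_neg, abs_mul, abs_mul]
  ring

end Pool.Agent.R796.BC
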