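import Mathlib
import Pool.Agent.R796.BCParam
import Pool.Agent.R796.BCAbs

/-!
# The spheres around the gaps
-/

set_option autoImplicit false

namespace Pool.Agent.R796.BC

open Set Topology Metric
open scoped ContDiff Real ENNReal

/-- The map to the realization with given barycentric coordinates. -/
theorem exists_map {V : Type*} {K : Set (Finset V)} (hK : IsCpx K) {S ι : Type*}
    [TopologicalSpace S] [Fintype ι] (q : ι → V) (w : S → ι → ℝ)
    (hw : ∀ i, Continuous fun s => w s i) (h0 : ∀ s i, 0 ≤ w s i) (h1 : ∀ s, ∑ i, w s i = 1)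
    (hm : ∀ s, ∃ σ ∈ K, ∀ i, w s i ≠ 0 → q i ∈ σ) :
    ∃ u : C(S, Realization K), ∀ {W : Type*} [AddCommGroup W] [Module ℝ W] (G : V → W) (s : S),
      ext G (u s) = ∑ i, w s i • G (q i) := by
  classical
  have hval : ∀ s v, (∑ i, Finsupp.single (q i) (w s i)) v = ∑ i, if q i = v then w s i else 0 := by
    intro s v
    rw [Finsupp.finsetSum_apply]
    apply Finset.sum_congr rfl
    intro i _
    rw [Finsupp.single_apply]
  let f : S → Realization K := fun s => ⟨∑ i, Finsupp.single (q i) (w s i), by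
    refine ⟨?_, ?_, ?_⟩
    · intro v
      rw [hval]
      exact Finset.sum_nonneg fun i _ => by split_ifs; exacts [h0 s i, le_rfl]
    · rw [← Finsupp.sum_finsetSum_index (fun _ => rfl) (fun _ _ _ => rfl)]
      rw [← h1 s]
      apply Finset.sum_congr rfl
      intro i _
      rw [Finsupp.sum_single_index rfl]
    · obtain ⟨σ, hσ, hσ'⟩ := hm s
      refine ⟨σ, hσ, ?_⟩
      intro v hv
      rw [Finsupp.mem_support_iff, hval] at hv
      obtain ⟨i, _, hi⟩ := Finset.exists_ne_zero_of_sum_ne_zero hv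
      split_ifs at hi with hi'
      · exact hi' ▸ hσ' i hi
      · exact absurd rfl hi⟩
  have hf : Continuous f := by
    apply continuous_in hK (Finset.univ.image q)
    · intro s v hv
      have hv' : (∑ i, Finsupp.single (q i) (w s i)) v ≠ 0 := Finsupp.mem_support_iff.1 hv
      rw [hval] at hv'
      obtain ⟨i, _, hi⟩ := Finset.exists_ne_zero_of_sum_ne_zero hv'
      split_ifs at hi with hi'
      · exact Finset.mem_image.2 ⟨i, Finset.mem_univ _, hi'⟩
      · exact absurd rfl hi
    · intro v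
      have : (fun s => (f s).1 v) = fun s => ∑ i, if q i = v then w s i else 0 := by
        funext s
        exact hval s v
      rw [this]
      apply continuous_finsetSum
      intro i _
      split_ifs
      · exact hw i
      · exact continuous_const
  refine ⟨⟨f, hf⟩, ?_⟩
  intro W _ _ G s
  show (∑ i, Finsupp.single (q i) (w s i)).sum (fun v a => a • G v) = _
  rw [← Finsupp.sum_finsetSum_index (h := fun v (a : ℝ) => a • G v)
    (fun _ => zero_smul _ _) (fun _ _ _ => add_smul _ _ _)]
  apply Finset.sum_congr rfl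
  intro i _
  exact Finsupp.sum_single_index (zero_smul ℝ (G (q i)))

/-! ### The weights -/

/-- Truncation to `[0,1]`. -/
noncomputable def cl (t : ℝ) : ℝ := max 0 (min 1 t)

/-- Truncation to `[-1,1]`. -/
noncomputable def cl2 (t : ℝ) : ℝ := max (-1) (min 1 t)

theorem cl_nonneg (t : ℝ) : 0 ≤ cl t := le_max_left _ _
theorem cl_le (t : ℝ) : cl t ≤ 1 := max_le zero_le_one (min_le_left _ _)
theorem cl_mono {s t : ℝ} (h : s ≤ t) : cl s ≤ cl t := max_le_max_left _ (min_le_min_left _ h)
theorem cl_of_nonpos {t : ℝ} (h : t ≤ 0) : cl t = 0 :=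
  max_eq_left ((min_le_right _ _).trans h)
theorem cl_of_one_le {t : ℝ} (h : 1 ≤ t) : cl t = 1 := by
  rw [cl, min_eq_left h, max_eq_right zero_le_one]
theorem continuous_cl : Continuous cl := by unfold cl; fun_prop
theorem continuous_cl2 : Continuous cl2 := by unfold cl2; fun_prop
theorem cl2_mem (t : ℝ) : cl2 t ∈ Icc (-1 : ℝ) 1 :=
  ⟨le_max_left _ _, max_le (by norm_num) (min_le_left _ _)⟩
theorem cl2_of_one_le {t : ℝ} (h : 1 ≤ t) : cl2 t = 1 := by
  rw [cl2, min_eq_left h, max_eq_right (by norm_num)]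
theorem cl2_of_le_neg_one {t : ℝ} (h : t ≤ -1) : cl2 t = -1 := by
  rw [cl2, min_eq_right (by linarith), max_eq_left h]

/-- The stage weights (in terms of `t = 6 (1 - R)`). -/
noncomputable def stage (t : ℝ) : Fin 4 → ℝ :=
  ![1 - cl t, cl t - cl (t - 1), cl (t - 1) - cl (t - 2), cl (t - 2)]

/-- The weights of the corners of the square. -/
noncomputable def corner (X Y : ℝ) : Fin 4 → ℝ :=
  ![(1 + X) * (1 + Y) / 4, (1 - X) * (1 + Y) / 4, (1 - X) * (1 - Y) / 4, (1 + X) * (1 - Y) / 4]

/-- The weights of the two ends. -/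
noncomputable def side (τ : ℝ) : Bool → ℝ
  | true => (1 + τ) / 2
  | false => (1 - τ) / 2

/-- The positions (multiples of `π/6`) of the vertices on the circle. -/
def pos : Fin 4 → Fin 4 → ℤ :=
  ![![0, 3, 6, 9], ![0, 4, 6, 8], ![0, 4, 4, 8], ![0, 0, 0, 0]]

theorem stage_nonneg (t : ℝ) (k : Fin 4) : 0 ≤ stage t k := by
  have h1 := cl_le t
  have h2 := cl_mono (show t - 1 ≤ t by linarith)
  have h3 := cl_mono (show t - 2 ≤ t - 1 by linarith)
  have h4 := cl_nonneg (t - 2)
  fin_cases k <;> simp [stage] <;> linarith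

theorem stage_sum (t : ℝ) : ∑ k, stage t k = 1 := by
  rw [Fin.sum_univ_four]
  simp [stage]

theorem corner_nonneg {X Y : ℝ} (hX : X ∈ Icc (-1 : ℝ) 1) (hY : Y ∈ Icc (-1 : ℝ) 1) (k : Fin 4) :
    0 ≤ corner X Y k := by
  have h1 : 0 ≤ 1 + X := by linarith [hX.1]
  have h2 : 0 ≤ 1 - X := by linarith [hX.2]
  have h3 : 0 ≤ 1 + Y := by linarith [hY.1]
  have h4 : 0 ≤ 1 - Y := by linarith [hY.2]
  fin_cases k <;> simp [corner] <;> positivity

theorem corner_sum (X Y : ℝ) : ∑ k, corner X Y k = 1 := by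
  rw [Fin.sum_univ_four]
  simp [corner]
  ring

theorem side_sum (τ : ℝ) : ∑ k, side τ k = 1 := by
  rw [Fintype.sum_bool]
  simp [side]
  ring

/-- Two stages which both occur are equal or consecutive. -/
theorem stage_adj {t : ℝ} {k k' : Fin 4} (h : stage t k ≠ 0) (h' : stage t k' ≠ 0) :
    k = k' ∨ k.val + 1 = k'.val ∨ k'.val + 1 = k.val := by
  have hlt : ∀ s : ℝ, 1 ≤ s → cl s = 1 := fun s hs => cl_of_one_le hs
  have hle : ∀ s : ℝ, s ≤ 0 → cl s = 0 := fun s hs => cl_of_nonpos hs
  have c0 : 1 ≤ t → stage t 0 = 0 := by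
    intro h
    simp [stage, hlt t h]
  have c1 : 2 ≤ t → stage t 1 = 0 := by
    intro h
    simp [stage, hlt t (by linarith), hlt (t - 1) (by linarith)]
  have c2 : t ≤ 1 → stage t 2 = 0 := by
    intro h
    simp [stage, hle (t - 1) (by linarith), hle (t - 2) (by linarith)]
  have c3 : t ≤ 2 → stage t 3 = 0 := by
    intro h
    simp [stage, hle (t - 2) (by linarith)]
  rcases le_total t 1 with h1 | h1 <;> rcases le_total t 2 with h2 | h2 <;>
    fin_cases k <;> fin_cases k' <;> simp_all <;> linarith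

theorem stage_lt {t : ℝ} {k : Fin 4} (hk : k ≠ 3) (h : stage t k ≠ 0) : t < 3 := by
  by_contra hcon
  push Not at hcon
  apply h
  fin_cases k
  · simp [stage, cl_of_one_le (show 1 ≤ t by linarith)]
  · simp [stage, cl_of_one_le (show 1 ≤ t by linarith), cl_of_one_le (show 1 ≤ t - 1 by linarith)]
  · simp [stage, cl_of_one_le (show 1 ≤ t - 2 by linarith),
      cl_of_one_le (show 1 ≤ t - 1 by linarith)]
  · exact absurd rfl hk

theorem stage_zero {k : Fin 4} (h : stage 0 k ≠ 0) : k = 0 := by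
  fin_cases k <;> simp [stage, cl] at h ⊢

/-- Two corners which both occur on an edge of the square are adjacent. -/
theorem corner_adj {X Y : ℝ} (hXY : X ^ 2 = 1 ∨ Y ^ 2 = 1) {i j : Fin 4}
    (h : corner X Y i ≠ 0) (h' : corner X Y j ≠ 0) : j ≠ i + 2 := by
  have h0 : (1 - X ^ 2) * (1 - Y ^ 2) = 0 := by
    rcases hXY with h | h <;> rw [h] <;> ring
  rintro rfl
  have e1 : corner X Y 0 * corner X Y 2 = 0 := by
    show (1 + X) * (1 + Y) / 4 * ((1 - X) * (1 - Y) / 4) = 0
    linear_combination h0 / 16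
  have e2 : corner X Y 1 * corner X Y 3 = 0 := by
    show (1 - X) * (1 + Y) / 4 * ((1 + X) * (1 - Y) / 4) = 0
    linear_combination h0 / 16
  have h1 : corner X Y i * corner X Y (i + 2) = 0 := by
    fin_cases i
    · exact e1
    · exact e2
    · exact (mul_comm _ _).trans e1
    · exact (mul_comm _ _).trans e2
  rcases mul_eq_zero.1 h1 with h2 | h2
  · exact h h2
  · exact h' h2

/-- The positions of vertices which occur together are close. -/
theorem pos_close : ∀ k k' i i' : Fin 4, (k = k' ∨ k.val + 1 = k'.val ∨ k'.val + 1 = k.val) →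
    i' ≠ i + 2 → ∃ n ∈ ({-1, 0, 1} : Finset ℤ), |pos k i + n * 12 - pos k' i'| ≤ 4 := by
  decide

theorem pos_close_zero : ∀ i i' : Fin 4, i' ≠ i + 2 →
    ∃ n ∈ ({-1, 0, 1} : Finset ℤ), |pos 0 i + n * 12 - pos 0 i'| ≤ 3 := by
  decide

/-! ### The map of the sphere -/

/-- The space of the last three coordinates. -/
abbrev W3 : Type := ℝ × ℝ × ℝ

theorem sphere_facts (s : sphere (0 : W3) 1) : |s.1.1| ≤ 1 ∧ |s.1.2.1| ≤ 1 ∧ |s.1.2.2| ≤ 1 ∧
    (|s.1.1| = 1 ∨ max |s.1.2.1| |s.1.2.2| = 1) := by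
  have h := mem_sphere_zero_iff_norm.1 s.2
  rw [Prod.norm_def, Prod.norm_def, Real.norm_eq_abs, Real.norm_eq_abs, Real.norm_eq_abs] at h
  have h1 := le_max_left |s.1.1| (max |s.1.2.1| |s.1.2.2|)
  have h2 := le_max_right |s.1.1| (max |s.1.2.1| |s.1.2.2|)
  have h3 := le_max_left |s.1.2.1| |s.1.2.2|
  have h4 := le_max_right |s.1.2.1| |s.1.2.2|
  refine ⟨by linarith, by linarith, by linarith, ?_⟩
  rcases le_total |s.1.1| (max |s.1.2.1| |s.1.2.2|) with h5 | h5
  · right
    rw [max_eq_right h5] at h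
    exact h
  · left
    rw [max_eq_left h5] at h
    exact h

/-- The radial coordinate. -/
noncomputable def rad (s : sphere (0 : W3) 1) : ℝ := max |s.1.2.1| |s.1.2.2|

theorem rad_le (s : sphere (0 : W3) 1) : rad s ≤ 1 :=
  max_le (sphere_facts s).2.1 (sphere_facts s).2.2.1

/-- The weights. -/
noncomputable def wt (s : sphere (0 : W3) 1) (i : Bool × Fin 4 × Fin 4) : ℝ :=
  side s.1.1 i.1 * stage (6 * (1 - rad s)) i.2.1 *
    corner (cl2 (2 * s.1.2.1)) (cl2 (2 * s.1.2.2)) i.2.2

theorem wt_nonneg (s : sphere (0 : W3) 1) (i : Bool × Fin 4 × Fin 4) : 0 ≤ wt s i := by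
  have h1 : 0 ≤ side s.1.1 i.1 := by
    have := abs_le.1 (sphere_facts s).1
    rcases i with ⟨b, _⟩
    cases b
    · show 0 ≤ (1 - s.1.1) / 2
      linarith
    · show 0 ≤ (1 + s.1.1) / 2
      linarith
  exact mul_nonneg (mul_nonneg h1 (stage_nonneg _ _)) (corner_nonneg (cl2_mem _) (cl2_mem _) _)

theorem sum_wt (s : sphere (0 : W3) 1) {A : Type*} [AddCommGroup A] [Module ℝ A]
    (g : Bool × Fin 4 × Fin 4 → A) : ∑ i, wt s i • g i =
      ∑ b, side s.1.1 b • ∑ k, stage (6 * (1 - rad s)) k •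
        ∑ j, corner (cl2 (2 * s.1.2.1)) (cl2 (2 * s.1.2.2)) j • g (b, k, j) := by
  rw [Fintype.sum_prod_type]
  apply Finset.sum_congr rfl
  intro b _
  rw [Fintype.sum_prod_type, Finset.smul_sum]
  apply Finset.sum_congr rfl
  intro k _
  rw [Finset.smul_sum, Finset.smul_sum]
  apply Finset.sum_congr rfl
  intro j _
  rw [smul_smul, smul_smul, wt, mul_assoc]

theorem wt_sum (s : sphere (0 : W3) 1) : ∑ i, wt s i = 1 := by
  have h := sum_wt s (fun _ => (1 : ℝ))
  simp only [smul_eq_mul, mul_one, corner_sum, stage_sum, side_sum] at h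
  exact h

theorem continuous_wt (i : Bool × Fin 4 × Fin 4) : Continuous fun s => wt s i := by
  have h1 : Continuous fun s : sphere (0 : W3) 1 => s.1.1 := by fun_prop
  have h2 : Continuous fun s : sphere (0 : W3) 1 => s.1.2.1 := by fun_prop
  have h3 : Continuous fun s : sphere (0 : W3) 1 => s.1.2.2 := by fun_prop
  have hr : Continuous rad := h2.abs.max h3.abs
  have hX : Continuous fun s : sphere (0 : W3) 1 => cl2 (2 * s.1.2.1) :=
    continuous_cl2.comp (by fun_prop)
  have hY : Continuous fun s : sphere (0 : W3) 1 => cl2 (2 * s.1.2.2) :=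
    continuous_cl2.comp (by fun_prop)
  have ht : Continuous fun s : sphere (0 : W3) 1 => 6 * (1 - rad s) :=
    continuous_const.mul (continuous_const.sub hr)
  obtain ⟨b, k, j⟩ := i
  apply Continuous.mul (Continuous.mul _ _) _
  · cases b
    · exact (continuous_const.sub h1).div_const 2
    · exact (continuous_const.add h1).div_const 2
  · have c0 := continuous_cl.comp ht
    have c1 := continuous_cl.comp (ht.sub (continuous_const (y := (1 : ℝ))))
    have c2 := continuous_cl.comp (ht.sub (continuous_const (y := (2 : ℝ))))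
    fin_cases k
    · exact continuous_const.sub c0
    · exact c0.sub c1
    · exact c1.sub c2
    · exact c2
  · fin_cases j
    · exact ((continuous_const.add hX).mul (continuous_const.add hY)).div_const 4
    · exact ((continuous_const.sub hX).mul (continuous_const.add hY)).div_const 4
    · exact ((continuous_const.sub hX).mul (continuous_const.sub hY)).div_const 4
    · exact ((continuous_const.add hX).mul (continuous_const.sub hY)).div_const 4

end Pool.Agent.R796.BC
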