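import Mathlib
import Pool.Agent.R796.BCSph

/-!
# The Vietoris-Rips complex of the surface is not homotopy equivalent to a compact space
-/

set_option autoImplicit false

namespace Pool.Agent.R796.BC

open Set Topology Metric
open scoped ContDiff Real ENNReal

variable {Ψ : ℝ → ℝ}

/-- The vertices of the sphere. -/
noncomputable def qv (Ψ : ℝ → ℝ) (c : Bool → ℝ) (i : Bool × Fin 4 × Fin 4) : E 4 :=
  TT Ψ (Real.arcsin (c i.1)) (π / 4 + (pos i.2.1 i.2.2 : ℝ) * (π / 6))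

theorem sq_cl2_of {x : ℝ} (h : 1 / 2 ≤ |x|) : cl2 (2 * x) ^ 2 = 1 := by
  rcases le_abs.1 h with h | h
  · rw [cl2_of_one_le (by linarith)]
    norm_num
  · rw [cl2_of_le_neg_one (by linarith)]
    norm_num

theorem edge_of {s : sphere (0 : W3) 1} (h : 1 / 2 ≤ rad s) :
    cl2 (2 * s.1.2.1) ^ 2 = 1 ∨ cl2 (2 * s.1.2.2) ^ 2 = 1 := by
  rcases le_max_iff.1 h with h | h
  · exact Or.inl (sq_cl2_of h)
  · exact Or.inr (sq_cl2_of h)

theorem close (hΨ : Prof Ψ) {c : Bool → ℝ} (hc : ∀ b, c b ∈ Icc (-1 : ℝ) 1)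
    (hc0 : ∀ b, Ψ (c b) ≠ 0)
    (hcc : ∀ b b', |Real.arcsin (c b) - Real.arcsin (c b')| < π / 12)
    (s : sphere (0 : W3) 1) {i j : Bool × Fin 4 × Fin 4} (hi : wt s i ≠ 0) (hj : wt s j ≠ 0) :
    dM (surf Ψ) (qv Ψ c i) (qv Ψ c j) < ENNReal.ofReal (2 * π / 3) := by
  obtain ⟨b, k, e⟩ := i
  obtain ⟨b', k', e'⟩ := j
  have hπ := Real.pi_pos
  have i3 := right_ne_zero_of_mul hi
  have i1 := left_ne_zero_of_mul (left_ne_zero_of_mul hi)
  have i2 := right_ne_zero_of_mul (left_ne_zero_of_mul hi)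
  have j3 := right_ne_zero_of_mul hj
  have j1 := left_ne_zero_of_mul (left_ne_zero_of_mul hj)
  have j2 := right_ne_zero_of_mul (left_ne_zero_of_mul hj)
  simp only at i1 i2 i3 j1 j2 j3
  by_cases hb : b = b'
  · subst hb
    have hρ : rho Ψ (Real.sin (Real.arcsin (c b))) < 1 := by
      rw [Real.sin_arcsin (hc b).1 (hc b).2]
      exact rho_lt (hc0 b)
    have hρ0 := rho_ge hΨ (Real.sin (Real.arcsin (c b)))
    obtain ⟨n, hn⟩ : ∃ n : ℤ, |pos k e + n * 12 - pos k' e'| ≤ 4 := by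
      by_cases hk : k = 3 ∧ k' = 3
      · refine ⟨0, ?_⟩
        obtain ⟨rfl, rfl⟩ := hk
        have : ∀ e e' : Fin 4, |pos 3 e + 0 * 12 - pos 3 e'| ≤ 4 := by decide
        exact this e e'
      · have ht : 6 * (1 - rad s) < 3 := by
          rw [not_and_or] at hk
          rcases hk with hk | hk
          · exact stage_lt hk i2
          · exact stage_lt hk j2
        obtain ⟨n, _, hn⟩ := pos_close k k' e e' (stage_adj i2 j2)
          (corner_adj (edge_of (by linarith)) i3 j3)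
        exact ⟨n, hn⟩
    have hn' : |(pos k e : ℝ) + n * 12 - pos k' e'| ≤ 4 := by exact_mod_cast hn
    rw [qv, qv, ← TT_periodic _ _ n]
    refine lt_of_le_of_lt (dM_circle hΨ _ _ _) ?_
    rw [ENNReal.ofReal_lt_ofReal_iff (by positivity)]
    simp only
    have h1 : π / 4 + (pos k e : ℝ) * (π / 6) + n * (2 * π) -
        (π / 4 + (pos k' e' : ℝ) * (π / 6)) =
        ((pos k e : ℝ) + n * 12 - pos k' e') * (π / 6) := by ring
    rw [h1, abs_mul, abs_of_pos (show 0 < π / 6 by positivity)]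
    calc rho Ψ (Real.sin (Real.arcsin (c b))) *
          (|(pos k e : ℝ) + n * 12 - pos k' e'| * (π / 6)) ≤
          rho Ψ (Real.sin (Real.arcsin (c b))) * (4 * (π / 6)) := by
          apply mul_le_mul_of_nonneg_left _ (by linarith)
          exact mul_le_mul_of_nonneg_right hn' (by positivity)
      _ < 1 * (4 * (π / 6)) := mul_lt_mul_of_pos_right hρ (by positivity)
      _ = 2 * π / 3 := by ring
  · have hτ : |s.1.1| ≠ 1 := by
      intro h
      rcases abs_eq (zero_le_one) |>.1 h with h | h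
      · have : side s.1.1 false = 0 := by
          show (1 - s.1.1) / 2 = 0
          rw [h]
          norm_num
        cases b <;> cases b'
        · exact hb rfl
        · exact i1 this
        · exact j1 this
        · exact hb rfl
      · have : side s.1.1 true = 0 := by
          show (1 + s.1.1) / 2 = 0
          rw [h]
          norm_num
        cases b <;> cases b'
        · exact hb rfl
        · exact j1 this
        · exact i1 this
        · exact hb rfl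
    have hR : rad s = 1 := by
      rcases (sphere_facts s).2.2.2 with h | h
      · exact absurd h hτ
      · exact h
    rw [hR, sub_self, mul_zero] at i2 j2
    have hk := stage_zero i2
    have hk' := stage_zero j2
    subst hk hk'
    obtain ⟨n, _, hn⟩ := pos_close_zero e e' (corner_adj (edge_of (by linarith)) i3 j3)
    have hn' : |(pos 0 e : ℝ) + n * 12 - pos 0 e'| ≤ 3 := by exact_mod_cast hn
    rw [qv, qv, ← TT_periodic _ _ n]
    refine lt_of_le_of_lt (dM_general hΨ _ _ _ _) ?_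
    rw [ENNReal.ofReal_lt_ofReal_iff (by positivity)]
    simp only
    have h1 : π / 4 + (pos 0 e : ℝ) * (π / 6) + n * (2 * π) -
        (π / 4 + (pos 0 e' : ℝ) * (π / 6)) =
        ((pos 0 e : ℝ) + n * 12 - pos 0 e') * (π / 6) := by ring
    rw [h1, abs_mul, abs_of_pos (show 0 < π / 6 by positivity)]
    have h2 := hcc b b'
    have h3 : |(pos 0 e : ℝ) + n * 12 - pos 0 e'| * (π / 6) ≤ 3 * (π / 6) :=
      mul_le_mul_of_nonneg_right hn' (by positivity)
    linarith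

theorem isCpx_VR {N : ℕ} (M X : Set (E N)) (r : ℝ) : IsCpx (VR M X r) := by
  rintro s ⟨h1, h2, h3⟩
  exact ⟨h1, fun t ht hne => ⟨hne, fun x hx => h2 (ht hx),
    fun x hx y hy => h3 x (ht hx) y (ht hy)⟩⟩

theorem proj_qv {c : Bool → ℝ} (hc : ∀ b, c b ∈ Icc (-1 : ℝ) 1)
    (i : Bool × Fin 4 × Fin 4) : proj (qv Ψ c i) =
      (c i.1, rho Ψ (c i.1) * Real.cos (π / 4 + (pos i.2.1 i.2.2 : ℝ) * (π / 6)),
        rho Ψ (c i.1) * Real.sin (π / 4 + (pos i.2.1 i.2.2 : ℝ) * (π / 6))) := by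
  have h : Real.sin (Real.arcsin (c i.1)) = c i.1 := Real.sin_arcsin (hc _).1 (hc _).2
  rw [proj, qv, TT_one, TT_two, TT_three, h]

theorem stage_zero_eq : stage 0 = ![1, 0, 0, 0] := by
  have h1 : cl 0 = 0 := cl_of_nonpos le_rfl
  have h2 : cl (0 - 1) = 0 := cl_of_nonpos (by norm_num)
  have h3 : cl (0 - 2) = 0 := cl_of_nonpos (by norm_num)
  rw [stage, h1, h2, h3]
  norm_num

theorem cos_pos (j : Fin 4) : Real.cos (π / 4 + (pos 0 j : ℝ) * (π / 6)) =
    (![1, -1, -1, 1] : Fin 4 → ℝ) j * (√2 / 2) := by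
  fin_cases j
  · show Real.cos (π / 4 + ((0 : ℤ) : ℝ) * (π / 6)) = 1 * (√2 / 2)
    rw [Int.cast_zero, zero_mul, add_zero, Real.cos_pi_div_four, one_mul]
  · show Real.cos (π / 4 + ((3 : ℤ) : ℝ) * (π / 6)) = -1 * (√2 / 2)
    rw [show π / 4 + ((3 : ℤ) : ℝ) * (π / 6) = π / 4 + π / 2 by push_cast; ring,
      Real.cos_add_pi_div_two, Real.sin_pi_div_four]
    ring
  · show Real.cos (π / 4 + ((6 : ℤ) : ℝ) * (π / 6)) = -1 * (√2 / 2)
    rw [show π / 4 + ((6 : ℤ) : ℝ) * (π / 6) = π / 4 + π by push_cast; ring,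
      Real.cos_add_pi, Real.cos_pi_div_four]
    ring
  · show Real.cos (π / 4 + ((9 : ℤ) : ℝ) * (π / 6)) = 1 * (√2 / 2)
    rw [show π / 4 + ((9 : ℤ) : ℝ) * (π / 6) = (π / 4 + π / 2) + π by push_cast; ring,
      Real.cos_add_pi, Real.cos_add_pi_div_two, Real.sin_pi_div_four]
    ring

theorem sin_pos (j : Fin 4) : Real.sin (π / 4 + (pos 0 j : ℝ) * (π / 6)) =
    (![1, 1, -1, -1] : Fin 4 → ℝ) j * (√2 / 2) := by
  fin_cases j
  · show Real.sin (π / 4 + ((0 : ℤ) : ℝ) * (π / 6)) = 1 * (√2 / 2)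
    rw [Int.cast_zero, zero_mul, add_zero, Real.sin_pi_div_four, one_mul]
  · show Real.sin (π / 4 + ((3 : ℤ) : ℝ) * (π / 6)) = 1 * (√2 / 2)
    rw [show π / 4 + ((3 : ℤ) : ℝ) * (π / 6) = π / 4 + π / 2 by push_cast; ring,
      Real.sin_add_pi_div_two, Real.cos_pi_div_four]
    ring
  · show Real.sin (π / 4 + ((6 : ℤ) : ℝ) * (π / 6)) = -1 * (√2 / 2)
    rw [show π / 4 + ((6 : ℤ) : ℝ) * (π / 6) = π / 4 + π by push_cast; ring,
      Real.sin_add_pi, Real.sin_pi_div_four]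
    ring
  · show Real.sin (π / 4 + ((9 : ℤ) : ℝ) * (π / 6)) = -1 * (√2 / 2)
    rw [show π / 4 + ((9 : ℤ) : ℝ) * (π / 6) = (π / 4 + π / 2) + π by push_cast; ring,
      Real.sin_add_pi, Real.sin_add_pi_div_two, Real.cos_pi_div_four]
    ring

/-- The first coordinate of the map of the sphere. -/
theorem first_coord {c : Bool → ℝ} (hc : ∀ b, c b ∈ Icc (-1 : ℝ) 1) (s : sphere (0 : W3) 1) :
    (∑ i, wt s i • proj (qv Ψ c i)).1 = (1 + s.1.1) / 2 * c true + (1 - s.1.1) / 2 * c false := by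
  rw [Prod.fst_sum]
  have h1 : ∀ i, (wt s i • proj (qv Ψ c i)).1 = wt s i • c i.1 := by
    intro i
    rw [proj_qv hc]
    rfl
  simp only [h1]
  rw [sum_wt s (fun i => c i.1)]
  simp only [← Finset.sum_smul, corner_sum, stage_sum, one_smul]
  rw [Fintype.sum_bool]
  rfl

/-- The other coordinates on the lateral part of the sphere. -/
theorem other_coords {c : Bool → ℝ} (hc : ∀ b, c b ∈ Icc (-1 : ℝ) 1) (s : sphere (0 : W3) 1)
    (hs : rad s = 1) :
    (∑ i, wt s i • proj (qv Ψ c i)).2 =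
      (((1 + s.1.1) / 2 * rho Ψ (c true) + (1 - s.1.1) / 2 * rho Ψ (c false)) * (√2 / 2)) •
        ((cl2 (2 * s.1.2.1), cl2 (2 * s.1.2.2)) : ℝ × ℝ) := by
  rw [Prod.snd_sum]
  have h1 : ∀ i, (wt s i • proj (qv Ψ c i)).2 =
      wt s i • ((rho Ψ (c i.1) * Real.cos (π / 4 + (pos i.2.1 i.2.2 : ℝ) * (π / 6)),
        rho Ψ (c i.1) * Real.sin (π / 4 + (pos i.2.1 i.2.2 : ℝ) * (π / 6))) : ℝ × ℝ) := by
    intro i
    rw [proj_qv hc]
    rfl
  simp only [h1]
  rw [sum_wt s (fun i => ((rho Ψ (c i.1) * Real.cos (π / 4 + (pos i.2.1 i.2.2 : ℝ) * (π / 6)),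
        rho Ψ (c i.1) * Real.sin (π / 4 + (pos i.2.1 i.2.2 : ℝ) * (π / 6))) : ℝ × ℝ))]
  rw [hs, sub_self, mul_zero, stage_zero_eq]
  simp only [Fin.sum_univ_four, Matrix.cons_val_zero, Matrix.cons_val_one, Matrix.cons_val,
    one_smul, zero_smul, add_zero, cos_pos, sin_pos]
  rw [Fintype.sum_bool]
  simp only [corner, side, Matrix.cons_val_zero, Matrix.cons_val_one, Matrix.cons_val]
  apply Prod.ext
  · simp only [Prod.smul_mk, Prod.mk_add_mk, smul_eq_mul]
    ring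
  · simp only [Prod.smul_mk, Prod.mk_add_mk, smul_eq_mul]
    ring

end Pool.Agent.R796.BC
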