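import Mathlib
import Pool.Agent.R796.BCParam

/-!
# The surface is a closed connected manifold; finite dense subsets
-/

set_option autoImplicit false

namespace Pool.Agent.R796.BC

open Set Topology Metric
open scoped ContDiff Real ENNReal

variable {Ψ : ℝ → ℝ}

theorem surf_eq_image (hΨ : Prof Ψ) :
    surf Ψ = (fun p : ℝ × ℝ => TT Ψ p.1 p.2) '' (Icc (-π) π ×ˢ Icc (-π) π) := by
  ext x
  constructor
  · intro hx
    obtain ⟨φ, hφ, θ, hθ, rfl⟩ := surf_eq hΨ hx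
    exact ⟨(φ, θ), ⟨hφ, hθ⟩, rfl⟩
  · rintro ⟨p, _, rfl⟩
    exact TT_mem hΨ _ _

theorem isCompact_surf (hΨ : Prof Ψ) : IsCompact (surf Ψ) := by
  rw [surf_eq_image hΨ]
  exact (isCompact_Icc.prod isCompact_Icc).image (continuous_TT hΨ continuous_fst continuous_snd)

theorem isConnected_surf (hΨ : Prof Ψ) : IsConnected (surf Ψ) := by
  rw [surf_eq_image hΨ]
  have hπ := Real.pi_pos
  have h : IsConnected (Icc (-π) π) := isConnected_Icc (by linarith)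
  exact (h.prod h).image _ (continuous_TT hΨ continuous_fst continuous_snd).continuousOn

/-- The defining equations of the surface. -/
noncomputable def FF (Ψ : ℝ → ℝ) (x : E 4) : E 2 :=
  !₂[x 0 ^ 2 + x 1 ^ 2 - 1, x 2 ^ 2 + x 3 ^ 2 - 1 + Ψ (x 1) ^ 2]

theorem contDiff_coord (i : Fin 4) : ContDiff ℝ ∞ (fun x : E 4 => x i) :=
  (EuclideanSpace.proj (𝕜 := ℝ) (ι := Fin 4) i).contDiff

theorem contDiff_FF (hΨ : Prof Ψ) : ContDiff ℝ ∞ (FF Ψ) := by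
  rw [contDiff_euclidean]
  intro i
  fin_cases i
  · show ContDiff ℝ ∞ (fun x : E 4 => x 0 ^ 2 + x 1 ^ 2 - 1)
    exact (((contDiff_coord 0).pow 2).add ((contDiff_coord 1).pow 2)).sub contDiff_const
  · show ContDiff ℝ ∞ (fun x : E 4 => x 2 ^ 2 + x 3 ^ 2 - 1 + Ψ (x 1) ^ 2)
    exact ((((contDiff_coord 2).pow 2).add ((contDiff_coord 3).pow 2)).sub contDiff_const).add
      ((hΨ.smooth.comp (contDiff_coord 1)).pow 2)

theorem surf_eq_zero : surf Ψ = {x | FF Ψ x = 0} := by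
  ext x
  rw [mem_ofPred_eq]
  constructor
  · rintro ⟨h1, h2⟩
    ext i
    fin_cases i
    · show x 0 ^ 2 + x 1 ^ 2 - 1 = 0
      linarith
    · show x 2 ^ 2 + x 3 ^ 2 - 1 + Ψ (x 1) ^ 2 = 0
      linarith
  · intro h
    have h1 : x 0 ^ 2 + x 1 ^ 2 - 1 = 0 := congrArg (fun y : E 2 => y 0) h
    have h2 : x 2 ^ 2 + x 3 ^ 2 - 1 + Ψ (x 1) ^ 2 = 0 := congrArg (fun y : E 2 => y 1) h
    exact ⟨by linarith, by linarith⟩

theorem hasDeriv_coord (x u : E 4) (i : Fin 4) :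
    HasDerivAt (fun t : ℝ => (x + t • u) i) (u i) 0 := by
  have h : (fun t : ℝ => (x + t • u) i) = fun t : ℝ => x i + t * u i := by
    funext t
    simp
  rw [h]
  simpa using ((hasDerivAt_id (0 : ℝ)).mul_const (u i)).const_add (x i)

theorem surjective_FF (hΨ : Prof Ψ) {x : E 4} (hx : x ∈ surf Ψ) :
    Function.Surjective (fderiv ℝ (FF Ψ) x) := by
  obtain ⟨h1, h2⟩ := hx
  have hb := abs_le.1 (hΨ.bound (x 1))
  have h3 : 0 < 1 - Ψ (x 1) ^ 2 := by nlinarith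
  have hd : HasFDerivAt (FF Ψ) (fderiv ℝ (FF Ψ) x) x :=
    ((contDiff_FF hΨ).differentiable (by simp) x).hasFDerivAt
  have hder : ∀ u : E 4, ∀ i : Fin 2, HasDerivAt (fun t : ℝ => (FF Ψ (x + t • u)) i)
      ((fderiv ℝ (FF Ψ) x u) i) 0 := by
    intro u i
    have e1 : HasDerivAt (fun t : ℝ => x + t • u) u 0 := by
      simpa using ((hasDerivAt_id (0 : ℝ)).smul_const u).const_add x
    have hd' : HasFDerivAt (FF Ψ) (fderiv ℝ (FF Ψ) x) (x + (0 : ℝ) • u) := by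
      simpa using hd
    have e2 := hd'.comp_hasDerivAt (0 : ℝ) e1
    exact ((EuclideanSpace.proj (𝕜 := ℝ) (ι := Fin 2) i).hasFDerivAt).comp_hasDerivAt (0 : ℝ) e2
  intro y
  have hΨd : HasDerivAt Ψ (deriv Ψ (x 1)) (x 1) :=
    (hΨ.smooth.differentiable (by simp) (x 1)).hasDerivAt
  obtain ⟨α, hα⟩ : ∃ α : ℝ, 2 * α = y 0 := ⟨y 0 / 2, by ring⟩
  obtain ⟨β, hβ⟩ : ∃ β : ℝ, 2 * β * (1 - Ψ (x 1) ^ 2) +
      2 * Ψ (x 1) * (deriv Ψ (x 1) * (α * x 1)) = y 1 := by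
    refine ⟨(y 1 - 2 * Ψ (x 1) * (deriv Ψ (x 1) * (α * x 1))) / (2 * (1 - Ψ (x 1) ^ 2)), ?_⟩
    field_simp
    ring
  refine ⟨!₂[α * x 0, α * x 1, β * x 2, β * x 3], ?_⟩
  set u : E 4 := !₂[α * x 0, α * x 1, β * x 2, β * x 3] with hu
  have u0 : u 0 = α * x 0 := rfl
  have u1 : u 1 = α * x 1 := rfl
  have u2 : u 2 = β * x 2 := rfl
  have u3 : u 3 = β * x 3 := rfl
  have c0 := hasDeriv_coord x u 0
  have c1 := hasDeriv_coord x u 1
  have c2 := hasDeriv_coord x u 2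
  have c3 := hasDeriv_coord x u 3
  have x0 : ∀ i, (x + (0 : ℝ) • u) i = x i := by intro i; simp
  have hΨd' : HasDerivAt Ψ (deriv Ψ (x 1)) ((x + (0 : ℝ) • u) 1) := by rwa [x0]
  ext i
  fin_cases i
  · have d := hder u 0
    have d' : HasDerivAt (fun t : ℝ => (FF Ψ (x + t • u)) 0)
        (((2 : ℕ) : ℝ) * ((x + (0 : ℝ) • u) 0) ^ (2 - 1) * u 0 +
          ((2 : ℕ) : ℝ) * ((x + (0 : ℝ) • u) 1) ^ (2 - 1) * u 1) 0 :=
      ((c0.pow 2).add (c1.pow 2)).sub_const 1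
    have := d.unique d'
    show (fderiv ℝ (FF Ψ) x u) 0 = y 0
    rw [this, x0, x0, u0, u1, ← hα]
    push_cast
    linear_combination 2 * α * h1
  · have d := hder u 1
    have d' : HasDerivAt (fun t : ℝ => (FF Ψ (x + t • u)) 1)
        ((((2 : ℕ) : ℝ) * ((x + (0 : ℝ) • u) 2) ^ (2 - 1) * u 2 +
          ((2 : ℕ) : ℝ) * ((x + (0 : ℝ) • u) 3) ^ (2 - 1) * u 3) +
          ((2 : ℕ) : ℝ) * (Ψ ((x + (0 : ℝ) • u) 1)) ^ (2 - 1) * (deriv Ψ (x 1) * u 1)) 0 :=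
      (((c2.pow 2).add (c3.pow 2)).sub_const 1).add ((hΨd'.comp (0 : ℝ) c1).pow 2)
    have := d.unique d'
    show (fderiv ℝ (FF Ψ) x u) 1 = y 1
    rw [this, x0, x0, x0, u1, u2, u3, ← hβ]
    push_cast
    linear_combination 2 * β * h2

theorem isClosedManifold_surf (hΨ : Prof Ψ) : IsClosedManifold 2 (surf Ψ) :=
  ⟨isCompact_surf hΨ, isConnected_surf hΨ, FF Ψ, contDiff_FF hΨ, surf_eq_zero,
    fun _ hx => surjective_FF hΨ hx⟩

theorem exists_net (hΨ : Prof Ψ) {ε : ℝ} (hε : 0 < ε) : ∃ X : Set (E 4), X ⊆ surf Ψ ∧ X.Finite ∧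
    ∀ m ∈ surf Ψ, ∃ x ∈ X, dM (surf Ψ) m x < ENNReal.ofReal ε := by
  have hc : IsCompact (Icc (-π) π ×ˢ Icc (-π) π : Set (ℝ × ℝ)) := isCompact_Icc.prod isCompact_Icc
  obtain ⟨t, hts, htf, ht⟩ := hc.finite_cover_balls (e := ε / 4) (by positivity)
  refine ⟨(fun p : ℝ × ℝ => TT Ψ p.1 p.2) '' t, ?_, htf.image _, ?_⟩
  · rintro _ ⟨p, _, rfl⟩
    exact TT_mem hΨ _ _
  · intro m hm
    rw [surf_eq_image hΨ] at hm
    obtain ⟨p, hp, rfl⟩ := hm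
    obtain ⟨q, hq, hpq⟩ := mem_iUnion₂.1 (ht hp)
    refine ⟨_, ⟨q, hq, rfl⟩, ?_⟩
    refine (dM_general hΨ p.1 q.1 p.2 q.2).trans_lt ?_
    rw [ENNReal.ofReal_lt_ofReal_iff hε]
    rw [mem_ball, Prod.dist_eq, Real.dist_eq, Real.dist_eq, max_lt_iff] at hpq
    linarith [hpq.1, hpq.2]

end Pool.Agent.R796.BC
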