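import Mathlib
import Pool.Agent.R796.BCMain

/-!
# The Vietoris-Rips complex of the surface is not homotopy equivalent to a compact space
-/

set_option autoImplicit false

namespace Pool.Agent.R796.BC

open Set Topology Metric
open scoped ContDiff Real ENNReal

variable {Ψ : ℝ → ℝ}

theorem arcsin_le {c : ℝ} (h0 : 0 ≤ c) (h1 : c ≤ 1) : Real.arcsin c ≤ π / 2 * c := by
  have h2 := Real.mul_le_sin (Real.arcsin_nonneg.2 h0) (Real.arcsin_le_pi_div_two c)
  rw [Real.sin_arcsin (by linarith) h1] at h2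
  have hπ := Real.pi_pos
  have h3 : π / 2 * (2 / π * Real.arcsin c) = Real.arcsin c := by field_simp
  calc Real.arcsin c = π / 2 * (2 / π * Real.arcsin c) := h3.symm
    _ ≤ π / 2 * c := mul_le_mul_of_nonneg_left h2 (by positivity)

theorem exists_sphere (hΨ : Prof Ψ) {a η : ℝ} (hη : 0 < η) (hηa : η < a) (ha : a + η < 1 / 6)
    (h1 : Ψ (a + η) ≠ 0) (h2 : Ψ (a - η) ≠ 0)
    (hp : ∀ t : Realization (VR (surf Ψ) (surf Ψ) (2 * π / 3)), ext proj t ≠ (a, 0, 0))
    (hp0 : ∀ t : Realization (VR (surf Ψ) (surf Ψ) (2 * π / 3)), ext proj t ≠ (0, 0, 0)) :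
    ∃ u : C(sphere (0 : W3) 1, Realization (VR (surf Ψ) (surf Ψ) (2 * π / 3))),
      (inclS W3).Homotopic ((off proj (a, 0, 0) hp).comp u) ∧
      ∃ c : Pun W3, ((off proj (0, 0, 0) hp0).comp u).Homotopic (ContinuousMap.const _ c) := by
  classical
  have hπ := Real.pi_pos
  let c : Bool → ℝ := fun b => if b then a + η else a - η
  have hct : c true = a + η := rfl
  have hcf : c false = a - η := rfl
  have hc : ∀ b, c b ∈ Icc (-1 : ℝ) 1 := by
    intro b
    cases b
    · rw [hcf]; constructor <;> linarith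
    · rw [hct]; constructor <;> linarith
  have hc0 : ∀ b, Ψ (c b) ≠ 0 := by
    intro b
    cases b
    · exact h2
    · exact h1
  have harc : ∀ b, 0 ≤ Real.arcsin (c b) ∧ Real.arcsin (c b) < π / 12 := by
    intro b
    have h3 : 0 ≤ c b ∧ c b < 1 / 6 := by
      cases b
      · rw [hcf]; constructor <;> linarith
      · rw [hct]; constructor <;> linarith
    refine ⟨Real.arcsin_nonneg.2 h3.1, ?_⟩
    have h4 := arcsin_le h3.1 (by linarith)
    nlinarith
  have hcc : ∀ b b', |Real.arcsin (c b) - Real.arcsin (c b')| < π / 12 := by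
    intro b b'
    rw [abs_lt]
    have := harc b
    have := harc b'
    constructor <;> linarith
  obtain ⟨u, hu⟩ := exists_map (isCpx_VR (surf Ψ) (surf Ψ) (2 * π / 3)) (qv Ψ c) wt
    continuous_wt wt_nonneg wt_sum (by
      intro s
      refine ⟨(Finset.univ.filter fun i => wt s i ≠ 0).image (qv Ψ c), ⟨?_, ?_, ?_⟩, ?_⟩
      · rw [Finset.image_nonempty]
        by_contra hcon
        rw [Finset.not_nonempty_iff_eq_empty, Finset.filter_eq_empty_iff] at hcon
        have h3 := wt_sum s
        rw [Finset.sum_eq_zero (fun i hi => by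
          have := hcon hi
          push Not at this
          exact this)] at h3
        exact zero_ne_one h3
      · intro x hx
        rw [Finset.coe_image] at hx
        obtain ⟨i, _, rfl⟩ := hx
        exact TT_mem hΨ _ _
      · intro x hx y hy
        obtain ⟨i, hi, rfl⟩ := Finset.mem_image.1 hx
        obtain ⟨j, hj, rfl⟩ := Finset.mem_image.1 hy
        exact close hΨ hc hc0 hcc s (Finset.mem_filter.1 hi).2 (Finset.mem_filter.1 hj).2
      · intro i hi
        exact Finset.mem_image_of_mem _ (Finset.mem_filter.2 ⟨Finset.mem_univ _, hi⟩))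
  have hfirst : ∀ s, (ext proj (u s)).1 = a + η * s.1.1 := by
    intro s
    rw [hu, first_coord hc, hct, hcf]
    ring
  refine ⟨u, ?_, ⟨(1, 0, 0), by simp⟩, ?_⟩
  · apply homotopic_of_line
    intro s b hb0 hb1 hcon
    have e0 : (1 - b) • s.1 + b • (ext proj (u s) - (a, 0, 0)) = 0 := hcon
    have e1 := congrArg Prod.fst e0
    have e2 := congrArg (fun q => q.2.1) e0
    have e3 := congrArg (fun q => q.2.2) e0
    simp only [Prod.fst_add, Prod.smul_fst, Prod.fst_sub, Prod.fst_zero, smul_eq_mul,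
      hfirst] at e1
    have hfac : 0 < (1 - b) + b * η := by
      rcases hb1.lt_or_eq with h | h
      · have : 0 ≤ b * η := by positivity
        linarith
      · rw [h]
        linarith
    have hτ : s.1.1 = 0 := by
      have : ((1 - b) + b * η) * s.1.1 = 0 := by linarith
      rcases mul_eq_zero.1 this with h | h
      · exact absurd h hfac.ne'
      · exact h
    have hR : rad s = 1 := by
      rcases (sphere_facts s).2.2.2 with h | h
      · rw [hτ, abs_zero] at h
        exact absurd h zero_ne_one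
      · exact h
    have h3 := other_coords (Ψ := Ψ) hc s hR
    rw [← hu proj s] at h3
    set R := ((1 + s.1.1) / 2 * rho Ψ (c true) + (1 - s.1.1) / 2 * rho Ψ (c false)) * (√2 / 2)
      with hRdef
    have hR0 : 0 < R := by
      rw [hRdef, hτ]
      have := rho_ge hΨ (c true)
      have := rho_ge hΨ (c false)
      have : 0 < √2 / 2 := by positivity
      apply mul_pos _ this
      linarith
    have e2' : (1 - b) * s.1.2.1 + b * (R * cl2 (2 * s.1.2.1)) = 0 := by
      have := e2
      simp only [Prod.snd_add, Prod.fst_add, Prod.smul_snd, Prod.smul_fst, Prod.snd_sub,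
        Prod.fst_sub, Prod.snd_zero, Prod.fst_zero, smul_eq_mul, h3, sub_zero] at this
      exact this
    have e3' : (1 - b) * s.1.2.2 + b * (R * cl2 (2 * s.1.2.2)) = 0 := by
      have := e3
      simp only [Prod.snd_add, Prod.smul_snd, Prod.snd_sub,
        Prod.snd_zero, smul_eq_mul, h3, sub_zero] at this
      exact this
    have hgen : ∀ x : ℝ, |x| = 1 → (1 - b) * x + b * (R * cl2 (2 * x)) ≠ 0 := by
      intro x hx
      have hfac2 : 0 < (1 - b) + b * R := by
        rcases hb1.lt_or_eq with h | h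
        · have : 0 ≤ b * R := by positivity
          linarith
        · rw [h]
          linarith
      rcases (abs_eq zero_le_one).1 hx with rfl | rfl
      · rw [cl2_of_one_le (by norm_num)]
        linarith
      · rw [cl2_of_le_neg_one (by norm_num)]
        linarith
    rcases max_choice |s.1.2.1| |s.1.2.2| with h | h
    · rw [rad, h] at hR
      exact hgen _ hR e2'
    · rw [rad, h] at hR
      exact hgen _ hR e3'
  · apply homotopic_of_line
    intro s b hb0 hb1 hcon
    have e0 : (1 - b) • (ext proj (u s) - (0, 0, 0)) + b • ((1, 0, 0) : W3) = 0 := hcon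
    have e1 := congrArg Prod.fst e0
    simp only [Prod.fst_add, Prod.smul_fst, Prod.fst_sub, Prod.fst_zero, smul_eq_mul,
      hfirst] at e1
    have h3 := (abs_le.1 (sphere_facts s).1)
    have h4 : 0 < a + η * s.1.1 := by nlinarith
    rcases hb1.lt_or_eq with h | h
    · have : 0 < (1 - b) * (a + η * s.1.1) := mul_pos (by linarith) h4
      linarith
    · rw [h] at e1
      linarith

/-- Levels near `0`. -/
theorem exists_levels (hΨ : Prof Ψ) {δ : ℝ} (hδ : 0 < δ) : ∃ a η : ℝ, 0 < η ∧ η < a ∧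
    a + η < 1 / 6 ∧ a < δ ∧ Ψ a = 0 ∧ Ψ (a + η) ≠ 0 ∧ Ψ (a - η) ≠ 0 := by
  obtain ⟨k, hk⟩ := exists_nat_gt (max 12 (1 / δ))
  have hk12 : (12 : ℝ) < k := (le_max_left _ _).trans_lt hk
  have hkδ : 1 / δ < k := (le_max_right _ _).trans_lt hk
  have hk1 : (0 : ℝ) < k + 1 := by linarith
  have hk2 : (0 : ℝ) < (k : ℝ) + 2 := by linarith
  have hη0 : 0 < 1 / (2 * ((k : ℝ) + 1) * (k + 2)) := by positivity
  have e1 : 1 / ((k : ℝ) + 1) - 1 / (k + 2) = 2 * (1 / (2 * ((k : ℝ) + 1) * (k + 2))) := by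
    field_simp
    ring
  have e2 : 1 / (k : ℝ) - 1 / (k + 1) = 1 / (k * (k + 1)) := by
    field_simp
    ring
  have e3 : 1 / (2 * ((k : ℝ) + 1) * (k + 2)) < 1 / (k * (k + 1)) := by
    apply one_div_lt_one_div_of_lt (by positivity)
    nlinarith
  have e4 : 0 < 1 / ((k : ℝ) + 2) := by positivity
  have e5 : 1 / ((k : ℝ) + 1) < 1 / 13 := one_div_lt_one_div_of_lt (by norm_num) (by linarith)
  have hno : ∀ x : ℝ, 0 < x → (∀ j : ℕ, x ≠ 1 / ((j : ℝ) + 1)) → Ψ x ≠ 0 := by
    intro x hx hj h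
    rcases (hΨ.zero x).1 h with rfl | ⟨j, rfl⟩
    · exact lt_irrefl _ hx
    · exact hj j rfl
  refine ⟨1 / ((k : ℝ) + 1), 1 / (2 * ((k : ℝ) + 1) * (k + 2)), hη0, by linarith, by linarith,
    ?_, ?_, ?_, ?_⟩
  · rw [div_lt_iff₀ hk1]
    rw [div_lt_iff₀ hδ] at hkδ
    nlinarith
  · exact (hΨ.zero _).2 (Or.inr ⟨k, rfl⟩)
  · apply hno _ (by positivity)
    intro j hj
    have h1 : 1 / ((k : ℝ) + 1) < 1 / ((j : ℝ) + 1) := by linarith
    have h2 : 1 / ((j : ℝ) + 1) < 1 / (k : ℝ) := by linarith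
    have h3 : (j : ℝ) + 1 < k + 1 := lt_of_one_div_lt_one_div (by positivity) h1
    have h4 : (k : ℝ) < j + 1 := lt_of_one_div_lt_one_div (by positivity) h2
    have h5 : j < k := by exact_mod_cast (by linarith : (j : ℝ) < k)
    have h6 : k < j + 1 := by exact_mod_cast h4
    omega
  · apply hno _ (by linarith)
    intro j hj
    have h1 : 1 / ((j : ℝ) + 1) < 1 / ((k : ℝ) + 1) := by linarith
    have h2 : 1 / ((k : ℝ) + 2) < 1 / ((j : ℝ) + 1) := by linarith
    have h3 : (k : ℝ) + 1 < j + 1 := lt_of_one_div_lt_one_div (by positivity) h1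
    have h4 : (j : ℝ) + 1 < k + 2 := lt_of_one_div_lt_one_div (by positivity) h2
    have h5 : k < j := by exact_mod_cast (by linarith : (k : ℝ) < j)
    have h6 : j + 1 < k + 2 := by exact_mod_cast h4
    omega

/-- The Vietoris-Rips complex of the surface at scale `2π/3` is not homotopy equivalent to a
compact space. -/
theorem not_compact (hΨ : Prof Ψ) (Y : Type*) [TopologicalSpace Y] [CompactSpace Y] :
    ¬ Nonempty (ContinuousMap.HomotopyEquiv Y
      (Realization (VR (surf Ψ) (surf Ψ) (2 * π / 3)))) := by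
  have h0 : Ψ 0 = 0 := (hΨ.zero 0).2 (Or.inl rfl)
  have hp0 : ∀ t : Realization (VR (surf Ψ) (surf Ψ) (2 * π / 3)), ext proj t ≠ (0, 0, 0) :=
    fun t => ext_ne hΨ t h0
  apply not_equiv_compact proj (0, 0, 0) hp0
  intro δ hδ
  obtain ⟨a, η, hη, hηa, ha, haδ, ha0, h1, h2⟩ := exists_levels hΨ hδ
  have hp : ∀ t : Realization (VR (surf Ψ) (surf Ψ) (2 * π / 3)), ext proj t ≠ (a, 0, 0) :=
    fun t => ext_ne hΨ t ha0
  obtain ⟨u, hu1, hu2⟩ := exists_sphere hΨ hη hηa ha h1 h2 hp hp0
  refine ⟨(a, 0, 0), hp, u, ?_, hu1, hu2⟩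
  have : ((a, 0, 0) : W3) - (0, 0, 0) = (a, 0, 0) :=
    Prod.ext (sub_zero _) (Prod.ext (sub_zero _) (sub_zero _))
  rw [this, Prod.norm_def, Prod.norm_def]
  simp only [norm_zero, max_self]
  rw [max_eq_left (norm_nonneg _), Real.norm_eq_abs, abs_of_pos (by linarith)]
  exact haδ

end Pool.Agent.R796.BC
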