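import Mathlib

/-!
# The closed form of the payoff of the symmetrized disc game, local analysis
-/

open Real Filter Topology Set

namespace Pool.Agent.R796.Disc

/-- the cosine of half the opening angle of the arc of the circle of radius `s` inside the disc of
radius `c` centred at distance `t` -/
noncomputable def U (c s t : ℝ) : ℝ := (s ^ 2 + t ^ 2 - c ^ 2) / (2 * s * t)

/-- closed form of the payoff -/
noncomputable def kk (c s t : ℝ) : ℝ :=
  if s = 0 then (if t ≤ c then 1 else 0)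
  else if t = 0 then (if s ≤ c then 1 else 0)
  else arccos (U c s t) / π

lemma U_symm (c s t : ℝ) : U c s t = U c t s := by
  unfold U
  congr 1 <;> ring

lemma kk_pos_eq {c s t : ℝ} (hs : 0 < s) (ht : 0 < t) : kk c s t = arccos (U c s t) / π := by
  unfold kk
  rw [if_neg hs.ne', if_neg ht.ne']

lemma kk_symm {c s t : ℝ} (hs : 0 < s) (ht : 0 < t) : kk c s t = kk c t s := by
  rw [kk_pos_eq hs ht, kk_pos_eq ht hs, U_symm]

lemma kk_nonneg (c s t : ℝ) : 0 ≤ kk c s t := by
  unfold kk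
  split_ifs
  · norm_num
  · norm_num
  · norm_num
  · norm_num
  · exact div_nonneg (arccos_nonneg _) pi_pos.le

lemma kk_le_one (c s t : ℝ) : kk c s t ≤ 1 := by
  unfold kk
  split_ifs
  · norm_num
  · norm_num
  · norm_num
  · norm_num
  · rw [div_le_one pi_pos]
    exact arccos_le_pi _

lemma one_sub_U {c s t : ℝ} (hs : 0 < s) (ht : 0 < t) :
    1 - U c s t = (c ^ 2 - (s - t) ^ 2) / (2 * s * t) := by
  unfold U
  field_simp
  ring

lemma one_add_U {c s t : ℝ} (hs : 0 < s) (ht : 0 < t) :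
    1 + U c s t = ((s + t) ^ 2 - c ^ 2) / (2 * s * t) := by
  unfold U
  field_simp
  ring

lemma U_lt_one {c s t : ℝ} (hs : 0 < s) (ht : 0 < t) (h : |s - t| < c) : U c s t < 1 := by
  have h1 := one_sub_U (c := c) hs ht
  have h2 : (s - t) ^ 2 < c ^ 2 := by
    rw [← sq_abs (s - t)]
    exact pow_lt_pow_left₀ h (abs_nonneg _) (by norm_num)
  have h3 : 0 < (c ^ 2 - (s - t) ^ 2) / (2 * s * t) := div_pos (by linarith) (by positivity)
  linarith

lemma neg_one_lt_U {c s t : ℝ} (hc : 0 < c) (hs : 0 < s) (ht : 0 < t) (h : c < s + t) :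
    -1 < U c s t := by
  have h1 := one_add_U (c := c) hs ht
  have h3 : 0 < ((s + t) ^ 2 - c ^ 2) / (2 * s * t) := div_pos (by nlinarith) (by positivity)
  linarith

lemma one_le_U {c s t : ℝ} (hc : 0 < c) (hs : 0 < s) (ht : 0 < t) (h : c ≤ |s - t|) :
    1 ≤ U c s t := by
  have h1 := one_sub_U (c := c) hs ht
  have h2 : c ^ 2 ≤ (s - t) ^ 2 := by
    rw [← sq_abs (s - t)]
    exact pow_le_pow_left₀ hc.le h 2
  have h3 : (c ^ 2 - (s - t) ^ 2) / (2 * s * t) ≤ 0 :=
    div_nonpos_of_nonpos_of_nonneg (by linarith) (by positivity)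
  linarith

lemma U_le_neg_one {c s t : ℝ} (hs : 0 < s) (ht : 0 < t) (h : s + t ≤ c) :
    U c s t ≤ -1 := by
  have h1 := one_add_U (c := c) hs ht
  have h3 : ((s + t) ^ 2 - c ^ 2) / (2 * s * t) ≤ 0 :=
    div_nonpos_of_nonpos_of_nonneg (by nlinarith) (by positivity)
  linarith

lemma kk_eq_zero {c s t : ℝ} (hc : 0 < c) (hs : 0 < s) (ht : 0 < t) (h : c ≤ |s - t|) :
    kk c s t = 0 := by
  rw [kk_pos_eq hs ht, arccos_eq_zero.mpr (one_le_U hc hs ht h), zero_div]

lemma kk_eq_one {c s t : ℝ} (hs : 0 < s) (ht : 0 < t) (h : s + t ≤ c) :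
    kk c s t = 1 := by
  rw [kk_pos_eq hs ht, arccos_eq_pi.mpr (U_le_neg_one hs ht h), div_self pi_pos.ne']

lemma kk_zero_left (c t : ℝ) : kk c 0 t = if t ≤ c then 1 else 0 := by
  unfold kk
  rw [if_pos rfl]

lemma kk_zero_right {c s : ℝ} (hc : 0 < c) : kk c s 0 = if s ≤ c then 1 else 0 := by
  unfold kk
  by_cases hs : s = 0
  · subst hs
    simp [hc.le]
  · rw [if_neg hs, if_pos rfl]

/-- `kk` is antitone in the second variable if the first one is at most `c` -/
lemma kk_anti {c s t t' : ℝ} (hc : 0 < c) (hs : 0 ≤ s) (hsc : s ≤ c) (ht : 0 ≤ t) (htt : t ≤ t') :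
    kk c s t' ≤ kk c s t := by
  rcases hs.eq_or_lt with hs | hs
  · subst hs
    rw [kk_zero_left, kk_zero_left]
    split_ifs with h1 h2
    · exact le_rfl
    · exact absurd (htt.trans h1) h2
    · norm_num
    · exact le_rfl
  · rcases ht.eq_or_lt with ht | ht
    · subst ht
      rw [kk_zero_right hc, if_pos hsc]
      exact kk_le_one _ _ _
    · have ht' : 0 < t' := ht.trans_le htt
      rw [kk_pos_eq hs ht, kk_pos_eq hs ht']
      apply div_le_div_of_nonneg_right _ pi_pos.le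
      apply arccos_le_arccos
      have h1 : U c s t' - U c s t = (t' - t) * (t * t' + (c ^ 2 - s ^ 2)) / (2 * s * t * t') := by
        unfold U
        field_simp
        ring
      have h2 : 0 ≤ (t' - t) * (t * t' + (c ^ 2 - s ^ 2)) / (2 * s * t * t') := by
        apply div_nonneg
        · apply mul_nonneg (by linarith)
          have : s ^ 2 ≤ c ^ 2 := pow_le_pow_left₀ hs.le hsc 2
          have : 0 < t * t' := mul_pos ht ht'
          linarith
        · positivity
      linarith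

/-- the second angle -/
noncomputable def Z (c s t : ℝ) : ℝ := (t ^ 2 + c ^ 2 - s ^ 2) / (2 * t * c)

lemma one_sub_sq_U {c s t : ℝ} (hc : 0 < c) (hs : 0 < s) (ht : 0 < t) :
    1 - U c s t ^ 2 = (c / s) ^ 2 * (1 - Z c s t ^ 2) := by
  unfold U Z
  field_simp
  ring

lemma hasDerivAt_arccos_U {c s t : ℝ} (hc : 0 < c) (hs : 0 < s) (ht : 0 < t)
    (h1 : |s - t| < c) (h2 : c < s + t) :
    HasDerivAt (fun τ => arccos (U c s τ)) (-(1 / t) * tan (arcsin (Z c s t))) t := by
  have hU1 := U_lt_one hs ht h1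
  have hU2 := neg_one_lt_U hc hs ht h2
  have hdU : HasDerivAt (fun τ => U c s τ) (c * Z c s t / (s * t)) t := by
    have h3 : HasDerivAt (fun τ : ℝ => (s ^ 2 + τ ^ 2 - c ^ 2) / (2 * s * τ))
        (((2 * t) * (2 * s * t) - (s ^ 2 + t ^ 2 - c ^ 2) * (2 * s)) / (2 * s * t) ^ 2) t := by
      have h4 : HasDerivAt (fun τ : ℝ => s ^ 2 + τ ^ 2 - c ^ 2) (2 * t) t := by
        have := ((hasDerivAt_pow 2 t).const_add (s ^ 2)).sub_const (c ^ 2)
        simpa using this
      have h5 : HasDerivAt (fun τ : ℝ => 2 * s * τ) (2 * s) t := by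
        have := (hasDerivAt_id t).const_mul (2 * s)
        simpa using this
      exact h4.div h5 (by positivity)
    have h6 : ((2 * t) * (2 * s * t) - (s ^ 2 + t ^ 2 - c ^ 2) * (2 * s)) / (2 * s * t) ^ 2
        = c * Z c s t / (s * t) := by
      unfold Z
      field_simp
      ring
    rw [h6] at h3
    exact h3
  have h3 := (Real.hasDerivAt_arccos (ne_of_gt hU2) (ne_of_lt hU1)).comp t hdU
  have h4 : -(1 / √(1 - U c s t ^ 2)) * (c * Z c s t / (s * t)) =
      -(1 / t) * tan (arcsin (Z c s t)) := by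
    rw [tan_arcsin, one_sub_sq_U hc hs ht, Real.sqrt_mul (by positivity),
      Real.sqrt_sq (by positivity)]
    have hpos : 0 < √(1 - Z c s t ^ 2) := by
      apply Real.sqrt_pos.mpr
      have h5 := one_sub_sq_U hc hs ht
      have h6 : 0 < 1 - U c s t ^ 2 := by nlinarith
      rw [h5] at h6
      exact (pos_iff_pos_of_mul_pos h6).mp (by positivity)
    field_simp
  rw [h4] at h3
  exact h3

lemma abs_Z_lt_one {c s t : ℝ} (hc : 0 < c) (hs : 0 < s) (ht : 0 < t)
    (h1 : |s - t| < c) (h2 : c < s + t) : -1 < Z c s t ∧ Z c s t < 1 := by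
  have hU1 := U_lt_one hs ht h1
  have hU2 := neg_one_lt_U hc hs ht h2
  have h5 := one_sub_sq_U hc hs ht
  have h6 : 0 < 1 - U c s t ^ 2 := by nlinarith
  rw [h5] at h6
  have h7 : 0 < 1 - Z c s t ^ 2 := (pos_iff_pos_of_mul_pos h6).mp (by positivity)
  constructor <;> nlinarith

lemma Z_lt {c s t t' : ℝ} (hc : 0 < c) (ht : c < t) (htt : t < t') :
    Z c s t < Z c s t' := by
  have ht0 : 0 < t := hc.trans ht
  have ht0' : 0 < t' := ht0.trans htt
  have h1 : Z c s t' - Z c s t = (t' - t) * (t * t' - c ^ 2 + s ^ 2) / (2 * c * t * t') := by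
    unfold Z
    field_simp
    ring
  have h2 : 0 < (t' - t) * (t * t' - c ^ 2 + s ^ 2) / (2 * c * t * t') := by
    apply div_pos
    · apply mul_pos (by linarith)
      nlinarith [sq_nonneg s]
    · positivity
  linarith

lemma tan_arcsin_Z_lt {c s t t' : ℝ} (hc : 0 < c) (hs : 0 < s) (ht : c < t) (htt : t < t')
    (h1 : |s - t| < c) (h1' : |s - t'| < c) :
    tan (arcsin (Z c s t)) < tan (arcsin (Z c s t')) := by
  have ht0 : 0 < t := hc.trans ht
  have ht0' : 0 < t' := ht0.trans htt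
  obtain ⟨ha, hb⟩ := abs_Z_lt_one hc hs ht0 h1 (by linarith)
  obtain ⟨ha', hb'⟩ := abs_Z_lt_one hc hs ht0' h1' (by linarith)
  have h3 : arcsin (Z c s t) < arcsin (Z c s t') :=
    Real.strictMonoOn_arcsin ⟨ha.le, hb.le⟩ ⟨ha'.le, hb'.le⟩ (Z_lt hc ht htt)
  apply Real.tan_lt_tan_of_lt_of_lt_pi_div_two
  · exact (Real.neg_pi_div_two_lt_arcsin).mpr ha
  · exact Real.arcsin_lt_pi_div_two.mpr hb'
  · exact h3

end Pool.Agent.R796.Disc
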