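import Mathlib
import Pool.Agent.R796.Disc1

/-!
# One sided Lipschitz bounds and square root singularities
-/

open Real Filter Topology Set

namespace Pool.Agent.R796.Disc

/-- `f` is at least `f x₀ - C |x - x₀|` along the filter -/
def LowLip (f : ℝ → ℝ) (x₀ : ℝ) (l : Filter ℝ) : Prop :=
  ∃ C : ℝ, 0 ≤ C ∧ ∀ᶠ x in l, f x₀ - C * |x - x₀| ≤ f x

lemma LowLip.sum {ι : Type*} (A : Finset ι) (w : ι → ℝ) (hw : ∀ i ∈ A, 0 ≤ w i)
    (f : ι → ℝ → ℝ) (x₀ : ℝ) (l : Filter ℝ) (h : ∀ i ∈ A, LowLip (f i) x₀ l) :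
    LowLip (fun x => ∑ i ∈ A, w i * f i x) x₀ l := by
  classical
  induction A using Finset.induction_on with
  | empty => exact ⟨0, le_rfl, by simp⟩
  | insert a s ha ih =>
    obtain ⟨C, hC, h1⟩ := ih (fun i hi => hw i (Finset.mem_insert_of_mem hi))
      (fun i hi => h i (Finset.mem_insert_of_mem hi))
    obtain ⟨D, hD, h2⟩ := h a (Finset.mem_insert_self a s)
    have hwa := hw a (Finset.mem_insert_self a s)
    refine ⟨w a * D + C, by positivity, ?_⟩
    filter_upwards [h1, h2] with x h3 h4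
    simp only [Finset.sum_insert ha]
    have h5 := mul_le_mul_of_nonneg_left h4 hwa
    nlinarith

lemma LowLip.of_hasDerivAt {f : ℝ → ℝ} {f' x₀ : ℝ} (h : HasDerivAt f f' x₀) {l : Filter ℝ}
    (hl : l ≤ 𝓝 x₀) : LowLip f x₀ l := by
  obtain ⟨C, hC⟩ := h.hasFDerivAt.isBigO_sub.bound
  refine ⟨|C|, abs_nonneg _, ?_⟩
  filter_upwards [hl hC] with x hx
  rw [Real.norm_eq_abs, Real.norm_eq_abs] at hx
  have h1 := neg_abs_le (f x - f x₀)
  have h2 : C * |x - x₀| ≤ |C| * |x - x₀| :=
    mul_le_mul_of_nonneg_right (le_abs_self C) (abs_nonneg _)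
  linarith

lemma LowLip.of_le {f : ℝ → ℝ} {x₀ : ℝ} {l : Filter ℝ} (h : ∀ᶠ x in l, f x₀ ≤ f x) :
    LowLip f x₀ l := by
  refine ⟨0, le_rfl, ?_⟩
  filter_upwards [h] with x hx
  simpa using hx

/-- a square root beats a Lipschitz error -/
lemma sqrt_beats {l : Filter ℝ} [NeBot l] {x₀ : ℝ} (hl : l ≤ 𝓝 x₀)
    (hne : ∀ᶠ x in l, x ≠ x₀) {f g : ℝ → ℝ} (hf : LowLip f x₀ l) {κ : ℝ} (hκ : 0 < κ)
    (hg : ∀ᶠ x in l, κ * √|x - x₀| ≤ g x)
    (h : ∀ᶠ x in l, f x + g x ≤ f x₀) : False := by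
  obtain ⟨C, hC, hf⟩ := hf
  have hlim : Tendsto (fun x : ℝ => C * √|x - x₀|) l (𝓝 0) := by
    have h1 : Tendsto (fun x : ℝ => C * √|x - x₀|) (𝓝 x₀) (𝓝 (C * √|x₀ - x₀|)) := by
      apply Continuous.tendsto
      fun_prop
    simp only [sub_self, abs_zero, Real.sqrt_zero, mul_zero] at h1
    exact h1.mono_left hl
  have hev : ∀ᶠ x in l, C * √|x - x₀| < κ := hlim.eventually (gt_mem_nhds hκ)
  obtain ⟨x, h1, h2, h3, h4, h5⟩ := (hne.and (hf.and (hg.and (h.and hev)))).exists
  have hpos : 0 < |x - x₀| := abs_pos.mpr (sub_ne_zero.mpr h1)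
  have hs : 0 < √|x - x₀| := Real.sqrt_pos.mpr hpos
  have hsq : √|x - x₀| * √|x - x₀| = |x - x₀| := Real.mul_self_sqrt hpos.le
  nlinarith

/-- `arccos` has a square root singularity at `1` -/
lemma sqrt_le_arccos {u : ℝ} (hu : -1 ≤ u) : √(2 * (1 - u)) ≤ arccos u := by
  rcases le_or_gt u 1 with h | h
  · have h1 : 1 - (arccos u) ^ 2 / 2 ≤ cos (arccos u) := Real.one_sub_sq_div_two_le_cos
    rw [cos_arccos hu h] at h1
    rw [Real.sqrt_le_left (arccos_nonneg u)]
    linarith
  · rw [Real.sqrt_eq_zero_of_nonpos (by linarith)]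
    exact arccos_nonneg u

/-- left lower Lipschitz bound: always true -/
lemma lowLip_left {c s₀ t : ℝ} (hc : 0 < c) (hs₀ : 0 < s₀) (ht : 0 ≤ t) :
    LowLip (fun s => kk c s t) s₀ (𝓝[<] s₀) := by
  have hev : ∀ᶠ s in 𝓝[<] s₀, 0 < s ∧ s < s₀ := Ioo_mem_nhdsLT hs₀
  rcases ht.eq_or_lt with ht | ht
  · subst ht
    apply LowLip.of_le
    filter_upwards [hev] with s hs
    simp only [kk_zero_right hc]
    split_ifs with h1 h2
    · exact le_rfl
    · exact absurd (hs.2.le.trans h1) h2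
    · norm_num
    · exact le_rfl
  · by_cases htc : t ≤ c
    · apply LowLip.of_le
      filter_upwards [hev] with s hs
      rw [kk_symm hs₀ ht, kk_symm hs.1 ht]
      exact kk_anti hc ht.le htc hs.1.le hs.2.le
    · push Not at htc
      by_cases h : c ≤ |s₀ - t|
      · apply LowLip.of_le
        filter_upwards with s
        rw [kk_eq_zero hc hs₀ ht h]
        exact kk_nonneg _ _ _
      · push Not at h
        have h1 : |t - s₀| < c := by rwa [abs_sub_comm]
        have h2 := hasDerivAt_arccos_U hc ht hs₀ h1 (by linarith)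
        have h3 : HasDerivAt (fun s => kk c s t) (-(1 / s₀) * tan (arcsin (Z c t s₀)) / π) s₀ := by
          apply (h2.div_const π).congr_of_eventuallyEq
          filter_upwards [lt_mem_nhds hs₀] with s hs
          rw [kk_symm hs ht, kk_pos_eq ht hs]
        exact LowLip.of_hasDerivAt h3 nhdsWithin_le_nhds

/-- right lower Lipschitz bound: true unless `s₀ + t = c` -/
lemma lowLip_right {c s₀ t : ℝ} (hc : 0 < c) (hs₀ : 0 < s₀) (ht : 0 ≤ t) (hne : s₀ + t ≠ c) :
    LowLip (fun s => kk c s t) s₀ (𝓝[>] s₀) := by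
  have hev : ∀ᶠ s in 𝓝[>] s₀, s₀ < s := self_mem_nhdsWithin
  rcases ht.eq_or_lt with ht | ht
  · subst ht
    rw [add_zero] at hne
    apply LowLip.of_le
    rcases lt_or_gt_of_ne hne with h | h
    · have : ∀ᶠ s in 𝓝[>] s₀, s < c := nhdsWithin_le_nhds (gt_mem_nhds h)
      filter_upwards [this] with s hs
      simp only [kk_zero_right hc]
      rw [if_pos h.le, if_pos hs.le]
    · filter_upwards with s
      rw [kk_zero_right hc, if_neg (not_le.mpr h)]
      exact kk_nonneg _ _ _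
  · rcases lt_or_gt_of_ne hne with h | h
    · apply LowLip.of_le
      have : ∀ᶠ s in 𝓝[>] s₀, s < c - t := nhdsWithin_le_nhds (gt_mem_nhds (by linarith))
      filter_upwards [this, hev] with s hs hs'
      rw [kk_eq_one (hs₀.trans hs') ht (by linarith)]
      exact kk_le_one _ _ _
    · by_cases h' : c ≤ |s₀ - t|
      · apply LowLip.of_le
        filter_upwards with s
        rw [kk_eq_zero hc hs₀ ht h']
        exact kk_nonneg _ _ _
      · push Not at h'
        have h1 : |t - s₀| < c := by rwa [abs_sub_comm]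
        have h2 := hasDerivAt_arccos_U hc ht hs₀ h1 (by linarith)
        have h3 : HasDerivAt (fun s => kk c s t) (-(1 / s₀) * tan (arcsin (Z c t s₀)) / π) s₀ := by
          apply (h2.div_const π).congr_of_eventuallyEq
          filter_upwards [lt_mem_nhds hs₀] with s hs
          rw [kk_symm hs ht, kk_pos_eq ht hs]
        exact LowLip.of_hasDerivAt h3 nhdsWithin_le_nhds

/-- right upper Lipschitz bound in the second variable: true unless `s = t₀ + c` -/
lemma upLip_right {c s t₀ : ℝ} (hc : 0 < c) (hs : 0 ≤ s) (ht₀ : 0 < t₀) (hne : s ≠ t₀ + c) :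
    LowLip (fun t => - kk c s t) t₀ (𝓝[>] t₀) := by
  have hev : ∀ᶠ t in 𝓝[>] t₀, t₀ < t := self_mem_nhdsWithin
  by_cases hsc : s ≤ c
  · apply LowLip.of_le
    filter_upwards [hev] with t ht
    exact neg_le_neg (kk_anti hc hs hsc ht₀.le ht.le)
  · push Not at hsc
    have hs' : 0 < s := hc.trans hsc
    by_cases h1 : |s - t₀| < c
    · have h2 := hasDerivAt_arccos_U hc hs' ht₀ h1 (by linarith)
      have h3 : HasDerivAt (fun t => - kk c s t)
          (-(-(1 / t₀) * tan (arcsin (Z c s t₀)) / π)) t₀ := by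
        apply (h2.div_const π).neg.congr_of_eventuallyEq
        filter_upwards [lt_mem_nhds ht₀] with t ht
        rw [kk_pos_eq hs' ht]
        rfl
      exact LowLip.of_hasDerivAt h3 nhdsWithin_le_nhds
    · push Not at h1
      apply LowLip.of_le
      rcases le_abs.mp h1 with h2 | h2
      · have h3 : c < s - t₀ := lt_of_le_of_ne h2 (fun h => hne (by linarith))
        have : ∀ᶠ t in 𝓝[>] t₀, t < s - c := nhdsWithin_le_nhds (gt_mem_nhds (by linarith))
        filter_upwards [this, hev] with t ht ht'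
        rw [kk_eq_zero hc hs' (ht₀.trans ht') (by rw [le_abs]; left; linarith)]
        simp only [neg_zero, Left.neg_nonpos_iff]
        exact kk_nonneg _ _ _
      · filter_upwards [hev] with t ht'
        rw [kk_eq_zero hc hs' (ht₀.trans ht') (by rw [le_abs]; right; linarith)]
        simp only [neg_zero, Left.neg_nonpos_iff]
        exact kk_nonneg _ _ _

end Pool.Agent.R796.Disc
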