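import Mathlib
import Pool.Agent.R796.Disc2

/-!
# A finitely supported saddle point puts no mass of BLUE on the radii in `(c, 1)`
-/

open Real Filter Topology Set

namespace Pool.Agent.R796.Disc

/-- `(v, x)` and `(w, y)` are finitely supported strategies of RED and BLUE, the first one
guarantees `V` to RED, the second one guarantees `V` to BLUE -/
structure Pair {ι κ : Type*} (c V : ℝ) (A : Finset ι) (B : Finset κ) (x v : ι → ℝ)
    (y w : κ → ℝ) : Prop where
  hc : 0 < c
  hv : ∀ i ∈ A, 0 < v i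
  hx0 : ∀ i ∈ A, 0 ≤ x i
  hx1 : ∀ i ∈ A, x i ≤ 1
  hvs : ∑ i ∈ A, v i = 1
  hw : ∀ j ∈ B, 0 < w j
  hy0 : ∀ j ∈ B, 0 ≤ y j
  hy1 : ∀ j ∈ B, y j ≤ 1
  hws : ∑ j ∈ B, w j = 1
  hF : ∀ t, 0 ≤ t → t ≤ 1 → V ≤ ∑ i ∈ A, v i * kk c (x i) t
  hP : ∀ s, 0 ≤ s → s ≤ 1 → ∑ j ∈ B, w j * kk c s (y j) ≤ V

variable {ι κ : Type*} {c V : ℝ} {A : Finset ι} {B : Finset κ} {x v : ι → ℝ} {y w : κ → ℝ}

lemma Pair.slack (h : Pair c V A B x v y w) :
    (∀ j ∈ B, ∑ i ∈ A, v i * kk c (x i) (y j) = V) ∧
      (∀ i ∈ A, ∑ j ∈ B, w j * kk c (x i) (y j) = V) := by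
  have h1 : ∀ j ∈ B, 0 ≤ w j * (∑ i ∈ A, v i * kk c (x i) (y j) - V) := fun j hj =>
    mul_nonneg (h.hw j hj).le (sub_nonneg.mpr (h.hF _ (h.hy0 j hj) (h.hy1 j hj)))
  have h2 : ∀ i ∈ A, 0 ≤ v i * (V - ∑ j ∈ B, w j * kk c (x i) (y j)) := fun i hi =>
    mul_nonneg (h.hv i hi).le (sub_nonneg.mpr (h.hP _ (h.hx0 i hi) (h.hx1 i hi)))
  have h3 : ∑ j ∈ B, w j * (∑ i ∈ A, v i * kk c (x i) (y j) - V) +
      ∑ i ∈ A, v i * (V - ∑ j ∈ B, w j * kk c (x i) (y j)) = 0 := by
    have e1 : ∑ j ∈ B, w j * (∑ i ∈ A, v i * kk c (x i) (y j) - V) =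
        ∑ j ∈ B, ∑ i ∈ A, w j * (v i * kk c (x i) (y j)) - V := by
      simp only [mul_sub, Finset.sum_sub_distrib, Finset.mul_sum]
      rw [← Finset.sum_mul, h.hws, one_mul]
    have e2 : ∑ i ∈ A, v i * (V - ∑ j ∈ B, w j * kk c (x i) (y j)) =
        V - ∑ i ∈ A, ∑ j ∈ B, v i * (w j * kk c (x i) (y j)) := by
      simp only [mul_sub, Finset.sum_sub_distrib, Finset.mul_sum]
      rw [← Finset.sum_mul, h.hvs, one_mul]
    have e3 : ∑ j ∈ B, ∑ i ∈ A, w j * (v i * kk c (x i) (y j)) =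
        ∑ i ∈ A, ∑ j ∈ B, v i * (w j * kk c (x i) (y j)) := by
      rw [Finset.sum_comm]
      exact Finset.sum_congr rfl fun i _ => Finset.sum_congr rfl fun j _ => by ring
    rw [e1, e2, e3]
    ring
  have h4 := Finset.sum_nonneg h1
  have h5 := Finset.sum_nonneg h2
  have h6 := (Finset.sum_eq_zero_iff_of_nonneg h1).mp (by linarith)
  have h7 := (Finset.sum_eq_zero_iff_of_nonneg h2).mp (by linarith)
  constructor
  · intro j hj
    rcases mul_eq_zero.mp (h6 j hj) with h8 | h8
    · exact absurd h8 (h.hw j hj).ne'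
    · linarith
  · intro i hi
    rcases mul_eq_zero.mp (h7 i hi) with h8 | h8
    · exact absurd h8 (h.hv i hi).ne'
    · linarith

lemma kk_self_pos {c t : ℝ} (hc : 0 < c) (ht : 0 ≤ t) : 0 < kk c t t := by
  rcases ht.eq_or_lt with ht | ht
  · subst ht
    rw [kk_zero_left, if_pos hc.le]
    norm_num
  · rw [kk_pos_eq ht ht]
    apply div_pos _ pi_pos
    rw [arccos_pos]
    exact U_lt_one ht ht (by simpa using hc)

lemma Pair.V_pos (h : Pair c V A B x v y w) : 0 < V := by
  have hne : B.Nonempty := by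
    by_contra hB
    rw [Finset.not_nonempty_iff_eq_empty] at hB
    have := h.hws
    rw [hB] at this
    simp at this
  obtain ⟨j, hj⟩ := hne
  have h1 := h.hP (y j) (h.hy0 j hj) (h.hy1 j hj)
  have h2 : w j * kk c (y j) (y j) ≤ ∑ k ∈ B, w k * kk c (y j) (y k) :=
    Finset.single_le_sum (f := fun k => w k * kk c (y j) (y k))
      (fun k hk => mul_nonneg (h.hw k hk).le (kk_nonneg _ _ _)) hj
  have h3 := mul_pos (h.hw j hj) (kk_self_pos h.hc (h.hy0 j hj))
  linarith

/-- no coincidence `x i = y j + c` -/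
lemma Pair.c1 (h : Pair c V A B x v y w) {i : ι} (hi : i ∈ A) {j : κ} (hj : j ∈ B)
    (hyj : 0 < y j) : x i ≠ y j + c := by
  classical
  intro heq
  have hc := h.hc
  have hs0 : 0 < x i := by linarith
  have hwj := h.hw j hj
  have hκ : 0 < w j * √(c / (x i * y j)) / π := by positivity
  have hev : ∀ᶠ s in 𝓝[<] (x i), max (x i - c) (x i - 2 * y j) < s ∧ s < x i :=
    Ioo_mem_nhdsLT (max_lt (by linarith) (by linarith))
  refine sqrt_beats (l := 𝓝[<] (x i)) (x₀ := x i) nhdsWithin_le_nhds ?_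
    (LowLip.sum (B.erase j) w (fun k hk => (h.hw k (Finset.mem_of_mem_erase hk)).le)
      (fun k s => kk c s (y k)) (x i) _
      (fun k hk => lowLip_left hc hs0 (h.hy0 k (Finset.mem_of_mem_erase hk)))) hκ
    (g := fun s => w j * kk c s (y j)) ?_ ?_
  · filter_upwards [hev] with s hs
    exact hs.2.ne
  · filter_upwards [hev] with s hs
    obtain ⟨hs1, hs2⟩ := hs
    have ha := lt_of_le_of_lt (le_max_left _ _) hs1
    have hb := lt_of_le_of_lt (le_max_right _ _) hs1
    have hs' : 0 < s := by linarith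
    rw [kk_pos_eq hs' hyj, abs_of_neg (by linarith : s - x i < 0)]
    have h1 : -1 ≤ U c s (y j) := (neg_one_lt_U hc hs' hyj (by linarith)).le
    have h2 := sqrt_le_arccos h1
    have h3 : c / (x i * y j) * -(s - x i) ≤ 2 * (1 - U c s (y j)) := by
      rw [one_sub_U hs' hyj]
      have e1 : 2 * ((c ^ 2 - (s - y j) ^ 2) / (2 * s * y j)) =
          (c ^ 2 - (s - y j) ^ 2) / (s * y j) := by
        field_simp
      have e2 : c / (x i * y j) * -(s - x i) = (c * (x i - s)) / (x i * y j) := by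
        field_simp
        ring
      rw [e1, e2]
      have h4 : c * (x i - s) ≤ c ^ 2 - (s - y j) ^ 2 := by
        rw [heq] at ha hs2 ⊢
        nlinarith
      apply div_le_div₀ _ h4 (by positivity)
      · exact mul_le_mul_of_nonneg_right hs2.le hyj.le
      · have : 0 ≤ c * (x i - s) := mul_nonneg hc.le (by linarith)
        linarith
    have h4 : √(c / (x i * y j)) * √(-(s - x i)) ≤ arccos (U c s (y j)) := by
      rw [← Real.sqrt_mul (by positivity)]
      exact (Real.sqrt_le_sqrt h3).trans h2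
    have h5 : w j * √(c / (x i * y j)) / π * √(-(s - x i)) =
        w j * ((√(c / (x i * y j)) * √(-(s - x i))) / π) := by ring
    rw [h5]
    apply mul_le_mul_of_nonneg_left _ hwj.le
    exact div_le_div_of_nonneg_right h4 pi_pos.le
  · filter_upwards [hev] with s hs
    obtain ⟨hs1, hs2⟩ := hs
    have ha := lt_of_le_of_lt (le_max_left _ _) hs1
    have h1 := h.hP s (by linarith) (by linarith [h.hx1 i hi])
    have h2 := h.slack.2 i hi
    rw [← Finset.sum_erase_add _ _ hj] at h1 h2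
    rw [kk_eq_zero hc hs0 hyj (by rw [le_abs]; left; linarith), mul_zero, add_zero] at h2
    linarith

/-- no coincidence `x i + y j = c` -/
lemma Pair.c3 (h : Pair c V A B x v y w) (hc1 : c < 1) {i : ι} (hi : i ∈ A) {j : κ} (hj : j ∈ B)
    (hxi : 0 < x i) : x i + y j ≠ c := by
  classical
  intro heq
  have hc := h.hc
  have hvi := h.hv i hi
  rcases (h.hy0 j hj).eq_or_lt with hy | hy
  · -- `y j = 0`, `x i = c`
    have hxc : x i = c := by linarith
    have hF0 := h.slack.1 j hj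
    rw [← hy] at hF0
    have hev : ∀ᶠ τ in 𝓝[>] (0 : ℝ), ∀ k ∈ A, kk c (x k) τ ≤ kk c (x k) 0 := by
      rw [Filter.eventually_all_finset]
      intro k hk
      by_cases hk' : x k ≤ c
      · filter_upwards [self_mem_nhdsWithin] with τ hτ
        exact kk_anti hc (h.hx0 k hk) hk' le_rfl (le_of_lt hτ)
      · push Not at hk'
        have : ∀ᶠ τ in 𝓝[>] (0 : ℝ), τ < x k - c :=
          nhdsWithin_le_nhds (gt_mem_nhds (by linarith))
        filter_upwards [this, self_mem_nhdsWithin] with τ hτ hτ0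
        rw [kk_eq_zero hc (hc.trans hk') hτ0 (by rw [le_abs]; left; linarith)]
        exact kk_nonneg _ _ _
    have hev1 : ∀ᶠ τ in 𝓝[>] (0 : ℝ), τ < 1 := nhdsWithin_le_nhds (gt_mem_nhds one_pos)
    obtain ⟨τ, hτ, hτ1, hτ0⟩ := (hev.and (hev1.and self_mem_nhdsWithin)).exists
    have hτ0' : (0 : ℝ) < τ := hτ0
    have h1 := h.hF τ hτ0'.le hτ1.le
    rw [← Finset.sum_erase_add _ _ hi] at h1 hF0
    have h2 : ∑ k ∈ A.erase i, v k * kk c (x k) τ ≤ ∑ k ∈ A.erase i, v k * kk c (x k) 0 :=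
      Finset.sum_le_sum fun k hk => mul_le_mul_of_nonneg_left
        (hτ k (Finset.mem_of_mem_erase hk)) (h.hv k (Finset.mem_of_mem_erase hk)).le
    have h3 : kk c (x i) 0 = 1 := by rw [kk_zero_right hc, if_pos hxc.le]
    have h4 : kk c (x i) τ ≤ 1 / 2 := by
      rw [kk_pos_eq hxi hτ0', div_le_div_iff₀ pi_pos (by norm_num)]
      have h5 : 0 ≤ U c (x i) τ := by
        unfold U
        rw [hxc]
        apply div_nonneg _ (by positivity)
        nlinarith
      have h6 : arccos (U c (x i) τ) ≤ arccos 0 := arccos_le_arccos h5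
      rw [arccos_zero] at h6
      linarith
    rw [h3] at hF0
    nlinarith
  · -- `y j > 0`
    have hκ : 0 < v i * √c / π := by positivity
    have hev : ∀ᶠ τ in 𝓝[>] (y j), y j < τ ∧ τ < c := Ioo_mem_nhdsGT (by linarith)
    have hslack := h.slack.1 j hj
    have hone : kk c (x i) (y j) = 1 := kk_eq_one hxi hy heq.le
    refine sqrt_beats (l := 𝓝[>] (y j)) (x₀ := y j) nhdsWithin_le_nhds ?_
      (LowLip.sum (A.erase i) v (fun k hk => (h.hv k (Finset.mem_of_mem_erase hk)).le)
        (fun k τ => - kk c (x k) τ) (y j) _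
        (fun k hk => upLip_right hc (h.hx0 k (Finset.mem_of_mem_erase hk)) hy
          (h.c1 (Finset.mem_of_mem_erase hk) hj hy))) hκ
      (g := fun τ => v i * (1 - kk c (x i) τ)) ?_ ?_
    · filter_upwards [hev] with τ hτ
      exact hτ.1.ne'
    · filter_upwards [hev] with τ hτ
      obtain ⟨hτ1, hτ2⟩ := hτ
      have hτ0 : 0 < τ := hy.trans hτ1
      rw [kk_pos_eq hxi hτ0, abs_of_pos (by linarith : 0 < τ - y j)]
      have h1 : U c (x i) τ < 1 := U_lt_one hxi hτ0 (by rw [abs_lt]; constructor <;> linarith)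
      have h2 := sqrt_le_arccos (u := - U c (x i) τ) (by linarith)
      rw [arccos_neg, sub_neg_eq_add] at h2
      have h3 : c * (τ - y j) ≤ 2 * (1 + U c (x i) τ) := by
        rw [one_add_U hxi hτ0]
        have e1 : 2 * (((x i + τ) ^ 2 - c ^ 2) / (2 * x i * τ)) =
            ((x i + τ) ^ 2 - c ^ 2) / (x i * τ) := by
          field_simp
        rw [e1, le_div_iff₀ (by positivity)]
        have h4 : x i = c - y j := by linarith
        have h5 : c * (τ - y j) ≤ (x i + τ) ^ 2 - c ^ 2 := by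
          rw [h4]
          nlinarith
        have h6 : x i * τ ≤ 1 := by
          have := h.hx1 i hi
          nlinarith
        have h7 : 0 ≤ c * (τ - y j) := mul_nonneg hc.le (by linarith)
        nlinarith
      have h4 : √c * √(τ - y j) ≤ π - arccos (U c (x i) τ) := by
        rw [← Real.sqrt_mul hc.le]
        exact (Real.sqrt_le_sqrt h3).trans h2
      have h5 : v i * √c / π * √(τ - y j) = v i * ((√c * √(τ - y j)) / π) := by ring
      have h6 : 1 - arccos (U c (x i) τ) / π = (π - arccos (U c (x i) τ)) / π := by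
        field_simp
      rw [h5, h6]
      apply mul_le_mul_of_nonneg_left _ hvi.le
      exact div_le_div_of_nonneg_right h4 pi_pos.le
    · filter_upwards [hev] with τ hτ
      obtain ⟨hτ1, hτ2⟩ := hτ
      have h1 := h.hF τ (by linarith) (by linarith)
      rw [← Finset.sum_erase_add _ _ hi] at h1 hslack
      rw [hone] at hslack
      simp only [mul_neg, Finset.sum_neg_distrib]
      linarith

/-- no coincidence `y j = x i + c` -/
lemma Pair.c2 (h : Pair c V A B x v y w) (hc1 : c < 1) {i : ι} (hi : i ∈ A) {j : κ} (hj : j ∈ B)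
    (hxi : 0 < x i) : y j ≠ x i + c := by
  classical
  intro heq
  have hc := h.hc
  have hwj := h.hw j hj
  have hyj : 0 < y j := by linarith
  have hy1 := h.hy1 j hj
  have hκ : 0 < w j * √c / π := by positivity
  have hev : ∀ᶠ s in 𝓝[>] (x i), x i < s ∧ s < y j := Ioo_mem_nhdsGT (by linarith)
  refine sqrt_beats (l := 𝓝[>] (x i)) (x₀ := x i) nhdsWithin_le_nhds ?_
    (LowLip.sum (B.erase j) w (fun k hk => (h.hw k (Finset.mem_of_mem_erase hk)).le)
      (fun k s => kk c s (y k)) (x i) _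
      (fun k hk => lowLip_right hc hxi (h.hy0 k (Finset.mem_of_mem_erase hk))
        (h.c3 hc1 hi (Finset.mem_of_mem_erase hk) hxi))) hκ
    (g := fun s => w j * kk c s (y j)) ?_ ?_
  · filter_upwards [hev] with s hs
    exact hs.1.ne'
  · filter_upwards [hev] with s hs
    obtain ⟨hs1, hs2⟩ := hs
    have hs' : 0 < s := by linarith
    rw [kk_pos_eq hs' hyj, abs_of_pos (by linarith : 0 < s - x i)]
    have h1 : -1 ≤ U c s (y j) := (neg_one_lt_U hc hs' hyj (by linarith)).le
    have h2 := sqrt_le_arccos h1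
    have h3 : c * (s - x i) ≤ 2 * (1 - U c s (y j)) := by
      rw [one_sub_U hs' hyj]
      have e1 : 2 * ((c ^ 2 - (s - y j) ^ 2) / (2 * s * y j)) =
          (c ^ 2 - (s - y j) ^ 2) / (s * y j) := by
        field_simp
      rw [e1, le_div_iff₀ (by positivity)]
      have h4 : c * (s - x i) ≤ c ^ 2 - (s - y j) ^ 2 := by
        rw [heq] at hs2 ⊢
        nlinarith
      have h6 : s * y j ≤ 1 := by nlinarith
      have h7 : 0 ≤ c * (s - x i) := mul_nonneg hc.le (by linarith)
      nlinarith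
    have h4 : √c * √(s - x i) ≤ arccos (U c s (y j)) := by
      rw [← Real.sqrt_mul hc.le]
      exact (Real.sqrt_le_sqrt h3).trans h2
    have h5 : w j * √c / π * √(s - x i) = w j * ((√c * √(s - x i)) / π) := by ring
    rw [h5]
    apply mul_le_mul_of_nonneg_left _ hwj.le
    exact div_le_div_of_nonneg_right h4 pi_pos.le
  · filter_upwards [hev] with s hs
    obtain ⟨hs1, hs2⟩ := hs
    have h1 := h.hP s (by linarith) (by linarith)
    have h2 := h.slack.2 i hi
    rw [← Finset.sum_erase_add _ _ hj] at h1 h2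
    rw [kk_eq_zero hc hxi hyj (by rw [le_abs]; right; linarith), mul_zero, add_zero] at h2
    linarith

end Pool.Agent.R796.Disc
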