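import Mathlib
import Pool.Agent.R796.Disc3

/-!
# No mass of BLUE on the radii in `(c, 1)`, and the contradiction for `c = 1/4`
-/

open Real Filter Topology Set

namespace Pool.Agent.R796.Disc

variable {ι κ : Type*} {c V : ℝ} {A : Finset ι} {B : Finset κ} {x v : ι → ℝ} {y w : κ → ℝ}

lemma Pair.no_mid (h : Pair c V A B x v y w) (hc1 : c < 1) {j : κ} (hj : j ∈ B)
    (h1 : c < y j) (h2 : y j < 1) : False := by
  classical
  have hc := h.hc
  set t := y j with htdef
  have ht : 0 < t := hc.trans h1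
  -- no edges
  have hedge : ∀ i ∈ A, |x i - t| ≠ c := by
    intro i hi heq
    rcases (abs_eq hc.le).mp heq with h3 | h3
    · exact h.c1 hi hj ht (by linarith)
    · exact h.c2 hc1 hi hj (by linarith) (by linarith)
  have hpos : ∀ i ∈ A, |x i - t| < c → 0 < x i := by
    intro i hi h3
    have := (abs_lt.mp h3).1
    linarith
  set A1 := A.filter (fun i => |x i - t| < c) with hA1
  have hmem : ∀ i ∈ A1, i ∈ A ∧ |x i - t| < c := fun i hi => by
    rw [hA1, Finset.mem_filter] at hi
    exact hi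
  -- eventually the same atoms are active
  have hev1 : ∀ᶠ τ in 𝓝 t, ∀ i ∈ A1, |x i - τ| < c := by
    rw [Filter.eventually_all_finset]
    intro i hi
    have hcont : Continuous fun τ : ℝ => |x i - τ| := by fun_prop
    exact hcont.continuousAt.eventually (gt_mem_nhds (hmem i hi).2)
  have hev2 : ∀ᶠ τ in 𝓝 t, ∀ i ∈ A, i ∉ A1 → kk c (x i) τ = 0 := by
    rw [Filter.eventually_all_finset]
    intro i hi
    by_cases hi1 : i ∈ A1
    · exact Filter.Eventually.of_forall fun τ hτ => absurd hi1 hτ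
    · have h3 : c < |x i - t| := by
        have h4 : ¬ |x i - t| < c := fun h5 => hi1 (by
          rw [hA1, Finset.mem_filter]
          exact ⟨hi, h5⟩)
        exact lt_of_le_of_ne (not_lt.mp h4) (fun h5 => hedge i hi h5.symm)
      have hcont : Continuous fun τ : ℝ => |x i - τ| := by fun_prop
      filter_upwards [hcont.continuousAt.eventually (lt_mem_nhds h3), lt_mem_nhds h1]
        with τ hτ hτ1 _
      rcases (h.hx0 i hi).eq_or_lt with h0 | h0
      · rw [← h0, kk_zero_left, if_neg (not_le.mpr hτ1)]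
      · exact kk_eq_zero hc h0 (hc.trans hτ1) hτ.le
  set F1 : ℝ → ℝ := fun τ => ∑ i ∈ A1, v i * arccos (U c (x i) τ) with hF1
  have hev3 : ∀ᶠ τ in 𝓝 t, ∑ i ∈ A, v i * kk c (x i) τ = F1 τ / π := by
    filter_upwards [hev2, lt_mem_nhds h1] with τ hτ hτ1
    have h3 : ∑ i ∈ A, v i * kk c (x i) τ = ∑ i ∈ A1, v i * kk c (x i) τ := by
      symm
      apply Finset.sum_subset (Finset.filter_subset _ _)
      intro i hi hi1
      rw [hτ i hi hi1, mul_zero]
    rw [h3, hF1, Finset.sum_div]
    apply Finset.sum_congr rfl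
    intro i hi
    rw [kk_pos_eq (hpos i (hmem i hi).1 (hmem i hi).2) (hc.trans hτ1)]
    ring
  have hFt : F1 t / π = V := by
    rw [← hev3.self_of_nhds]
    exact h.slack.1 j hj
  -- the derivative
  have hder : ∀ᶠ τ in 𝓝 t, HasDerivAt F1
      (∑ i ∈ A1, v i * (-(1 / τ) * tan (arcsin (Z c (x i) τ)))) τ := by
    filter_upwards [hev1, lt_mem_nhds h1] with τ hτ hτ1
    rw [hF1]
    apply HasDerivAt.fun_sum
    intro i hi
    have hxi := hpos i (hmem i hi).1 (hmem i hi).2
    exact (hasDerivAt_arccos_U hc hxi (hc.trans hτ1) (hτ i hi) (by linarith)).const_mul (v i)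
  have hmin : IsLocalMin F1 t := by
    filter_upwards [hev3, lt_mem_nhds ht, gt_mem_nhds h2] with τ hτ hτ0 hτ1
    have h3 := h.hF τ hτ0.le hτ1.le
    rw [hτ, ← hFt, div_le_div_iff_of_pos_right pi_pos] at h3
    exact h3
  have hzero := hmin.hasDerivAt_eq_zero hder.self_of_nhds
  -- `A1` is nonempty
  have hne : A1.Nonempty := by
    by_contra hA
    rw [Finset.not_nonempty_iff_eq_empty] at hA
    have h3 : F1 t = 0 := by rw [hF1, hA]; simp
    rw [h3, zero_div] at hFt
    exact absurd hFt.symm h.V_pos.ne'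
  -- the sum of the tangents vanishes at `t` and is positive to the right of `t`
  have hzero' : ∑ i ∈ A1, v i * tan (arcsin (Z c (x i) t)) = 0 := by
    have h3 : ∑ i ∈ A1, v i * (-(1 / t) * tan (arcsin (Z c (x i) t))) =
        -(1 / t) * ∑ i ∈ A1, v i * tan (arcsin (Z c (x i) t)) := by
      rw [Finset.mul_sum]
      exact Finset.sum_congr rfl fun i _ => by ring
    rw [h3] at hzero
    rcases mul_eq_zero.mp hzero with h4 | h4
    · exfalso
      have : 0 < 1 / t := by positivity
      linarith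
    · exact h4
  obtain ⟨δ, hδ, hball⟩ := Metric.eventually_nhds_iff.mp
    (hev1.and (hder.and (hev3.and (gt_mem_nhds h2))))
  have hmem' : ∀ τ, t ≤ τ → τ ≤ t + δ / 2 → dist τ t < δ := by
    intro τ h3 h4
    rw [Real.dist_eq, abs_of_nonneg (by linarith)]
    linarith
  have hanti : StrictAntiOn F1 (Icc t (t + δ / 2)) := by
    apply strictAntiOn_of_deriv_neg (convex_Icc _ _)
    · intro τ hτ
      exact (hball (hmem' τ hτ.1 hτ.2)).2.1.continuousAt.continuousWithinAt
    · intro τ hτ
      rw [interior_Icc] at hτ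
      have hb := hball (hmem' τ hτ.1.le hτ.2.le)
      rw [hb.2.1.deriv]
      have h3 : ∑ i ∈ A1, v i * (-(1 / τ) * tan (arcsin (Z c (x i) τ))) =
          -(1 / τ) * ∑ i ∈ A1, v i * tan (arcsin (Z c (x i) τ)) := by
        rw [Finset.mul_sum]
        exact Finset.sum_congr rfl fun i _ => by ring
      rw [h3]
      have hτ0 : 0 < τ := ht.trans hτ.1
      have h4 : 0 < ∑ i ∈ A1, v i * tan (arcsin (Z c (x i) τ)) := by
        rw [← hzero']
        apply Finset.sum_lt_sum_of_nonempty hne
        intro i hi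
        have hxi := hpos i (hmem i hi).1 (hmem i hi).2
        exact mul_lt_mul_of_pos_left
          (tan_arcsin_Z_lt hc hxi h1 hτ.1 (hmem i hi).2 (hb.1 i hi)) (h.hv i (hmem i hi).1)
      have h5 : 0 < 1 / τ := by positivity
      nlinarith
  have hlt := hanti (left_mem_Icc.mpr (by linarith)) (right_mem_Icc.mpr (by linarith))
    (by linarith : t < t + δ / 2)
  have hb := hball (hmem' (t + δ / 2) (by linarith) le_rfl)
  have h3 := h.hF (t + δ / 2) (by linarith) hb.2.2.2.le
  rw [hb.2.2.1, ← hFt, div_le_div_iff_of_pos_right pi_pos] at h3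
  linarith

/-- the payoff against the boundary circle, at most `arcsin c / π` -/
lemma kk_one_le {c s : ℝ} (hc : 0 < c) (hc1 : c < 1) (hs : 0 ≤ s) :
    kk c s 1 ≤ arcsin c / π := by
  rcases hs.eq_or_lt with h0 | h0
  · rw [← h0, kk_zero_left, if_neg (not_le.mpr hc1)]
    exact div_nonneg (arcsin_nonneg.mpr hc.le) pi_pos.le
  · rw [kk_pos_eq h0 one_pos, arcsin_eq_arccos hc.le]
    apply div_le_div_of_nonneg_right _ pi_pos.le
    apply arccos_le_arccos
    unfold U
    have hq : √(1 - c ^ 2) * √(1 - c ^ 2) = 1 - c ^ 2 := Real.mul_self_sqrt (by nlinarith)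
    rw [le_div_iff₀ (by positivity)]
    nlinarith [sq_nonneg (s - √(1 - c ^ 2))]

lemma kk_one_at {c : ℝ} (hc : 0 < c) (hc1 : c < 1) : kk c (√(1 - c ^ 2)) 1 = arcsin c / π := by
  have hq : √(1 - c ^ 2) * √(1 - c ^ 2) = 1 - c ^ 2 := Real.mul_self_sqrt (by nlinarith)
  have hpos : 0 < √(1 - c ^ 2) := Real.sqrt_pos.mpr (by nlinarith)
  rw [kk_pos_eq hpos one_pos, arcsin_eq_arccos hc.le]
  congr 2
  unfold U
  rw [div_eq_iff (by positivity)]
  nlinarith

lemma arcsin_le_mul {z : ℝ} (h0 : 0 ≤ z) (h1 : z ≤ 1) : arcsin z ≤ π / 2 * z := by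
  have h2 := Real.mul_le_sin (arcsin_nonneg.mpr h0) (arcsin_le_pi_div_two z)
  rw [sin_arcsin (by linarith) h1] at h2
  have h3 : 2 / π * arcsin z * (π / 2) ≤ z * (π / 2) :=
    mul_le_mul_of_nonneg_right h2 (by positivity)
  have h4 : 2 / π * arcsin z * (π / 2) = arcsin z := by
    field_simp
  rw [h4] at h3
  linarith

lemma kk_half_le {c s : ℝ} (hc : 0 < c) (hc1 : c ≤ 1 / 4) (hs : 0 ≤ s) :
    kk c s (1 / 2) ≤ c := by
  rcases hs.eq_or_lt with h0 | h0
  · rw [← h0, kk_zero_left, if_neg (by linarith)]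
    exact hc.le
  · rw [kk_pos_eq h0 (by norm_num), div_le_iff₀ pi_pos]
    have h1 : arccos (U c s (1 / 2)) ≤ arcsin (2 * c) := by
      rw [arcsin_eq_arccos (by linarith)]
      apply arccos_le_arccos
      unfold U
      have hq : √(1 - (2 * c) ^ 2) * √(1 - (2 * c) ^ 2) = 1 - (2 * c) ^ 2 :=
        Real.mul_self_sqrt (by nlinarith)
      rw [le_div_iff₀ (by positivity)]
      nlinarith [sq_nonneg (s - √(1 - (2 * c) ^ 2) / 2)]
    have h2 := arcsin_le_mul (z := 2 * c) (by linarith) (by linarith)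
    linarith

lemma kk_test {c s : ℝ} (hc : 0 < c) (hc1 : c ≤ 1 / 4) (hs : 0 ≤ s) :
    3 / 4 * kk c s 1 + 1 / 4 * kk c s (1 / 2) ≤ max (3 / 4 * (arcsin c / π)) (c / 4) := by
  rcases le_total s (3 / 4) with h | h
  · have h1 : kk c s 1 = 0 := by
      rcases hs.eq_or_lt with h0 | h0
      · rw [← h0, kk_zero_left, if_neg (by linarith)]
      · exact kk_eq_zero hc h0 one_pos (by rw [le_abs]; right; linarith)
    rw [h1]
    have h2 := kk_half_le hc hc1 hs
    exact le_max_of_le_right (by linarith)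
  · have h1 : kk c s (1 / 2) = 0 :=
      kk_eq_zero hc (by linarith) (by norm_num) (by rw [le_abs]; left; linarith)
    rw [h1]
    have h2 := kk_one_le hc (by linarith) hs
    exact le_max_of_le_left (by linarith)

theorem no_pair (h : Pair c V A B x v y w) (hc1 : c ≤ 1 / 4) : False := by
  classical
  have hc := h.hc
  set α := arcsin c / π with hα
  -- bounds for alpha
  have hα1 : c ≤ α * π := by
    rw [hα, div_mul_cancel₀ _ pi_pos.ne']
    have h1 := Real.sin_le (arcsin_nonneg.mpr hc.le)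
    rwa [sin_arcsin (by linarith) (by linarith)] at h1
  have hα2 : α ≤ c / 2 := by
    rw [hα, div_le_iff₀ pi_pos]
    have h1 := arcsin_le_mul hc.le (by linarith)
    linarith
  have hα0 : 0 < α := by
    by_contra h0
    push Not at h0
    nlinarith [pi_pos]
  -- upper bound for `V`
  have hV1 : V ≤ max (3 / 4 * α) (c / 4) := by
    have h1 := h.hF 1 (by norm_num) le_rfl
    have h2 := h.hF (1 / 2) (by norm_num) (by norm_num)
    have h3 : 3 / 4 * ∑ i ∈ A, v i * kk c (x i) 1 +
        1 / 4 * ∑ i ∈ A, v i * kk c (x i) (1 / 2) ≤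
        ∑ i ∈ A, v i * max (3 / 4 * α) (c / 4) := by
      rw [Finset.mul_sum, Finset.mul_sum, ← Finset.sum_add_distrib]
      apply Finset.sum_le_sum
      intro i hi
      have h4 := mul_le_mul_of_nonneg_left (kk_test hc hc1 (h.hx0 i hi)) (h.hv i hi).le
      calc _ = v i * (3 / 4 * kk c (x i) 1 + 1 / 4 * kk c (x i) (1 / 2)) := by ring
        _ ≤ _ := h4
    rw [← Finset.sum_mul, h.hvs, one_mul] at h3
    linarith
  -- lower bound for `V`
  have hV2 : α ≤ V * (1 + α) := by
    have h1 := h.hP 0 le_rfl (by norm_num)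
    have h2 := h.hP (√(1 - c ^ 2)) (Real.sqrt_nonneg _) (by
      rw [Real.sqrt_le_left (by norm_num)]
      nlinarith)
    have h3 : ∀ j ∈ B, w j * α ≤ α * (w j * kk c 0 (y j)) +
        w j * kk c (√(1 - c ^ 2)) (y j) := by
      intro j hj
      have hw := h.hw j hj
      by_cases h4 : y j ≤ c
      · rw [kk_zero_left, if_pos h4]
        have h5 := mul_nonneg hw.le (kk_nonneg c (√(1 - c ^ 2)) (y j))
        linarith
      · push Not at h4
        have h5 : y j = 1 := by
          by_contra h6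
          exact h.no_mid (by linarith) hj h4 (lt_of_le_of_ne (h.hy1 j hj) h6)
        rw [h5, kk_one_at hc (by linarith), kk_zero_left, if_neg (by linarith)]
        linarith
    have h4 := Finset.sum_le_sum h3
    rw [← Finset.sum_mul, h.hws, one_mul, Finset.sum_add_distrib, ← Finset.mul_sum] at h4
    nlinarith
  have hπ := Real.pi_lt_d2
  rcases le_max_iff.mp hV1 with h1 | h1
  · nlinarith
  · have h2 : α * (1 - c / 4) ≤ c / 4 := by nlinarith
    have h3 : c * (1 - c / 4) ≤ α * π * (1 - c / 4) :=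
      mul_le_mul_of_nonneg_right hα1 (by linarith)
    have h4 : α * π * (1 - c / 4) ≤ c / 4 * 3.15 := by
      calc α * π * (1 - c / 4) = (α * (1 - c / 4)) * π := by ring
        _ ≤ c / 4 * π := mul_le_mul_of_nonneg_right h2 pi_pos.le
        _ ≤ c / 4 * 3.15 := mul_le_mul_of_nonneg_left hπ.le (by linarith)
    nlinarith

end Pool.Agent.R796.Disc
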