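import Mathlib

/-!
# Clique complexes of Hamming distance graphs: definitions
-/

set_option autoImplicit false

namespace Pool.Agent.R796.HC

/-- The number of binary digits in which two natural numbers differ. -/
noncomputable def digitDist (x y : ℕ) : ℕ := {i : ℕ | x.testBit i ≠ y.testBit i}.ncard

/-- The graph `G_m^r` on `V_m = {0, …, m-1}`: different vertices are adjacent if and only if their
binary expansions differ in at most `r` digits. -/
def hammingGraph (m r : ℕ) : SimpleGraph (Fin m) where
  Adj x y := x ≠ y ∧ digitDist x y ≤ r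
  symm := ⟨fun x y h => ⟨h.1.symm, by
    have h2 := h.2
    unfold digitDist at h2 ⊢
    simpa only [ne_comm] using h2⟩⟩
  loopless := ⟨fun _ h => h.1 rfl⟩

variable {V : Type*}

/-- The simplices of the clique complex: the nonempty finite sets of pairwise adjacent vertices. -/
def cliqueComplex (G : SimpleGraph V) : Set (Finset V) :=
  {s | s.Nonempty ∧ ∀ x ∈ s, ∀ y ∈ s, x ≠ y → G.Adj x y}

/-- An abstract simplicial complex, given by its set of (nonempty) simplices. -/
def IsComplex (K : Set (Finset V)) : Prop :=
  ∀ s ∈ K, s.Nonempty ∧ ∀ t : Finset V, t ⊆ s → t.Nonempty → t ∈ K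

/-- The `k`-skeleton: the simplices of dimension at most `k`. -/
def skeleton (K : Set (Finset V)) (k : ℕ) : Set (Finset V) := {s | s ∈ K ∧ s.card ≤ k + 1}

/-- An elementary collapse: it removes a pair of simplices `σ ⊂ τ` with `dim τ = dim σ + 1`, where
`τ` is the only simplex of `K` properly containing `σ`. -/
def ElemCollapse (K L : Set (Finset V)) : Prop :=
  ∃ σ ∈ K, ∃ τ ∈ K, σ ⊂ τ ∧ τ.card = σ.card + 1 ∧ (∀ ρ ∈ K, σ ⊂ ρ → ρ = τ) ∧ L = K \ {σ, τ}

/-- `K` collapses to `L`: `L` is obtained from `K` by a finite sequence of elementary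
collapses. -/
def Collapses (K L : Set (Finset V)) : Prop := Relation.ReflTransGen ElemCollapse K L

end Pool.Agent.R796.HC
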