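import Mathlib
import Pool.Agent.R796.HCDefs

/-!
# Collapsing clique complexes
-/

set_option autoImplicit false

namespace Pool.Agent.R796.HC

variable {V : Type*}

/-- Elementary collapses which remove only simplices with at least `d` vertices. -/
def EC (d : ℕ) (K L : Set (Finset V)) : Prop :=
  ∃ σ ∈ K, ∃ τ ∈ K, d ≤ σ.card ∧ σ ⊂ τ ∧ τ.card = σ.card + 1 ∧ (∀ ρ ∈ K, σ ⊂ ρ → ρ = τ) ∧
    L = K \ {σ, τ}

theorem EC.subset {d : ℕ} {K L : Set (Finset V)} (h : EC d K L) : L ⊆ K := by
  obtain ⟨σ, _, τ, _, _, _, _, _, rfl⟩ := h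
  exact Set.sdiff_subset

/-- Adding small simplices does not disturb the collapses. -/
theorem ext_collapse {d : ℕ} {K L : Set (Finset V)} (h : Relation.ReflTransGen (EC d) K L)
    (R : Set (Finset V)) (hR : ∀ s ∈ R, s.card ≤ d) :
    Disjoint K R → Relation.ReflTransGen (EC d) (K ∪ R) (L ∪ R) := by
  induction h using Relation.ReflTransGen.head_induction_on with
  | refl => intro _; exact .refl
  | head h1 _ ih =>
    intro hd
    refine .head ?_ (ih (hd.mono_left h1.subset))
    obtain ⟨σ, hσ, τ, hτ, h2, h3, h4, h5, rfl⟩ := h1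
    refine ⟨σ, Or.inl hσ, τ, Or.inl hτ, h2, h3, h4, ?_, ?_⟩
    · rintro ρ (hρ | hρ) hσρ
      · exact h5 ρ hρ hσρ
      · have := Finset.card_lt_card hσρ
        have := hR ρ hρ
        omega
    · rw [Set.union_sdiff_distrib]
      congr 1
      symm
      rw [sdiff_eq_left]
      rw [Set.disjoint_left] at hd ⊢
      intro s hsR hs
      rcases hs with rfl | hs
      · exact hd hσ hsR
      · rw [Set.mem_singleton_iff] at hs
        exact hd hτ (hs ▸ hsR)

/-- The complex collapses to a subcomplex without simplices with more than `d` vertices. -/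
def Good (d : ℕ) (K : Set (Finset V)) : Prop :=
  ∃ L, Relation.ReflTransGen (EC d) K L ∧ ∀ s ∈ L, s.card ≤ d

variable [DecidableEq V]

theorem good_interval {d : ℕ} {K : Set (Finset V)} (hK : Good d K) {M τ : Finset V}
    (hM : ∀ ρ ∈ K, ¬ M ⊆ ρ) (hMd : M.card ≤ d) :
    Good d (K ∪ {ρ | M ⊆ ρ ∧ ρ ⊆ τ}) := by
  obtain ⟨L, hL, hLd⟩ := hK
  by_cases hτ : τ.card ≤ d
  · refine ⟨L ∪ {ρ | M ⊆ ρ ∧ ρ ⊆ τ}, ext_collapse hL _ ?_ ?_, ?_⟩
    · rintro s ⟨_, hs⟩
      exact (Finset.card_le_card hs).trans hτ
    · rw [Set.disjoint_left]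
      intro s hs hs'
      exact hM s hs hs'.1
    · rintro s (hs | hs)
      · exact hLd s hs
      · exact (Finset.card_le_card hs.2).trans hτ
  · push Not at hτ
    obtain ⟨x, hx, hxM⟩ : ∃ x ∈ τ, x ∉ M := by
      by_contra hcon
      push Not at hcon
      have := Finset.card_le_card hcon
      omega
    obtain ⟨A, hA⟩ : ∃ A : Finset (Finset V), ∀ σ, σ ∈ A ↔ σ ⊆ τ ∧ M ⊆ σ ∧ x ∉ σ ∧ d ≤ σ.card :=
      ⟨τ.powerset.filter (fun σ => M ⊆ σ ∧ x ∉ σ ∧ d ≤ σ.card), fun σ => by simp⟩
    obtain ⟨R, hR⟩ : ∃ R : Set (Finset V), ∀ ρ, ρ ∈ R ↔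
        M ⊆ ρ ∧ ρ ⊆ τ ∧ ρ ∉ A ∧ ¬ (x ∈ ρ ∧ ρ.erase x ∈ A) :=
      ⟨{ρ | M ⊆ ρ ∧ ρ ⊆ τ ∧ ρ ∉ A ∧ ¬ (x ∈ ρ ∧ ρ.erase x ∈ A)}, fun _ => Iff.rfl⟩
    have hRd : ∀ s ∈ R, s.card ≤ d := by
      intro s hs
      rw [hR, hA, hA] at hs
      obtain ⟨h1, h2, h3, h4⟩ := hs
      by_cases hxs : x ∈ s
      · by_contra hcon
        apply h4
        refine ⟨hxs, (Finset.erase_subset _ _).trans h2, ?_, Finset.notMem_erase _ _, ?_⟩
        · intro y hy
          exact Finset.mem_erase.2 ⟨fun h => hxM (h ▸ hy), h1 hy⟩
        · rw [Finset.card_erase_of_mem hxs]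
          omega
      · by_contra hcon
        exact h3 ⟨h2, h1, hxs, by omega⟩
    have key : ∀ k : ℕ, ∀ B : Finset (Finset V), B.card = k → B ⊆ A →
        Relation.ReflTransGen (EC d)
          (K ∪ R ∪ {ρ | ρ ∈ B ∨ (x ∈ ρ ∧ ρ.erase x ∈ B)}) (K ∪ R) := by
      intro k
      induction k with
      | zero =>
        intro B hB _
        rw [Finset.card_eq_zero] at hB
        subst hB
        have : {ρ : Finset V | ρ ∈ (∅ : Finset (Finset V)) ∨
            (x ∈ ρ ∧ ρ.erase x ∈ (∅ : Finset (Finset V)))} = ∅ := by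
          ext ρ
          simp
        rw [this, Set.union_empty]
      | succ k ih =>
        intro B hB hBA
        obtain ⟨σ, hσ, hmax⟩ := B.exists_max_image Finset.card
          (Finset.card_pos.1 (by omega))
        have hσA := (hA σ).1 (hBA hσ)
        obtain ⟨h1, h2, h3, h4⟩ := hσA
        have hKσ : ∀ ρ, σ ⊆ ρ → ρ ∉ K := fun ρ h h' => hM ρ h' (h2.trans h)
        have hnotB : ∀ ρ ∈ B, x ∉ ρ := fun ρ hρ => ((hA ρ).1 (hBA hρ)).2.2.1
        refine .head ⟨σ, Or.inr (Or.inl hσ), insert x σ, ?_, h4, ?_, ?_, ?_, rfl⟩ ?_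
        · exact Or.inr (Or.inr ⟨Finset.mem_insert_self _ _, by rwa [Finset.erase_insert h3]⟩)
        · exact Finset.ssubset_insert h3
        · exact Finset.card_insert_of_notMem h3
        · rintro ρ ((hρ | hρ) | (hρ | ⟨hρ, hρ'⟩)) hσρ
          · exact absurd hρ (hKσ ρ hσρ.subset)
          · have := Finset.card_lt_card hσρ
            have := hRd ρ hρ
            omega
          · have := Finset.card_lt_card hσρ
            have := hmax ρ hρ
            omega
          · have h5 : σ ⊆ ρ.erase x := by
              intro y hy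
              exact Finset.mem_erase.2 ⟨fun h => h3 (h ▸ hy), hσρ.subset hy⟩
            have h6 := Finset.eq_of_subset_of_card_le h5 (hmax _ hρ')
            rw [h6, Finset.insert_erase hρ]
        · have h7 : (K ∪ R ∪ {ρ | ρ ∈ B ∨ (x ∈ ρ ∧ ρ.erase x ∈ B)}) \ {σ, insert x σ} =
              K ∪ R ∪ {ρ | ρ ∈ B.erase σ ∨ (x ∈ ρ ∧ ρ.erase x ∈ B.erase σ)} := by
            ext ρ
            constructor
            · rintro ⟨(hρ | (hρ | ⟨hρ, hρ'⟩)), hne⟩
              · exact Or.inl hρ
              · right
                left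
                exact Finset.mem_erase.2 ⟨fun h => hne (Or.inl h), hρ⟩
              · right
                right
                refine ⟨hρ, Finset.mem_erase.2 ⟨fun h => hne (Or.inr ?_), hρ'⟩⟩
                rw [Set.mem_singleton_iff, ← h, Finset.insert_erase hρ]
            · rintro (hρ | (hρ | ⟨hρ, hρ'⟩))
              · refine ⟨Or.inl hρ, ?_⟩
                rintro (h | h)
                · rcases hρ with hρ | hρ
                  · exact hKσ ρ h.symm.subset hρ
                  · rw [hR] at hρ
                    exact hρ.2.2.1 (h ▸ hBA hσ)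
                · rw [Set.mem_singleton_iff] at h
                  rcases hρ with hρ | hρ
                  · exact hKσ ρ (h ▸ Finset.subset_insert _ _) hρ
                  · rw [hR] at hρ
                    apply hρ.2.2.2
                    rw [h, Finset.erase_insert h3]
                    exact ⟨Finset.mem_insert_self _ _, hBA hσ⟩
              · obtain ⟨h8, h9⟩ := Finset.mem_erase.1 hρ
                refine ⟨Or.inr (Or.inl h9), ?_⟩
                rintro (h | h)
                · exact h8 h
                · rw [Set.mem_singleton_iff] at h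
                  exact hnotB ρ h9 (h ▸ Finset.mem_insert_self _ _)
              · obtain ⟨h8, h9⟩ := Finset.mem_erase.1 hρ'
                refine ⟨Or.inr (Or.inr ⟨hρ, h9⟩), ?_⟩
                rintro (h | h)
                · exact h3 (h ▸ hρ)
                · rw [Set.mem_singleton_iff] at h
                  apply h8
                  rw [h, Finset.erase_insert h3]
          rw [h7]
          exact ih _ (by rw [Finset.card_erase_of_mem hσ]; omega)
            ((Finset.erase_subset _ _).trans hBA)
    have h8 : K ∪ {ρ | M ⊆ ρ ∧ ρ ⊆ τ} = K ∪ R ∪ {ρ | ρ ∈ A ∨ (x ∈ ρ ∧ ρ.erase x ∈ A)} := by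
      rw [Set.union_assoc]
      congr 1
      ext ρ
      constructor
      · rintro ⟨h1, h2⟩
        by_cases h3 : ρ ∈ A
        · exact Or.inr (Or.inl h3)
        · by_cases h4 : x ∈ ρ ∧ ρ.erase x ∈ A
          · exact Or.inr (Or.inr h4)
          · exact Or.inl ((hR ρ).2 ⟨h1, h2, h3, h4⟩)
      · rintro (h | (h | ⟨h, h'⟩))
        · rw [hR] at h
          exact ⟨h.1, h.2.1⟩
        · rw [hA] at h
          exact ⟨h.2.1, h.1⟩
        · rw [hA] at h'
          refine ⟨h'.2.1.trans (Finset.erase_subset _ _), ?_⟩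
          rw [← Finset.insert_erase h]
          exact Finset.insert_subset hx h'.1
    refine ⟨L ∪ R, ?_, ?_⟩
    · rw [h8]
      refine (key _ A rfl Finset.Subset.rfl).trans (ext_collapse hL R hRd ?_)
      rw [Set.disjoint_left]
      intro s hs hs'
      exact hM s hs ((hR s).1 hs').1
    · rintro s (hs | hs)
      · exact hLd s hs
      · exact hRd s hs

/-- A bound for the lengths of the skew sequences of a set family. -/
def SkewBound (d : ℕ) (S : Finset V) (H : Set (Finset V)) : Prop :=
  ∀ (l : ℕ) (c : Fin l → V) (C : Fin l → Finset V), (∀ i, c i ∈ S) → (∀ i, C i ∈ H) →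
    (∀ i, c i ∈ C i) → (∀ i j, i < j → c i ∉ C j) → l ≤ d

/-- The sets `M ∪ T`, where `T ⊆ S` meets all sets of `H`. -/
def Cls (M S : Finset V) (H : Set (Finset V)) : Set (Finset V) :=
  {ρ | M ⊆ ρ ∧ ρ ⊆ M ∪ S ∧ ∀ C ∈ H, ∃ c ∈ C, c ∈ S ∧ c ∈ ρ}

theorem good_cls {d : ℕ} (s : ℕ) : ∀ (S M : Finset V) (H : Set (Finset V)) (d' : ℕ)
    (K : Set (Finset V)), S.card = s → Disjoint M S → SkewBound d' S H → M.card + d' ≤ d →
    Good d K → (∀ ρ ∈ K, ∀ ρ' ∈ Cls M S H, ¬ ρ' ⊆ ρ) → Good d (K ∪ Cls M S H) := by
  induction s with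
  | zero =>
    intro S M H d' K hS _ _ hd hK hcl
    rw [Finset.card_eq_zero] at hS
    subst hS
    rcases H.eq_empty_or_nonempty with rfl | ⟨C, hC⟩
    · have h1 : Cls M ∅ ∅ = {ρ : Finset V | M ⊆ ρ ∧ ρ ⊆ M} := by
        ext ρ
        simp [Cls]
      rw [h1]
      apply good_interval hK _ (by omega)
      intro ρ hρ
      exact hcl ρ hρ M (by simp [Cls])
    · have h1 : Cls M ∅ H = ∅ := by
        ext ρ
        simp only [Cls, Set.mem_ofPred_eq, Set.mem_empty_iff_false, iff_false]
        rintro ⟨_, _, h⟩
        obtain ⟨c, _, hc, _⟩ := h C hC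
        simp at hc
      rw [h1, Set.union_empty]
      exact hK
  | succ s ih =>
    intro S M H d' K hS hMS hskew hd hK hcl
    rcases H.eq_empty_or_nonempty with rfl | ⟨C, hC⟩
    · have h1 : Cls M S ∅ = {ρ : Finset V | M ⊆ ρ ∧ ρ ⊆ M ∪ S} := by
        ext ρ
        simp [Cls]
      rw [h1]
      apply good_interval hK _ (by omega)
      intro ρ hρ
      exact hcl ρ hρ M (by rw [h1]; exact ⟨Finset.Subset.rfl, Finset.subset_union_left⟩)
    · by_cases hCS : ∃ c ∈ C, c ∈ S
      · obtain ⟨c, hcC, hcS⟩ := hCS
        have hcM : c ∉ M := fun h => (Finset.disjoint_left.1 hMS h) hcS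
        have hcard : (S.erase c).card = s := by
          rw [Finset.card_erase_of_mem hcS]
          omega
        have hd'1 : 1 ≤ d' := by
          apply hskew 1 (fun _ => c) (fun _ => C) (fun _ => hcS) (fun _ => hC) (fun _ => hcC)
          intro i j hij
          omega
        have hsplit : Cls M S H = Cls M (S.erase c) H ∪
            Cls (insert c M) (S.erase c) {C' | C' ∈ H ∧ c ∉ C'} := by
          ext ρ
          constructor
          · rintro ⟨h1, h2, h3⟩
            by_cases hcρ : c ∈ ρ
            · right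
              refine ⟨Finset.insert_subset hcρ h1, ?_, ?_⟩
              · intro y hy
                have := h2 hy
                rw [Finset.mem_union] at this
                rw [Finset.mem_union, Finset.mem_insert, Finset.mem_erase]
                by_cases hyc : y = c
                · exact Or.inl (Or.inl hyc)
                · rcases this with h | h
                  · exact Or.inl (Or.inr h)
                  · exact Or.inr ⟨hyc, h⟩
              · rintro C' ⟨hC', hcC'⟩
                obtain ⟨e, he1, he2, he3⟩ := h3 C' hC'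
                exact ⟨e, he1, Finset.mem_erase.2 ⟨fun h => hcC' (h ▸ he1), he2⟩, he3⟩
            · left
              refine ⟨h1, ?_, ?_⟩
              · intro y hy
                have := h2 hy
                rw [Finset.mem_union] at this
                rw [Finset.mem_union, Finset.mem_erase]
                rcases this with h | h
                · exact Or.inl h
                · exact Or.inr ⟨fun h' => hcρ (h' ▸ hy), h⟩
              · intro C' hC'
                obtain ⟨e, he1, he2, he3⟩ := h3 C' hC'
                exact ⟨e, he1, Finset.mem_erase.2 ⟨fun h => hcρ (h ▸ he3), he2⟩, he3⟩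
          · rintro (⟨h1, h2, h3⟩ | ⟨h1, h2, h3⟩)
            · refine ⟨h1, h2.trans (Finset.union_subset_union_right (Finset.erase_subset _ _)), ?_⟩
              intro C' hC'
              obtain ⟨e, he1, he2, he3⟩ := h3 C' hC'
              exact ⟨e, he1, (Finset.mem_erase.1 he2).2, he3⟩
            · refine ⟨(Finset.subset_insert _ _).trans h1, ?_, ?_⟩
              · intro y hy
                have := h2 hy
                rw [Finset.mem_union, Finset.mem_insert, Finset.mem_erase] at this
                rw [Finset.mem_union]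
                rcases this with (rfl | h) | ⟨_, h⟩
                · exact Or.inr hcS
                · exact Or.inl h
                · exact Or.inr h
              · intro C' hC'
                by_cases hcC' : c ∈ C'
                · exact ⟨c, hcC', hcS, h1 (Finset.mem_insert_self _ _)⟩
                · obtain ⟨e, he1, he2, he3⟩ := h3 C' ⟨hC', hcC'⟩
                  exact ⟨e, he1, (Finset.mem_erase.1 he2).2, he3⟩
        have hstep1 : Good d (K ∪ Cls M (S.erase c) H) := by
          apply ih (S.erase c) M H d' K hcard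
          · exact hMS.mono_right (Finset.erase_subset _ _)
          · intro l c' C' h1 h2 h3 h4
            exact hskew l c' C' (fun i => (Finset.mem_erase.1 (h1 i)).2) h2 h3 h4
          · exact hd
          · exact hK
          · intro ρ hρ ρ' hρ'
            exact hcl ρ hρ ρ' (hsplit ▸ Or.inl hρ')
        rw [hsplit, ← Set.union_assoc]
        apply ih (S.erase c) (insert c M) _ (d' - 1) _ hcard
        · rw [Finset.disjoint_insert_left]
          exact ⟨Finset.notMem_erase _ _, hMS.mono_right (Finset.erase_subset _ _)⟩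
        · intro l c' C' h1 h2 h3 h4
          have := hskew (l + 1) (Fin.cons c c') (Fin.cons C C') ?_ ?_ ?_ ?_
          · omega
          · intro i
            refine Fin.cases hcS (fun i => ?_) i
            exact (Finset.mem_erase.1 (h1 i)).2
          · intro i
            exact Fin.cases hC (fun i => (h2 i).1) i
          · intro i
            exact Fin.cases hcC (fun i => h3 i) i
          · intro i j
            refine Fin.cases ?_ (fun j => ?_) j
            · intro h
              exact absurd h (Fin.not_lt_zero _)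
            · refine Fin.cases ?_ (fun i => ?_) i
              · intro _
                exact (h2 j).2
              · intro h
                exact h4 i j (Fin.succ_lt_succ_iff.1 h)
        · rw [Finset.card_insert_of_notMem hcM]
          omega
        · exact hstep1
        · rintro ρ (hρ | hρ) ρ' hρ' hsub
          · exact hcl ρ hρ ρ' (hsplit ▸ Or.inr hρ') hsub
          · have h5 := hρ.2.1 (hsub (hρ'.1 (Finset.mem_insert_self _ _)))
            rw [Finset.mem_union, Finset.mem_erase] at h5
            rcases h5 with h5 | h5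
            · exact hcM h5
            · exact h5.1 rfl
      · have h1 : Cls M S H = ∅ := by
          ext ρ
          simp only [Set.mem_empty_iff_false, iff_false]
          rintro ⟨_, _, h⟩
          obtain ⟨c, hc, hc', _⟩ := h C hC
          exact hCS ⟨c, hc, hc'⟩
        rw [h1, Set.union_empty]
        exact hK

/-- The complex generated by a family of facets. -/
def gen' (F : Finset (Finset V)) : Set (Finset V) := {ρ | ∃ σ ∈ F, ρ ⊆ σ}

/-- The generated complexes collapse if all skew sequences are short. -/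
theorem good_gen {d : ℕ} (F₀ : Finset (Finset V))
    (h : ∀ σ ∈ F₀, ∀ F ⊆ F₀, SkewBound d σ {C | ∃ σ' ∈ F, C = σ \ σ'}) :
    ∀ F ⊆ F₀, Good d (gen' F) := by
  intro F
  induction F using Finset.induction_on with
  | empty =>
    intro _
    refine ⟨_, .refl, ?_⟩
    rintro s ⟨σ, hσ, _⟩
    simp at hσ
  | insert σ F hσF ih =>
    intro hF
    have hF' : F ⊆ F₀ := (Finset.subset_insert _ _).trans hF
    have h1 : gen' (insert σ F) = gen' F ∪ Cls ∅ σ {C | ∃ σ' ∈ F, C = σ \ σ'} := by
      ext ρ
      constructor
      · rintro ⟨σ', hσ', hρ⟩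
        rw [Finset.mem_insert] at hσ'
        rcases hσ' with rfl | hσ'
        · by_cases hρF : ρ ∈ gen' F
          · exact Or.inl hρF
          · right
            refine ⟨Finset.empty_subset _, by rwa [Finset.empty_union], ?_⟩
            rintro C ⟨σ'', hσ'', rfl⟩
            have h2 : ¬ ρ ⊆ σ'' := fun h => hρF ⟨σ'', hσ'', h⟩
            rw [Finset.not_subset] at h2
            obtain ⟨c, hc, hc'⟩ := h2
            exact ⟨c, Finset.mem_sdiff.2 ⟨hρ hc, hc'⟩, hρ hc, hc⟩
        · exact Or.inl ⟨σ', hσ', hρ⟩
      · rintro (⟨σ', hσ', hρ⟩ | ⟨_, hρ, _⟩)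
        · exact ⟨σ', Finset.mem_insert_of_mem hσ', hρ⟩
        · rw [Finset.empty_union] at hρ
          exact ⟨σ, Finset.mem_insert_self _ _, hρ⟩
    rw [h1]
    apply good_cls σ.card σ ∅ _ d _ rfl (Finset.disjoint_empty_left _)
      (h σ (hF (Finset.mem_insert_self _ _)) F hF') (by simp) (ih hF')
    rintro ρ ⟨σ', hσ', hρ⟩ ρ' hρ' hsub
    obtain ⟨c, hc, _, hc'⟩ := hρ'.2.2 (σ \ σ') ⟨σ', hσ', rfl⟩
    exact (Finset.mem_sdiff.1 hc).2 (hρ (hsub hc'))

end Pool.Agent.R796.HC
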