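import Mathlib

/-!
# The skew Bollobás theorem for the Hamming distance

If `a_1, …, a_N` and `b_1, …, b_N` are elements of `{0,1}^n` with `d(a_i, b_i) ≥ K` and
`d(a_i, b_j) < K` for `i < j`, then `N ≤ 2^K`. The proof uses the group algebra of `(ℤ/2)^K` over a
polynomial ring in characteristic two.
-/

set_option autoImplicit false

namespace Pool.Agent.R796.HC

open Finset

/-- The generic coefficient ring. -/
abbrev P (n K : ℕ) : Type := MvPolynomial (Fin n × Option (Fin K)) (ZMod 2)

/-- The group `(ℤ/2)^K`. -/
abbrev G (K : ℕ) : Type := Fin K → ZMod 2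

/-- The group algebra. -/
abbrev A (n K : ℕ) : Type := AddMonoidAlgebra (P n K) (G K)

/-- The shifts. -/
def sh {K : ℕ} : Option (Fin K) → G K
  | none => 0
  | some i => Pi.single i 1

variable {n K : ℕ}

/-- The generic element of coordinate `j`. -/
noncomputable def gen (n K : ℕ) (j : Fin n) : A n K :=
  ∑ i : Option (Fin K), AddMonoidAlgebra.single (sh i) (MvPolynomial.X (j, i))

theorem add_self (g : G K) : g + g = 0 := by
  funext i
  exact CharTwo.add_self_eq_zero _

instance : CharP (A n K) 2 := by
  apply CharTwo.of_one_ne_zero_of_two_eq_zero one_ne_zero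
  rw [AddMonoidAlgebra.ofNat_def]
  have : (OfNat.ofNat 2 : P n K) = 0 := CharTwo.two_eq_zero
  rw [this, AddMonoidAlgebra.single_zero]

/-- The square of a generic element is a scalar. -/
noncomputable def sq (n K : ℕ) (j : Fin n) : P n K :=
  ∑ i : Option (Fin K), MvPolynomial.X (j, i) ^ 2

theorem gen_mul_gen (j : Fin n) :
    gen n K j * gen n K j = algebraMap (P n K) (A n K) (sq n K j) := by
  rw [← pow_two, gen, CharTwo.sum_sq, sq, map_sum]
  apply sum_congr rfl
  intro i _
  rw [pow_two, AddMonoidAlgebra.single_mul_single, add_self, ← pow_two]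
  rfl

theorem sq_ne_zero (j : Fin n) : sq n K j ≠ 0 := by
  intro h
  have h1 := congrArg (MvPolynomial.eval
    (fun q : Fin n × Option (Fin K) => if q.2 = none then (1 : ZMod 2) else 0)) h
  rw [sq, map_sum, map_zero] at h1
  simp only [map_pow, MvPolynomial.eval_X] at h1
  rw [Fintype.sum_eq_single none] at h1
  · simp at h1
  · intro x hx
    simp [hx]

theorem norm_le (i : Option (Fin K)) (g : G K) : hammingNorm g ≤ hammingNorm (-sh i + g) + 1 := by
  classical
  cases i with
  | none => simp [sh]
  | some i =>
    unfold hammingNorm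
    refine (card_le_card (t := insert i (univ.filter fun k => (-sh (some i) + g) k ≠ 0)) ?_).trans
      (card_insert_le _ _)
    intro k hk
    rw [mem_insert]
    by_cases hki : k = i
    · exact Or.inl hki
    · right
      have h1 : (-sh (some i) + g) k = g k := by
        simp only [sh, Pi.add_apply, Pi.neg_apply]
        rw [Pi.single_eq_of_ne hki, neg_zero, zero_add]
      rw [mem_filter] at hk ⊢
      rw [h1]
      exact hk

/-- The product of fewer than `K` generic elements has no top coefficient. -/
theorem coeff_prod (S : Finset (Fin n)) (g : G K) (hg : S.card < hammingNorm g) :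
    (∏ j ∈ S, gen n K j).coeff g = 0 := by
  classical
  induction S using Finset.induction_on generalizing g with
  | empty =>
    rw [prod_empty, AddMonoidAlgebra.one_def, AddMonoidAlgebra.coeff_single,
      Finsupp.single_apply, if_neg]
    rintro rfl
    simp at hg
  | insert j S hj ih =>
    rw [prod_insert hj, gen, sum_mul, AddMonoidAlgebra.coeff_sum, Finsupp.finsetSum_apply]
    apply sum_eq_zero
    intro i _
    rw [AddMonoidAlgebra.coeff_single_mul_apply, ih, mul_zero]
    have := norm_le i g
    rw [card_insert_of_notMem hj] at hg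
    omega

/-- The top coefficient of a product of at least `K` generic elements does not vanish. -/
theorem coeff_prod_ne_zero (S : Finset (Fin n)) (hS : K ≤ S.card) :
    (∏ j ∈ S, gen n K j).coeff (fun _ => 1) ≠ 0 := by
  classical
  obtain ⟨S0, hS0, hcard⟩ := exists_subset_card_eq hS
  obtain ⟨e⟩ : Nonempty (S0 ≃ Fin K) := ⟨S0.equivFinOfCardEq hcard⟩
  obtain ⟨m, hm⟩ : ∃ m : Fin n → Option (Fin K), ∀ j, m j =
      if h : j ∈ S0 then some (e ⟨j, h⟩) else none := ⟨_, fun j => rfl⟩
  intro h
  let φ : P n K →+* ZMod 2 := MvPolynomial.eval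
    (fun q : Fin n × Option (Fin K) => if q.2 = m q.1 then (1 : ZMod 2) else 0)
  have h1 : ∀ j, AddMonoidAlgebra.mapRingHom (G K) φ (gen n K j) =
      AddMonoidAlgebra.single (sh (m j)) 1 := by
    intro j
    rw [gen, map_sum]
    simp only [AddMonoidAlgebra.mapRingHom_single, φ, MvPolynomial.eval_X]
    rw [Fintype.sum_eq_single (m j)]
    · simp
    · intro i hi
      simp [hi]
  have h2 := congrArg φ h
  rw [map_zero, ← AddMonoidAlgebra.coeff_mapRingHom, map_prod] at h2
  simp only [h1] at h2
  rw [AddMonoidAlgebra.prod_single] at h2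
  have h3 : ∑ j ∈ S, sh (m j) = fun _ => (1 : ZMod 2) := by
    rw [← sum_subset hS0 (fun j _ hj => by rw [hm, dif_neg hj]; rfl)]
    rw [← sum_attach]
    have h4 : ∀ x : S0, sh (m x) = Pi.single (e x) (1 : ZMod 2) := by
      intro x
      rw [hm, dif_pos x.2]
      rfl
    simp only [h4]
    rw [attach_eq_univ, Equiv.sum_comp e (fun i => (Pi.single i (1 : ZMod 2) : G K))]
    exact Finset.univ_sum_single (fun _ : Fin K => (1 : ZMod 2))
  rw [h3] at h2
  simp at h2

/-- The algebra element of `a ∈ {0,1}^n`. -/
noncomputable def el (K : ℕ) (a : Fin n → Bool) : A n K :=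
  ∏ j : Fin n, if a j then gen n K j else 1

theorem el_mul_el (a b : Fin n → Bool) : ∃ c : P n K, c ≠ 0 ∧
    el K a * el K b = c • ∏ j ∈ univ.filter (fun j => a j ≠ b j), gen n K j := by
  classical
  refine ⟨∏ j ∈ univ.filter (fun j => ¬ a j ≠ b j), if a j then sq n K j else 1, ?_, ?_⟩
  · rw [prod_ne_zero_iff]
    intro j _
    split_ifs
    · exact sq_ne_zero j
    · exact one_ne_zero
  · rw [el, el, ← prod_mul_distrib, ← prod_filter_mul_prod_filter_not univ (fun j => a j ≠ b j),
      mul_comm, Algebra.smul_def, map_prod]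
    congr 1
    · apply prod_congr rfl
      intro j hj
      rw [mem_filter, not_not] at hj
      rw [← hj.2]
      by_cases haj : a j
      · simp only [haj, if_true, gen_mul_gen]
      · rw [if_neg haj, if_neg haj, map_one, mul_one]
    · apply prod_congr rfl
      intro j hj
      have hj' := (mem_filter.1 hj).2
      revert hj'
      cases a j <;> cases b j <;> simp

/-- The skew Bollobás theorem for the Hamming distance. -/
theorem skew {N : ℕ} (a b : Fin N → Fin n → Bool) (h1 : ∀ i, K ≤ hammingDist (a i) (b i))
    (h2 : ∀ i j, i < j → hammingDist (a i) (b j) < K) : N ≤ 2 ^ K := by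
  classical
  have hz : ∀ i j, i < j → (el K (a i) * el K (b j)).coeff (fun _ => 1) = 0 := by
    intro i j hij
    obtain ⟨c, _, hc⟩ := el_mul_el (K := K) (a i) (b j)
    rw [hc, AddMonoidAlgebra.coeff_smul_apply, coeff_prod, smul_zero]
    have h3 : hammingNorm (fun _ : Fin K => (1 : ZMod 2)) = K := by simp [hammingNorm]
    rw [h3]
    exact h2 i j hij
  have hnz : ∀ i, (el K (a i) * el K (b i)).coeff (fun _ => 1) ≠ 0 := by
    intro i
    obtain ⟨c, hc0, hc⟩ := el_mul_el (K := K) (a i) (b i)
    rw [hc, AddMonoidAlgebra.coeff_smul_apply, smul_eq_mul]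
    exact mul_ne_zero hc0 (coeff_prod_ne_zero _ (h1 i))
  have hli : LinearIndependent (P n K) (fun i => (fun g => (el K (a i)).coeff g : G K → P n K)) := by
    rw [Fintype.linearIndependent_iff]
    intro c hc
    by_contra hcon
    push Not at hcon
    obtain ⟨j, hj, hmax⟩ := exists_max_image (univ.filter fun i => c i ≠ 0) id
      (by obtain ⟨i, hi⟩ := hcon; exact ⟨i, by simp [hi]⟩)
    have hsum : ∑ i, c i • el K (a i) = 0 := by
      apply AddMonoidAlgebra.coeff_injective
      ext1 g
      have := congrFun hc g
      rw [AddMonoidAlgebra.coeff_sum, Finsupp.finsetSum_apply]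
      simpa [Finset.sum_apply] using this
    have h4 : (∑ i, c i • (el K (a i) * el K (b j))).coeff (fun _ => 1) = 0 := by
      have h5 : ∑ i, c i • (el K (a i) * el K (b j)) = 0 := by
        have := congrArg (· * el K (b j)) hsum
        simpa [sum_mul] using this
      rw [h5]
      rfl
    rw [AddMonoidAlgebra.coeff_sum, Finsupp.finsetSum_apply, sum_eq_single j] at h4
    · rw [AddMonoidAlgebra.coeff_smul_apply, smul_eq_mul] at h4
      rcases mul_eq_zero.1 h4 with h | h
      · exact (mem_filter.1 hj).2 h
      · exact hnz j h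
    · intro i _ hij
      rw [AddMonoidAlgebra.coeff_smul_apply]
      rcases lt_or_gt_of_ne hij with h | h
      · rw [hz i j h, smul_zero]
      · have : c i = 0 := by
          by_contra hci
          have := hmax i (by simp [hci])
          exact absurd h (not_lt.2 this)
        rw [this, zero_smul]
    · intro h
      exact absurd (mem_univ j) h
  have := hli.fintype_card_le_finrank
  rw [Fintype.card_fin, Module.finrank_fintype_fun_eq_card] at this
  simpa [ZMod.card] using this

end Pool.Agent.R796.HC
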