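import Mathlib
import Pool.Agent.R796.HCDefs
import Pool.Agent.R796.HCSkew
import Pool.Agent.R796.HCColl

/-!
# The Vietoris-Rips complexes of Hamming spaces collapse to dimension at most `2^r - 1`
-/

set_option autoImplicit false

namespace Pool.Agent.R796.HC

section Graph

variable {V : Type*}

/-- A bound for the lengths of the exclusion sequences of a graph. -/
def GraphBound (d : ℕ) (G : SimpleGraph V) : Prop :=
  ∀ (l : ℕ) (u w : Fin l → V), (∀ i j, u i = u j ∨ G.Adj (u i) (u j)) →
    (∀ i, u i ≠ w i ∧ ¬ G.Adj (u i) (w i)) → (∀ i j, i < j → u i = w j ∨ G.Adj (u i) (w j)) →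
    l ≤ d

theorem ElemCollapse.isComplex {K L : Set (Finset V)} (h : ElemCollapse K L) (hK : IsComplex K) :
    IsComplex L := by
  obtain ⟨σ, hσ, τ, hτ, h1, h2, h3, rfl⟩ := h
  rintro s ⟨hs, hne⟩
  refine ⟨(hK s hs).1, fun t hts ht => ⟨(hK s hs).2 t hts ht, ?_⟩⟩
  rintro (rfl | h)
  · rcases hts.eq_or_ssubset with h | h
    · exact hne (Or.inl h.symm)
    · exact hne (Or.inr (h3 s hs h))
  · rw [Set.mem_singleton_iff] at h
    subst h
    exact hne (Or.inr (h3 s hs (lt_of_lt_of_le h1 hts)))

theorem Collapses.isComplex {K L : Set (Finset V)} (h : Collapses K L) (hK : IsComplex K) :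
    IsComplex L := by
  induction h with
  | refl => exact hK
  | tail _ h1 ih => exact ElemCollapse.isComplex h1 ih

theorem Collapses.subset {K L : Set (Finset V)} (h : Collapses K L) : L ⊆ K := by
  induction h with
  | refl => exact subset_rfl
  | tail _ h1 ih =>
    obtain ⟨σ, _, τ, _, _, _, _, rfl⟩ := h1
    exact Set.sdiff_subset.trans ih

/-- Removing the empty set from collapses. -/
theorem remove_empty {d : ℕ} (hd : 1 ≤ d) {K L : Set (Finset V)}
    (h : Relation.ReflTransGen (EC d) K L) : Collapses (K \ {∅}) (L \ {∅}) := by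
  induction h with
  | refl => exact .refl
  | tail _ h1 ih =>
    refine .tail ih ?_
    obtain ⟨σ, hσ, τ, hτ, h2, h3, h4, h5, rfl⟩ := h1
    have hσ0 : σ ≠ ∅ := by
      rintro rfl
      simp at h2
      omega
    have hτ0 : τ ≠ ∅ := by
      rintro rfl
      simp at h4
    refine ⟨σ, ⟨hσ, hσ0⟩, τ, ⟨hτ, hτ0⟩, h3, h4, fun ρ hρ => h5 ρ hρ.1, ?_⟩
    ext s
    simp only [Set.mem_sdiff]
    tauto

theorem isComplex_cliqueComplex (G : SimpleGraph V) : IsComplex (cliqueComplex G) := by
  intro s hs
  exact ⟨hs.1, fun t ht hne => ⟨hne, fun x hx y hy => hs.2 x (ht hx) y (ht hy)⟩⟩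

theorem collapse_of_graphBound [Finite V] {d : ℕ} (hd : 1 ≤ d) (G : SimpleGraph V)
    (hG : GraphBound d G) :
    ∃ L, IsComplex L ∧ (∀ s ∈ L, s.card ≤ d) ∧ Collapses (cliqueComplex G) L := by
  classical
  have := Fintype.ofFinite V
  -- the maximal cliques
  obtain ⟨F, hF⟩ : ∃ F : Finset (Finset V), ∀ s, s ∈ F ↔
      (∀ x ∈ s, ∀ y ∈ s, x ≠ y → G.Adj x y) ∧
        ∀ v, v ∉ s → ∃ x ∈ s, ¬ G.Adj v x := by
    refine ⟨Finset.univ.filter (fun s => (∀ x ∈ s, ∀ y ∈ s, x ≠ y → G.Adj x y) ∧
        ∀ v, v ∉ s → ∃ x ∈ s, ¬ G.Adj v x), fun s => by simp⟩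
  have hext : ∀ s : Finset V, (∀ x ∈ s, ∀ y ∈ s, x ≠ y → G.Adj x y) → ∃ t ∈ F, s ⊆ t := by
    intro s hs
    obtain ⟨t, ht, hmax⟩ := Finset.exists_max_image
      (Finset.univ.filter (fun t : Finset V => s ⊆ t ∧ ∀ x ∈ t, ∀ y ∈ t, x ≠ y → G.Adj x y))
      Finset.card ⟨s, by simpa using hs⟩
    simp only [Finset.mem_filter, Finset.mem_univ, true_and] at ht hmax
    refine ⟨t, (hF t).2 ⟨ht.2, ?_⟩, ht.1⟩
    intro v hv
    by_contra hcon
    push Not at hcon
    have h1 := hmax (insert v t) ⟨ht.1.trans (Finset.subset_insert _ _), ?_⟩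
    · rw [Finset.card_insert_of_notMem hv] at h1
      omega
    · intro x hx y hy hxy
      rw [Finset.mem_insert] at hx hy
      rcases hx with rfl | hx <;> rcases hy with rfl | hy
      · exact absurd rfl hxy
      · exact hcon y hy
      · exact (hcon x hx).symm
      · exact ht.2 x hx y hy hxy
  have hgood : Good d (gen' F) := by
    refine good_gen F ?_ F Finset.Subset.rfl
    intro σ hσ F' hF' l c C hc hC hcC hskew
    choose σ' hσ' hCσ' using hC
    have h1 : ∀ i, c i ∉ σ' i := by
      intro i h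
      have := hcC i
      rw [hCσ'] at this
      exact (Finset.mem_sdiff.1 this).2 h
    have h2 : ∀ i j, i < j → c i ∈ σ' j := by
      intro i j hij
      by_contra h
      apply hskew i j hij
      rw [hCσ']
      exact Finset.mem_sdiff.2 ⟨hc i, h⟩
    choose w hw hw' using fun i => ((hF _).1 (hF' (hσ' i))).2 (c i) (h1 i)
    refine hG l c w ?_ ?_ ?_
    · intro i j
      by_cases h : c i = c j
      · exact Or.inl h
      · exact Or.inr (((hF _).1 hσ).1 _ (hc i) _ (hc j) h)
    · intro i
      exact ⟨fun h => h1 i (h ▸ hw i), hw' i⟩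
    · intro i j hij
      by_cases h : c i = w j
      · exact Or.inl h
      · exact Or.inr (((hF _).1 (hF' (hσ' j))).1 _ (h2 i j hij) _ (hw j) h)
  obtain ⟨L, hL, hLd⟩ := hgood
  have h3 := remove_empty hd hL
  have h4 : gen' F \ {∅} = cliqueComplex G := by
    ext s
    constructor
    · rintro ⟨⟨t, ht, hst⟩, hne⟩
      exact ⟨Finset.nonempty_iff_ne_empty.2 hne,
        fun x hx y hy => ((hF t).1 ht).1 x (hst hx) y (hst hy)⟩
    · rintro ⟨hne, hs⟩
      exact ⟨hext s hs, Finset.nonempty_iff_ne_empty.1 hne⟩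
  rw [h4] at h3
  exact ⟨_, h3.isComplex (isComplex_cliqueComplex G), fun s hs => hLd s hs.1, h3⟩

end Graph

/-- Hamming spaces satisfy the exclusion bound. -/
theorem graphBound_of_hamming {V : Type*} {n r : ℕ} (φ : V → Fin n → Bool) (G : SimpleGraph V)
    (hG : ∀ x y, G.Adj x y ↔ x ≠ y ∧ hammingDist (φ x) (φ y) ≤ r) :
    GraphBound (2 ^ r) G := by
  intro l u w h1 h2 h3
  have hle : ∀ x y, x = y ∨ G.Adj x y → hammingDist (φ x) (φ y) < r + 1 := by
    rintro x y (rfl | h)
    · simp
    · have := ((hG x y).1 h).2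
      omega
  have hge : ∀ x y, x ≠ y ∧ ¬ G.Adj x y → r + 1 ≤ hammingDist (φ x) (φ y) := by
    rintro x y ⟨h, h'⟩
    by_contra hcon
    exact h' ((hG x y).2 ⟨h, by omega⟩)
  have h4 := skew (n := n) (K := r + 1) (N := l + l)
    (Fin.append (fun i => φ (u i)) (fun i => φ (w i.rev)))
    (Fin.append (fun i => φ (w i)) (fun i => φ (u i.rev))) ?_ ?_
  · rw [pow_succ] at h4
    omega
  · intro i
    refine Fin.addCases (fun i => ?_) (fun i => ?_) i
    · rw [Fin.append_left, Fin.append_left]
      exact hge _ _ (h2 i)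
    · rw [Fin.append_right, Fin.append_right, hammingDist_comm]
      exact hge _ _ (h2 _)
  · intro i j
    refine Fin.addCases (fun i => ?_) (fun i => ?_) i
    · refine Fin.addCases (fun j => ?_) (fun j => ?_) j
      · intro hij
        rw [Fin.append_left, Fin.append_left]
        refine hle _ _ (h3 i j ?_)
        rw [Fin.lt_def] at hij ⊢
        exact hij
      · intro _
        rw [Fin.append_left, Fin.append_right]
        exact hle _ _ (h1 _ _)
    · refine Fin.addCases (fun j => ?_) (fun j => ?_) j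
      · intro hij
        exfalso
        rw [Fin.lt_def] at hij
        simp only [Fin.val_natAdd, Fin.val_castAdd] at hij
        omega
      · intro hij
        rw [Fin.append_right, Fin.append_right, hammingDist_comm]
        apply hle
        apply h3
        rw [Fin.lt_def] at hij
        simp only [Fin.val_natAdd] at hij
        rw [Fin.rev_lt_rev, Fin.lt_def]
        omega

/-- The binary digits. -/
def digits (n : ℕ) (x : ℕ) : Fin n → Bool := fun i => x.testBit i

theorem hammingDist_digits {n x y : ℕ} (hx : x < 2 ^ n) (hy : y < 2 ^ n) :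
    hammingDist (digits n x) (digits n y) = digitDist x y := by
  unfold hammingDist digitDist
  rw [← Set.ncard_coe_finset]
  apply Set.ncard_congr (fun (i : Fin n) _ => (i : ℕ))
  · intro i hi
    exact (Finset.mem_filter.1 hi).2
  · intro i j _ _ h
    exact Fin.ext h
  · intro i hi
    have hin : i < n := by
      by_contra h
      push Not at h
      apply hi
      rw [Nat.testBit_lt_two_pow (hx.trans_le (Nat.pow_le_pow_right (by omega) h)),
        Nat.testBit_lt_two_pow (hy.trans_le (Nat.pow_le_pow_right (by omega) h))]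
    exact ⟨⟨i, hin⟩, Finset.mem_coe.2 (Finset.mem_filter.2 ⟨Finset.mem_univ _, hi⟩), rfl⟩

theorem main (m r : ℕ) : ∃ L : Set (Finset (Fin m)), IsComplex L ∧
    L ⊆ skeleton (cliqueComplex (hammingGraph m r)) (2 ^ r - 1) ∧
      Collapses (cliqueComplex (hammingGraph m r)) L := by
  obtain ⟨L, h1, h2, h3⟩ := collapse_of_graphBound (d := 2 ^ r) Nat.one_le_two_pow
    (hammingGraph m r) (graphBound_of_hamming (n := m) (r := r) (fun x : Fin m => digits m x)
      (hammingGraph m r) (by
        intro x y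
        rw [hammingDist_digits (x.2.trans Nat.lt_two_pow_self) (y.2.trans Nat.lt_two_pow_self)]
        rfl))
  refine ⟨L, h1, fun s hs => ⟨h3.subset hs, ?_⟩, h3⟩
  have := h2 s hs
  have := Nat.one_le_two_pow (n := r)
  omega

end Pool.Agent.R796.HC
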