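import Mathlib
import Pool.Agent.R796.HCDefs
import Pool.Agent.R796.HCFinal

/-!
# The full skeleton: a collapse to the full `(2^r-1)`-skeleton is impossible for `m = 9`, `r = 2`
-/

set_option autoImplicit false

namespace Pool.Agent.R796.HC

/-- A maximal simplex with exactly `k + 2` vertices obstructs a collapse to the `k`-skeleton. -/
theorem not_collapses_skeleton {V : Type*} {K : Set (Finset V)} {k : ℕ} {s : Finset V}
    (hs : s ∈ K) (hcard : s.card = k + 2) (hmax : ∀ t ∈ K, ¬ s ⊂ t) :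
    ¬ Collapses K (skeleton K k) := by
  intro h
  have key : ∀ L, Collapses K L → skeleton K k ⊆ L → s ∈ L ∧ skeleton K k ⊆ L := by
    intro L hL
    induction hL with
    | refl => exact fun h => ⟨hs, h⟩
    | tail h0 h1 ih =>
      intro h2
      obtain ⟨σ, hσ, τ, hτ, h3, h4, h5, rfl⟩ := h1
      have h6 := ih (h2.trans Set.sdiff_subset)
      refine ⟨⟨h6.1, ?_⟩, h2⟩
      rintro (h | h)
      · subst h
        exact hmax τ (Collapses.subset h0 hτ) h3
      · rw [Set.mem_singleton_iff] at h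
        subst h
        have h7 : σ ∈ skeleton K k := ⟨Collapses.subset h0 hσ, by omega⟩
        exact (h2 h7).2 (Or.inl rfl)
  have h8 := (key _ h subset_rfl).1.2
  omega

theorem literal : ¬ Collapses (cliqueComplex (hammingGraph 9 2))
    (skeleton (cliqueComplex (hammingGraph 9 2)) (2 ^ 2 - 1)) := by
  have hadj : ∀ x y : Fin 9, (hammingGraph 9 2).Adj x y ↔
      x ≠ y ∧ hammingDist (digits 4 x) (digits 4 y) ≤ 2 := by
    intro x y
    rw [hammingDist_digits (by omega) (by omega)]
    rfl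
  apply not_collapses_skeleton (s := {0, 1, 2, 4, 8})
  · refine ⟨⟨0, by simp⟩, ?_⟩
    simp only [hadj]
    decide
  · rfl
  · intro t ht hst
    obtain ⟨v, hv, hvs⟩ := Finset.exists_of_ssubset hst
    have h1 : ∀ v : Fin 9, v ∉ ({0, 1, 2, 4, 8} : Finset (Fin 9)) →
        ∃ x ∈ ({0, 1, 2, 4, 8} : Finset (Fin 9)),
          ¬ (v ≠ x ∧ hammingDist (digits 4 v) (digits 4 x) ≤ 2) := by
      decide
    obtain ⟨x, hx, hx'⟩ := h1 v hvs
    apply hx'
    rw [← hadj]
    exact ht.2 v hv x (hst.subset hx) (fun h => hvs (h ▸ hx))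

end Pool.Agent.R796.HC
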