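import Mathlib

/-!
# Maps from the three-dimensional sphere to the circle lift to the line
-/

set_option autoImplicit false

namespace Pool.Agent.R796.SC

open Set Metric Topology
open scoped unitInterval

/-- The space `ℝ⁴` (with the maximum norm). -/
abbrev W4 : Type := Fin 4 → ℝ

/-- Its unit sphere. -/
abbrev S3 : Type := sphere (0 : W4) 1

theorem lift_of_contr {X : Type*} [TopologicalSpace X] (f : C(X, Circle)) (x₀ : X)
    (K : C(I × X, X)) (h0 : ∀ x, K (0, x) = x₀) (h1 : ∀ x, K (1, x) = x) :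
    ∃ θ : C(X, ℝ), ∀ x, f x = Circle.exp (θ x) := by
  obtain ⟨c, hc⟩ := Circle.exp_surjective (f x₀)
  have H_0 : ∀ a, (f.comp K) (0, a) = Circle.exp ((ContinuousMap.const X c) a) := by
    intro a
    rw [ContinuousMap.comp_apply, h0, ContinuousMap.const_apply, hc]
  refine ⟨(Circle.isCoveringMap_exp.liftHomotopy (f.comp K) (ContinuousMap.const X c) H_0).comp
    ((ContinuousMap.const X (1 : I)).prodMk (ContinuousMap.id X)), ?_⟩
  intro x
  have h2 := congrFun (Circle.isCoveringMap_exp.liftHomotopy_lifts (f.comp K)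
    (ContinuousMap.const X c) H_0) (1, x)
  simp only [Function.comp_apply, ContinuousMap.comp_apply, h1] at h2
  exact h2.symm

/-- The reflection of the first coordinate into a half-space. -/
def fl (ε : ℝ) (s : W4) : W4 := fun i => if i = 0 then ε * |s 0| else s i

theorem norm_fl {ε : ℝ} (hε : |ε| = 1) (s : W4) : ‖fl ε s‖ = ‖s‖ := by
  have h : ∀ i, ‖fl ε s i‖₊ = ‖s i‖₊ := by
    intro i
    unfold fl
    split_ifs with h
    · subst h
      ext
      rw [coe_nnnorm, coe_nnnorm, norm_mul, Real.norm_eq_abs, hε, one_mul, Real.norm_eq_abs,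
        Real.norm_eq_abs, abs_abs]
    · rfl
  rw [Pi.norm_def, Pi.norm_def]
  congr 2
  funext i
  exact h i

theorem continuous_fl (ε : ℝ) : Continuous (fl ε) := by
  apply continuous_pi
  intro i
  unfold fl
  split_ifs
  · fun_prop
  · fun_prop

/-- The half-spheres. -/
abbrev Half (ε : ℝ) : Type := {s : S3 // 0 ≤ ε * s.1 0}

/-- The base points. -/
def e0 (ε : ℝ) : W4 := fun i => if i = 0 then ε else 0

theorem lift_half {ε : ℝ} (hε : ε * ε = 1) (f : C(Half ε, Circle)) :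
    ∃ θ : C(Half ε, ℝ), ∀ x, f x = Circle.exp (θ x) := by
  have hε1 : |ε| = 1 := by
    have : |ε| * |ε| = 1 := by rw [← abs_mul, hε, abs_one]
    nlinarith [abs_nonneg ε]
  have hv0 : ∀ (t : I) (s : Half ε), 0 ≤ ε * ((t : ℝ) • (s.1.1 : W4) + (1 - (t : ℝ)) • e0 ε) 0 := by
    intro t s
    have h1 : ((t : ℝ) • (s.1.1 : W4) + (1 - (t : ℝ)) • e0 ε) 0 =
        (t : ℝ) * s.1.1 0 + (1 - (t : ℝ)) * ε := by simp [e0]
    rw [h1]
    have h2 := mul_nonneg t.2.1 s.2
    have h3 : 0 ≤ (1 - (t : ℝ)) := sub_nonneg.2 t.2.2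
    nlinarith
  have hv : ∀ (t : I) (s : Half ε), (t : ℝ) • (s.1.1 : W4) + (1 - (t : ℝ)) • e0 ε ≠ 0 := by
    intro t s h
    by_cases ht : (t : ℝ) = 1
    · rw [ht, one_smul, sub_self, zero_smul, add_zero] at h
      have := mem_sphere_zero_iff_norm.1 s.1.2
      rw [h, norm_zero] at this
      exact zero_ne_one this
    · have h1 : ((t : ℝ) • (s.1.1 : W4) + (1 - (t : ℝ)) • e0 ε) 0 =
        (t : ℝ) * s.1.1 0 + (1 - (t : ℝ)) * ε := by simp [e0]
      rw [h] at h1
      have h2 := mul_nonneg t.2.1 s.2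
      have h3 : 0 < (1 - (t : ℝ)) := sub_pos.2 (lt_of_le_of_ne t.2.2 ht)
      simp only [Pi.zero_apply] at h1
      have h5 : ε * ((t : ℝ) * s.1.1 0 + (1 - (t : ℝ)) * ε) =
          (t : ℝ) * (ε * s.1.1 0) + (1 - (t : ℝ)) * (ε * ε) := by ring
      rw [← h1, mul_zero, hε] at h5
      linarith
  have hcv : Continuous fun q : I × Half ε =>
      ((q.1 : ℝ) • (q.2.1.1 : W4) + (1 - (q.1 : ℝ)) • e0 ε) := by fun_prop
  let V : I × Half ε → W4 := fun q => (q.1 : ℝ) • (q.2.1.1 : W4) + (1 - (q.1 : ℝ)) • e0 ε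
  have hVc : Continuous V := hcv
  have hV0 : ∀ q, V q ≠ 0 := fun q => hv q.1 q.2
  let K : I × Half ε → Half ε := fun q => ⟨⟨‖V q‖⁻¹ • V q, by
    rw [mem_sphere_zero_iff_norm, norm_smul, norm_inv, norm_norm,
      inv_mul_cancel₀ (norm_ne_zero_iff.2 (hV0 q))]⟩, by
    show 0 ≤ ε * (‖V q‖⁻¹ • V q) 0
    rw [Pi.smul_apply, smul_eq_mul, mul_left_comm]
    exact mul_nonneg (by positivity) (hv0 q.1 q.2)⟩
  have hK : Continuous K := by
    apply Continuous.subtype_mk
    apply Continuous.subtype_mk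
    exact (hVc.norm.inv₀ fun q => norm_ne_zero_iff.2 (hV0 q)).smul hVc
  have hne : ‖e0 ε‖ = 1 := by
    have : e0 ε = Pi.single (0 : Fin 4) ε := by
      funext i
      by_cases h : i = 0
      · subst h
        simp [e0]
      · simp [e0, h]
    rw [this, Pi.norm_single, Real.norm_eq_abs, hε1]
  refine lift_of_contr f ⟨⟨e0 ε, by rw [mem_sphere_zero_iff_norm, hne]⟩, by
    show 0 ≤ ε * e0 ε 0
    simp [e0, hε]⟩ ⟨K, hK⟩ ?_ ?_
  · intro x
    apply Subtype.ext
    apply Subtype.ext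
    show ‖V (0, x)‖⁻¹ • V (0, x) = e0 ε
    have : V (0, x) = e0 ε := by simp [V]
    rw [this, hne, inv_one, one_smul]
  · intro x
    apply Subtype.ext
    apply Subtype.ext
    show ‖V (1, x)‖⁻¹ • V (1, x) = x.1.1
    have : V (1, x) = x.1.1 := by simp [V]
    rw [this, mem_sphere_zero_iff_norm.1 x.1.2, inv_one, one_smul]

/-- The equator. -/
abbrev Equ : Type := {s : S3 // s.1 0 = 0}

instance : PreconnectedSpace Equ := by
  have h1 : IsConnected ({(0 : Fin 3 → ℝ)}ᶜ : Set (Fin 3 → ℝ)) :=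
    isConnected_compl_singleton_of_one_lt_rank (by
      rw [rank_fin_fun]
      norm_num) 0
  have : ConnectedSpace ({(0 : Fin 3 → ℝ)}ᶜ : Set (Fin 3 → ℝ)) :=
    isConnected_iff_connectedSpace.1 h1
  let V : ({(0 : Fin 3 → ℝ)}ᶜ : Set (Fin 3 → ℝ)) → W4 := fun y => Fin.cons 0 y.1
  have hVc : Continuous V := by
    apply continuous_pi
    intro i
    refine Fin.cases ?_ (fun j => ?_) i
    · exact continuous_const
    · exact (continuous_apply j).comp continuous_subtype_val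
  have hV0 : ∀ y, V y ≠ 0 := by
    intro y h
    apply y.2
    funext j
    have := congrFun h j.succ
    exact this
  let K : ({(0 : Fin 3 → ℝ)}ᶜ : Set (Fin 3 → ℝ)) → Equ := fun y => ⟨⟨‖V y‖⁻¹ • V y, by
    rw [mem_sphere_zero_iff_norm, norm_smul, norm_inv, norm_norm,
      inv_mul_cancel₀ (norm_ne_zero_iff.2 (hV0 y))]⟩, by
    show (‖V y‖⁻¹ • V y) 0 = 0
    simp [V]⟩
  have hK : Continuous K := by
    apply Continuous.subtype_mk
    apply Continuous.subtype_mk
    exact (hVc.norm.inv₀ fun q => norm_ne_zero_iff.2 (hV0 q)).smul hVc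
  have hsurj : Function.Surjective K := by
    rintro ⟨⟨s, hs⟩, hs0⟩
    have hsn : ‖s‖ = 1 := mem_sphere_zero_iff_norm.1 hs
    have hne : (fun j : Fin 3 => s j.succ) ≠ 0 := by
      intro h
      have : s = 0 := by
        funext i
        refine Fin.cases hs0 (fun j => ?_) i
        exact congrFun h j
      rw [this, norm_zero] at hsn
      exact zero_ne_one hsn
    refine ⟨⟨fun j => s j.succ, hne⟩, ?_⟩
    have hV : V ⟨fun j => s j.succ, hne⟩ = s := by
      funext i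
      refine Fin.cases hs0.symm (fun j => rfl) i
    apply Subtype.ext
    apply Subtype.ext
    show ‖V ⟨fun j => s j.succ, hne⟩‖⁻¹ • V ⟨fun j => s j.succ, hne⟩ = s
    rw [hV, hsn, inv_one, one_smul]
  have hpre : PreconnectedSpace ({(0 : Fin 3 → ℝ)}ᶜ : Set (Fin 3 → ℝ)) := inferInstance
  exact ⟨by rw [← hsurj.range_eq]; exact isPreconnected_range hK⟩

theorem exists_lift (f : C(S3, Circle)) : ∃ θ : C(S3, ℝ), ∀ s, f s = Circle.exp (θ s) := by
  obtain ⟨θ₁, h₁⟩ := lift_half (ε := 1) (by norm_num)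
    (f.comp ⟨fun x : Half 1 => x.1, continuous_subtype_val⟩)
  obtain ⟨θ₂, h₂⟩ := lift_half (ε := -1) (by norm_num)
    (f.comp ⟨fun x : Half (-1) => x.1, continuous_subtype_val⟩)
  -- the equator in the two half-spheres
  let ι₁ : C(Equ, Half 1) := ⟨fun x => ⟨x.1, by rw [x.2, mul_zero]⟩, by fun_prop⟩
  let ι₂ : C(Equ, Half (-1)) := ⟨fun x => ⟨x.1, by rw [x.2, mul_zero]⟩, by fun_prop⟩
  have hb : ‖(Pi.single (1 : Fin 4) (1 : ℝ) : W4)‖ = 1 := by rw [Pi.norm_single, norm_one]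
  let b : Equ := ⟨⟨Pi.single (1 : Fin 4) (1 : ℝ), by rw [mem_sphere_zero_iff_norm, hb]⟩, by
    simp⟩
  have hbb : Circle.exp (θ₁ (ι₁ b)) = Circle.exp (θ₂ (ι₂ b)) := by
    rw [← h₁, ← h₂]
    rfl
  obtain ⟨m, hm⟩ := Circle.exp_eq_exp.1 hbb
  have hper : ∀ x : ℝ, Circle.exp (x + m * (2 * Real.pi)) = Circle.exp x :=
    fun x => Circle.exp_eq_exp.2 ⟨m, rfl⟩
  have heq : ∀ x : Equ, θ₁ (ι₁ x) = θ₂ (ι₂ x) + m * (2 * Real.pi) := by
    have := Circle.isCoveringMap_exp.eq_of_comp_eq (g₁ := fun x : Equ => θ₁ (ι₁ x))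
      (g₂ := fun x : Equ => θ₂ (ι₂ x) + m * (2 * Real.pi))
      (θ₁.continuous.comp ι₁.continuous)
      ((θ₂.continuous.comp ι₂.continuous).add continuous_const) (by
        funext x
        simp only [Function.comp_apply]
        rw [hper, ← h₁, ← h₂]
        rfl) b hm
    exact fun x => congrFun this x
  -- the retractions
  have hr : ∀ (ε : ℝ), |ε| = 1 → ∀ s : S3, fl ε s.1 ∈ sphere (0 : W4) 1 := by
    intro ε hε s
    rw [mem_sphere_zero_iff_norm, norm_fl hε]
    exact mem_sphere_zero_iff_norm.1 s.2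
  let ρ₁ : S3 → Half 1 := fun s => ⟨⟨fl 1 s.1, hr 1 (by norm_num) s⟩, by
    show 0 ≤ 1 * fl 1 s.1 0
    simp [fl]⟩
  let ρ₂ : S3 → Half (-1) := fun s => ⟨⟨fl (-1) s.1, hr (-1) (by norm_num) s⟩, by
    show 0 ≤ -1 * fl (-1) s.1 0
    simp [fl]⟩
  have hρ₁ : Continuous ρ₁ :=
    ((continuous_fl 1).comp continuous_subtype_val).subtype_mk _ |>.subtype_mk _
  have hρ₂ : Continuous ρ₂ :=
    ((continuous_fl (-1)).comp continuous_subtype_val).subtype_mk _ |>.subtype_mk _
  have hρ₁' : ∀ s : S3, 0 ≤ s.1 0 → (ρ₁ s).1 = s := by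
    intro s hs
    apply Subtype.ext
    show fl 1 s.1 = s.1
    funext i
    unfold fl
    split_ifs with h
    · subst h
      rw [abs_of_nonneg hs, one_mul]
    · rfl
  have hρ₂' : ∀ s : S3, s.1 0 ≤ 0 → (ρ₂ s).1 = s := by
    intro s hs
    apply Subtype.ext
    show fl (-1) s.1 = s.1
    funext i
    unfold fl
    split_ifs with h
    · subst h
      rw [abs_of_nonpos hs]
      ring
    · rfl
  let θ : S3 → ℝ := fun s => if 0 ≤ s.1 0 then θ₁ (ρ₁ s) else θ₂ (ρ₂ s) + m * (2 * Real.pi)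
  have hθ : Continuous θ := by
    apply Continuous.if_le (θ₁.continuous.comp hρ₁)
      ((θ₂.continuous.comp hρ₂).add continuous_const) continuous_const
      ((continuous_apply 0).comp continuous_subtype_val)
    intro s hs
    have e1 : ρ₁ s = ι₁ ⟨s, hs.symm⟩ := Subtype.ext (hρ₁' s (le_of_eq hs))
    have e2 : ρ₂ s = ι₂ ⟨s, hs.symm⟩ := Subtype.ext (hρ₂' s (le_of_eq hs.symm))
    show θ₁ (ρ₁ s) = θ₂ (ρ₂ s) + m * (2 * Real.pi)
    rw [e1, e2]
    exact heq _
  refine ⟨⟨θ, hθ⟩, ?_⟩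
  intro s
  show f s = Circle.exp (θ s)
  by_cases hs : 0 ≤ s.1 0
  · simp only [θ, hs, if_true]
    rw [← h₁]
    show f s = f (ρ₁ s).1
    rw [hρ₁' s hs]
  · simp only [θ, hs, if_false]
    rw [hper, ← h₂]
    show f s = f (ρ₂ s).1
    rw [hρ₂' s (not_le.1 hs).le]

end Pool.Agent.R796.SC
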