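import Mathlib
import Pool.Agent.R796.SCCirc

/-!
# The configuration of twelve points in `ℝ⁴`: adjacencies
-/

set_option autoImplicit false

namespace Pool.Agent.R796.SC

open Set Topology Metric

/-- The point with given homogeneous coordinates. -/
noncomputable def pt (r : Fin 5 → ℝ) : W4 := fun i => r i.succ / r 0

/-- Homogeneous coordinates of the twelve points. -/
noncomputable def rA (i : Fin 3) (κ : ℝ) : Fin 5 → ℝ :=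
  (![![1, 0, 0, -2, 0], ![1, -24 * κ ^ 2, 0, -6, 0], ![1, 31 / 2 * κ ^ 2, 0, 0, -1]] :
    Fin 3 → Fin 5 → ℝ) i

/-- Homogeneous coordinates of the twelve points. -/
noncomputable def rG (i : Fin 3) (κ : ℝ) : Fin 5 → ℝ :=
  (![![1, 1, 0, -2, 0], ![1, 1 + 8 * κ ^ 2, 0, -1, 1], ![1, 1 - 15 / 2 * κ ^ 2, 0, -3, -1]] :
    Fin 3 → Fin 5 → ℝ) i

/-- Homogeneous coordinates of the twelve points. -/
noncomputable def rB (i : Fin 3) (κ : ℝ) : Fin 5 → ℝ :=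
  (![![κ, 1 - 44 * κ ^ 2 + 47 / 4 * κ ^ 3, 6, -6, 4], ![κ, 1 - 2 * κ ^ 2 - 47 / 4 * κ ^ 3, 0, -2, 0],
    ![κ, 1 - 23 * κ ^ 2 + 49 / 4 * κ ^ 3, 1, -6, 3]] : Fin 3 → Fin 5 → ℝ) i

/-- Homogeneous coordinates of the twelve points. -/
noncomputable def rD (i : Fin 3) (κ : ℝ) : Fin 5 → ℝ :=
  (![![κ, -1 + κ + 34 * κ ^ 2 + 33 / 4 * κ ^ 3, 6, 4, 4],
    ![κ, -1 + κ + 6 * κ ^ 2 + 31 / 4 * κ ^ 3, -2, 2, 2],
    ![κ, -1 + κ + 23 * κ ^ 2 + 7 / 4 * κ ^ 3, 3, 1, 6]] : Fin 3 → Fin 5 → ℝ) i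

/-- The squared distance of two points, in units of the scale. -/
def nn (κ : ℝ) (y y' : W4) : ℝ :=
  κ ^ 2 * (y 0 - y' 0) ^ 2 +
    κ ^ 4 * ((y 1 - y' 1) ^ 2 + (y 2 - y' 2) ^ 2 + (y 3 - y' 3) ^ 2)

theorem nn_comm (κ : ℝ) (y y' : W4) : nn κ y y' = nn κ y' y := by
  unfold nn
  ring

theorem nn_ff {κ : ℝ} {a a' : Fin 5 → ℝ} (ha : a 0 = 1) (ha' : a' 0 = 1) :
    nn κ (pt a) (pt a') = κ ^ 2 * (a 1 - a' 1) ^ 2 +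
      κ ^ 4 * ((a 2 - a' 2) ^ 2 + (a 3 - a' 3) ^ 2 + (a 4 - a' 4) ^ 2) := by
  show κ ^ 2 * (a 1 / a 0 - a' 1 / a' 0) ^ 2 + κ ^ 4 * ((a 2 / a 0 - a' 2 / a' 0) ^ 2 +
    (a 3 / a 0 - a' 3 / a' 0) ^ 2 + (a 4 / a 0 - a' 4 / a' 0) ^ 2) = _
  rw [ha, ha']
  simp only [div_one]

theorem nn_fi {κ : ℝ} (hκ : κ ≠ 0) {a b : Fin 5 → ℝ} (ha : a 0 = 1) (hb : b 0 = κ) :
    nn κ (pt a) (pt b) = (κ * a 1 - b 1) ^ 2 +
      κ ^ 2 * ((κ * a 2 - b 2) ^ 2 + (κ * a 3 - b 3) ^ 2 + (κ * a 4 - b 4) ^ 2) := by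
  show κ ^ 2 * (a 1 / a 0 - b 1 / b 0) ^ 2 + κ ^ 4 * ((a 2 / a 0 - b 2 / b 0) ^ 2 +
    (a 3 / a 0 - b 3 / b 0) ^ 2 + (a 4 / a 0 - b 4 / b 0) ^ 2) = _
  rw [ha, hb]
  field_simp

theorem nn_ii {κ : ℝ} (hκ : κ ≠ 0) {b b' : Fin 5 → ℝ} (hb : b 0 = κ) (hb' : b' 0 = κ) :
    nn κ (pt b) (pt b') = (b 1 - b' 1) ^ 2 +
      κ ^ 2 * ((b 2 - b' 2) ^ 2 + (b 3 - b' 3) ^ 2 + (b 4 - b' 4) ^ 2) := by
  show κ ^ 2 * (b 1 / b 0 - b' 1 / b' 0) ^ 2 + κ ^ 4 * ((b 2 / b 0 - b' 2 / b' 0) ^ 2 +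
    (b 3 / b 0 - b' 3 / b' 0) ^ 2 + (b 4 / b 0 - b' 4 / b' 0) ^ 2) = _
  rw [hb, hb']
  field_simp

theorem rA_zero (i : Fin 3) (κ : ℝ) : rA i κ 0 = 1 := by fin_cases i <;> rfl
theorem rG_zero (i : Fin 3) (κ : ℝ) : rG i κ 0 = 1 := by fin_cases i <;> rfl
theorem rB_zero (i : Fin 3) (κ : ℝ) : rB i κ 0 = κ := by fin_cases i <;> rfl
theorem rD_zero (i : Fin 3) (κ : ℝ) : rD i κ 0 = κ := by fin_cases i <;> rfl

/-- Bounds for the powers of a small number. -/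
structure Small (κ : ℝ) : Prop where
  p1 : 0 < κ
  q1 : κ ≤ 1 / 10000
  p2 : 0 < κ ^ 2
  q2 : κ ^ 2 ≤ κ / 10000
  p3 : 0 < κ ^ 3
  q3 : κ ^ 3 ≤ κ ^ 2 / 10000
  p4 : 0 < κ ^ 4
  q4 : κ ^ 4 ≤ κ ^ 3 / 10000
  p5 : 0 < κ ^ 5
  q5 : κ ^ 5 ≤ κ ^ 4 / 10000
  p6 : 0 < κ ^ 6
  q6 : κ ^ 6 ≤ κ ^ 5 / 10000

theorem small_of {κ : ℝ} (h0 : 0 < κ) (h1 : κ ≤ 1 / 10000) : Small κ := by
  have key : ∀ n : ℕ, κ ^ (n + 1) ≤ κ ^ n / 10000 := by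
    intro n
    rw [pow_succ]
    have := mul_le_mul_of_nonneg_left h1 (pow_nonneg h0.le n)
    linarith
  refine ⟨h0, h1, pow_pos h0 2, ?_, pow_pos h0 3, key 2, pow_pos h0 4, key 3, pow_pos h0 5, key 4,
    pow_pos h0 6, key 5⟩
  simpa using key 1

theorem w0 (a b c d e : ℝ) : (![a, b, c, d, e] : Fin 5 → ℝ) 0 = a := rfl
theorem w1 (a b c d e : ℝ) : (![a, b, c, d, e] : Fin 5 → ℝ) 1 = b := rfl
theorem w2 (a b c d e : ℝ) : (![a, b, c, d, e] : Fin 5 → ℝ) 2 = c := rfl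
theorem w3 (a b c d e : ℝ) : (![a, b, c, d, e] : Fin 5 → ℝ) 3 = d := rfl
theorem w4 (a b c d e : ℝ) : (![a, b, c, d, e] : Fin 5 → ℝ) 4 = e := rfl

theorem rA0 (κ : ℝ) : rA 0 κ = ![1, 0, 0, -2, 0] := rfl
theorem rA1 (κ : ℝ) : rA 1 κ = ![1, -24 * κ ^ 2, 0, -6, 0] := rfl
theorem rA2 (κ : ℝ) : rA 2 κ = ![1, 31 / 2 * κ ^ 2, 0, 0, -1] := rfl
theorem rG0 (κ : ℝ) : rG 0 κ = ![1, 1, 0, -2, 0] := rfl
theorem rG1 (κ : ℝ) : rG 1 κ = ![1, 1 + 8 * κ ^ 2, 0, -1, 1] := rfl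
theorem rG2 (κ : ℝ) : rG 2 κ = ![1, 1 - 15 / 2 * κ ^ 2, 0, -3, -1] := rfl
theorem rB0 (κ : ℝ) : rB 0 κ = ![κ, 1 - 44 * κ ^ 2 + 47 / 4 * κ ^ 3, 6, -6, 4] := rfl
theorem rB1 (κ : ℝ) : rB 1 κ = ![κ, 1 - 2 * κ ^ 2 - 47 / 4 * κ ^ 3, 0, -2, 0] := rfl
theorem rB2 (κ : ℝ) : rB 2 κ = ![κ, 1 - 23 * κ ^ 2 + 49 / 4 * κ ^ 3, 1, -6, 3] := rfl
theorem rD0 (κ : ℝ) : rD 0 κ = ![κ, -1 + κ + 34 * κ ^ 2 + 33 / 4 * κ ^ 3, 6, 4, 4] := rfl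
theorem rD1 (κ : ℝ) : rD 1 κ = ![κ, -1 + κ + 6 * κ ^ 2 + 31 / 4 * κ ^ 3, -2, 2, 2] := rfl
theorem rD2 (κ : ℝ) : rD 2 κ = ![κ, -1 + κ + 23 * κ ^ 2 + 7 / 4 * κ ^ 3, 3, 1, 6] := rfl

theorem forall_fin3 {p : Fin 3 → Prop} (h0 : p 0) (h1 : p 1) (h2 : p 2) : ∀ i, p i := by
  intro i
  fin_cases i
  · exact h0
  · exact h1
  · exact h2

theorem AA_lt {κ : ℝ} (hκ : Small κ) : ∀ i j : Fin 3,
    nn κ (pt (rA i κ)) (pt (rA j κ)) < 1 := by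
  obtain ⟨p1, q1, p2, q2, p3, q3, p4, q4, p5, q5, p6, q6⟩ := hκ
  have p7 : 0 < κ ^ 7 := by positivity
  have q7 : κ ^ 7 ≤ κ ^ 6 / 10000 := by
    have := mul_le_mul_of_nonneg_left q1 p6.le
    calc κ ^ 7 = κ ^ 6 * κ := by ring
      _ ≤ _ := by linarith
  have p8 : 0 < κ ^ 8 := by positivity
  refine forall_fin3 (forall_fin3 ?_ ?_ ?_) (forall_fin3 ?_ ?_ ?_) (forall_fin3 ?_ ?_ ?_) <;>
    rw [nn_ff (rA_zero _ κ) (rA_zero _ κ)] <;>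
    simp only [rA0, rA1, rA2, w1, w2, w3, w4] <;> linarith

theorem GG_lt {κ : ℝ} (hκ : Small κ) : ∀ i j : Fin 3,
    nn κ (pt (rG i κ)) (pt (rG j κ)) < 1 := by
  obtain ⟨p1, q1, p2, q2, p3, q3, p4, q4, p5, q5, p6, q6⟩ := hκ
  have p7 : 0 < κ ^ 7 := by positivity
  have q7 : κ ^ 7 ≤ κ ^ 6 / 10000 := by
    have := mul_le_mul_of_nonneg_left q1 p6.le
    calc κ ^ 7 = κ ^ 6 * κ := by ring
      _ ≤ _ := by linarith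
  have p8 : 0 < κ ^ 8 := by positivity
  refine forall_fin3 (forall_fin3 ?_ ?_ ?_) (forall_fin3 ?_ ?_ ?_) (forall_fin3 ?_ ?_ ?_) <;>
    rw [nn_ff (rG_zero _ κ) (rG_zero _ κ)] <;>
    simp only [rG0, rG1, rG2, w1, w2, w3, w4] <;> linarith

theorem AG_lt {κ : ℝ} (hκ : Small κ) : ∀ i j : Fin 3,
    nn κ (pt (rA i κ)) (pt (rG j κ)) < 1 := by
  obtain ⟨p1, q1, p2, q2, p3, q3, p4, q4, p5, q5, p6, q6⟩ := hκ
  have p7 : 0 < κ ^ 7 := by positivity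
  have q7 : κ ^ 7 ≤ κ ^ 6 / 10000 := by
    have := mul_le_mul_of_nonneg_left q1 p6.le
    calc κ ^ 7 = κ ^ 6 * κ := by ring
      _ ≤ _ := by linarith
  have p8 : 0 < κ ^ 8 := by positivity
  refine forall_fin3 (forall_fin3 ?_ ?_ ?_) (forall_fin3 ?_ ?_ ?_) (forall_fin3 ?_ ?_ ?_) <;>
    rw [nn_ff (rA_zero _ κ) (rG_zero _ κ)] <;>
    simp only [rA0, rA1, rA2, rG0, rG1, rG2, w1, w2, w3, w4] <;> linarith

theorem GB_lt {κ : ℝ} (hκ : Small κ) : ∀ i j : Fin 3,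
    nn κ (pt (rG i κ)) (pt (rB j κ)) < 1 := by
  obtain ⟨p1, q1, p2, q2, p3, q3, p4, q4, p5, q5, p6, q6⟩ := hκ
  have p7 : 0 < κ ^ 7 := by positivity
  have q7 : κ ^ 7 ≤ κ ^ 6 / 10000 := by
    have := mul_le_mul_of_nonneg_left q1 p6.le
    calc κ ^ 7 = κ ^ 6 * κ := by ring
      _ ≤ _ := by linarith
  have p8 : 0 < κ ^ 8 := by positivity
  refine forall_fin3 (forall_fin3 ?_ ?_ ?_) (forall_fin3 ?_ ?_ ?_) (forall_fin3 ?_ ?_ ?_) <;>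
    rw [nn_fi p1.ne' (rG_zero _ κ) (rB_zero _ κ)] <;>
    simp only [rG0, rG1, rG2, rB0, rB1, rB2, w1, w2, w3, w4] <;> linarith

theorem BB_lt {κ : ℝ} (hκ : Small κ) : ∀ i j : Fin 3,
    nn κ (pt (rB i κ)) (pt (rB j κ)) < 1 := by
  obtain ⟨p1, q1, p2, q2, p3, q3, p4, q4, p5, q5, p6, q6⟩ := hκ
  have p7 : 0 < κ ^ 7 := by positivity
  have q7 : κ ^ 7 ≤ κ ^ 6 / 10000 := by
    have := mul_le_mul_of_nonneg_left q1 p6.le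
    calc κ ^ 7 = κ ^ 6 * κ := by ring
      _ ≤ _ := by linarith
  have p8 : 0 < κ ^ 8 := by positivity
  refine forall_fin3 (forall_fin3 ?_ ?_ ?_) (forall_fin3 ?_ ?_ ?_) (forall_fin3 ?_ ?_ ?_) <;>
    rw [nn_ii p1.ne' (rB_zero _ κ) (rB_zero _ κ)] <;>
    simp only [rB0, rB1, rB2, w1, w2, w3, w4] <;> linarith

theorem AD_lt {κ : ℝ} (hκ : Small κ) : ∀ i j : Fin 3,
    nn κ (pt (rA i κ)) (pt (rD j κ)) < 1 := by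
  obtain ⟨p1, q1, p2, q2, p3, q3, p4, q4, p5, q5, p6, q6⟩ := hκ
  have p7 : 0 < κ ^ 7 := by positivity
  have q7 : κ ^ 7 ≤ κ ^ 6 / 10000 := by
    have := mul_le_mul_of_nonneg_left q1 p6.le
    calc κ ^ 7 = κ ^ 6 * κ := by ring
      _ ≤ _ := by linarith
  have p8 : 0 < κ ^ 8 := by positivity
  refine forall_fin3 (forall_fin3 ?_ ?_ ?_) (forall_fin3 ?_ ?_ ?_) (forall_fin3 ?_ ?_ ?_) <;>
    rw [nn_fi p1.ne' (rA_zero _ κ) (rD_zero _ κ)] <;>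
    simp only [rA0, rA1, rA2, rD0, rD1, rD2, w1, w2, w3, w4] <;> linarith

theorem DD_lt {κ : ℝ} (hκ : Small κ) : ∀ i j : Fin 3,
    nn κ (pt (rD i κ)) (pt (rD j κ)) < 1 := by
  obtain ⟨p1, q1, p2, q2, p3, q3, p4, q4, p5, q5, p6, q6⟩ := hκ
  have p7 : 0 < κ ^ 7 := by positivity
  have q7 : κ ^ 7 ≤ κ ^ 6 / 10000 := by
    have := mul_le_mul_of_nonneg_left q1 p6.le
    calc κ ^ 7 = κ ^ 6 * κ := by ring
      _ ≤ _ := by linarith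
  have p8 : 0 < κ ^ 8 := by positivity
  refine forall_fin3 (forall_fin3 ?_ ?_ ?_) (forall_fin3 ?_ ?_ ?_) (forall_fin3 ?_ ?_ ?_) <;>
    rw [nn_ii p1.ne' (rD_zero _ κ) (rD_zero _ κ)] <;>
    simp only [rD0, rD1, rD2, w1, w2, w3, w4] <;> linarith

theorem AB_lt00 {κ : ℝ} (hκ : Small κ) : nn κ (pt (rA 0 κ)) (pt (rB 0 κ)) < 1 := by
  obtain ⟨p1, q1, p2, q2, p3, q3, p4, q4, p5, q5, p6, q6⟩ := hκ
  have p7 : 0 < κ ^ 7 := by positivity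
  have q7 : κ ^ 7 ≤ κ ^ 6 / 10000 := by
    have := mul_le_mul_of_nonneg_left q1 p6.le
    calc κ ^ 7 = κ ^ 6 * κ := by ring
      _ ≤ _ := by linarith
  have p8 : 0 < κ ^ 8 := by positivity
  rw [nn_fi p1.ne' (rA_zero _ κ) (rB_zero _ κ)]
  simp only [rA0, rB0, w1, w2, w3, w4]
  linarith

theorem GD_lt00 {κ : ℝ} (hκ : Small κ) : nn κ (pt (rG 0 κ)) (pt (rD 0 κ)) < 1 := by
  obtain ⟨p1, q1, p2, q2, p3, q3, p4, q4, p5, q5, p6, q6⟩ := hκ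
  have p7 : 0 < κ ^ 7 := by positivity
  have q7 : κ ^ 7 ≤ κ ^ 6 / 10000 := by
    have := mul_le_mul_of_nonneg_left q1 p6.le
    calc κ ^ 7 = κ ^ 6 * κ := by ring
      _ ≤ _ := by linarith
  have p8 : 0 < κ ^ 8 := by positivity
  rw [nn_fi p1.ne' (rG_zero _ κ) (rD_zero _ κ)]
  simp only [rG0, rD0, w1, w2, w3, w4]
  linarith

theorem AB_lt01 {κ : ℝ} (hκ : Small κ) : nn κ (pt (rA 0 κ)) (pt (rB 1 κ)) < 1 := by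
  obtain ⟨p1, q1, p2, q2, p3, q3, p4, q4, p5, q5, p6, q6⟩ := hκ
  have p7 : 0 < κ ^ 7 := by positivity
  have q7 : κ ^ 7 ≤ κ ^ 6 / 10000 := by
    have := mul_le_mul_of_nonneg_left q1 p6.le
    calc κ ^ 7 = κ ^ 6 * κ := by ring
      _ ≤ _ := by linarith
  have p8 : 0 < κ ^ 8 := by positivity
  rw [nn_fi p1.ne' (rA_zero _ κ) (rB_zero _ κ)]
  simp only [rA0, rB1, w1, w2, w3, w4]
  linarith

theorem GD_lt01 {κ : ℝ} (hκ : Small κ) : nn κ (pt (rG 0 κ)) (pt (rD 1 κ)) < 1 := by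
  obtain ⟨p1, q1, p2, q2, p3, q3, p4, q4, p5, q5, p6, q6⟩ := hκ
  have p7 : 0 < κ ^ 7 := by positivity
  have q7 : κ ^ 7 ≤ κ ^ 6 / 10000 := by
    have := mul_le_mul_of_nonneg_left q1 p6.le
    calc κ ^ 7 = κ ^ 6 * κ := by ring
      _ ≤ _ := by linarith
  have p8 : 0 < κ ^ 8 := by positivity
  rw [nn_fi p1.ne' (rG_zero _ κ) (rD_zero _ κ)]
  simp only [rG0, rD1, w1, w2, w3, w4]
  linarith

theorem AB_lt10 {κ : ℝ} (hκ : Small κ) : nn κ (pt (rA 1 κ)) (pt (rB 0 κ)) < 1 := by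
  obtain ⟨p1, q1, p2, q2, p3, q3, p4, q4, p5, q5, p6, q6⟩ := hκ
  have p7 : 0 < κ ^ 7 := by positivity
  have q7 : κ ^ 7 ≤ κ ^ 6 / 10000 := by
    have := mul_le_mul_of_nonneg_left q1 p6.le
    calc κ ^ 7 = κ ^ 6 * κ := by ring
      _ ≤ _ := by linarith
  have p8 : 0 < κ ^ 8 := by positivity
  rw [nn_fi p1.ne' (rA_zero _ κ) (rB_zero _ κ)]
  simp only [rA1, rB0, w1, w2, w3, w4]
  linarith

theorem GD_lt10 {κ : ℝ} (hκ : Small κ) : nn κ (pt (rG 1 κ)) (pt (rD 0 κ)) < 1 := by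
  obtain ⟨p1, q1, p2, q2, p3, q3, p4, q4, p5, q5, p6, q6⟩ := hκ
  have p7 : 0 < κ ^ 7 := by positivity
  have q7 : κ ^ 7 ≤ κ ^ 6 / 10000 := by
    have := mul_le_mul_of_nonneg_left q1 p6.le
    calc κ ^ 7 = κ ^ 6 * κ := by ring
      _ ≤ _ := by linarith
  have p8 : 0 < κ ^ 8 := by positivity
  rw [nn_fi p1.ne' (rG_zero _ κ) (rD_zero _ κ)]
  simp only [rG1, rD0, w1, w2, w3, w4]
  linarith

theorem AB_lt21 {κ : ℝ} (hκ : Small κ) : nn κ (pt (rA 2 κ)) (pt (rB 1 κ)) < 1 := by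
  obtain ⟨p1, q1, p2, q2, p3, q3, p4, q4, p5, q5, p6, q6⟩ := hκ
  have p7 : 0 < κ ^ 7 := by positivity
  have q7 : κ ^ 7 ≤ κ ^ 6 / 10000 := by
    have := mul_le_mul_of_nonneg_left q1 p6.le
    calc κ ^ 7 = κ ^ 6 * κ := by ring
      _ ≤ _ := by linarith
  have p8 : 0 < κ ^ 8 := by positivity
  rw [nn_fi p1.ne' (rA_zero _ κ) (rB_zero _ κ)]
  simp only [rA2, rB1, w1, w2, w3, w4]
  linarith

theorem GD_lt21 {κ : ℝ} (hκ : Small κ) : nn κ (pt (rG 2 κ)) (pt (rD 1 κ)) < 1 := by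
  obtain ⟨p1, q1, p2, q2, p3, q3, p4, q4, p5, q5, p6, q6⟩ := hκ
  have p7 : 0 < κ ^ 7 := by positivity
  have q7 : κ ^ 7 ≤ κ ^ 6 / 10000 := by
    have := mul_le_mul_of_nonneg_left q1 p6.le
    calc κ ^ 7 = κ ^ 6 * κ := by ring
      _ ≤ _ := by linarith
  have p8 : 0 < κ ^ 8 := by positivity
  rw [nn_fi p1.ne' (rG_zero _ κ) (rD_zero _ κ)]
  simp only [rG2, rD1, w1, w2, w3, w4]
  linarith

theorem AB_lt22 {κ : ℝ} (hκ : Small κ) : nn κ (pt (rA 2 κ)) (pt (rB 2 κ)) < 1 := by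
  obtain ⟨p1, q1, p2, q2, p3, q3, p4, q4, p5, q5, p6, q6⟩ := hκ
  have p7 : 0 < κ ^ 7 := by positivity
  have q7 : κ ^ 7 ≤ κ ^ 6 / 10000 := by
    have := mul_le_mul_of_nonneg_left q1 p6.le
    calc κ ^ 7 = κ ^ 6 * κ := by ring
      _ ≤ _ := by linarith
  have p8 : 0 < κ ^ 8 := by positivity
  rw [nn_fi p1.ne' (rA_zero _ κ) (rB_zero _ κ)]
  simp only [rA2, rB2, w1, w2, w3, w4]
  linarith

theorem GD_lt22 {κ : ℝ} (hκ : Small κ) : nn κ (pt (rG 2 κ)) (pt (rD 2 κ)) < 1 := by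
  obtain ⟨p1, q1, p2, q2, p3, q3, p4, q4, p5, q5, p6, q6⟩ := hκ
  have p7 : 0 < κ ^ 7 := by positivity
  have q7 : κ ^ 7 ≤ κ ^ 6 / 10000 := by
    have := mul_le_mul_of_nonneg_left q1 p6.le
    calc κ ^ 7 = κ ^ 6 * κ := by ring
      _ ≤ _ := by linarith
  have p8 : 0 < κ ^ 8 := by positivity
  rw [nn_fi p1.ne' (rG_zero _ κ) (rD_zero _ κ)]
  simp only [rG2, rD2, w1, w2, w3, w4]
  linarith

theorem AB_gt02 {κ : ℝ} (hκ : Small κ) : 1 < nn κ (pt (rA 0 κ)) (pt (rB 2 κ)) := by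
  obtain ⟨p1, q1, p2, q2, p3, q3, p4, q4, p5, q5, p6, q6⟩ := hκ
  have p7 : 0 < κ ^ 7 := by positivity
  have q7 : κ ^ 7 ≤ κ ^ 6 / 10000 := by
    have := mul_le_mul_of_nonneg_left q1 p6.le
    calc κ ^ 7 = κ ^ 6 * κ := by ring
      _ ≤ _ := by linarith
  have p8 : 0 < κ ^ 8 := by positivity
  rw [nn_fi p1.ne' (rA_zero _ κ) (rB_zero _ κ)]
  simp only [rA0, rB2, w1, w2, w3, w4]
  linarith

theorem GD_gt02 {κ : ℝ} (hκ : Small κ) : 1 < nn κ (pt (rG 0 κ)) (pt (rD 2 κ)) := by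
  obtain ⟨p1, q1, p2, q2, p3, q3, p4, q4, p5, q5, p6, q6⟩ := hκ
  have p7 : 0 < κ ^ 7 := by positivity
  have q7 : κ ^ 7 ≤ κ ^ 6 / 10000 := by
    have := mul_le_mul_of_nonneg_left q1 p6.le
    calc κ ^ 7 = κ ^ 6 * κ := by ring
      _ ≤ _ := by linarith
  have p8 : 0 < κ ^ 8 := by positivity
  rw [nn_fi p1.ne' (rG_zero _ κ) (rD_zero _ κ)]
  simp only [rG0, rD2, w1, w2, w3, w4]
  linarith

theorem AB_gt11 {κ : ℝ} (hκ : Small κ) : 1 < nn κ (pt (rA 1 κ)) (pt (rB 1 κ)) := by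
  obtain ⟨p1, q1, p2, q2, p3, q3, p4, q4, p5, q5, p6, q6⟩ := hκ
  have p7 : 0 < κ ^ 7 := by positivity
  have q7 : κ ^ 7 ≤ κ ^ 6 / 10000 := by
    have := mul_le_mul_of_nonneg_left q1 p6.le
    calc κ ^ 7 = κ ^ 6 * κ := by ring
      _ ≤ _ := by linarith
  have p8 : 0 < κ ^ 8 := by positivity
  rw [nn_fi p1.ne' (rA_zero _ κ) (rB_zero _ κ)]
  simp only [rA1, rB1, w1, w2, w3, w4]
  linarith

theorem GD_gt11 {κ : ℝ} (hκ : Small κ) : 1 < nn κ (pt (rG 1 κ)) (pt (rD 1 κ)) := by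
  obtain ⟨p1, q1, p2, q2, p3, q3, p4, q4, p5, q5, p6, q6⟩ := hκ
  have p7 : 0 < κ ^ 7 := by positivity
  have q7 : κ ^ 7 ≤ κ ^ 6 / 10000 := by
    have := mul_le_mul_of_nonneg_left q1 p6.le
    calc κ ^ 7 = κ ^ 6 * κ := by ring
      _ ≤ _ := by linarith
  have p8 : 0 < κ ^ 8 := by positivity
  rw [nn_fi p1.ne' (rG_zero _ κ) (rD_zero _ κ)]
  simp only [rG1, rD1, w1, w2, w3, w4]
  linarith

theorem AB_gt12 {κ : ℝ} (hκ : Small κ) : 1 < nn κ (pt (rA 1 κ)) (pt (rB 2 κ)) := by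
  obtain ⟨p1, q1, p2, q2, p3, q3, p4, q4, p5, q5, p6, q6⟩ := hκ
  have p7 : 0 < κ ^ 7 := by positivity
  have q7 : κ ^ 7 ≤ κ ^ 6 / 10000 := by
    have := mul_le_mul_of_nonneg_left q1 p6.le
    calc κ ^ 7 = κ ^ 6 * κ := by ring
      _ ≤ _ := by linarith
  have p8 : 0 < κ ^ 8 := by positivity
  rw [nn_fi p1.ne' (rA_zero _ κ) (rB_zero _ κ)]
  simp only [rA1, rB2, w1, w2, w3, w4]
  linarith

theorem GD_gt12 {κ : ℝ} (hκ : Small κ) : 1 < nn κ (pt (rG 1 κ)) (pt (rD 2 κ)) := by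
  obtain ⟨p1, q1, p2, q2, p3, q3, p4, q4, p5, q5, p6, q6⟩ := hκ
  have p7 : 0 < κ ^ 7 := by positivity
  have q7 : κ ^ 7 ≤ κ ^ 6 / 10000 := by
    have := mul_le_mul_of_nonneg_left q1 p6.le
    calc κ ^ 7 = κ ^ 6 * κ := by ring
      _ ≤ _ := by linarith
  have p8 : 0 < κ ^ 8 := by positivity
  rw [nn_fi p1.ne' (rG_zero _ κ) (rD_zero _ κ)]
  simp only [rG1, rD2, w1, w2, w3, w4]
  linarith

theorem AB_gt20 {κ : ℝ} (hκ : Small κ) : 1 < nn κ (pt (rA 2 κ)) (pt (rB 0 κ)) := by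
  obtain ⟨p1, q1, p2, q2, p3, q3, p4, q4, p5, q5, p6, q6⟩ := hκ
  have p7 : 0 < κ ^ 7 := by positivity
  have q7 : κ ^ 7 ≤ κ ^ 6 / 10000 := by
    have := mul_le_mul_of_nonneg_left q1 p6.le
    calc κ ^ 7 = κ ^ 6 * κ := by ring
      _ ≤ _ := by linarith
  have p8 : 0 < κ ^ 8 := by positivity
  rw [nn_fi p1.ne' (rA_zero _ κ) (rB_zero _ κ)]
  simp only [rA2, rB0, w1, w2, w3, w4]
  linarith

theorem GD_gt20 {κ : ℝ} (hκ : Small κ) : 1 < nn κ (pt (rG 2 κ)) (pt (rD 0 κ)) := by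
  obtain ⟨p1, q1, p2, q2, p3, q3, p4, q4, p5, q5, p6, q6⟩ := hκ
  have p7 : 0 < κ ^ 7 := by positivity
  have q7 : κ ^ 7 ≤ κ ^ 6 / 10000 := by
    have := mul_le_mul_of_nonneg_left q1 p6.le
    calc κ ^ 7 = κ ^ 6 * κ := by ring
      _ ≤ _ := by linarith
  have p8 : 0 < κ ^ 8 := by positivity
  rw [nn_fi p1.ne' (rG_zero _ κ) (rD_zero _ κ)]
  simp only [rG2, rD0, w1, w2, w3, w4]
  linarith

theorem BD_gt {κ : ℝ} (hκ : Small κ) : ∀ i j : Fin 3,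
    1 < nn κ (pt (rB i κ)) (pt (rD j κ)) := by
  obtain ⟨p1, q1, p2, q2, p3, q3, p4, q4, p5, q5, p6, q6⟩ := hκ
  have p7 : 0 < κ ^ 7 := by positivity
  have q7 : κ ^ 7 ≤ κ ^ 6 / 10000 := by
    have := mul_le_mul_of_nonneg_left q1 p6.le
    calc κ ^ 7 = κ ^ 6 * κ := by ring
      _ ≤ _ := by linarith
  have p8 : 0 < κ ^ 8 := by positivity
  refine forall_fin3 (forall_fin3 ?_ ?_ ?_) (forall_fin3 ?_ ?_ ?_) (forall_fin3 ?_ ?_ ?_) <;>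
    rw [nn_ii p1.ne' (rB_zero _ κ) (rD_zero _ κ)] <;>
    simp only [rB0, rB1, rB2, rD0, rD1, rD2, w1, w2, w3, w4] <;> linarith

end Pool.Agent.R796.SC
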