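import Mathlib

/-!
# Shadows of Vietoris-Rips complexes of samples: definitions

The setting of problem MP_320b68_gt.
-/

set_option autoImplicit false

namespace Pool.Agent.R796.Sh

open Set Topology Metric
open scoped unitInterval ENNReal

universe u

/-- Euclidean space `ℝ^N`. -/
abbrev E (N : ℕ) : Type := EuclideanSpace ℝ (Fin N)

/-- The intrinsic metric of `M`: the infimum of the Euclidean lengths (total variations) of the
paths in `M` from `p` to `q`, with value `∞` if there is no such path of finite length. -/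
noncomputable def dM {N : ℕ} (M : Set (E N)) (p q : E N) : ℝ≥0∞ :=
  ⨅ γ : {γ : C(I, E N) // γ 0 = p ∧ γ 1 = q ∧ ∀ t, γ t ∈ M}, eVariationOn γ.1 univ

/-- The closed `r`-neighbourhood `{x : inf_{p ∈ M} ‖x - p‖ ≤ r}` of `M`. -/
def nbhd {N : ℕ} (r : ℝ) (M : Set (E N)) : Set (E N) := {x | infDist x M ≤ r}

/-- `M` with the intrinsic metric is a geodesic space: any two points are joined by an isometry
from an interval `[0, L]` (and then `L` is their distance). -/
def IsGeodesic {N : ℕ} (M : Set (E N)) : Prop :=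
  ∀ p ∈ M, ∀ q ∈ M, ∃ (L : ℝ) (c : ℝ → E N), 0 ≤ L ∧ c 0 = p ∧ c L = q ∧
    (∀ s ∈ Icc 0 L, c s ∈ M) ∧
    ∀ s ∈ Icc 0 L, ∀ t ∈ Icc 0 L, dM M (c s) (c t) = ENNReal.ofReal |s - t|

/-- Condition (M1): maps into `M` which are `ρ`-close in the intrinsic metric are homotopic. -/
def CondM1 {N : ℕ} (M : Set (E N)) : Prop :=
  ∃ ρ : ℝ, 0 < ρ ∧ ∀ (X : Type u) [TopologicalSpace X] (f g : C(X, M)),
    (∀ x, dM M (f x) (g x) < ENNReal.ofReal ρ) → f.Homotopic g

/-- Condition (M2): there are `δ > 0` and `ξ > 1` with `‖p - q‖ ≤ d_M(p,q) ≤ ξ ‖p - q‖` whenever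
`‖p - q‖ < δ`. -/
def CondM2 {N : ℕ} (M : Set (E N)) : Prop :=
  ∃ δ ξ : ℝ, 0 < δ ∧ 1 < ξ ∧ ∀ p ∈ M, ∀ q ∈ M, ‖p - q‖ < δ →
    ENNReal.ofReal ‖p - q‖ ≤ dM M p q ∧ dM M p q ≤ ENNReal.ofReal (ξ * ‖p - q‖)

/-- Condition (M3) for a neighbourhood `U` of `M` and a map `π`: for each `r > 0` with
`N_r(M) ⊆ U` there is `ε_r > 0` with `‖π(x) - x‖ < ε_r` on `N_r(M)`, and `ε_r → 0` as `r → 0`. -/
def CondM3 {N : ℕ} (M U : Set (E N)) (π : E N → E N) : Prop :=
  ∃ ε : ℝ → ℝ, (∀ r, 0 < r → nbhd r M ⊆ U → 0 < ε r ∧ ∀ x ∈ nbhd r M, ‖π x - x‖ < ε r) ∧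
    Filter.Tendsto ε (𝓝[>] 0) (𝓝 0)

/-- The standing assumptions on `M ⊆ ℝ^N`: compact and connected, geodesic in the intrinsic metric,
with a retraction `π` of a neighbourhood `U` onto `M`, and with (M1), (M2), (M3). -/
structure Admissible {N : ℕ} (M : Set (E N)) : Prop where
  compact : IsCompact M
  connected : IsConnected M
  geodesic : IsGeodesic M
  m1 : CondM1.{u} M
  m2 : CondM2 M
  retract : ∃ (U : Set (E N)) (π : E N → E N), U ∈ 𝓝ˢ M ∧ ContinuousOn π U ∧
    (∀ x ∈ U, π x ∈ M) ∧ (∀ x ∈ M, π x = x) ∧ CondM3 M U π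

/-- The simplices of the Euclidean Vietoris-Rips complex `R_β(S)`: the nonempty finite subsets of
`S` of Euclidean diameter less than `β`. -/
def rips {N : ℕ} (β : ℝ) (S : Set (E N)) : Set (Finset (E N)) :=
  {s | s.Nonempty ∧ (s : Set (E N)) ⊆ S ∧ Metric.diam (s : Set (E N)) < β}

/-- The shadow of `R_β(S)`: the union of the convex hulls of the simplices. -/
def shadow {N : ℕ} (β : ℝ) (S : Set (E N)) : Set (E N) :=
  ⋃ s ∈ rips β S, convexHull ℝ (s : Set (E N))

/-- The assertion of the question for `M`: there is `β₀ > 0` such that for every `β ∈ (0, β₀)`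
there is `η > 0` such that every finite nonempty `S` at Hausdorff distance `< η` from `M` has a
shadow homotopy equivalent to `M`. -/
def Reconstructs {N : ℕ} (M : Set (E N)) : Prop :=
  ∃ β₀ : ℝ, 0 < β₀ ∧ ∀ β : ℝ, 0 < β → β < β₀ → ∃ η : ℝ, 0 < η ∧
    ∀ S : Set (E N), S.Finite → S.Nonempty → hausdorffDist S M < η →
      Nonempty (ContinuousMap.HomotopyEquiv (shadow β S) M)

/-- The question Q1 in dimension `N`. -/
def Question (N : ℕ) : Prop := ∀ M : Set (E N), Admissible.{u} M → Reconstructs M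

end Pool.Agent.R796.Sh
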