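import Mathlib
import Pool.Agent.R796.ShDefs

/-!
# Smooth simple closed curves and their samples: definitions

The shadow `shadow β S` of the Vietoris-Rips complex `R_β(S)` is defined in
`Pool.Agent.R796.ShDefs`.
-/

set_option autoImplicit false

namespace Pool.Agent.R796.SC

open Set Topology Metric
open scoped ContDiff Real

/-- Euclidean space `ℝ^N`. -/
abbrev E (N : ℕ) : Type := EuclideanSpace ℝ (Fin N)

/-- A smooth simple closed curve in `ℝ^N`: the image of a smooth embedding of the circle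
`ℝ / 2πℤ`, that is of a `C^∞` map `γ : ℝ → ℝ^N` with period `2π`, injective modulo `2π`, with
`γ' ≠ 0` everywhere. -/
def IsSmoothClosedCurve {N : ℕ} (M : Set (E N)) : Prop :=
  ∃ γ : ℝ → E N, ContDiff ℝ ∞ γ ∧ Function.Periodic γ (2 * π) ∧
    (∀ s t, γ s = γ t → ∃ n : ℤ, s - t = n * (2 * π)) ∧ (∀ t, deriv γ t ≠ 0) ∧ range γ = M

end Pool.Agent.R796.SC
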