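import Mathlib
import Pool.Agent.R796.SCDefs
import Pool.Agent.R796.SCCirc

/-!
# A smooth simple closed curve with a straight part
-/

set_option autoImplicit false

namespace Pool.Agent.R796.SC

open Set Topology Metric
open scoped ContDiff Real

/-- The inclusion of `ℝ⁴` in `ℝ^(4+k)`. -/
def emb (k : ℕ) (y : W4) : E (4 + k) := WithLp.toLp 2 (Fin.append y (0 : Fin k → ℝ))

/-- The projection of `ℝ^(4+k)` to `ℝ⁴`. -/
def pr (k : ℕ) (z : E (4 + k)) : W4 := fun i => z (Fin.castAdd k i)

theorem emb_left (k : ℕ) (y : W4) (i : Fin 4) : (emb k y) (Fin.castAdd k i) = y i := by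
  show Fin.append y (0 : Fin k → ℝ) (Fin.castAdd k i) = y i
  rw [Fin.append_left]

theorem emb_right (k : ℕ) (y : W4) (i : Fin k) : (emb k y) (Fin.natAdd 4 i) = 0 := by
  show Fin.append y (0 : Fin k → ℝ) (Fin.natAdd 4 i) = 0
  rw [Fin.append_right]
  rfl

theorem pr_emb (k : ℕ) (y : W4) : pr k (emb k y) = y := by
  funext i
  exact emb_left k y i

theorem continuous_pr (k : ℕ) : Continuous (pr k) := by
  unfold pr
  fun_prop

theorem norm_emb_sub (k : ℕ) (y y' : W4) : dist (emb k y) (emb k y') ^ 2 =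
    (y 0 - y' 0) ^ 2 + (y 1 - y' 1) ^ 2 + (y 2 - y' 2) ^ 2 + (y 3 - y' 3) ^ 2 := by
  rw [dist_eq_norm, EuclideanSpace.norm_sq_eq, Fin.sum_univ_add]
  have h1 : ∀ i : Fin k, ‖(emb k y - emb k y') (Fin.natAdd 4 i)‖ ^ 2 = 0 := by
    intro i
    rw [PiLp.sub_apply, emb_right, emb_right]
    simp
  have h2 : ∀ i : Fin 4, ‖(emb k y - emb k y') (Fin.castAdd k i)‖ ^ 2 = (y i - y' i) ^ 2 := by
    intro i
    rw [PiLp.sub_apply, emb_left, emb_left, Real.norm_eq_abs, sq_abs]
  simp only [h1, h2, Finset.sum_const_zero, add_zero, Fin.sum_univ_four]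

theorem abs_pr_le (k : ℕ) (z z' : E (4 + k)) (i : Fin 4) : |pr k z i - pr k z' i| ≤ dist z z' := by
  rw [dist_eq_norm]
  have := PiLp.norm_apply_le (z - z') (Fin.castAdd k i)
  rwa [PiLp.sub_apply, Real.norm_eq_abs] at this

/-- The radius as a function of the sine of the angle. -/
noncomputable def rr (v : ℝ) : ℝ := 1 + Real.smoothTransition (4 * v - 2) * (v⁻¹ - 1)

theorem rr_of_ge {v : ℝ} (h : 3 / 4 ≤ v) : rr v = v⁻¹ := by
  rw [rr, Real.smoothTransition.one_of_one_le (by linarith), one_mul]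
  ring

theorem rr_of_le {v : ℝ} (h : v ≤ 1 / 2) : rr v = 1 := by
  rw [rr, Real.smoothTransition.zero_of_nonpos (by linarith), zero_mul, add_zero]

theorem one_le_rr {v : ℝ} (h : v ≤ 1) : 1 ≤ rr v := by
  by_cases hv : v ≤ 1 / 2
  · rw [rr_of_le hv]
  · have hv' : 0 < v := by linarith
    have h1 : 1 ≤ v⁻¹ := (one_le_inv₀ hv').2 h
    rw [rr]
    have h2 := mul_nonneg (Real.smoothTransition.nonneg (4 * v - 2)) (by linarith : 0 ≤ v⁻¹ - 1)
    linarith

theorem contDiff_rr : ContDiff ℝ ∞ rr := by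
  rw [contDiff_iff_contDiffAt]
  intro v
  by_cases hv : v < 1 / 2
  · have h1 : rr =ᶠ[𝓝 v] fun _ => 1 := by
      filter_upwards [isOpen_Iio.mem_nhds hv] with w hw
      exact rr_of_le (le_of_lt hw)
    exact contDiffAt_const.congr_of_eventuallyEq h1
  · have hv' : v ≠ 0 := by
      intro h
      rw [h] at hv
      norm_num at hv
    unfold rr
    apply ContDiffAt.add contDiffAt_const
    apply ContDiffAt.mul
    · exact (Real.smoothTransition.contDiff.comp
        ((contDiff_const.mul contDiff_id).sub contDiff_const)).contDiffAt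
    · exact (contDiffAt_inv ℝ hv').sub contDiffAt_const

/-- The points of the curve. -/
noncomputable def cpt (k : ℕ) (u v : ℝ) : E (4 + k) := emb k ![rr v * u, rr v * v, 0, 0]

/-- The parametrization. -/
noncomputable def gam (k : ℕ) (t : ℝ) : E (4 + k) := cpt k (Real.cos t) (Real.sin t)

/-- The curve. -/
def curve (k : ℕ) : Set (E (4 + k)) := range (gam k)

theorem pr_gam (k : ℕ) (t : ℝ) : pr k (gam k t) =
    ![rr (Real.sin t) * Real.cos t, rr (Real.sin t) * Real.sin t, 0, 0] := pr_emb _ _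

theorem contDiff_emb {n : WithTop ℕ∞} (k : ℕ) {f : ℝ → W4} (hf : ∀ i, ContDiff ℝ n fun t => f t i) :
    ContDiff ℝ n fun t => emb k (f t) := by
  rw [contDiff_euclidean]
  intro i
  refine Fin.addCases (fun j => ?_) (fun j => ?_) i
  · simp only [emb_left]
    exact hf j
  · simp only [emb_right]
    exact contDiff_const

theorem contDiff_gam (k : ℕ) : ContDiff ℝ ∞ (gam k) := by
  apply contDiff_emb
  have h1 : ContDiff ℝ ∞ fun t => rr (Real.sin t) := contDiff_rr.comp Real.contDiff_sin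
  intro i
  fin_cases i
  · exact h1.mul Real.contDiff_cos
  · exact h1.mul Real.contDiff_sin
  · exact contDiff_const
  · exact contDiff_const

theorem isSmoothClosedCurve (k : ℕ) : IsSmoothClosedCurve (curve k) := by
  refine ⟨gam k, contDiff_gam k, ?_, ?_, ?_, rfl⟩
  · intro t
    rw [gam, gam, Real.cos_add_two_pi, Real.sin_add_two_pi]
  · intro s t h
    have h1 := congrArg (pr k) h
    rw [pr_gam, pr_gam] at h1
    have e0 : rr (Real.sin s) * Real.cos s = rr (Real.sin t) * Real.cos t := congrFun h1 0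
    have e1 : rr (Real.sin s) * Real.sin s = rr (Real.sin t) * Real.sin t := congrFun h1 1
    have p1 := one_le_rr (Real.sin_le_one s)
    have p2 := one_le_rr (Real.sin_le_one t)
    have e2 : rr (Real.sin s) ^ 2 = rr (Real.sin t) ^ 2 := by
      have a1 := Real.cos_sq_add_sin_sq s
      have a2 := Real.cos_sq_add_sin_sq t
      calc rr (Real.sin s) ^ 2 = (rr (Real.sin s) * Real.cos s) ^ 2 +
            (rr (Real.sin s) * Real.sin s) ^ 2 := by linear_combination -(rr (Real.sin s) ^ 2) * a1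
        _ = (rr (Real.sin t) * Real.cos t) ^ 2 + (rr (Real.sin t) * Real.sin t) ^ 2 := by
            rw [e0, e1]
        _ = rr (Real.sin t) ^ 2 := by linear_combination (rr (Real.sin t) ^ 2) * a2
    have e3 : rr (Real.sin s) = rr (Real.sin t) := by
      have := abs_eq_abs.2 (sq_eq_sq_iff_eq_or_eq_neg.1 e2)
      rwa [abs_of_pos (by linarith), abs_of_pos (by linarith)] at this
    have hne : rr (Real.sin t) ≠ 0 := by linarith
    rw [e3] at e0 e1
    have c1 := mul_left_cancel₀ hne e0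
    have c2 := mul_left_cancel₀ hne e1
    have c3 : (s : Real.Angle) = (t : Real.Angle) := Real.Angle.cos_sin_inj c1 c2
    obtain ⟨n, hn⟩ := Real.Angle.angle_eq_iff_two_pi_dvd_sub.1 c3
    exact ⟨n, by rw [hn]; ring⟩
  · intro t h
    have hd : HasDerivAt (gam k) 0 t := by
      have := ((contDiff_gam k).differentiable (by simp) t).hasDerivAt
      rwa [h] at this
    have hR : HasDerivAt (fun t => rr (Real.sin t)) (deriv rr (Real.sin t) * Real.cos t) t :=
      ((contDiff_rr.differentiable (by simp) _).hasDerivAt).comp t (Real.hasDerivAt_sin t)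
    have hi : ∀ i : Fin (4 + k), HasDerivAt (fun s => gam k s i) 0 t := by
      intro i
      have h1 : HasDerivAt (fun s => gam k s i)
          ((EuclideanSpace.proj (𝕜 := ℝ) (ι := Fin (4 + k)) i) 0) t :=
        ((EuclideanSpace.proj (𝕜 := ℝ) (ι := Fin (4 + k)) i).hasFDerivAt
          (x := gam k t)).comp_hasDerivAt t hd
      rwa [map_zero] at h1
    have h0 : HasDerivAt (fun s => rr (Real.sin s) * Real.cos s) 0 t := by
      have := hi (Fin.castAdd k 0)
      have e : (fun s => gam k s (Fin.castAdd k 0)) = fun s => rr (Real.sin s) * Real.cos s := by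
        funext s
        exact congrFun (pr_gam k s) 0
      rwa [e] at this
    have h1 : HasDerivAt (fun s => rr (Real.sin s) * Real.sin s) 0 t := by
      have := hi (Fin.castAdd k 1)
      have e : (fun s => gam k s (Fin.castAdd k 1)) = fun s => rr (Real.sin s) * Real.sin s := by
        funext s
        exact congrFun (pr_gam k s) 1
      rwa [e] at this
    have u0 := h0.unique (hR.mul (Real.hasDerivAt_cos t))
    have u1 := h1.unique (hR.mul (Real.hasDerivAt_sin t))
    have p1 := one_le_rr (Real.sin_le_one t)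
    have a1 := Real.cos_sq_add_sin_sq t
    have : rr (Real.sin t) = 0 := by
      linear_combination Real.sin t * u0 - Real.cos t * u1 - rr (Real.sin t) * a1
    linarith

theorem isCompact_curve (k : ℕ) : IsCompact (curve k) := by
  have h : curve k = gam k '' Icc 0 (2 * π) := by
    apply subset_antisymm
    · rintro _ ⟨t, rfl⟩
      have hper : Function.Periodic (gam k) (2 * π) := by
        intro t
        rw [gam, gam, Real.cos_add_two_pi, Real.sin_add_two_pi]
      obtain ⟨s, hs, hst⟩ := hper.exists_mem_Ico₀ (by positivity) t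
      exact ⟨s, ⟨hs.1, hs.2.le⟩, hst.symm⟩
    · rintro _ ⟨t, _, rfl⟩
      exact ⟨t, rfl⟩
  rw [h]
  exact isCompact_Icc.image (contDiff_gam k).continuous

/-- The straight part of the curve, first inclusion. -/
theorem mem_curve_of (k : ℕ) {x : ℝ} (hx : |x| ≤ 1 / 8) : emb k ![x, 1, 0, 0] ∈ curve k := by
  have hx2 : x ^ 2 ≤ 1 / 64 := by
    have := sq_le_sq' (abs_le.1 hx).1 (abs_le.1 hx).2
    norm_num at this ⊢
    linarith
  have hpos : 0 < 1 + x ^ 2 := by positivity
  set w := √(1 + x ^ 2) with hw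
  have hw2 : w ^ 2 = 1 + x ^ 2 := Real.sq_sqrt hpos.le
  have hw0 : 0 < w := Real.sqrt_pos.2 hpos
  have hw1 : w ≤ 4 / 3 := by
    rw [hw, Real.sqrt_le_left (by norm_num)]
    linarith
  -- the angle
  have hz : (x / w) ^ 2 + (1 / w) ^ 2 = 1 := by
    field_simp
    linarith
  obtain ⟨t, ht0, ht1⟩ : ∃ t, Real.cos t = x / w ∧ Real.sin t = 1 / w := by
    have hn : ‖(⟨x / w, 1 / w⟩ : ℂ)‖ = 1 := by
      have : ‖(⟨x / w, 1 / w⟩ : ℂ)‖ ^ 2 = 1 := by
        rw [← Complex.normSq_eq_norm_sq, Complex.normSq_apply]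
        simp only
        linarith
      rw [← Real.sqrt_sq (norm_nonneg (⟨x / w, 1 / w⟩ : ℂ)), this, Real.sqrt_one]
    refine ⟨(⟨x / w, 1 / w⟩ : ℂ).arg, ?_, ?_⟩
    · rw [Complex.cos_arg (by intro h; rw [h, norm_zero] at hn; exact zero_ne_one hn), hn, div_one]
    · rw [Complex.sin_arg, hn, div_one]
  refine ⟨t, ?_⟩
  rw [gam, cpt, ht0, ht1, rr_of_ge]
  · congr 1
    funext i
    fin_cases i
    · show (1 / w)⁻¹ * (x / w) = x
      field_simp
    · show (1 / w)⁻¹ * (1 / w) = 1
      field_simp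
    · rfl
    · rfl
  · rw [le_div_iff₀ hw0]
    linarith

/-- The straight part of the curve, second inclusion. -/
theorem eq_of_mem_curve (k : ℕ) {z : E (4 + k)} (hz : z ∈ curve k) (h0 : |pr k z 0| ≤ 1 / 8)
    (h1 : 0 < pr k z 1) : z = emb k ![pr k z 0, 1, 0, 0] := by
  obtain ⟨t, rfl⟩ := hz
  have e0 : pr k (gam k t) 0 = rr (Real.sin t) * Real.cos t := congrFun (pr_gam k t) 0
  have e1 : pr k (gam k t) 1 = rr (Real.sin t) * Real.sin t := congrFun (pr_gam k t) 1
  have p1 := one_le_rr (Real.sin_le_one t)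
  rw [e0] at h0 ⊢
  rw [e1] at h1
  have hs : 0 < Real.sin t := by
    by_contra hcon
    have := mul_nonneg (by linarith : (0 : ℝ) ≤ rr (Real.sin t)) (by linarith : 0 ≤ -Real.sin t)
    linarith
  have hc : |Real.cos t| ≤ 1 / 8 := by
    rw [abs_mul, abs_of_pos (by linarith)] at h0
    nlinarith [abs_nonneg (Real.cos t)]
  have hc2 : Real.cos t ^ 2 ≤ 1 / 64 := by
    have := sq_le_sq' (abs_le.1 hc).1 (abs_le.1 hc).2
    norm_num at this ⊢
    linarith
  have hs2 : 3 / 4 ≤ Real.sin t := by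
    have := Real.cos_sq_add_sin_sq t
    nlinarith
  rw [gam, cpt, rr_of_ge hs2, inv_mul_cancel₀ hs.ne']

/-- The direction of a point of the curve. -/
theorem exists_dir (k : ℕ) : ∃ (dir : C(curve k, Circle)) (par : C(Circle, curve k)),
    ∀ m, par (dir m) = m := by
  let w : curve k → ℂ := fun z => ⟨pr k z.1 0, pr k z.1 1⟩
  have hwc : Continuous w := by
    have h : w = fun z : curve k => ((pr k z.1 0 : ℝ) : ℂ) + ((pr k z.1 1 : ℝ) : ℂ) * Complex.I := by
      funext z
      apply Complex.ext <;> simp [w]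
    rw [h]
    have h1 := (continuous_pr k).comp (continuous_subtype_val (p := fun z => z ∈ curve k))
    have h2 : ∀ i, Continuous fun z : curve k => pr k z.1 i := fun i => (continuous_apply i).comp h1
    exact (Complex.continuous_ofReal.comp (h2 0)).add
      ((Complex.continuous_ofReal.comp (h2 1)).mul continuous_const)
  have hw : ∀ t, w ⟨gam k t, ⟨t, rfl⟩⟩ = (rr (Real.sin t) : ℂ) * ⟨Real.cos t, Real.sin t⟩ := by
    intro t
    have e0 : pr k (gam k t) 0 = rr (Real.sin t) * Real.cos t := congrFun (pr_gam k t) 0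
    have e1 : pr k (gam k t) 1 = rr (Real.sin t) * Real.sin t := congrFun (pr_gam k t) 1
    apply Complex.ext
    · simp only [w, e0, Complex.mul_re, Complex.ofReal_re, Complex.ofReal_im]
      ring
    · simp only [w, e1, Complex.mul_im, Complex.ofReal_re, Complex.ofReal_im]
      ring
  have hcs : ∀ t : ℝ, ‖(⟨Real.cos t, Real.sin t⟩ : ℂ)‖ = 1 := by
    intro t
    have : ‖(⟨Real.cos t, Real.sin t⟩ : ℂ)‖ ^ 2 = 1 := by
      rw [← Complex.normSq_eq_norm_sq, Complex.normSq_apply]
      simp only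
      linarith [Real.cos_sq_add_sin_sq t]
    rw [← Real.sqrt_sq (norm_nonneg (⟨Real.cos t, Real.sin t⟩ : ℂ)), this, Real.sqrt_one]
  have hn : ∀ t, ‖w ⟨gam k t, ⟨t, rfl⟩⟩‖ = rr (Real.sin t) := by
    intro t
    rw [hw, norm_mul, hcs, mul_one, Complex.norm_real, Real.norm_eq_abs,
      abs_of_pos (by linarith [one_le_rr (Real.sin_le_one t)])]
  have hw0 : ∀ z, w z ≠ 0 := by
    rintro ⟨_, t, rfl⟩ h
    have := hn t
    rw [h, norm_zero] at this
    linarith [one_le_rr (Real.sin_le_one t)]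
  let dir : curve k → Circle := fun z => ⟨(‖w z‖ : ℂ)⁻¹ * w z, mem_sphere_zero_iff_norm.2 (by
    rw [norm_mul, norm_inv, Complex.norm_real, norm_norm,
      inv_mul_cancel₀ (norm_ne_zero_iff.2 (hw0 z))])⟩
  have hdir : Continuous dir := by
    apply Continuous.subtype_mk
    refine Continuous.mul (Continuous.inv₀ (Complex.continuous_ofReal.comp hwc.norm) ?_) hwc
    intro z
    simpa using hw0 z
  have hdt : ∀ t, (dir ⟨gam k t, ⟨t, rfl⟩⟩ : ℂ) = ⟨Real.cos t, Real.sin t⟩ := by
    intro t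
    show (‖w ⟨gam k t, ⟨t, rfl⟩⟩‖ : ℂ)⁻¹ * w ⟨gam k t, ⟨t, rfl⟩⟩ = _
    rw [hn, hw, ← mul_assoc, inv_mul_cancel₀, one_mul]
    have := one_le_rr (Real.sin_le_one t)
    exact_mod_cast (by linarith : rr (Real.sin t) ≠ 0)
  have hmem : ∀ c : Circle, cpt k (c : ℂ).re (c : ℂ).im ∈ curve k := by
    intro c
    obtain ⟨t, rfl⟩ := Circle.exp_surjective c
    refine ⟨t, ?_⟩
    rw [gam, Circle.coe_exp, Complex.exp_ofReal_mul_I_re, Complex.exp_ofReal_mul_I_im]
  have hpc : Continuous fun c : Circle => cpt k (c : ℂ).re (c : ℂ).im := by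
    have h1 : Continuous fun c : Circle => (c : ℂ).re := Complex.continuous_re.comp continuous_subtype_val
    have h2 : Continuous fun c : Circle => (c : ℂ).im := Complex.continuous_im.comp continuous_subtype_val
    have h3 : Continuous fun c : Circle => rr (c : ℂ).im := contDiff_rr.continuous.comp h2
    apply (PiLp.continuous_toLp 2 (fun _ : Fin (4 + k) => ℝ)).comp
    apply continuous_pi
    intro i
    refine Fin.addCases (fun j => ?_) (fun j => ?_) i
    · simp only [Fin.append_left]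
      fin_cases j
      · exact h3.mul h1
      · exact h3.mul h2
      · exact continuous_const
      · exact continuous_const
    · simp only [Fin.append_right]
      exact continuous_const
  refine ⟨⟨dir, hdir⟩, ⟨fun c => ⟨_, hmem c⟩, hpc.subtype_mk _⟩, ?_⟩
  rintro ⟨_, t, rfl⟩
  apply Subtype.ext
  show cpt k (dir ⟨gam k t, ⟨t, rfl⟩⟩ : ℂ).re (dir ⟨gam k t, ⟨t, rfl⟩⟩ : ℂ).im = gam k t
  rw [hdt]
  rfl

end Pool.Agent.R796.SC
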