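import Mathlib
import Pool.Agent.R796.SCCirc
import Pool.Agent.R796.BCNR

/-!
# A space with an essential map from the three-sphere is not homotopy equivalent to a circle
-/

set_option autoImplicit false

namespace Pool.Agent.R796.SC

open Set Metric Topology
open scoped unitInterval

open Pool.Agent.R796.BC (Pun inclS not_nullhomotopic)

theorem not_equiv {X M : Type*} [TopologicalSpace X] [TopologicalSpace M]
    (dir : C(M, Circle)) (par : C(Circle, M)) (hpar : ∀ m, par (dir m) = m)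
    (u : C(S3, X)) (Ψ : C(X, Pun W4)) (r : S3 → ℝ) (hr : ∀ s, 0 < r s)
    (hΨ : ∀ s, (Ψ (u s)).1 = r s • s.1) :
    ¬ Nonempty (ContinuousMap.HomotopyEquiv X M) := by
  rintro ⟨e⟩
  let f : C(S3, M) := e.toFun.comp u
  obtain ⟨θ, hθ⟩ := exists_lift (dir.comp f)
  have hf : ∀ s, f s = par (Circle.exp (θ s)) := by
    intro s
    rw [← hθ]
    exact (hpar (f s)).symm
  let m₀ : M := par (Circle.exp 0)
  have h1 : f.Homotopic (ContinuousMap.const _ m₀) := by
    refine ⟨⟨⟨fun x => par (Circle.exp ((1 - (x.1 : ℝ)) * θ x.2)), ?_⟩, ?_, ?_⟩⟩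
    · fun_prop
    · intro s
      show par (Circle.exp ((1 - ((0 : I) : ℝ)) * θ s)) = f s
      rw [hf]
      simp
    · intro s
      show par (Circle.exp ((1 - ((1 : I) : ℝ)) * θ s)) = m₀
      simp [m₀]
  -- `u` is null-homotopic in `X`
  have h2 : u.Homotopic (ContinuousMap.const _ (e.invFun m₀)) := by
    have e1 : u.Homotopic ((e.invFun.comp e.toFun).comp u) := by
      have := ContinuousMap.Homotopic.comp (e.left_inv.symm)
        (ContinuousMap.Homotopic.refl u)
      simpa using this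
    have e2 : ((e.invFun.comp e.toFun).comp u) = e.invFun.comp f := rfl
    have e3 : (e.invFun.comp f).Homotopic (e.invFun.comp (ContinuousMap.const _ m₀)) :=
      ContinuousMap.Homotopic.comp (ContinuousMap.Homotopic.refl e.invFun) h1
    exact (e2 ▸ e1).trans e3
  have h3 : (Ψ.comp u).Homotopic (ContinuousMap.const _ (Ψ (e.invFun m₀))) :=
    ContinuousMap.Homotopic.comp (ContinuousMap.Homotopic.refl Ψ) h2
  -- `Ψ ∘ u` is homotopic to the inclusion
  have h4 : (inclS W4).Homotopic (Ψ.comp u) := by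
    have hne : ∀ (x : I × S3), (1 - (x.1 : ℝ)) • (x.2.1 : W4) + (x.1 : ℝ) • (Ψ (u x.2)).1 ≠ 0 := by
      intro x
      rw [hΨ, smul_smul, ← add_smul]
      have hpos : 0 < (1 - (x.1 : ℝ)) + (x.1 : ℝ) * r x.2 := by
        have h5 := x.1.2.1
        have h6 := x.1.2.2
        have h7 := hr x.2
        by_cases h8 : (x.1 : ℝ) = 0
        · rw [h8]
          norm_num
        · have : 0 < (x.1 : ℝ) := lt_of_le_of_ne h5 (Ne.symm h8)
          have := mul_pos this h7
          linarith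
      intro h
      rcases smul_eq_zero.1 h with h | h
      · linarith
      · have := mem_sphere_zero_iff_norm.1 x.2.2
        rw [h, norm_zero] at this
        exact zero_ne_one this
    refine ⟨⟨⟨fun x => ⟨(1 - (x.1 : ℝ)) • (x.2.1 : W4) + (x.1 : ℝ) • (Ψ (u x.2)).1, hne x⟩, ?_⟩,
      ?_, ?_⟩⟩
    · apply Continuous.subtype_mk
      fun_prop
    · intro s
      apply Subtype.ext
      show (1 - ((0 : I) : ℝ)) • (s.1 : W4) + ((0 : I) : ℝ) • (Ψ (u s)).1 = s.1
      simp
    · intro s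
      apply Subtype.ext
      show (1 - ((1 : I) : ℝ)) • (s.1 : W4) + ((1 : I) : ℝ) • (Ψ (u s)).1 = (Ψ (u s)).1
      simp
  exact not_nullhomotopic _ (h4.trans h3)

/-- The radial projection of the sphere to the boundary of a simplex around a point. -/
theorem simplex_sphere' (v : Fin 5 → W4) (ℓ : Fin 5 → W4 → ℝ) (hℓc : ∀ i, Continuous (ℓ i))
    (lam : Fin 5 → ℝ)
    (hlam : ∀ i, 0 < lam i) (hsum : ∑ i, lam i = 1) (h0 : ∀ s, ∑ i, ℓ i s = 0)
    (hv : ∀ s, ∑ i, ℓ i s • v i = s) :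
    ∃ r : S3 → ℝ, Continuous r ∧ (∀ s, 0 < r s) ∧
      ∀ s : S3, ∃ i, ∑ j, lam j • v j + r s • s.1 ∈ convexHull ℝ (v '' {j | j ≠ i}) := by
  let g : S3 → ℝ := fun s => Finset.univ.sup' Finset.univ_nonempty
    fun i : Fin 5 => -(ℓ i s.1) / lam i
  have hgc : Continuous g := by
    apply Continuous.finset_sup'_apply
    intro i _
    exact ((hℓc i).comp continuous_subtype_val).neg.div_const _
  have hle : ∀ (s : S3) i, -(ℓ i s.1) / lam i ≤ g s := fun s i =>
    Finset.le_sup' (fun i : Fin 5 => -(ℓ i s.1) / lam i) (Finset.mem_univ i)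
  have hg : ∀ s, 0 < g s := by
    intro s
    by_contra hcon
    have hcon := not_lt.1 hcon
    have h1 : ∀ i, 0 ≤ ℓ i s.1 := by
      intro i
      have h2 := (hle s i).trans hcon
      rw [div_le_iff₀ (hlam i), zero_mul] at h2
      linarith
    have h2 : ∀ i ∈ Finset.univ, ℓ i s.1 = 0 :=
      (Finset.sum_eq_zero_iff_of_nonneg fun i _ => h1 i).1 (h0 s.1)
    have h3 : (s.1 : W4) = 0 := by
      rw [← hv s.1]
      apply Finset.sum_eq_zero
      intro i hi
      rw [h2 i hi, zero_smul]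
    have := mem_sphere_zero_iff_norm.1 s.2
    rw [h3, norm_zero] at this
    exact zero_ne_one this
  refine ⟨fun s => (g s)⁻¹, hgc.inv₀ fun s => (hg s).ne', fun s => inv_pos.2 (hg s), ?_⟩
  intro s
  obtain ⟨i, -, hi⟩ := Finset.exists_mem_eq_sup' Finset.univ_nonempty
    fun i : Fin 5 => -(ℓ i s.1) / lam i
  have hi' : g s = -(ℓ i s.1) / lam i := hi
  refine ⟨i, ?_⟩
  let c : Fin 5 → ℝ := fun j => lam j + (g s)⁻¹ * ℓ j s.1
  have hc0 : ∀ j, 0 ≤ c j := by
    intro j
    have h1 := hle s j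
    rw [div_le_iff₀ (hlam j)] at h1
    have h2 : (g s)⁻¹ * (-(ℓ j s.1)) ≤ lam j := by
      rw [inv_mul_le_iff₀ (hg s)]
      exact h1
    show 0 ≤ lam j + (g s)⁻¹ * ℓ j s.1
    linarith
  have hci : c i = 0 := by
    have h1 : -(ℓ i s.1) = g s * lam i := by
      rw [hi', div_mul_cancel₀ _ (hlam i).ne']
    have h2 : ℓ i s.1 = -(g s * lam i) := by linarith
    show lam i + (g s)⁻¹ * ℓ i s.1 = 0
    rw [h2, mul_neg, ← mul_assoc, inv_mul_cancel₀ (hg s).ne', one_mul, add_neg_cancel]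
  have hcs : ∑ j, c j = 1 := by
    rw [Finset.sum_add_distrib, hsum, ← Finset.mul_sum, h0, mul_zero, add_zero]
  have hcv : ∑ j, lam j • v j + (g s)⁻¹ • s.1 = ∑ j, c j • v j := by
    simp only [c, add_smul, Finset.sum_add_distrib, mul_smul, ← Finset.smul_sum, hv]
  rw [hcv]
  have hsum' : ∑ j ∈ Finset.univ.filter (fun j => j ≠ i), c j = 1 := by
    rw [← hcs]
    apply Finset.sum_filter_of_ne
    intro j _ hj h
    exact hj (h ▸ hci)
  have hcv' : ∑ j, c j • v j = ∑ j ∈ Finset.univ.filter (fun j => j ≠ i), c j • v j := by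
    symm
    apply Finset.sum_filter_of_ne
    intro j _ hj h
    apply hj
    rw [h, hci, zero_smul]
  rw [hcv']
  apply (convex_convexHull ℝ _).sum_mem (fun j _ => hc0 j) hsum'
  intro j hj
  exact subset_convexHull ℝ _ ⟨j, (Finset.mem_filter.1 hj).2, rfl⟩

end Pool.Agent.R796.SC
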