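import Mathlib
import Pool.Agent.R796.SCConf
import Pool.Agent.R796.SCTopo

/-!
# The configuration of twelve points in `ℝ⁴`: convex hulls
-/

set_option autoImplicit false

namespace Pool.Agent.R796.SC

open Set Topology Metric Matrix

theorem persist (M : ℝ → Matrix (Fin 5) (Fin 5) ℝ) (hM : Continuous M) (t l : Fin 5 → ℝ)
    (hl : ∀ i, 0 < l i) (h : l ᵥ* M 0 = t) (hdet : (M 0).det ≠ 0) :
    ∀ᶠ κ in 𝓝 (0 : ℝ), (M κ).det ≠ 0 ∧ ∃ l' : Fin 5 → ℝ, (∀ i, 0 < l' i) ∧ l' ᵥ* M κ = t := by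
  have hd : Continuous fun κ => (M κ).det := hM.matrix_det
  let L : ℝ → Fin 5 → ℝ := fun κ => ((M κ).det)⁻¹ • (t ᵥ* (M κ).adjugate)
  have hL : ContinuousAt L 0 := by
    apply ContinuousAt.smul (hd.continuousAt.inv₀ hdet)
    exact (Continuous.matrix_vecMul continuous_const hM.matrix_adjugate).continuousAt
  have hL0 : L 0 = l := by
    show ((M 0).det)⁻¹ • (t ᵥ* (M 0).adjugate) = l
    rw [← h, Matrix.vecMul_vecMul, Matrix.mul_adjugate, Matrix.vecMul_smul, Matrix.vecMul_one,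
      smul_smul, inv_mul_cancel₀ hdet, one_smul]
  have e1 : ∀ᶠ κ in 𝓝 (0 : ℝ), (M κ).det ≠ 0 := hd.continuousAt.eventually_ne hdet
  have e2 : ∀ᶠ κ in 𝓝 (0 : ℝ), ∀ i, 0 < L κ i := by
    rw [Filter.eventually_all]
    intro i
    have h3 : ContinuousAt (fun κ => L κ i) 0 := (continuousAt_pi.1 hL) i
    apply h3.eventually (lt_mem_nhds _)
    show 0 < L 0 i
    rw [hL0]
    exact hl i
  filter_upwards [e1, e2] with κ h1 h2
  refine ⟨h1, L κ, h2, ?_⟩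
  show (((M κ).det)⁻¹ • (t ᵥ* (M κ).adjugate)) ᵥ* M κ = t
  rw [Matrix.smul_vecMul, Matrix.vecMul_vecMul, Matrix.adjugate_mul, Matrix.vecMul_smul,
    Matrix.vecMul_one, smul_smul, inv_mul_cancel₀ h1, one_smul]

/-- The matrix with given rows. -/
def mat (r0 r1 r2 r3 r4 : Fin 5 → ℝ) : Matrix (Fin 5) (Fin 5) ℝ := Matrix.of ![r0, r1, r2, r3, r4]

theorem vecMul_mat (l r0 r1 r2 r3 r4 : Fin 5 → ℝ) (j : Fin 5) :
    (l ᵥ* mat r0 r1 r2 r3 r4) j =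
      l 0 * r0 j + l 1 * r1 j + l 2 * r2 j + l 3 * r3 j + l 4 * r4 j := by
  show ∑ i, l i * mat r0 r1 r2 r3 r4 i j = _
  rw [Fin.sum_univ_five]
  rfl

theorem det_ne {r0 r1 r2 r3 r4 : Fin 5 → ℝ}
    (h : ∀ v : Fin 5 → ℝ,
      (∀ j, v 0 * r0 j + v 1 * r1 j + v 2 * r2 j + v 3 * r3 j + v 4 * r4 j = 0) →
      v 0 = 0 ∧ v 1 = 0 ∧ v 2 = 0 ∧ v 3 = 0 ∧ v 4 = 0) :
    (mat r0 r1 r2 r3 r4).det ≠ 0 := by
  intro hd
  obtain ⟨v, hv, hv0⟩ := Matrix.exists_vecMul_eq_zero_iff.2 hd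
  apply hv
  obtain ⟨e0, e1, e2, e3, e4⟩ := h v fun j => by
    rw [← vecMul_mat, hv0]
    rfl
  funext i
  fin_cases i
  · exact e0
  · exact e1
  · exact e2
  · exact e3
  · exact e4

theorem continuous_mat {r0 r1 r2 r3 r4 : ℝ → Fin 5 → ℝ} (h0 : Continuous r0) (h1 : Continuous r1)
    (h2 : Continuous r2) (h3 : Continuous r3) (h4 : Continuous r4) :
    Continuous fun κ => mat (r0 κ) (r1 κ) (r2 κ) (r3 κ) (r4 κ) := by
  apply continuous_matrix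
  intro i j
  fin_cases i
  · exact (continuous_apply j).comp h0
  · exact (continuous_apply j).comp h1
  · exact (continuous_apply j).comp h2
  · exact (continuous_apply j).comp h3
  · exact (continuous_apply j).comp h4

theorem continuous_lit {f0 f1 f2 f3 f4 : ℝ → ℝ} (h0 : Continuous f0) (h1 : Continuous f1)
    (h2 : Continuous f2) (h3 : Continuous f3) (h4 : Continuous f4) :
    Continuous fun κ => (![f0 κ, f1 κ, f2 κ, f3 κ, f4 κ] : Fin 5 → ℝ) := by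
  apply continuous_pi
  intro i
  fin_cases i
  · exact h0
  · exact h1
  · exact h2
  · exact h3
  · exact h4

theorem continuous_rA : ∀ i, Continuous (rA i) := by
  apply forall_fin3 <;> apply continuous_lit <;> fun_prop
theorem continuous_rG : ∀ i, Continuous (rG i) := by
  apply forall_fin3 <;> apply continuous_lit <;> fun_prop
theorem continuous_rB : ∀ i, Continuous (rB i) := by
  apply forall_fin3 <;> apply continuous_lit <;> fun_prop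
theorem continuous_rD : ∀ i, Continuous (rD i) := by
  apply forall_fin3 <;> apply continuous_lit <;> fun_prop

theorem mem_hull {r0 r1 r2 r3 r4 l t : Fin 5 → ℝ} (hl : ∀ i, 0 < l i)
    (h0 : 0 < r0 0) (h1 : 0 < r1 0) (h2 : 0 < r2 0) (h3 : 0 < r3 0) (h4 : 0 < r4 0)
    (ht : t 0 = 1) (h : l ᵥ* mat r0 r1 r2 r3 r4 = t) {s : Set W4} (k0 : pt r0 ∈ s)
    (k1 : pt r1 ∈ s) (k2 : pt r2 ∈ s) (k3 : pt r3 ∈ s) (k4 : pt r4 ∈ s) :
    pt t ∈ convexHull ℝ s := by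
  let w : Fin 5 → ℝ := ![l 0 * r0 0, l 1 * r1 0, l 2 * r2 0, l 3 * r3 0, l 4 * r4 0]
  let z : Fin 5 → W4 := ![pt r0, pt r1, pt r2, pt r3, pt r4]
  have hj : ∀ j, t j = l 0 * r0 j + l 1 * r1 j + l 2 * r2 j + l 3 * r3 j + l 4 * r4 j := by
    intro j
    rw [← vecMul_mat, h]
  have hw : ∀ i ∈ Finset.univ, 0 ≤ w i := by
    intro i _
    fin_cases i
    · exact (mul_pos (hl 0) h0).le
    · exact (mul_pos (hl 1) h1).le
    · exact (mul_pos (hl 2) h2).le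
    · exact (mul_pos (hl 3) h3).le
    · exact (mul_pos (hl 4) h4).le
  have hws : ∑ i, w i = 1 := by
    rw [Fin.sum_univ_five, ← ht, hj 0]
    rfl
  have hz : ∀ i ∈ Finset.univ, z i ∈ s := by
    intro i _
    fin_cases i
    · exact k0
    · exact k1
    · exact k2
    · exact k3
    · exact k4
  have hp : ∑ i, w i • z i = pt t := by
    funext j
    rw [Fin.sum_univ_five]
    show l 0 * r0 0 * (r0 j.succ / r0 0) + l 1 * r1 0 * (r1 j.succ / r1 0) +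
      l 2 * r2 0 * (r2 j.succ / r2 0) + l 3 * r3 0 * (r3 j.succ / r3 0) +
      l 4 * r4 0 * (r4 j.succ / r4 0) = t j.succ / t 0
    rw [ht, div_one, hj j.succ]
    have := h0.ne'
    have := h1.ne'
    have := h2.ne'
    have := h3.ne'
    have := h4.ne'
    field_simp
  rw [← hp]
  exact (convex_convexHull ℝ s).sum_mem hw hws fun i hi => subset_convexHull ℝ s (hz i hi)

/-- Homogeneous coordinates of the apex. -/
noncomputable def rP : Fin 5 → ℝ := ![1, 3 / 5, 2 / 5, -14 / 5, 3 / 10]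

/-- Homogeneous coordinates of the missed point. -/
noncomputable def rQ : Fin 5 → ℝ := ![1, 7 / 10, 1 / 10, -11 / 5, -1 / 5]

theorem ext5 {x y : Fin 5 → ℝ} (h0 : x 0 = y 0) (h1 : x 1 = y 1) (h2 : x 2 = y 2) (h3 : x 3 = y 3)
    (h4 : x 4 = y 4) : x = y := by
  funext i
  fin_cases i
  · exact h0
  · exact h1
  · exact h2
  · exact h3
  · exact h4

theorem hull1 : ∀ᶠ κ in 𝓝 (0 : ℝ),
    (mat (rA 0 κ) (rA 1 κ) (rG 1 κ) (rG 2 κ) (rB 0 κ)).det ≠ 0 ∧ ∃ l : Fin 5 → ℝ, (∀ i, 0 < l i) ∧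
      l ᵥ* mat (rA 0 κ) (rA 1 κ) (rG 1 κ) (rG 2 κ) (rB 0 κ) = rP := by
  apply persist (fun κ => mat (rA 0 κ) (rA 1 κ) (rG 1 κ) (rG 2 κ) (rB 0 κ))
    (continuous_mat (continuous_rA 0) (continuous_rA 1) (continuous_rG 1) (continuous_rG 2) (continuous_rB 0)) rP
    ![43 / 120, 13 / 120, 17 / 60, 1 / 4, 1 / 15]
  · intro i
    fin_cases i <;> norm_num
  · apply ext5 <;> rw [vecMul_mat] <;>
      simp only [rA0, rA1, rG1, rG2, rB0, rP, w0, w1, w2, w3, w4] <;> norm_num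
  · apply det_ne
    intro v hv
    have e0 := hv 0
    have e1 := hv 1
    have e2 := hv 2
    have e3 := hv 3
    have e4 := hv 4
    simp only [rA0, rA1, rG1, rG2, rB0, w0, w1, w2, w3, w4] at e0 e1 e2 e3 e4
    norm_num at e0 e1 e2 e3 e4
    refine ⟨?_, ?_, ?_, ?_, ?_⟩ <;> linarith

theorem hull2 : ∀ᶠ κ in 𝓝 (0 : ℝ),
    (mat (rA 2 κ) (rG 1 κ) (rG 2 κ) (rB 1 κ) (rB 2 κ)).det ≠ 0 ∧ ∃ l : Fin 5 → ℝ, (∀ i, 0 < l i) ∧
      l ᵥ* mat (rA 2 κ) (rG 1 κ) (rG 2 κ) (rB 1 κ) (rB 2 κ) = rP := by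
  apply persist (fun κ => mat (rA 2 κ) (rG 1 κ) (rG 2 κ) (rB 1 κ) (rB 2 κ))
    (continuous_mat (continuous_rA 2) (continuous_rG 1) (continuous_rG 2) (continuous_rB 1) (continuous_rB 2)) rP
    ![9 / 10, 1 / 20, 1 / 20, 1 / 10, 2 / 5]
  · intro i
    fin_cases i <;> norm_num
  · apply ext5 <;> rw [vecMul_mat] <;>
      simp only [rA2, rG1, rG2, rB1, rB2, rP, w0, w1, w2, w3, w4] <;> norm_num
  · apply det_ne
    intro v hv
    have e0 := hv 0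
    have e1 := hv 1
    have e2 := hv 2
    have e3 := hv 3
    have e4 := hv 4
    simp only [rA2, rG1, rG2, rB1, rB2, w0, w1, w2, w3, w4] at e0 e1 e2 e3 e4
    norm_num at e0 e1 e2 e3 e4
    refine ⟨?_, ?_, ?_, ?_, ?_⟩ <;> linarith

theorem hull3 : ∀ᶠ κ in 𝓝 (0 : ℝ),
    (mat (rG 0 κ) (rG 1 κ) (rA 1 κ) (rA 2 κ) (rD 0 κ)).det ≠ 0 ∧ ∃ l : Fin 5 → ℝ, (∀ i, 0 < l i) ∧
      l ᵥ* mat (rG 0 κ) (rG 1 κ) (rA 1 κ) (rA 2 κ) (rD 0 κ) = rP := by
  apply persist (fun κ => mat (rG 0 κ) (rG 1 κ) (rA 1 κ) (rA 2 κ) (rD 0 κ))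
    (continuous_mat (continuous_rG 0) (continuous_rG 1) (continuous_rA 1) (continuous_rA 2) (continuous_rD 0)) rP
    ![3 / 5, 1 / 15, 3 / 10, 1 / 30, 1 / 15]
  · intro i
    fin_cases i <;> norm_num
  · apply ext5 <;> rw [vecMul_mat] <;>
      simp only [rG0, rG1, rA1, rA2, rD0, rP, w0, w1, w2, w3, w4] <;> norm_num
  · apply det_ne
    intro v hv
    have e0 := hv 0
    have e1 := hv 1
    have e2 := hv 2
    have e3 := hv 3
    have e4 := hv 4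
    simp only [rG0, rG1, rA1, rA2, rD0, w0, w1, w2, w3, w4] at e0 e1 e2 e3 e4
    norm_num at e0 e1 e2 e3 e4
    refine ⟨?_, ?_, ?_, ?_, ?_⟩ <;> linarith

theorem hull4 : ∀ᶠ κ in 𝓝 (0 : ℝ),
    (mat (rG 2 κ) (rA 0 κ) (rA 1 κ) (rD 1 κ) (rD 2 κ)).det ≠ 0 ∧ ∃ l : Fin 5 → ℝ, (∀ i, 0 < l i) ∧
      l ᵥ* mat (rG 2 κ) (rA 0 κ) (rA 1 κ) (rD 1 κ) (rD 2 κ) = rP := by
  apply persist (fun κ => mat (rG 2 κ) (rA 0 κ) (rA 1 κ) (rD 1 κ) (rD 2 κ))
    (continuous_mat (continuous_rG 2) (continuous_rA 0) (continuous_rA 1) (continuous_rD 1) (continuous_rD 2)) rP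
    ![107 / 130, 59 / 520, 33 / 520, 7 / 130, 11 / 65]
  · intro i
    fin_cases i <;> norm_num
  · apply ext5 <;> rw [vecMul_mat] <;>
      simp only [rG2, rA0, rA1, rD1, rD2, rP, w0, w1, w2, w3, w4] <;> norm_num
  · apply det_ne
    intro v hv
    have e0 := hv 0
    have e1 := hv 1
    have e2 := hv 2
    have e3 := hv 3
    have e4 := hv 4
    simp only [rG2, rA0, rA1, rD1, rD2, w0, w1, w2, w3, w4] at e0 e1 e2 e3 e4
    norm_num at e0 e1 e2 e3 e4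
    refine ⟨?_, ?_, ?_, ?_, ?_⟩ <;> linarith

theorem hull5 : ∀ᶠ κ in 𝓝 (0 : ℝ),
    (mat rP (rA 0 κ) (rA 2 κ) (rG 0 κ) (rG 2 κ)).det ≠ 0 ∧ ∃ l : Fin 5 → ℝ, (∀ i, 0 < l i) ∧
      l ᵥ* mat rP (rA 0 κ) (rA 2 κ) (rG 0 κ) (rG 2 κ) = rQ := by
  apply persist (fun κ => mat rP (rA 0 κ) (rA 2 κ) (rG 0 κ) (rG 2 κ))
    (continuous_mat continuous_const (continuous_rA 0) (continuous_rA 2) (continuous_rG 0) (continuous_rG 2)) rQ
    ![1 / 4, 13 / 120, 11 / 120, 11 / 30, 11 / 60]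
  · intro i
    fin_cases i <;> norm_num
  · apply ext5 <;> rw [vecMul_mat] <;>
      simp only [rP, rA0, rA2, rG0, rG2, rQ, w0, w1, w2, w3, w4] <;> norm_num
  · apply det_ne
    intro v hv
    have e0 := hv 0
    have e1 := hv 1
    have e2 := hv 2
    have e3 := hv 3
    have e4 := hv 4
    simp only [rP, rA0, rA2, rG0, rG2, w0, w1, w2, w3, w4] at e0 e1 e2 e3 e4
    norm_num at e0 e1 e2 e3 e4
    refine ⟨?_, ?_, ?_, ?_, ?_⟩ <;> linarith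

end Pool.Agent.R796.SC
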