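import Mathlib
import Pool.Agent.R796.SCHull

/-!
# The configuration of twelve points in `ℝ⁴`: the missed point
-/

set_option autoImplicit false

namespace Pool.Agent.R796.SC

open Set Topology Metric

/-- The affine function with given coefficients. -/
def fn (φ : Fin 5 → ℝ) (y : W4) : ℝ := φ 0 + φ 1 * y 0 + φ 2 * y 1 + φ 3 * y 2 + φ 4 * y 3

theorem convex_fn (φ : Fin 5 → ℝ) : Convex ℝ {y : W4 | fn φ y ≤ 0} := by
  intro y hy z hz a b ha hb hab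
  rw [mem_ofPred_eq] at hy hz ⊢
  have h : fn φ (a • y + b • z) = a * fn φ y + b * fn φ z := by
    unfold fn
    simp only [Pi.add_apply, Pi.smul_apply, smul_eq_mul]
    linear_combination (-φ 0) * hab
  rw [h]
  nlinarith [mul_nonneg ha (neg_nonneg.2 hy), mul_nonneg hb (neg_nonneg.2 hz)]

theorem fn_pt {φ r : Fin 5 → ℝ} (hr : 0 < r 0) (h : φ 0 * r 0 + φ 1 * r 1 + φ 2 * r 2 + φ 3 * r 3 +
    φ 4 * r 4 ≤ 0) : fn φ (pt r) ≤ 0 := by
  show φ 0 + φ 1 * (r 1 / r 0) + φ 2 * (r 2 / r 0) + φ 3 * (r 3 / r 0) + φ 4 * (r 4 / r 0) ≤ 0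
  have h1 : φ 0 + φ 1 * (r 1 / r 0) + φ 2 * (r 2 / r 0) + φ 3 * (r 3 / r 0) + φ 4 * (r 4 / r 0) =
      (φ 0 * r 0 + φ 1 * r 1 + φ 2 * r 2 + φ 3 * r 3 + φ 4 * r 4) / r 0 := by
    field_simp
  rw [h1]
  exact div_nonpos_of_nonpos_of_nonneg h hr.le

/-- The separating functions. -/
def fR : Fin 5 → ℝ := ![19, -1, 17, 10, -11]
/-- The separating functions. -/
def fT : Fin 5 → ℝ := ![-1, -1, 18, 0, 0]
/-- The separating functions. -/
def fR' : Fin 5 → ℝ := ![3, -12, -25, -4, 4]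
/-- The separating functions. -/
def fL : Fin 5 → ℝ := ![-21, 13, 17, -3, -20]
/-- The separating functions. -/
def fS : Fin 5 → ℝ := ![-2, 1, 26, 0, 0]
/-- The separating functions. -/
def fL' : Fin 5 → ℝ := ![2, 27, -1, 9, 3]
/-- The separating functions. -/
noncomputable def fX : Fin 5 → ℝ := ![4 / 5, -1, 0, 0, 0]
/-- The separating functions. -/
noncomputable def fY : Fin 5 → ℝ := ![-1 / 2, 1, 0, 0, 0]
/-- The separating functions. -/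
def fH : Fin 5 → ℝ := ![0, 0, 1, 0, 0]

theorem fR_A0 {κ : ℝ} (hκ : Small κ) : fn fR (pt (rA 0 κ)) ≤ 0 := by
  apply fn_pt (by rw [rA_zero]; exact one_pos)
  obtain ⟨p1, q1, p2, q2, p3, q3, p4, q4, p5, q5, p6, q6⟩ := hκ
  simp only [rA0, fR, w0, w1, w2, w3, w4]
  linarith

theorem fR_A1 {κ : ℝ} (hκ : Small κ) : fn fR (pt (rA 1 κ)) ≤ 0 := by
  apply fn_pt (by rw [rA_zero]; exact one_pos)
  obtain ⟨p1, q1, p2, q2, p3, q3, p4, q4, p5, q5, p6, q6⟩ := hκ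
  simp only [rA1, fR, w0, w1, w2, w3, w4]
  linarith

theorem fR_G0 {κ : ℝ} (hκ : Small κ) : fn fR (pt (rG 0 κ)) ≤ 0 := by
  apply fn_pt (by rw [rG_zero]; exact one_pos)
  obtain ⟨p1, q1, p2, q2, p3, q3, p4, q4, p5, q5, p6, q6⟩ := hκ
  simp only [rG0, fR, w0, w1, w2, w3, w4]
  linarith

theorem fR_G1 {κ : ℝ} (hκ : Small κ) : fn fR (pt (rG 1 κ)) ≤ 0 := by
  apply fn_pt (by rw [rG_zero]; exact one_pos)
  obtain ⟨p1, q1, p2, q2, p3, q3, p4, q4, p5, q5, p6, q6⟩ := hκ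
  simp only [rG1, fR, w0, w1, w2, w3, w4]
  linarith

theorem fR_G2 {κ : ℝ} (hκ : Small κ) : fn fR (pt (rG 2 κ)) ≤ 0 := by
  apply fn_pt (by rw [rG_zero]; exact one_pos)
  obtain ⟨p1, q1, p2, q2, p3, q3, p4, q4, p5, q5, p6, q6⟩ := hκ
  simp only [rG2, fR, w0, w1, w2, w3, w4]
  linarith

theorem fR_B0 {κ : ℝ} (hκ : Small κ) : fn fR (pt (rB 0 κ)) ≤ 0 := by
  apply fn_pt (by rw [rB_zero]; exact hκ.p1)
  obtain ⟨p1, q1, p2, q2, p3, q3, p4, q4, p5, q5, p6, q6⟩ := hκ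
  simp only [rB0, fR, w0, w1, w2, w3, w4]
  linarith

theorem fR_B1 {κ : ℝ} (hκ : Small κ) : fn fR (pt (rB 1 κ)) ≤ 0 := by
  apply fn_pt (by rw [rB_zero]; exact hκ.p1)
  obtain ⟨p1, q1, p2, q2, p3, q3, p4, q4, p5, q5, p6, q6⟩ := hκ
  simp only [rB1, fR, w0, w1, w2, w3, w4]
  linarith

theorem fT_A0 {κ : ℝ} (hκ : Small κ) : fn fT (pt (rA 0 κ)) ≤ 0 := by
  apply fn_pt (by rw [rA_zero]; exact one_pos)
  obtain ⟨p1, q1, p2, q2, p3, q3, p4, q4, p5, q5, p6, q6⟩ := hκ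
  simp only [rA0, fT, w0, w1, w2, w3, w4]
  linarith

theorem fT_A2 {κ : ℝ} (hκ : Small κ) : fn fT (pt (rA 2 κ)) ≤ 0 := by
  apply fn_pt (by rw [rA_zero]; exact one_pos)
  obtain ⟨p1, q1, p2, q2, p3, q3, p4, q4, p5, q5, p6, q6⟩ := hκ
  simp only [rA2, fT, w0, w1, w2, w3, w4]
  linarith

theorem fT_G0 {κ : ℝ} (hκ : Small κ) : fn fT (pt (rG 0 κ)) ≤ 0 := by
  apply fn_pt (by rw [rG_zero]; exact one_pos)
  obtain ⟨p1, q1, p2, q2, p3, q3, p4, q4, p5, q5, p6, q6⟩ := hκ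
  simp only [rG0, fT, w0, w1, w2, w3, w4]
  linarith

theorem fT_G1 {κ : ℝ} (hκ : Small κ) : fn fT (pt (rG 1 κ)) ≤ 0 := by
  apply fn_pt (by rw [rG_zero]; exact one_pos)
  obtain ⟨p1, q1, p2, q2, p3, q3, p4, q4, p5, q5, p6, q6⟩ := hκ
  simp only [rG1, fT, w0, w1, w2, w3, w4]
  linarith

theorem fT_G2 {κ : ℝ} (hκ : Small κ) : fn fT (pt (rG 2 κ)) ≤ 0 := by
  apply fn_pt (by rw [rG_zero]; exact one_pos)
  obtain ⟨p1, q1, p2, q2, p3, q3, p4, q4, p5, q5, p6, q6⟩ := hκ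
  simp only [rG2, fT, w0, w1, w2, w3, w4]
  linarith

theorem fT_B1 {κ : ℝ} (hκ : Small κ) : fn fT (pt (rB 1 κ)) ≤ 0 := by
  apply fn_pt (by rw [rB_zero]; exact hκ.p1)
  obtain ⟨p1, q1, p2, q2, p3, q3, p4, q4, p5, q5, p6, q6⟩ := hκ
  simp only [rB1, fT, w0, w1, w2, w3, w4]
  linarith

theorem fRp_A2 {κ : ℝ} (hκ : Small κ) : fn fR' (pt (rA 2 κ)) ≤ 0 := by
  apply fn_pt (by rw [rA_zero]; exact one_pos)
  obtain ⟨p1, q1, p2, q2, p3, q3, p4, q4, p5, q5, p6, q6⟩ := hκ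
  simp only [rA2, fR', w0, w1, w2, w3, w4]
  linarith

theorem fRp_G0 {κ : ℝ} (hκ : Small κ) : fn fR' (pt (rG 0 κ)) ≤ 0 := by
  apply fn_pt (by rw [rG_zero]; exact one_pos)
  obtain ⟨p1, q1, p2, q2, p3, q3, p4, q4, p5, q5, p6, q6⟩ := hκ
  simp only [rG0, fR', w0, w1, w2, w3, w4]
  linarith

theorem fRp_G1 {κ : ℝ} (hκ : Small κ) : fn fR' (pt (rG 1 κ)) ≤ 0 := by
  apply fn_pt (by rw [rG_zero]; exact one_pos)
  obtain ⟨p1, q1, p2, q2, p3, q3, p4, q4, p5, q5, p6, q6⟩ := hκ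
  simp only [rG1, fR', w0, w1, w2, w3, w4]
  linarith

theorem fRp_G2 {κ : ℝ} (hκ : Small κ) : fn fR' (pt (rG 2 κ)) ≤ 0 := by
  apply fn_pt (by rw [rG_zero]; exact one_pos)
  obtain ⟨p1, q1, p2, q2, p3, q3, p4, q4, p5, q5, p6, q6⟩ := hκ
  simp only [rG2, fR', w0, w1, w2, w3, w4]
  linarith

theorem fRp_B1 {κ : ℝ} (hκ : Small κ) : fn fR' (pt (rB 1 κ)) ≤ 0 := by
  apply fn_pt (by rw [rB_zero]; exact hκ.p1)
  obtain ⟨p1, q1, p2, q2, p3, q3, p4, q4, p5, q5, p6, q6⟩ := hκ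
  simp only [rB1, fR', w0, w1, w2, w3, w4]
  linarith

theorem fRp_B2 {κ : ℝ} (hκ : Small κ) : fn fR' (pt (rB 2 κ)) ≤ 0 := by
  apply fn_pt (by rw [rB_zero]; exact hκ.p1)
  obtain ⟨p1, q1, p2, q2, p3, q3, p4, q4, p5, q5, p6, q6⟩ := hκ
  simp only [rB2, fR', w0, w1, w2, w3, w4]
  linarith

theorem fL_G0 {κ : ℝ} (hκ : Small κ) : fn fL (pt (rG 0 κ)) ≤ 0 := by
  apply fn_pt (by rw [rG_zero]; exact one_pos)
  obtain ⟨p1, q1, p2, q2, p3, q3, p4, q4, p5, q5, p6, q6⟩ := hκ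
  simp only [rG0, fL, w0, w1, w2, w3, w4]
  linarith

theorem fL_G1 {κ : ℝ} (hκ : Small κ) : fn fL (pt (rG 1 κ)) ≤ 0 := by
  apply fn_pt (by rw [rG_zero]; exact one_pos)
  obtain ⟨p1, q1, p2, q2, p3, q3, p4, q4, p5, q5, p6, q6⟩ := hκ
  simp only [rG1, fL, w0, w1, w2, w3, w4]
  linarith

theorem fL_A0 {κ : ℝ} (hκ : Small κ) : fn fL (pt (rA 0 κ)) ≤ 0 := by
  apply fn_pt (by rw [rA_zero]; exact one_pos)
  obtain ⟨p1, q1, p2, q2, p3, q3, p4, q4, p5, q5, p6, q6⟩ := hκ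
  simp only [rA0, fL, w0, w1, w2, w3, w4]
  linarith

theorem fL_A1 {κ : ℝ} (hκ : Small κ) : fn fL (pt (rA 1 κ)) ≤ 0 := by
  apply fn_pt (by rw [rA_zero]; exact one_pos)
  obtain ⟨p1, q1, p2, q2, p3, q3, p4, q4, p5, q5, p6, q6⟩ := hκ
  simp only [rA1, fL, w0, w1, w2, w3, w4]
  linarith

theorem fL_A2 {κ : ℝ} (hκ : Small κ) : fn fL (pt (rA 2 κ)) ≤ 0 := by
  apply fn_pt (by rw [rA_zero]; exact one_pos)
  obtain ⟨p1, q1, p2, q2, p3, q3, p4, q4, p5, q5, p6, q6⟩ := hκ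
  simp only [rA2, fL, w0, w1, w2, w3, w4]
  linarith

theorem fL_D0 {κ : ℝ} (hκ : Small κ) : fn fL (pt (rD 0 κ)) ≤ 0 := by
  apply fn_pt (by rw [rD_zero]; exact hκ.p1)
  obtain ⟨p1, q1, p2, q2, p3, q3, p4, q4, p5, q5, p6, q6⟩ := hκ
  simp only [rD0, fL, w0, w1, w2, w3, w4]
  linarith

theorem fL_D1 {κ : ℝ} (hκ : Small κ) : fn fL (pt (rD 1 κ)) ≤ 0 := by
  apply fn_pt (by rw [rD_zero]; exact hκ.p1)
  obtain ⟨p1, q1, p2, q2, p3, q3, p4, q4, p5, q5, p6, q6⟩ := hκ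
  simp only [rD1, fL, w0, w1, w2, w3, w4]
  linarith

theorem fS_G0 {κ : ℝ} (hκ : Small κ) : fn fS (pt (rG 0 κ)) ≤ 0 := by
  apply fn_pt (by rw [rG_zero]; exact one_pos)
  obtain ⟨p1, q1, p2, q2, p3, q3, p4, q4, p5, q5, p6, q6⟩ := hκ
  simp only [rG0, fS, w0, w1, w2, w3, w4]
  linarith

theorem fS_G2 {κ : ℝ} (hκ : Small κ) : fn fS (pt (rG 2 κ)) ≤ 0 := by
  apply fn_pt (by rw [rG_zero]; exact one_pos)
  obtain ⟨p1, q1, p2, q2, p3, q3, p4, q4, p5, q5, p6, q6⟩ := hκ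
  simp only [rG2, fS, w0, w1, w2, w3, w4]
  linarith

theorem fS_A0 {κ : ℝ} (hκ : Small κ) : fn fS (pt (rA 0 κ)) ≤ 0 := by
  apply fn_pt (by rw [rA_zero]; exact one_pos)
  obtain ⟨p1, q1, p2, q2, p3, q3, p4, q4, p5, q5, p6, q6⟩ := hκ
  simp only [rA0, fS, w0, w1, w2, w3, w4]
  linarith

theorem fS_A1 {κ : ℝ} (hκ : Small κ) : fn fS (pt (rA 1 κ)) ≤ 0 := by
  apply fn_pt (by rw [rA_zero]; exact one_pos)
  obtain ⟨p1, q1, p2, q2, p3, q3, p4, q4, p5, q5, p6, q6⟩ := hκ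
  simp only [rA1, fS, w0, w1, w2, w3, w4]
  linarith

theorem fS_A2 {κ : ℝ} (hκ : Small κ) : fn fS (pt (rA 2 κ)) ≤ 0 := by
  apply fn_pt (by rw [rA_zero]; exact one_pos)
  obtain ⟨p1, q1, p2, q2, p3, q3, p4, q4, p5, q5, p6, q6⟩ := hκ
  simp only [rA2, fS, w0, w1, w2, w3, w4]
  linarith

theorem fS_D1 {κ : ℝ} (hκ : Small κ) : fn fS (pt (rD 1 κ)) ≤ 0 := by
  apply fn_pt (by rw [rD_zero]; exact hκ.p1)
  obtain ⟨p1, q1, p2, q2, p3, q3, p4, q4, p5, q5, p6, q6⟩ := hκ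
  simp only [rD1, fS, w0, w1, w2, w3, w4]
  linarith

theorem fLp_G2 {κ : ℝ} (hκ : Small κ) : fn fL' (pt (rG 2 κ)) ≤ 0 := by
  apply fn_pt (by rw [rG_zero]; exact one_pos)
  obtain ⟨p1, q1, p2, q2, p3, q3, p4, q4, p5, q5, p6, q6⟩ := hκ
  simp only [rG2, fL', w0, w1, w2, w3, w4]
  linarith

theorem fLp_A0 {κ : ℝ} (hκ : Small κ) : fn fL' (pt (rA 0 κ)) ≤ 0 := by
  apply fn_pt (by rw [rA_zero]; exact one_pos)
  obtain ⟨p1, q1, p2, q2, p3, q3, p4, q4, p5, q5, p6, q6⟩ := hκ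
  simp only [rA0, fL', w0, w1, w2, w3, w4]
  linarith

theorem fLp_A1 {κ : ℝ} (hκ : Small κ) : fn fL' (pt (rA 1 κ)) ≤ 0 := by
  apply fn_pt (by rw [rA_zero]; exact one_pos)
  obtain ⟨p1, q1, p2, q2, p3, q3, p4, q4, p5, q5, p6, q6⟩ := hκ
  simp only [rA1, fL', w0, w1, w2, w3, w4]
  linarith

theorem fLp_A2 {κ : ℝ} (hκ : Small κ) : fn fL' (pt (rA 2 κ)) ≤ 0 := by
  apply fn_pt (by rw [rA_zero]; exact one_pos)
  obtain ⟨p1, q1, p2, q2, p3, q3, p4, q4, p5, q5, p6, q6⟩ := hκ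
  simp only [rA2, fL', w0, w1, w2, w3, w4]
  linarith

theorem fLp_D1 {κ : ℝ} (hκ : Small κ) : fn fL' (pt (rD 1 κ)) ≤ 0 := by
  apply fn_pt (by rw [rD_zero]; exact hκ.p1)
  obtain ⟨p1, q1, p2, q2, p3, q3, p4, q4, p5, q5, p6, q6⟩ := hκ
  simp only [rD1, fL', w0, w1, w2, w3, w4]
  linarith

theorem fLp_D2 {κ : ℝ} (hκ : Small κ) : fn fL' (pt (rD 2 κ)) ≤ 0 := by
  apply fn_pt (by rw [rD_zero]; exact hκ.p1)
  obtain ⟨p1, q1, p2, q2, p3, q3, p4, q4, p5, q5, p6, q6⟩ := hκ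
  simp only [rD2, fL', w0, w1, w2, w3, w4]
  linarith

theorem fX_G0 {κ : ℝ} (hκ : Small κ) : fn fX (pt (rG 0 κ)) ≤ 0 := by
  apply fn_pt (by rw [rG_zero]; exact one_pos)
  obtain ⟨p1, q1, p2, q2, p3, q3, p4, q4, p5, q5, p6, q6⟩ := hκ
  simp only [rG0, fX, w0, w1, w2, w3, w4]
  linarith

theorem fX_G1 {κ : ℝ} (hκ : Small κ) : fn fX (pt (rG 1 κ)) ≤ 0 := by
  apply fn_pt (by rw [rG_zero]; exact one_pos)
  obtain ⟨p1, q1, p2, q2, p3, q3, p4, q4, p5, q5, p6, q6⟩ := hκ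
  simp only [rG1, fX, w0, w1, w2, w3, w4]
  linarith

theorem fX_G2 {κ : ℝ} (hκ : Small κ) : fn fX (pt (rG 2 κ)) ≤ 0 := by
  apply fn_pt (by rw [rG_zero]; exact one_pos)
  obtain ⟨p1, q1, p2, q2, p3, q3, p4, q4, p5, q5, p6, q6⟩ := hκ
  simp only [rG2, fX, w0, w1, w2, w3, w4]
  linarith

theorem fX_B0 {κ : ℝ} (hκ : Small κ) : fn fX (pt (rB 0 κ)) ≤ 0 := by
  apply fn_pt (by rw [rB_zero]; exact hκ.p1)
  obtain ⟨p1, q1, p2, q2, p3, q3, p4, q4, p5, q5, p6, q6⟩ := hκ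
  simp only [rB0, fX, w0, w1, w2, w3, w4]
  linarith

theorem fX_B1 {κ : ℝ} (hκ : Small κ) : fn fX (pt (rB 1 κ)) ≤ 0 := by
  apply fn_pt (by rw [rB_zero]; exact hκ.p1)
  obtain ⟨p1, q1, p2, q2, p3, q3, p4, q4, p5, q5, p6, q6⟩ := hκ
  simp only [rB1, fX, w0, w1, w2, w3, w4]
  linarith

theorem fX_B2 {κ : ℝ} (hκ : Small κ) : fn fX (pt (rB 2 κ)) ≤ 0 := by
  apply fn_pt (by rw [rB_zero]; exact hκ.p1)
  obtain ⟨p1, q1, p2, q2, p3, q3, p4, q4, p5, q5, p6, q6⟩ := hκ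
  simp only [rB2, fX, w0, w1, w2, w3, w4]
  linarith

theorem fY_A0 {κ : ℝ} (hκ : Small κ) : fn fY (pt (rA 0 κ)) ≤ 0 := by
  apply fn_pt (by rw [rA_zero]; exact one_pos)
  obtain ⟨p1, q1, p2, q2, p3, q3, p4, q4, p5, q5, p6, q6⟩ := hκ
  simp only [rA0, fY, w0, w1, w2, w3, w4]
  linarith

theorem fY_A1 {κ : ℝ} (hκ : Small κ) : fn fY (pt (rA 1 κ)) ≤ 0 := by
  apply fn_pt (by rw [rA_zero]; exact one_pos)
  obtain ⟨p1, q1, p2, q2, p3, q3, p4, q4, p5, q5, p6, q6⟩ := hκ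
  simp only [rA1, fY, w0, w1, w2, w3, w4]
  linarith

theorem fY_A2 {κ : ℝ} (hκ : Small κ) : fn fY (pt (rA 2 κ)) ≤ 0 := by
  apply fn_pt (by rw [rA_zero]; exact one_pos)
  obtain ⟨p1, q1, p2, q2, p3, q3, p4, q4, p5, q5, p6, q6⟩ := hκ
  simp only [rA2, fY, w0, w1, w2, w3, w4]
  linarith

theorem fY_D0 {κ : ℝ} (hκ : Small κ) : fn fY (pt (rD 0 κ)) ≤ 0 := by
  apply fn_pt (by rw [rD_zero]; exact hκ.p1)
  obtain ⟨p1, q1, p2, q2, p3, q3, p4, q4, p5, q5, p6, q6⟩ := hκ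
  simp only [rD0, fY, w0, w1, w2, w3, w4]
  linarith

theorem fY_D1 {κ : ℝ} (hκ : Small κ) : fn fY (pt (rD 1 κ)) ≤ 0 := by
  apply fn_pt (by rw [rD_zero]; exact hκ.p1)
  obtain ⟨p1, q1, p2, q2, p3, q3, p4, q4, p5, q5, p6, q6⟩ := hκ
  simp only [rD1, fY, w0, w1, w2, w3, w4]
  linarith

theorem fY_D2 {κ : ℝ} (hκ : Small κ) : fn fY (pt (rD 2 κ)) ≤ 0 := by
  apply fn_pt (by rw [rD_zero]; exact hκ.p1)
  obtain ⟨p1, q1, p2, q2, p3, q3, p4, q4, p5, q5, p6, q6⟩ := hκ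
  simp only [rD2, fY, w0, w1, w2, w3, w4]
  linarith

theorem fH_A0 {κ : ℝ} (hκ : Small κ) : fn fH (pt (rA 0 κ)) ≤ 0 := by
  apply fn_pt (by rw [rA_zero]; exact one_pos)
  obtain ⟨p1, q1, p2, q2, p3, q3, p4, q4, p5, q5, p6, q6⟩ := hκ
  simp only [rA0, fH, w0, w1, w2, w3, w4]
  linarith

theorem fH_A1 {κ : ℝ} (hκ : Small κ) : fn fH (pt (rA 1 κ)) ≤ 0 := by
  apply fn_pt (by rw [rA_zero]; exact one_pos)
  obtain ⟨p1, q1, p2, q2, p3, q3, p4, q4, p5, q5, p6, q6⟩ := hκ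
  simp only [rA1, fH, w0, w1, w2, w3, w4]
  linarith

theorem fH_A2 {κ : ℝ} (hκ : Small κ) : fn fH (pt (rA 2 κ)) ≤ 0 := by
  apply fn_pt (by rw [rA_zero]; exact one_pos)
  obtain ⟨p1, q1, p2, q2, p3, q3, p4, q4, p5, q5, p6, q6⟩ := hκ
  simp only [rA2, fH, w0, w1, w2, w3, w4]
  linarith

theorem fH_G0 {κ : ℝ} (hκ : Small κ) : fn fH (pt (rG 0 κ)) ≤ 0 := by
  apply fn_pt (by rw [rG_zero]; exact one_pos)
  obtain ⟨p1, q1, p2, q2, p3, q3, p4, q4, p5, q5, p6, q6⟩ := hκ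
  simp only [rG0, fH, w0, w1, w2, w3, w4]
  linarith

theorem fH_G1 {κ : ℝ} (hκ : Small κ) : fn fH (pt (rG 1 κ)) ≤ 0 := by
  apply fn_pt (by rw [rG_zero]; exact one_pos)
  obtain ⟨p1, q1, p2, q2, p3, q3, p4, q4, p5, q5, p6, q6⟩ := hκ
  simp only [rG1, fH, w0, w1, w2, w3, w4]
  linarith

theorem fH_G2 {κ : ℝ} (hκ : Small κ) : fn fH (pt (rG 2 κ)) ≤ 0 := by
  apply fn_pt (by rw [rG_zero]; exact one_pos)
  obtain ⟨p1, q1, p2, q2, p3, q3, p4, q4, p5, q5, p6, q6⟩ := hκ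
  simp only [rG2, fH, w0, w1, w2, w3, w4]
  linarith

theorem fR_Q : 0 < fn fR (pt rQ) := by
  show 0 < fR 0 + fR 1 * (rQ 1 / rQ 0) + fR 2 * (rQ 2 / rQ 0) + fR 3 * (rQ 3 / rQ 0) +
    fR 4 * (rQ 4 / rQ 0)
  simp only [fR, rQ, w0, w1, w2, w3, w4]
  norm_num

theorem fT_Q : 0 < fn fT (pt rQ) := by
  show 0 < fT 0 + fT 1 * (rQ 1 / rQ 0) + fT 2 * (rQ 2 / rQ 0) + fT 3 * (rQ 3 / rQ 0) +
    fT 4 * (rQ 4 / rQ 0)
  simp only [fT, rQ, w0, w1, w2, w3, w4]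
  norm_num

theorem fRp_Q : 0 < fn fR' (pt rQ) := by
  show 0 < fR' 0 + fR' 1 * (rQ 1 / rQ 0) + fR' 2 * (rQ 2 / rQ 0) + fR' 3 * (rQ 3 / rQ 0) +
    fR' 4 * (rQ 4 / rQ 0)
  simp only [fR', rQ, w0, w1, w2, w3, w4]
  norm_num

theorem fL_Q : 0 < fn fL (pt rQ) := by
  show 0 < fL 0 + fL 1 * (rQ 1 / rQ 0) + fL 2 * (rQ 2 / rQ 0) + fL 3 * (rQ 3 / rQ 0) +
    fL 4 * (rQ 4 / rQ 0)
  simp only [fL, rQ, w0, w1, w2, w3, w4]
  norm_num

theorem fS_Q : 0 < fn fS (pt rQ) := by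
  show 0 < fS 0 + fS 1 * (rQ 1 / rQ 0) + fS 2 * (rQ 2 / rQ 0) + fS 3 * (rQ 3 / rQ 0) +
    fS 4 * (rQ 4 / rQ 0)
  simp only [fS, rQ, w0, w1, w2, w3, w4]
  norm_num

theorem fLp_Q : 0 < fn fL' (pt rQ) := by
  show 0 < fL' 0 + fL' 1 * (rQ 1 / rQ 0) + fL' 2 * (rQ 2 / rQ 0) + fL' 3 * (rQ 3 / rQ 0) +
    fL' 4 * (rQ 4 / rQ 0)
  simp only [fL', rQ, w0, w1, w2, w3, w4]
  norm_num

theorem fX_Q : 0 < fn fX (pt rQ) := by
  show 0 < fX 0 + fX 1 * (rQ 1 / rQ 0) + fX 2 * (rQ 2 / rQ 0) + fX 3 * (rQ 3 / rQ 0) +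
    fX 4 * (rQ 4 / rQ 0)
  simp only [fX, rQ, w0, w1, w2, w3, w4]
  norm_num

theorem fY_Q : 0 < fn fY (pt rQ) := by
  show 0 < fY 0 + fY 1 * (rQ 1 / rQ 0) + fY 2 * (rQ 2 / rQ 0) + fY 3 * (rQ 3 / rQ 0) +
    fY 4 * (rQ 4 / rQ 0)
  simp only [fY, rQ, w0, w1, w2, w3, w4]
  norm_num

theorem fH_Q : 0 < fn fH (pt rQ) := by
  show 0 < fH 0 + fH 1 * (rQ 1 / rQ 0) + fH 2 * (rQ 2 / rQ 0) + fH 3 * (rQ 3 / rQ 0) +
    fH 4 * (rQ 4 / rQ 0)
  simp only [fH, rQ, w0, w1, w2, w3, w4]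
  norm_num

/-- The points of the axis to the right. -/
theorem axR {φ : Fin 5 → ℝ} (h1 : φ 1 ≤ 0) (h0 : φ 0 + 20 * φ 1 ≤ 0) {y : W4} (hy1 : y 1 = 0)
    (hy2 : y 2 = 0) (hy3 : y 3 = 0) (hy0 : 20 ≤ y 0) : fn φ y ≤ 0 := by
  unfold fn
  rw [hy1, hy2, hy3]
  nlinarith

theorem axL {φ : Fin 5 → ℝ} (h1 : 0 ≤ φ 1) (h0 : φ 0 - 20 * φ 1 ≤ 0) {y : W4} (hy1 : y 1 = 0)
    (hy2 : y 2 = 0) (hy3 : y 3 = 0) (hy0 : y 0 ≤ -20) : fn φ y ≤ 0 := by
  unfold fn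
  rw [hy1, hy2, hy3]
  nlinarith

theorem axB_gt {κ : ℝ} (hκ : Small κ) {y : W4} (hy0 : y 0 ≤ -20) :
    ∀ j, 1 < nn κ y (pt (rB j κ)) := by
  obtain ⟨p1, q1, p2, q2, p3, q3, p4, q4, p5, q5, p6, q6⟩ := hκ
  have key : ∀ j, κ * y 0 - rB j κ 1 < -1 → 1 < nn κ y (pt (rB j κ)) := by
    intro j h
    have h1 : κ ^ 2 * (y 0 - pt (rB j κ) 0) ^ 2 = (κ * y 0 - rB j κ 1) ^ 2 := by
      show κ ^ 2 * (y 0 - rB j κ 1 / rB j κ 0) ^ 2 = _
      rw [rB_zero]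
      field_simp
    unfold nn
    rw [h1]
    have h2 : 0 ≤ κ ^ 4 * ((y 1 - pt (rB j κ) 1) ^ 2 + (y 2 - pt (rB j κ) 2) ^ 2 +
      (y 3 - pt (rB j κ) 3) ^ 2) := by positivity
    nlinarith
  have hy : κ * y 0 ≤ -20 * κ := by nlinarith
  refine forall_fin3 (key 0 ?_) (key 1 ?_) (key 2 ?_) <;>
    simp only [rB0, rB1, rB2, w1] <;> linarith

theorem axD_gt {κ : ℝ} (hκ : Small κ) {y : W4} (hy0 : 20 ≤ y 0) :
    ∀ j, 1 < nn κ y (pt (rD j κ)) := by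
  obtain ⟨p1, q1, p2, q2, p3, q3, p4, q4, p5, q5, p6, q6⟩ := hκ
  have key : ∀ j, 1 < κ * y 0 - rD j κ 1 → 1 < nn κ y (pt (rD j κ)) := by
    intro j h
    have h1 : κ ^ 2 * (y 0 - pt (rD j κ) 0) ^ 2 = (κ * y 0 - rD j κ 1) ^ 2 := by
      show κ ^ 2 * (y 0 - rD j κ 1 / rD j κ 0) ^ 2 = _
      rw [rD_zero]
      field_simp
    unfold nn
    rw [h1]
    have h2 : 0 ≤ κ ^ 4 * ((y 1 - pt (rD j κ) 1) ^ 2 + (y 2 - pt (rD j κ) 2) ^ 2 +
      (y 3 - pt (rD j κ) 3) ^ 2) := by positivity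
    nlinarith
  have hy : 20 * κ ≤ κ * y 0 := by nlinarith
  refine forall_fin3 (key 0 ?_) (key 1 ?_) (key 2 ?_) <;>
    simp only [rD0, rD1, rD2, w1] <;> linarith

/-- The points which occur in the sample near the missed point (in rescaled coordinates). -/
def Loc (κ : ℝ) (y : W4) : Prop :=
  (∃ i, y = pt (rA i κ)) ∨ (∃ i, y = pt (rB i κ)) ∨ (∃ i, y = pt (rG i κ)) ∨
    (∃ i, y = pt (rD i κ)) ∨ (y 1 = 0 ∧ y 2 = 0 ∧ y 3 = 0 ∧ 20 ≤ |y 0|)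

theorem not_mem_of {T : Set W4} {φ : Fin 5 → ℝ} (h : ∀ y ∈ T, fn φ y ≤ 0)
    (hQ : 0 < fn φ (pt rQ)) : pt rQ ∉ convexHull ℝ T := by
  intro hcon
  have h1 : T ⊆ {y : W4 | fn φ y ≤ 0} := h
  have h2 : pt rQ ∈ {y : W4 | fn φ y ≤ 0} := convexHull_min h1 (convex_fn φ) hcon
  rw [mem_ofPred_eq] at h2
  linarith

/-- The missed point is not in the convex hull of a set of pairwise close points. -/
theorem sep {κ : ℝ} (hκ : Small κ) (T : Set W4) (hT : ∀ y ∈ T, Loc κ y)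
    (hcl : ∀ y ∈ T, ∀ y' ∈ T, nn κ y y' < 1) : pt rQ ∉ convexHull ℝ T := by
  have hAB : ∀ i j, 1 < nn κ (pt (rA i κ)) (pt (rB j κ)) → pt (rA i κ) ∈ T → pt (rB j κ) ∉ T :=
    fun i j h hA hB => (lt_asymm h (hcl _ hA _ hB))
  have hGD : ∀ i j, 1 < nn κ (pt (rG i κ)) (pt (rD j κ)) → pt (rG i κ) ∈ T → pt (rD j κ) ∉ T :=
    fun i j h hA hB => (lt_asymm h (hcl _ hA _ hB))
  have hBD : ∀ i j, pt (rB i κ) ∈ T → pt (rD j κ) ∉ T :=
    fun i j hA hB => (lt_asymm (BD_gt hκ i j) (hcl _ hA _ hB))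
  by_cases hB : ∃ j, pt (rB j κ) ∈ T
  · -- right side
    obtain ⟨j₀, hj₀⟩ := hB
    have hD : ∀ j, pt (rD j κ) ∉ T := fun j => hBD j₀ j hj₀
    have hax : ∀ y ∈ T, y 1 = 0 → y 2 = 0 → y 3 = 0 → 20 ≤ |y 0| → 20 ≤ y 0 := by
      intro y hy _ _ _ h0
      rcases le_abs.1 h0 with h | h
      · exact h
      · exact absurd (hcl y hy _ hj₀) (not_lt.2 (axB_gt hκ (by linarith) j₀).le)
    by_cases hA : ∃ i, pt (rA i κ) ∈ T
    · by_cases hA2 : pt (rA 2 κ) ∈ T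
      · have hB0 := hAB 2 0 (AB_gt20 hκ) hA2
        by_cases hB2 : pt (rB 2 κ) ∈ T
        · have hA0 : pt (rA 0 κ) ∉ T := fun h => hAB 0 2 (AB_gt02 hκ) h hB2
          have hA1 : pt (rA 1 κ) ∉ T := fun h => hAB 1 2 (AB_gt12 hκ) h hB2
          apply not_mem_of (φ := fR') _ fRp_Q
          intro y hy
          rcases hT y hy with ⟨i, rfl⟩ | ⟨i, rfl⟩ | ⟨i, rfl⟩ | ⟨i, rfl⟩ | ⟨h1, h2, h3, h0⟩
          · revert hy
            revert i
            exact forall_fin3 (fun h => absurd h hA0) (fun h => absurd h hA1)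
              (fun _ => fRp_A2 hκ)
          · revert hy
            revert i
            exact forall_fin3 (fun h => absurd h hB0) (fun _ => fRp_B1 hκ)
              (fun _ => fRp_B2 hκ)
          · revert i
            exact forall_fin3 (fun _ => fRp_G0 hκ) (fun _ => fRp_G1 hκ) (fun _ => fRp_G2 hκ)
          · exact absurd hy (hD i)
          · exact axR (by simp only [fR', w1]; norm_num) (by simp only [fR', w0, w1]; norm_num)
              h1 h2 h3 (hax y hy h1 h2 h3 h0)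
        · have hB1 : pt (rB 1 κ) ∈ T := by
            revert hj₀
            revert j₀
            exact forall_fin3 (fun h => absurd h hB0) (fun h => h) (fun h => absurd h hB2)
          have hA1 : pt (rA 1 κ) ∉ T := fun h => hAB 1 1 (AB_gt11 hκ) h hB1
          apply not_mem_of (φ := fT) _ fT_Q
          intro y hy
          rcases hT y hy with ⟨i, rfl⟩ | ⟨i, rfl⟩ | ⟨i, rfl⟩ | ⟨i, rfl⟩ | ⟨h1, h2, h3, h0⟩
          · revert hy
            revert i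
            exact forall_fin3 (fun _ => fT_A0 hκ) (fun h => absurd h hA1) (fun _ => fT_A2 hκ)
          · revert hy
            revert i
            exact forall_fin3 (fun h => absurd h hB0) (fun _ => fT_B1 hκ) (fun h => absurd h hB2)
          · revert i
            exact forall_fin3 (fun _ => fT_G0 hκ) (fun _ => fT_G1 hκ) (fun _ => fT_G2 hκ)
          · exact absurd hy (hD i)
          · exact axR (by simp only [fT, w1]; norm_num) (by simp only [fT, w0, w1]; norm_num)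
              h1 h2 h3 (hax y hy h1 h2 h3 h0)
      · have hB2 : pt (rB 2 κ) ∉ T := by
          obtain ⟨i₀, hi₀⟩ := hA
          revert hi₀
          revert i₀
          exact forall_fin3 (fun h => hAB 0 2 (AB_gt02 hκ) h) (fun h => hAB 1 2 (AB_gt12 hκ) h)
            (fun h => absurd h hA2)
        apply not_mem_of (φ := fR) _ fR_Q
        intro y hy
        rcases hT y hy with ⟨i, rfl⟩ | ⟨i, rfl⟩ | ⟨i, rfl⟩ | ⟨i, rfl⟩ | ⟨h1, h2, h3, h0⟩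
        · revert hy
          revert i
          exact forall_fin3 (fun _ => fR_A0 hκ) (fun _ => fR_A1 hκ) (fun h => absurd h hA2)
        · revert hy
          revert i
          exact forall_fin3 (fun _ => fR_B0 hκ) (fun _ => fR_B1 hκ) (fun h => absurd h hB2)
        · revert i
          exact forall_fin3 (fun _ => fR_G0 hκ) (fun _ => fR_G1 hκ) (fun _ => fR_G2 hκ)
        · exact absurd hy (hD i)
        · exact axR (by simp only [fR, w1]; norm_num) (by simp only [fR, w0, w1]; norm_num)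
            h1 h2 h3 (hax y hy h1 h2 h3 h0)
    · have hA' : ∀ i, pt (rA i κ) ∉ T := fun i h => hA ⟨i, h⟩
      apply not_mem_of (φ := fX) _ fX_Q
      intro y hy
      rcases hT y hy with ⟨i, rfl⟩ | ⟨i, rfl⟩ | ⟨i, rfl⟩ | ⟨i, rfl⟩ | ⟨h1, h2, h3, h0⟩
      · exact absurd hy (hA' i)
      · revert i
        exact forall_fin3 (fun _ => fX_B0 hκ) (fun _ => fX_B1 hκ) (fun _ => fX_B2 hκ)
      · revert i
        exact forall_fin3 (fun _ => fX_G0 hκ) (fun _ => fX_G1 hκ) (fun _ => fX_G2 hκ)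
      · exact absurd hy (hD i)
      · exact axR (by simp only [fX, w1]; norm_num) (by simp only [fX, w0, w1]; norm_num)
          h1 h2 h3 (hax y hy h1 h2 h3 h0)
  · have hB' : ∀ i, pt (rB i κ) ∉ T := fun i h => hB ⟨i, h⟩
    by_cases hD : ∃ j, pt (rD j κ) ∈ T
    · -- left side
      obtain ⟨j₀, hj₀⟩ := hD
      have hax : ∀ y ∈ T, y 1 = 0 → y 2 = 0 → y 3 = 0 → 20 ≤ |y 0| → y 0 ≤ -20 := by
        intro y hy _ _ _ h0
        rcases le_abs.1 h0 with h | h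
        · exact absurd (hcl y hy _ hj₀) (not_lt.2 (axD_gt hκ h j₀).le)
        · linarith
      by_cases hG : ∃ i, pt (rG i κ) ∈ T
      · by_cases hG2 : pt (rG 2 κ) ∈ T
        · have hD0 := hGD 2 0 (GD_gt20 hκ) hG2
          by_cases hD2 : pt (rD 2 κ) ∈ T
          · have hG0 : pt (rG 0 κ) ∉ T := fun h => hGD 0 2 (GD_gt02 hκ) h hD2
            have hG1 : pt (rG 1 κ) ∉ T := fun h => hGD 1 2 (GD_gt12 hκ) h hD2
            apply not_mem_of (φ := fL') _ fLp_Q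
            intro y hy
            rcases hT y hy with ⟨i, rfl⟩ | ⟨i, rfl⟩ | ⟨i, rfl⟩ | ⟨i, rfl⟩ | ⟨h1, h2, h3, h0⟩
            · revert i
              exact forall_fin3 (fun _ => fLp_A0 hκ) (fun _ => fLp_A1 hκ) (fun _ => fLp_A2 hκ)
            · exact absurd hy (hB' i)
            · revert hy
              revert i
              exact forall_fin3 (fun h => absurd h hG0) (fun h => absurd h hG1)
                (fun _ => fLp_G2 hκ)
            · revert hy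
              revert i
              exact forall_fin3 (fun h => absurd h hD0) (fun _ => fLp_D1 hκ)
                (fun _ => fLp_D2 hκ)
            · exact axL (by simp only [fL', w1]; norm_num) (by simp only [fL', w0, w1]; norm_num)
                h1 h2 h3 (hax y hy h1 h2 h3 h0)
          · have hD1 : pt (rD 1 κ) ∈ T := by
              revert hj₀
              revert j₀
              exact forall_fin3 (fun h => absurd h hD0) (fun h => h) (fun h => absurd h hD2)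
            have hG1 : pt (rG 1 κ) ∉ T := fun h => hGD 1 1 (GD_gt11 hκ) h hD1
            apply not_mem_of (φ := fS) _ fS_Q
            intro y hy
            rcases hT y hy with ⟨i, rfl⟩ | ⟨i, rfl⟩ | ⟨i, rfl⟩ | ⟨i, rfl⟩ | ⟨h1, h2, h3, h0⟩
            · revert i
              exact forall_fin3 (fun _ => fS_A0 hκ) (fun _ => fS_A1 hκ) (fun _ => fS_A2 hκ)
            · exact absurd hy (hB' i)
            · revert hy
              revert i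
              exact forall_fin3 (fun _ => fS_G0 hκ) (fun h => absurd h hG1) (fun _ => fS_G2 hκ)
            · revert hy
              revert i
              exact forall_fin3 (fun h => absurd h hD0) (fun _ => fS_D1 hκ)
                (fun h => absurd h hD2)
            · exact axL (by simp only [fS, w1]; norm_num) (by simp only [fS, w0, w1]; norm_num)
                h1 h2 h3 (hax y hy h1 h2 h3 h0)
        · have hD2 : pt (rD 2 κ) ∉ T := by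
            obtain ⟨i₀, hi₀⟩ := hG
            revert hi₀
            revert i₀
            exact forall_fin3 (fun h => hGD 0 2 (GD_gt02 hκ) h) (fun h => hGD 1 2 (GD_gt12 hκ) h)
              (fun h => absurd h hG2)
          apply not_mem_of (φ := fL) _ fL_Q
          intro y hy
          rcases hT y hy with ⟨i, rfl⟩ | ⟨i, rfl⟩ | ⟨i, rfl⟩ | ⟨i, rfl⟩ | ⟨h1, h2, h3, h0⟩
          · revert i
            exact forall_fin3 (fun _ => fL_A0 hκ) (fun _ => fL_A1 hκ) (fun _ => fL_A2 hκ)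
          · exact absurd hy (hB' i)
          · revert hy
            revert i
            exact forall_fin3 (fun _ => fL_G0 hκ) (fun _ => fL_G1 hκ) (fun h => absurd h hG2)
          · revert hy
            revert i
            exact forall_fin3 (fun _ => fL_D0 hκ) (fun _ => fL_D1 hκ) (fun h => absurd h hD2)
          · exact axL (by simp only [fL, w1]; norm_num) (by simp only [fL, w0, w1]; norm_num)
              h1 h2 h3 (hax y hy h1 h2 h3 h0)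
      · have hG' : ∀ i, pt (rG i κ) ∉ T := fun i h => hG ⟨i, h⟩
        apply not_mem_of (φ := fY) _ fY_Q
        intro y hy
        rcases hT y hy with ⟨i, rfl⟩ | ⟨i, rfl⟩ | ⟨i, rfl⟩ | ⟨i, rfl⟩ | ⟨h1, h2, h3, h0⟩
        · revert i
          exact forall_fin3 (fun _ => fY_A0 hκ) (fun _ => fY_A1 hκ) (fun _ => fY_A2 hκ)
        · exact absurd hy (hB' i)
        · exact absurd hy (hG' i)
        · revert i
          exact forall_fin3 (fun _ => fY_D0 hκ) (fun _ => fY_D1 hκ) (fun _ => fY_D2 hκ)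
        · exact axL (by simp only [fY, w1]; norm_num) (by simp only [fY, w0, w1]; norm_num)
            h1 h2 h3 (hax y hy h1 h2 h3 h0)
    · have hD' : ∀ i, pt (rD i κ) ∉ T := fun i h => hD ⟨i, h⟩
      apply not_mem_of (φ := fH) _ fH_Q
      intro y hy
      rcases hT y hy with ⟨i, rfl⟩ | ⟨i, rfl⟩ | ⟨i, rfl⟩ | ⟨i, rfl⟩ | ⟨h1, h2, h3, h0⟩
      · revert i
        exact forall_fin3 (fun _ => fH_A0 hκ) (fun _ => fH_A1 hκ) (fun _ => fH_A2 hκ)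
      · exact absurd hy (hB' i)
      · revert i
        exact forall_fin3 (fun _ => fH_G0 hκ) (fun _ => fH_G1 hκ) (fun _ => fH_G2 hκ)
      · exact absurd hy (hD' i)
      · have : fn fH y = 0 := by
          unfold fn
          simp only [fH, w0, w1, w2, w3, w4, h1, h2, h3]
          ring
        exact this.le

end Pool.Agent.R796.SC
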