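import Mathlib
import Pool.Agent.R796.SCCurve
import Pool.Agent.R796.SCSep

/-!
# The sample and its shadow
-/

set_option autoImplicit false

namespace Pool.Agent.R796.SC

open Set Topology Metric Matrix
open Pool.Agent.R796.Sh (rips shadow)
open Pool.Agent.R796.BC (Pun)

/-- The rescaling map. -/
noncomputable def Phi (k : ℕ) (β κ : ℝ) (y : W4) : E (4 + k) :=
  emb k ![κ * β * y 0, 1 + κ ^ 2 * β * y 1, κ ^ 2 * β * y 2, κ ^ 2 * β * y 3]

/-- Its inverse. -/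
noncomputable def Psi (k : ℕ) (β κ : ℝ) (z : E (4 + k)) : W4 :=
  ![pr k z 0 / (κ * β), (pr k z 1 - 1) / (κ ^ 2 * β), pr k z 2 / (κ ^ 2 * β),
    pr k z 3 / (κ ^ 2 * β)]

theorem ext4 {x y : W4} (h0 : x 0 = y 0) (h1 : x 1 = y 1) (h2 : x 2 = y 2) (h3 : x 3 = y 3) :
    x = y := by
  funext i
  fin_cases i
  · exact h0
  · exact h1
  · exact h2
  · exact h3

theorem Psi_emb {k : ℕ} {β κ : ℝ} (y : W4) : Psi k β κ (emb k y) =
    ![y 0 / (κ * β), (y 1 - 1) / (κ ^ 2 * β), y 2 / (κ ^ 2 * β), y 3 / (κ ^ 2 * β)] := by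
  unfold Psi
  rw [pr_emb]

theorem Psi_Phi {k : ℕ} {β κ : ℝ} (hβ : 0 < β) (hκ : 0 < κ) (y : W4) :
    Psi k β κ (Phi k β κ y) = y := by
  rw [Phi, Psi_emb]
  apply ext4
  · show κ * β * y 0 / (κ * β) = y 0
    field_simp
  · show (1 + κ ^ 2 * β * y 1 - 1) / (κ ^ 2 * β) = y 1
    field_simp
    ring
  · show κ ^ 2 * β * y 2 / (κ ^ 2 * β) = y 2
    field_simp
  · show κ ^ 2 * β * y 3 / (κ ^ 2 * β) = y 3
    field_simp

theorem dist_Phi {k : ℕ} {β κ : ℝ} (y y' : W4) :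
    dist (Phi k β κ y) (Phi k β κ y') ^ 2 = β ^ 2 * nn κ y y' := by
  rw [Phi, Phi, norm_emb_sub]
  show (κ * β * y 0 - κ * β * y' 0) ^ 2 + (1 + κ ^ 2 * β * y 1 - (1 + κ ^ 2 * β * y' 1)) ^ 2 +
    (κ ^ 2 * β * y 2 - κ ^ 2 * β * y' 2) ^ 2 + (κ ^ 2 * β * y 3 - κ ^ 2 * β * y' 3) ^ 2 = _
  unfold nn
  ring

theorem dist_Phi_lt {k : ℕ} {β κ : ℝ} (hβ : 0 < β) {y y' : W4} (h : nn κ y y' < 1) :
    dist (Phi k β κ y) (Phi k β κ y') < β := by
  apply lt_of_pow_lt_pow_left₀ 2 hβ.le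
  rw [dist_Phi]
  nlinarith [pow_pos hβ 2]

theorem sum_pr_le (k : ℕ) (z z' : E (4 + k)) : (pr k z 0 - pr k z' 0) ^ 2 +
    (pr k z 1 - pr k z' 1) ^ 2 + (pr k z 2 - pr k z' 2) ^ 2 + (pr k z 3 - pr k z' 3) ^ 2 ≤
      dist z z' ^ 2 := by
  rw [dist_eq_norm, EuclideanSpace.norm_sq_eq, Fin.sum_univ_add, Fin.sum_univ_four]
  have h1 : 0 ≤ ∑ i : Fin k, ‖(z - z') (Fin.natAdd 4 i)‖ ^ 2 := Finset.sum_nonneg fun i _ => by
    positivity
  have h2 : ∀ i : Fin 4, ‖(z - z') (Fin.castAdd k i)‖ ^ 2 = (pr k z i - pr k z' i) ^ 2 := by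
    intro i
    rw [PiLp.sub_apply, Real.norm_eq_abs, sq_abs]
    rfl
  rw [h2, h2, h2, h2]
  linarith

theorem nn_Psi_lt {k : ℕ} {β κ : ℝ} (hβ : 0 < β) (hκ : 0 < κ) {z z' : E (4 + k)}
    (h : dist z z' < β) : nn κ (Psi k β κ z) (Psi k β κ z') < 1 := by
  have h1 := sum_pr_le k z z'
  have h2 : dist z z' ^ 2 < β ^ 2 := by
    have := dist_nonneg (x := z) (y := z')
    nlinarith
  have h3 : β ^ 2 * nn κ (Psi k β κ z) (Psi k β κ z') = (pr k z 0 - pr k z' 0) ^ 2 +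
    (pr k z 1 - pr k z' 1) ^ 2 + (pr k z 2 - pr k z' 2) ^ 2 + (pr k z 3 - pr k z' 3) ^ 2 := by
    show β ^ 2 * (κ ^ 2 * (pr k z 0 / (κ * β) - pr k z' 0 / (κ * β)) ^ 2 +
      κ ^ 4 * (((pr k z 1 - 1) / (κ ^ 2 * β) - (pr k z' 1 - 1) / (κ ^ 2 * β)) ^ 2 +
        (pr k z 2 / (κ ^ 2 * β) - pr k z' 2 / (κ ^ 2 * β)) ^ 2 +
        (pr k z 3 / (κ ^ 2 * β) - pr k z' 3 / (κ ^ 2 * β)) ^ 2)) = _
    field_simp
    ring
  have h4 : β ^ 2 * nn κ (Psi k β κ z) (Psi k β κ z') < β ^ 2 * 1 := by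
    rw [h3]
    linarith
  exact lt_of_mul_lt_mul_left h4 (by positivity)

theorem continuous_Psi (k : ℕ) (β κ : ℝ) : Continuous (Psi k β κ) := by
  have h : ∀ i, Continuous fun z : E (4 + k) => pr k z i :=
    fun i => (continuous_apply i).comp (continuous_pr k)
  apply continuous_pi
  intro i
  fin_cases i
  · exact (h 0).div_const _
  · exact ((h 1).sub continuous_const).div_const _
  · exact (h 2).div_const _
  · exact (h 3).div_const _

theorem continuous_Phi (k : ℕ) (β κ : ℝ) : Continuous (Phi k β κ) := by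
  apply (PiLp.continuous_toLp 2 (fun _ : Fin (4 + k) => ℝ)).comp
  apply continuous_pi
  intro i
  refine Fin.addCases (fun j => ?_) (fun j => ?_) i
  · simp only [Fin.append_left]
    fin_cases j
    · exact continuous_const.mul (continuous_apply 0)
    · exact continuous_const.add (continuous_const.mul (continuous_apply 1))
    · exact continuous_const.mul (continuous_apply 2)
    · exact continuous_const.mul (continuous_apply 3)
  · simp only [Fin.append_right]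
    exact continuous_const

theorem pr_comb (k : ℕ) (a b : ℝ) (z z' : E (4 + k)) (i : Fin 4) :
    pr k (a • z + b • z') i = a * pr k z i + b * pr k z' i := rfl

theorem Psi_comb {k : ℕ} {β κ : ℝ} {a b : ℝ} (hab : a + b = 1) (z z' : E (4 + k)) :
    Psi k β κ (a • z + b • z') = a • Psi k β κ z + b • Psi k β κ z' := by
  apply ext4
  · show pr k (a • z + b • z') 0 / (κ * β) = a * (pr k z 0 / (κ * β)) + b * (pr k z' 0 / (κ * β))
    rw [pr_comb]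
    ring
  · show (pr k (a • z + b • z') 1 - 1) / (κ ^ 2 * β) =
      a * ((pr k z 1 - 1) / (κ ^ 2 * β)) + b * ((pr k z' 1 - 1) / (κ ^ 2 * β))
    rw [pr_comb]
    have : a * pr k z 1 + b * pr k z' 1 - 1 = a * (pr k z 1 - 1) + b * (pr k z' 1 - 1) := by
      linear_combination hab
    rw [this]
    ring
  · show pr k (a • z + b • z') 2 / (κ ^ 2 * β) =
      a * (pr k z 2 / (κ ^ 2 * β)) + b * (pr k z' 2 / (κ ^ 2 * β))
    rw [pr_comb]
    ring
  · show pr k (a • z + b • z') 3 / (κ ^ 2 * β) =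
      a * (pr k z 3 / (κ ^ 2 * β)) + b * (pr k z' 3 / (κ ^ 2 * β))
    rw [pr_comb]
    ring

theorem Phi_comb {k : ℕ} {β κ : ℝ} {a b : ℝ} (hab : a + b = 1) (y y' : W4) :
    Phi k β κ (a • y + b • y') = a • Phi k β κ y + b • Phi k β κ y' := by
  ext i
  rw [PiLp.add_apply, PiLp.smul_apply, PiLp.smul_apply]
  unfold Phi
  refine Fin.addCases (fun j => ?_) (fun j => ?_) i
  · rw [emb_left, emb_left, emb_left]
    fin_cases j
    · show κ * β * (a * y 0 + b * y' 0) = a * (κ * β * y 0) + b * (κ * β * y' 0)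
      ring
    · show 1 + κ ^ 2 * β * (a * y 1 + b * y' 1) =
        a * (1 + κ ^ 2 * β * y 1) + b * (1 + κ ^ 2 * β * y' 1)
      linear_combination -hab
    · show κ ^ 2 * β * (a * y 2 + b * y' 2) = a * (κ ^ 2 * β * y 2) + b * (κ ^ 2 * β * y' 2)
      ring
    · show κ ^ 2 * β * (a * y 3 + b * y' 3) = a * (κ ^ 2 * β * y 3) + b * (κ ^ 2 * β * y' 3)
      ring
  · rw [emb_right, emb_right, emb_right]
    simp

theorem Psi_mem_hull {k : ℕ} {β κ : ℝ} {σ : Set (E (4 + k))} {z : E (4 + k)}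
    (hz : z ∈ convexHull ℝ σ) : Psi k β κ z ∈ convexHull ℝ (Psi k β κ '' σ) := by
  have h1 : σ ⊆ {z | Psi k β κ z ∈ convexHull ℝ (Psi k β κ '' σ)} :=
    fun w hw => subset_convexHull ℝ _ ⟨w, hw, rfl⟩
  have h2 : Convex ℝ {z | Psi k β κ z ∈ convexHull ℝ (Psi k β κ '' σ)} := by
    intro x hx y hy a b ha hb hab
    rw [mem_ofPred_eq] at hx hy ⊢
    rw [Psi_comb hab]
    exact (convex_convexHull ℝ _) hx hy ha hb hab
  exact convexHull_min h1 h2 hz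

theorem Phi_mem_hull {k : ℕ} {β κ : ℝ} {F : Set W4} {y : W4}
    (hy : y ∈ convexHull ℝ F) : Phi k β κ y ∈ convexHull ℝ (Phi k β κ '' F) := by
  have h1 : F ⊆ {z | Phi k β κ z ∈ convexHull ℝ (Phi k β κ '' F)} :=
    fun w hw => subset_convexHull ℝ _ ⟨w, hw, rfl⟩
  have h2 : Convex ℝ {z | Phi k β κ z ∈ convexHull ℝ (Phi k β κ '' F)} := by
    intro x hx y hy a b ha hb hab
    rw [mem_ofPred_eq] at hx hy ⊢
    rw [Phi_comb hab]
    exact (convex_convexHull ℝ _) hx hy ha hb hab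
  exact convexHull_min h1 h2 hy

/-- Families of cluster points. -/
def Fam (κ : ℝ) (α b g d : Set (Fin 3)) : Set W4 :=
  {y | (∃ i ∈ α, y = pt (rA i κ)) ∨ (∃ i ∈ b, y = pt (rB i κ)) ∨ (∃ i ∈ g, y = pt (rG i κ)) ∨
    (∃ i ∈ d, y = pt (rD i κ))}

theorem finite_Fam (κ : ℝ) (α b g d : Set (Fin 3)) : (Fam κ α b g d).Finite := by
  have h : Fam κ α b g d ⊆ range (fun i => pt (rA i κ)) ∪ range (fun i => pt (rB i κ)) ∪
      range (fun i => pt (rG i κ)) ∪ range (fun i => pt (rD i κ)) := by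
    rintro y (⟨i, _, rfl⟩ | ⟨i, _, rfl⟩ | ⟨i, _, rfl⟩ | ⟨i, _, rfl⟩)
    · exact Or.inl (Or.inl (Or.inl ⟨i, rfl⟩))
    · exact Or.inl (Or.inl (Or.inr ⟨i, rfl⟩))
    · exact Or.inl (Or.inr ⟨i, rfl⟩)
    · exact Or.inr ⟨i, rfl⟩
  exact (((finite_range _).union (finite_range _)).union (finite_range _)).union
    (finite_range _) |>.subset h

theorem clique_Fam {κ : ℝ} (hκ : Small κ) {α b g d : Set (Fin 3)}
    (hab : ∀ i ∈ α, ∀ j ∈ b, nn κ (pt (rA i κ)) (pt (rB j κ)) < 1)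
    (hgd : ∀ i ∈ g, ∀ j ∈ d, nn κ (pt (rG i κ)) (pt (rD j κ)) < 1)
    (hbd : ∀ i ∈ b, ∀ j ∈ d, False) :
    ∀ y ∈ Fam κ α b g d, ∀ y' ∈ Fam κ α b g d, nn κ y y' < 1 := by
  rintro y (⟨i, hi, rfl⟩ | ⟨i, hi, rfl⟩ | ⟨i, hi, rfl⟩ | ⟨i, hi, rfl⟩) y'
    (⟨j, hj, rfl⟩ | ⟨j, hj, rfl⟩ | ⟨j, hj, rfl⟩ | ⟨j, hj, rfl⟩)
  · exact AA_lt hκ i j
  · exact hab i hi j hj
  · exact AG_lt hκ i j
  · exact AD_lt hκ i j
  · rw [nn_comm]
    exact hab j hj i hi
  · exact BB_lt hκ i j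
  · rw [nn_comm]
    exact GB_lt hκ j i
  · exact (hbd i hi j hj).elim
  · rw [nn_comm]
    exact AG_lt hκ j i
  · exact GB_lt hκ i j
  · exact GG_lt hκ i j
  · exact hgd i hi j hj
  · rw [nn_comm]
    exact AD_lt hκ j i
  · exact (hbd j hj i hi).elim
  · rw [nn_comm]
    exact hgd j hj i hi
  · exact DD_lt hκ i j

theorem diam_lt {X : Type*} [PseudoMetricSpace X] (s : Finset X) {β : ℝ} (hβ : 0 < β)
    (h : ∀ x ∈ s, ∀ y ∈ s, dist x y < β) : Metric.diam (s : Set X) < β := by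
  rcases s.eq_empty_or_nonempty with rfl | hne
  · rw [Finset.coe_empty, Metric.diam_empty]
    exact hβ
  · obtain ⟨p, hp, hmax⟩ := (s ×ˢ s).exists_max_image (fun p => dist p.1 p.2)
      (hne.product hne)
    rw [Finset.mem_product] at hp
    refine lt_of_le_of_lt (Metric.diam_le_of_forall_dist_le dist_nonneg ?_) (h _ hp.1 _ hp.2)
    intro x hx y hy
    exact hmax (x, y) (Finset.mem_product.2 ⟨hx, hy⟩)

/-- The sample. -/
def smp (k : ℕ) (β κ : ℝ) (Z : Set (E (4 + k))) : Set (E (4 + k)) :=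
  Z ∪ Phi k β κ '' Fam κ univ univ univ univ

theorem cover {k : ℕ} {β κ : ℝ} (hβ : 0 < β) {Z : Set (E (4 + k))} {F : Set W4}
    (hF : F ⊆ Fam κ univ univ univ univ)
    (hcl : ∀ y ∈ F, ∀ y' ∈ F, nn κ y y' < 1) {y : W4} (hy : y ∈ convexHull ℝ F) :
    Phi k β κ y ∈ shadow β (smp k β κ Z) := by
  classical
  have hfin : F.Finite := (finite_Fam κ _ _ _ _).subset hF
  have hne : F.Nonempty := convexHull_nonempty_iff.1 ⟨y, hy⟩
  let s : Finset (E (4 + k)) := hfin.toFinset.image (Phi k β κ)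
  have hs : (s : Set (E (4 + k))) = Phi k β κ '' F := by
    rw [Finset.coe_image, hfin.coe_toFinset]
  refine mem_iUnion₂.2 ⟨s, ⟨?_, ?_, ?_⟩, ?_⟩
  · obtain ⟨w, hw⟩ := hne
    exact ⟨Phi k β κ w, Finset.mem_image_of_mem _ (hfin.mem_toFinset.2 hw)⟩
  · rw [hs]
    exact (image_mono hF).trans subset_union_right
  · apply diam_lt s hβ
    intro x hx z hz
    obtain ⟨x', hx', rfl⟩ := Finset.mem_image.1 hx
    obtain ⟨z', hz', rfl⟩ := Finset.mem_image.1 hz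
    exact dist_Phi_lt hβ (hcl _ (hfin.mem_toFinset.1 hx') _ (hfin.mem_toFinset.1 hz'))
  · rw [hs]
    exact Phi_mem_hull hy

end Pool.Agent.R796.SC
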