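import Mathlib
import Pool.Agent.R796.SCMain

/-!
# The shadow of the sample is not homotopy equivalent to the curve
-/

set_option autoImplicit false

namespace Pool.Agent.R796.SC

open Set Topology Metric Matrix
open Pool.Agent.R796.Sh (rips shadow)
open Pool.Agent.R796.BC (Pun)

/-- The part of the curve in the sample. -/
structure GoodNet (k : ℕ) (β κ : ℝ) (Z : Set (E (4 + k))) : Prop where
  sub : Z ⊆ curve k
  far : ∀ z ∈ Z, |pr k z 0| < 20 * (κ * β) → 0 < pr k z 1 → False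

theorem missed {k : ℕ} {β κ : ℝ} (hβ : 0 < β) (hβ1 : β ≤ 1 / 64) (hκ : Small κ)
    {Z : Set (E (4 + k))} (hZ : GoodNet k β κ Z) {y : E (4 + k)}
    (hy : y ∈ shadow β (smp k β κ Z)) : Psi k β κ y ≠ pt rQ := by
  intro hq
  obtain ⟨σ, ⟨hne, hσ, hdiam⟩, hyσ⟩ := mem_iUnion₂.1 hy
  have hclose : ∀ s ∈ σ, ∀ t ∈ σ, dist s t < β := fun s hs t ht =>
    lt_of_le_of_lt (dist_le_diam_of_mem σ.finite_toSet.isBounded hs ht) hdiam
  have hsy : ∀ s ∈ σ, dist y s < β := by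
    intro s hs
    have h1 : (σ : Set (E (4 + k))) ⊆ ball s β := fun t ht => mem_ball.2 (hclose t ht s hs)
    exact mem_ball.1 (convexHull_min h1 (convex_ball s β) hyσ)
  have hκ0 := hκ.p1
  have e0 : pr k y 0 = κ * β * (7 / 10) := by
    have h1 : pr k y 0 / (κ * β) = rQ 1 / rQ 0 := congrFun hq 0
    rw [div_eq_iff (by positivity)] at h1
    rw [h1]
    simp only [rQ, w0, w1]
    ring
  have e1 : pr k y 1 = 1 + κ ^ 2 * β * (1 / 10) := by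
    have h1 : (pr k y 1 - 1) / (κ ^ 2 * β) = rQ 2 / rQ 0 := congrFun hq 1
    rw [div_eq_iff (by positivity)] at h1
    simp only [rQ, w0, w2] at h1
    linarith
  refine sep hκ (Psi k β κ '' σ) ?_ ?_ (hq ▸ Psi_mem_hull hyσ)
  · rintro _ ⟨s, hs, rfl⟩
    rcases hσ hs with hsZ | ⟨c, hc, rfl⟩
    · have hd := hsy s hs
      have h0 := (abs_pr_le k y s 0).trans_lt hd
      have h1 := (abs_pr_le k y s 1).trans_lt hd
      rw [e0] at h0
      rw [e1] at h1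
      have hκβ : κ * β ≤ β / 10000 := by nlinarith [hκ.q1]
      have hκβ0 : 0 < κ * β := by positivity
      have h2 : 0 < κ ^ 2 * β := by positivity
      rw [abs_lt] at h0 h1
      have hs0 : |pr k s 0| ≤ 1 / 8 := by
        rw [abs_le]
        constructor <;> linarith [h0.1, h0.2]
      have hs1 : 0 < pr k s 1 := by linarith [h1.2]
      have hse := eq_of_mem_curve k (hZ.sub hsZ) hs0 hs1
      have hfar : 20 * (κ * β) ≤ |pr k s 0| := by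
        by_contra hcon
        exact hZ.far s hsZ (not_le.1 hcon) hs1
      right
      right
      right
      right
      rw [hse, Psi_emb]
      refine ⟨?_, ?_, ?_, ?_⟩
      · show ((1 : ℝ) - 1) / (κ ^ 2 * β) = 0
        rw [sub_self, zero_div]
      · show (0 : ℝ) / (κ ^ 2 * β) = 0
        rw [zero_div]
      · show (0 : ℝ) / (κ ^ 2 * β) = 0
        rw [zero_div]
      · show 20 ≤ |pr k s 0 / (κ * β)|
        rw [abs_div, abs_of_pos hκβ0, le_div_iff₀ hκβ0]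
        exact hfar
    · rw [Psi_Phi hβ hκ0]
      rcases hc with ⟨i, _, rfl⟩ | ⟨i, _, rfl⟩ | ⟨i, _, rfl⟩ | ⟨i, _, rfl⟩
      · exact Or.inl ⟨i, rfl⟩
      · exact Or.inr (Or.inl ⟨i, rfl⟩)
      · exact Or.inr (Or.inr (Or.inl ⟨i, rfl⟩))
      · exact Or.inr (Or.inr (Or.inr (Or.inl ⟨i, rfl⟩)))
  · rintro _ ⟨s, hs, rfl⟩ _ ⟨t, ht, rfl⟩
    exact nn_Psi_lt hβ hκ0 (hclose s hs t ht)

/-- The five points. -/
noncomputable def vv (κ : ℝ) : Fin 5 → W4 :=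
  ![pt rP, pt (rA 0 κ), pt (rA 2 κ), pt (rG 0 κ), pt (rG 2 κ)]

theorem Fam_mono {κ : ℝ} {α b g d α' b' g' d' : Set (Fin 3)} (h1 : α ⊆ α') (h2 : b ⊆ b')
    (h3 : g ⊆ g') (h4 : d ⊆ d') : Fam κ α b g d ⊆ Fam κ α' b' g' d' := by
  rintro y (⟨i, hi, rfl⟩ | ⟨i, hi, rfl⟩ | ⟨i, hi, rfl⟩ | ⟨i, hi, rfl⟩)
  · exact Or.inl ⟨i, h1 hi, rfl⟩
  · exact Or.inr (Or.inl ⟨i, h2 hi, rfl⟩)
  · exact Or.inr (Or.inr (Or.inl ⟨i, h3 hi, rfl⟩))
  · exact Or.inr (Or.inr (Or.inr ⟨i, h4 hi, rfl⟩))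

/-- The conditions on `κ`. -/
structure Fine (κ : ℝ) : Prop where
  small : Small κ
  h1 : ∃ l : Fin 5 → ℝ, (∀ i, 0 < l i) ∧
    l ᵥ* mat (rA 0 κ) (rA 1 κ) (rG 1 κ) (rG 2 κ) (rB 0 κ) = rP
  h2 : ∃ l : Fin 5 → ℝ, (∀ i, 0 < l i) ∧
    l ᵥ* mat (rA 2 κ) (rG 1 κ) (rG 2 κ) (rB 1 κ) (rB 2 κ) = rP
  h3 : ∃ l : Fin 5 → ℝ, (∀ i, 0 < l i) ∧
    l ᵥ* mat (rG 0 κ) (rG 1 κ) (rA 1 κ) (rA 2 κ) (rD 0 κ) = rP
  h4 : ∃ l : Fin 5 → ℝ, (∀ i, 0 < l i) ∧
    l ᵥ* mat (rG 2 κ) (rA 0 κ) (rA 1 κ) (rD 1 κ) (rD 2 κ) = rP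
  hd : (mat rP (rA 0 κ) (rA 2 κ) (rG 0 κ) (rG 2 κ)).det ≠ 0
  h5 : ∃ l : Fin 5 → ℝ, (∀ i, 0 < l i) ∧
    l ᵥ* mat rP (rA 0 κ) (rA 2 κ) (rG 0 κ) (rG 2 κ) = rQ

theorem exists_fine {η : ℝ} (hη : 0 < η) : ∃ κ, Fine κ ∧ κ < η := by
  have h := (((hull1.and hull2).and (hull3.and hull4)).and hull5)
  obtain ⟨ρ, hρ, hball⟩ := Metric.eventually_nhds_iff.1 h
  let κ := min (min (ρ / 2) (η / 2)) (1 / 10000)
  have h0 : 0 < κ := lt_min (lt_min (by positivity) (by positivity)) (by norm_num)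
  have h1 : κ ≤ ρ / 2 := (min_le_left _ _).trans (min_le_left _ _)
  have h2 : κ ≤ η / 2 := (min_le_left _ _).trans (min_le_right _ _)
  have h3 : κ ≤ 1 / 10000 := min_le_right _ _
  have h4 : dist κ 0 < ρ := by
    rw [Real.dist_eq, sub_zero, abs_of_pos h0]
    linarith
  obtain ⟨⟨⟨⟨_, a1⟩, ⟨_, a2⟩⟩, ⟨⟨_, a3⟩, ⟨_, a4⟩⟩⟩, ⟨ad, a5⟩⟩ := hball h4
  exact ⟨κ, ⟨small_of h0 h3, a1, a2, a3, a4, ad, a5⟩, by linarith⟩

theorem faces {k : ℕ} {β κ : ℝ} (hβ : 0 < β) (hf : Fine κ) {Z : Set (E (4 + k))} (i : Fin 5)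
    {y : W4} (hy : y ∈ convexHull ℝ (vv κ '' {j | j ≠ i})) :
    Phi k β κ y ∈ shadow β (smp k β κ Z) := by
  have hκ := hf.small
  have hκ0 := hκ.p1
  have pA : ∀ i, 0 < rA i κ 0 := fun i => by rw [rA_zero]; exact one_pos
  have pG : ∀ i, 0 < rG i κ 0 := fun i => by rw [rG_zero]; exact one_pos
  have pB : ∀ i, 0 < rB i κ 0 := fun i => by rw [rB_zero]; exact hκ0
  have pD : ∀ i, 0 < rD i κ 0 := fun i => by rw [rD_zero]; exact hκ0
  have mA : ∀ (α b g d : Set (Fin 3)), ∀ i ∈ α, pt (rA i κ) ∈ Fam κ α b g d :=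
    fun α b g d i hi => Or.inl ⟨i, hi, rfl⟩
  have mB : ∀ (α b g d : Set (Fin 3)), ∀ i ∈ b, pt (rB i κ) ∈ Fam κ α b g d :=
    fun α b g d i hi => Or.inr (Or.inl ⟨i, hi, rfl⟩)
  have mG : ∀ (α b g d : Set (Fin 3)), ∀ i ∈ g, pt (rG i κ) ∈ Fam κ α b g d :=
    fun α b g d i hi => Or.inr (Or.inr (Or.inl ⟨i, hi, rfl⟩))
  have mD : ∀ (α b g d : Set (Fin 3)), ∀ i ∈ d, pt (rD i κ) ∈ Fam κ α b g d :=
    fun α b g d i hi => Or.inr (Or.inr (Or.inr ⟨i, hi, rfl⟩))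
  have sub : ∀ (α b g d : Set (Fin 3)), Fam κ α b g d ⊆ Fam κ univ univ univ univ :=
    fun α b g d => Fam_mono (subset_univ _) (subset_univ _) (subset_univ _) (subset_univ _)
  have hP0 : rP 0 = 1 := rfl
  -- the reduction to the membership of the vertices
  have red : ∀ (α b g d : Set (Fin 3)),
      (∀ i ∈ α, ∀ j ∈ b, nn κ (pt (rA i κ)) (pt (rB j κ)) < 1) →
      (∀ i ∈ g, ∀ j ∈ d, nn κ (pt (rG i κ)) (pt (rD j κ)) < 1) →
      (∀ i ∈ b, ∀ j ∈ d, False) → (∀ j, j ≠ i → vv κ j ∈ convexHull ℝ (Fam κ α b g d)) →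
      Phi k β κ y ∈ shadow β (smp k β κ Z) := by
    intro α b g d hab hgd hbd hv
    apply cover hβ (sub α b g d) (clique_Fam hκ hab hgd hbd)
    refine convexHull_min ?_ (convex_convexHull ℝ _) hy
    rintro _ ⟨j, hj, rfl⟩
    exact hv j hj
  have sc : ∀ {F : Set W4} {x : W4}, x ∈ F → x ∈ convexHull ℝ F :=
    fun h => subset_convexHull ℝ _ h
  fin_cases i
  · -- without the apex
    refine red univ ∅ univ ∅ (fun _ _ _ h => h.elim) (fun _ _ _ h => h.elim)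
      (fun _ h => h.elim) ?_
    intro j hj
    fin_cases j
    · exact absurd rfl hj
    · exact sc (mA _ _ _ _ 0 (mem_univ _))
    · exact sc (mA _ _ _ _ 2 (mem_univ _))
    · exact sc (mG _ _ _ _ 0 (mem_univ _))
    · exact sc (mG _ _ _ _ 2 (mem_univ _))
  · -- without `A0`
    obtain ⟨l, hl, hl'⟩ := hf.h2
    refine red {2} {1, 2} univ ∅ ?_ (fun _ _ _ h => h.elim) (fun _ _ _ h => h.elim) ?_
    · rintro i rfl j (rfl | rfl)
      · exact AB_lt21 hκ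
      · exact AB_lt22 hκ
    · intro j hj
      fin_cases j
      · exact mem_hull hl (pA 2) (pG 1) (pG 2) (pB 1) (pB 2) hP0 hl' (mA _ _ _ _ 2 rfl)
          (mG _ _ _ _ 1 (mem_univ _)) (mG _ _ _ _ 2 (mem_univ _)) (mB _ _ _ _ 1 (Or.inl rfl))
          (mB _ _ _ _ 2 (Or.inr rfl))
      · exact absurd rfl hj
      · exact sc (mA _ _ _ _ 2 rfl)
      · exact sc (mG _ _ _ _ 0 (mem_univ _))
      · exact sc (mG _ _ _ _ 2 (mem_univ _))
  · -- without `A2`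
    obtain ⟨l, hl, hl'⟩ := hf.h1
    refine red {0, 1} {0} univ ∅ ?_ (fun _ _ _ h => h.elim) (fun _ _ _ h => h.elim) ?_
    · rintro i (rfl | rfl) j rfl
      · exact AB_lt00 hκ
      · exact AB_lt10 hκ
    · intro j hj
      fin_cases j
      · exact mem_hull hl (pA 0) (pA 1) (pG 1) (pG 2) (pB 0) hP0 hl' (mA _ _ _ _ 0 (Or.inl rfl))
          (mA _ _ _ _ 1 (Or.inr rfl)) (mG _ _ _ _ 1 (mem_univ _)) (mG _ _ _ _ 2 (mem_univ _))
          (mB _ _ _ _ 0 rfl)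
      · exact sc (mA _ _ _ _ 0 (Or.inl rfl))
      · exact absurd rfl hj
      · exact sc (mG _ _ _ _ 0 (mem_univ _))
      · exact sc (mG _ _ _ _ 2 (mem_univ _))
  · -- without `G0`
    obtain ⟨l, hl, hl'⟩ := hf.h4
    refine red univ ∅ {2} {1, 2} (fun _ _ _ h => h.elim) ?_ (fun _ h => h.elim) ?_
    · rintro i rfl j (rfl | rfl)
      · exact GD_lt21 hκ
      · exact GD_lt22 hκ
    · intro j hj
      fin_cases j
      · exact mem_hull hl (pG 2) (pA 0) (pA 1) (pD 1) (pD 2) hP0 hl' (mG _ _ _ _ 2 rfl)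
          (mA _ _ _ _ 0 (mem_univ _)) (mA _ _ _ _ 1 (mem_univ _)) (mD _ _ _ _ 1 (Or.inl rfl))
          (mD _ _ _ _ 2 (Or.inr rfl))
      · exact sc (mA _ _ _ _ 0 (mem_univ _))
      · exact sc (mA _ _ _ _ 2 (mem_univ _))
      · exact absurd rfl hj
      · exact sc (mG _ _ _ _ 2 rfl)
  · -- without `G2`
    obtain ⟨l, hl, hl'⟩ := hf.h3
    refine red univ ∅ {0, 1} {0} (fun _ _ _ h => h.elim) ?_ (fun _ h => h.elim) ?_
    · rintro i (rfl | rfl) j rfl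
      · exact GD_lt00 hκ
      · exact GD_lt10 hκ
    · intro j hj
      fin_cases j
      · exact mem_hull hl (pG 0) (pG 1) (pA 1) (pA 2) (pD 0) hP0 hl' (mG _ _ _ _ 0 (Or.inl rfl))
          (mG _ _ _ _ 1 (Or.inr rfl)) (mA _ _ _ _ 1 (mem_univ _)) (mA _ _ _ _ 2 (mem_univ _))
          (mD _ _ _ _ 0 rfl)
      · exact sc (mA _ _ _ _ 0 (mem_univ _))
      · exact sc (mA _ _ _ _ 2 (mem_univ _))
      · exact sc (mG _ _ _ _ 0 (Or.inl rfl))
      · exact absurd rfl hj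

/-- The sphere in the shadow around the missed point. -/
theorem exists_sphere {k : ℕ} {β κ : ℝ} (hβ : 0 < β) (hf : Fine κ) (Z : Set (E (4 + k))) :
    ∃ (r : S3 → ℝ) (u : C(S3, shadow β (smp k β κ Z))), (∀ s, 0 < r s) ∧
      ∀ s, Psi k β κ (u s) - pt rQ = r s • s.1 := by
  obtain ⟨lam, hlam, hlam'⟩ := hf.h5
  set M := mat rP (rA 0 κ) (rA 2 κ) (rG 0 κ) (rG 2 κ) with hM
  have hdet : M.det ≠ 0 := hf.hd
  have hunit : IsUnit M.det := isUnit_iff_ne_zero.2 hdet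
  let ℓ : Fin 5 → W4 → ℝ := fun i s => ((Fin.cons 0 s : Fin 5 → ℝ) ᵥ* M⁻¹) i
  have hℓ : ∀ s, (fun i => ℓ i s) ᵥ* M = (Fin.cons 0 s : Fin 5 → ℝ) := by
    intro s
    show ((Fin.cons 0 s : Fin 5 → ℝ) ᵥ* M⁻¹) ᵥ* M = _
    rw [Matrix.vecMul_vecMul, Matrix.nonsing_inv_mul _ hunit, Matrix.vecMul_one]
  have hrow : ∀ i, (![rP, rA 0 κ, rA 2 κ, rG 0 κ, rG 2 κ] : Fin 5 → Fin 5 → ℝ) i 0 = 1 := by
    intro i
    fin_cases i
    · rfl
    · exact rA_zero 0 κ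
    · exact rA_zero 2 κ
    · exact rG_zero 0 κ
    · exact rG_zero 2 κ
  have hvv : ∀ i (j : Fin 4), vv κ i j =
      (![rP, rA 0 κ, rA 2 κ, rG 0 κ, rG 2 κ] : Fin 5 → Fin 5 → ℝ) i j.succ := by
    intro i j
    have h1 : ∀ r : Fin 5 → ℝ, r 0 = 1 → pt r j = r j.succ := by
      intro r hr
      show r j.succ / r 0 = _
      rw [hr, div_one]
    fin_cases i
    · exact h1 _ (hrow 0)
    · exact h1 _ (hrow 1)
    · exact h1 _ (hrow 2)
    · exact h1 _ (hrow 3)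
    · exact h1 _ (hrow 4)
  have hvec : ∀ (l t : Fin 5 → ℝ), l ᵥ* M = t → ∑ i, l i = t 0 ∧
      ∀ j : Fin 4, (∑ i, l i • vv κ i) j = t j.succ := by
    intro l t h
    constructor
    · rw [← h]
      show _ = ∑ i, l i * (![rP, rA 0 κ, rA 2 κ, rG 0 κ, rG 2 κ] : Fin 5 → Fin 5 → ℝ) i 0
      apply Finset.sum_congr rfl
      intro i _
      rw [hrow, mul_one]
    · intro j
      rw [← h, Finset.sum_apply]
      show _ = ∑ i, l i * (![rP, rA 0 κ, rA 2 κ, rG 0 κ, rG 2 κ] : Fin 5 → Fin 5 → ℝ) i j.succ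
      apply Finset.sum_congr rfl
      intro i _
      rw [Pi.smul_apply, smul_eq_mul, hvv]
  have hQ : ∑ i, lam i • vv κ i = pt rQ := by
    funext j
    rw [(hvec lam rQ hlam').2 j]
    show rQ j.succ = rQ j.succ / rQ 0
    have : rQ 0 = 1 := rfl
    rw [this, div_one]
  obtain ⟨r, hrc, hr0, hr⟩ := simplex_sphere' (vv κ) ℓ (by
    intro i
    show Continuous fun s : W4 => ((Fin.cons 0 s : Fin 5 → ℝ) ᵥ* M⁻¹) i
    have hc : Continuous fun s : W4 => (Fin.cons 0 s : Fin 5 → ℝ) := by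
      apply continuous_pi
      intro j
      refine Fin.cases ?_ (fun j => ?_) j
      · exact continuous_const
      · exact continuous_apply j
    exact (continuous_apply i).comp (hc.matrix_vecMul continuous_const)) lam hlam
    ((hvec lam rQ hlam').1) (fun s => (hvec _ _ (hℓ s)).1)
    (fun s => funext fun j => (hvec _ _ (hℓ s)).2 j)
  rw [hQ] at hr
  refine ⟨r, ⟨fun s => ⟨Phi k β κ (pt rQ + r s • s.1), ?_⟩, ?_⟩, hr0, ?_⟩
  · obtain ⟨i, hi⟩ := hr s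
    exact faces hβ hf i hi
  · apply Continuous.subtype_mk
    exact (continuous_Phi k β κ).comp (continuous_const.add (hrc.smul continuous_subtype_val))
  · intro s
    show Psi k β κ (Phi k β κ (pt rQ + r s • s.1)) - pt rQ = r s • s.1
    rw [Psi_Phi hβ hf.small.p1, add_sub_cancel_left]

theorem not_homotopyEquiv {k : ℕ} {β κ : ℝ} (hβ : 0 < β) (hβ1 : β ≤ 1 / 64) (hf : Fine κ)
    {Z : Set (E (4 + k))} (hZ : GoodNet k β κ Z) :
    ¬ Nonempty (ContinuousMap.HomotopyEquiv (shadow β (smp k β κ Z)) (curve k)) := by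
  obtain ⟨dir, par, hpar⟩ := exists_dir k
  obtain ⟨r, u, hr, hu⟩ := exists_sphere hβ hf Z
  let Ψ : C(shadow β (smp k β κ Z), Pun W4) :=
    ⟨fun y => ⟨Psi k β κ y - pt rQ, sub_ne_zero.2 (missed hβ hβ1 hf.small hZ y.2)⟩,
      Continuous.subtype_mk (((continuous_Psi k β κ).comp continuous_subtype_val).sub
        continuous_const) _⟩
  exact not_equiv dir par hpar u Ψ r hr hu

end Pool.Agent.R796.SC
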