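import Mathlib
import Pool.Agent.R796.SCFin

/-!
# The sample is close to the curve; the final statement
-/

set_option autoImplicit false

namespace Pool.Agent.R796.SC

open Set Topology Metric
open Pool.Agent.R796.Sh (rips shadow)

theorem bd_f {κ : ℝ} {r : Fin 5 → ℝ} (h0 : r 0 = 1) (h1 : |κ * r 1| ≤ 2)
    (h2 : κ ^ 2 * (r 2 ^ 2 + r 3 ^ 2 + r 4 ^ 2) ≤ 100) :
    |κ * pt r 0| ≤ 2 ∧ κ ^ 2 * (pt r 1 ^ 2 + pt r 2 ^ 2 + pt r 3 ^ 2) ≤ 100 := by
  have e : ∀ j : Fin 4, pt r j = r j.succ := by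
    intro j
    show r j.succ / r 0 = _
    rw [h0, div_one]
  rw [e, e, e, e]
  exact ⟨h1, h2⟩

theorem bd_i {κ : ℝ} (hκ : κ ≠ 0) {r : Fin 5 → ℝ} (h0 : r 0 = κ) (h1 : |r 1| ≤ 2)
    (h2 : r 2 ^ 2 + r 3 ^ 2 + r 4 ^ 2 ≤ 100) :
    |κ * pt r 0| ≤ 2 ∧ κ ^ 2 * (pt r 1 ^ 2 + pt r 2 ^ 2 + pt r 3 ^ 2) ≤ 100 := by
  have e : ∀ j : Fin 4, pt r j = r j.succ / κ := by
    intro j
    show r j.succ / r 0 = _
    rw [h0]
  rw [e, e, e, e]
  constructor
  · rw [mul_div_cancel₀ _ hκ]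
    exact h1
  · have : κ ^ 2 * ((r (Fin.succ 1) / κ) ^ 2 + (r (Fin.succ 2) / κ) ^ 2 +
        (r (Fin.succ 3) / κ) ^ 2) = r 2 ^ 2 + r 3 ^ 2 + r 4 ^ 2 := by
      show κ ^ 2 * ((r 2 / κ) ^ 2 + (r 3 / κ) ^ 2 + (r 4 / κ) ^ 2) = _
      field_simp
    rw [this]
    exact h2

theorem bd {κ : ℝ} (hκ : Small κ) : ∀ c ∈ Fam κ univ univ univ univ,
    |κ * c 0| ≤ 2 ∧ κ ^ 2 * (c 1 ^ 2 + c 2 ^ 2 + c 3 ^ 2) ≤ 100 := by
  obtain ⟨p1, q1, p2, q2, p3, q3, p4, q4, p5, q5, p6, q6⟩ := hκ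
  rintro c (⟨i, _, rfl⟩ | ⟨i, _, rfl⟩ | ⟨i, _, rfl⟩ | ⟨i, _, rfl⟩)
  · refine bd_f (rA_zero i κ) ?_ ?_
    · rw [abs_le]
      revert i
      refine forall_fin3 ?_ ?_ ?_ <;> intro _ <;> simp only [rA0, rA1, rA2, w1] <;>
        constructor <;> linarith
    · revert i
      refine forall_fin3 ?_ ?_ ?_ <;> intro _ <;> simp only [rA0, rA1, rA2, w2, w3, w4] <;>
        linarith
  · refine bd_i p1.ne' (rB_zero i κ) ?_ ?_
    · rw [abs_le]
      revert i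
      refine forall_fin3 ?_ ?_ ?_ <;> intro _ <;> simp only [rB0, rB1, rB2, w1] <;>
        constructor <;> linarith
    · revert i
      refine forall_fin3 ?_ ?_ ?_ <;> intro _ <;> simp only [rB0, rB1, rB2, w2, w3, w4] <;>
        norm_num
  · refine bd_f (rG_zero i κ) ?_ ?_
    · rw [abs_le]
      revert i
      refine forall_fin3 ?_ ?_ ?_ <;> intro _ <;> simp only [rG0, rG1, rG2, w1] <;>
        constructor <;> linarith
    · revert i
      refine forall_fin3 ?_ ?_ ?_ <;> intro _ <;> simp only [rG0, rG1, rG2, w2, w3, w4] <;>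
        linarith
  · refine bd_i p1.ne' (rD_zero i κ) ?_ ?_
    · rw [abs_le]
      revert i
      refine forall_fin3 ?_ ?_ ?_ <;> intro _ <;> simp only [rD0, rD1, rD2, w1] <;>
        constructor <;> linarith
    · revert i
      refine forall_fin3 ?_ ?_ ?_ <;> intro _ <;> simp only [rD0, rD1, rD2, w2, w3, w4] <;>
        norm_num

theorem exists_sample (k : ℕ) {β δ : ℝ} (hβ : 0 < β) (hβ1 : β ≤ 1 / 64) (hδ : 0 < δ) :
    ∃ (κ : ℝ) (Z : Set (E (4 + k))), Fine κ ∧ GoodNet k β κ Z ∧ (smp k β κ Z).Finite ∧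
      (smp k β κ Z).Nonempty ∧ hausdorffDist (smp k β κ Z) (curve k) < δ := by
  obtain ⟨κ, hf, hκδ⟩ := exists_fine (show 0 < δ / 100 by positivity)
  have hκ := hf.small
  have hκ0 := hκ.p1
  obtain ⟨t, hts, htf, ht⟩ := (isCompact_curve k).finite_cover_balls
    (e := δ / 4) (by positivity)
  let Z : Set (E (4 + k)) := {z ∈ t | ¬ (|pr k z 0| < 20 * (κ * β) ∧ 0 < pr k z 1)}
  have hκβ : κ * β ≤ κ := by nlinarith
  have hκβ0 : 0 < κ * β := by positivity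
  have hA : Phi k β κ (pt (rA 0 κ)) ∈ smp k β κ Z :=
    Or.inr ⟨_, Or.inl ⟨0, mem_univ _, rfl⟩, rfl⟩
  refine ⟨κ, Z, hf, ⟨fun z hz => hts hz.1, fun z hz h0 h1 => hz.2 ⟨h0, h1⟩⟩, ?_, ⟨_, hA⟩, ?_⟩
  · exact (htf.subset fun z hz => hz.1).union ((finite_Fam κ _ _ _ _).image _)
  · refine lt_of_le_of_lt (hausdorffDist_le_of_mem_dist (r := δ / 2) (by positivity) ?_ ?_)
      (by linarith)
    · rintro s (hs | ⟨c, hc, rfl⟩)
      · refine ⟨s, hts hs.1, ?_⟩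
        rw [dist_self]
        positivity
      · obtain ⟨h1, h2⟩ := bd hκ c hc
        have h3 : |κ * β * c 0| ≤ 1 / 8 := by
          have : κ * β * c 0 = β * (κ * c 0) := by ring
          rw [this, abs_mul, abs_of_pos hβ]
          nlinarith [abs_nonneg (κ * c 0)]
        refine ⟨_, mem_curve_of k h3, ?_⟩
        have h4 : dist (Phi k β κ c) (emb k ![κ * β * c 0, 1, 0, 0]) ≤ 10 * (κ * β) := by
          apply abs_le_of_sq_le_sq' _ (by positivity) |>.2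
          rw [Phi, norm_emb_sub]
          show (κ * β * c 0 - κ * β * c 0) ^ 2 + (1 + κ ^ 2 * β * c 1 - 1) ^ 2 +
            (κ ^ 2 * β * c 2 - 0) ^ 2 + (κ ^ 2 * β * c 3 - 0) ^ 2 ≤ (10 * (κ * β)) ^ 2
          have h5 := mul_le_mul_of_nonneg_left h2 (sq_nonneg (κ * β))
          have h6 : (κ * β * c 0 - κ * β * c 0) ^ 2 + (1 + κ ^ 2 * β * c 1 - 1) ^ 2 +
            (κ ^ 2 * β * c 2 - 0) ^ 2 + (κ ^ 2 * β * c 3 - 0) ^ 2 =
              (κ * β) ^ 2 * (κ ^ 2 * (c 1 ^ 2 + c 2 ^ 2 + c 3 ^ 2)) := by ring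
          rw [h6]
          linarith
        linarith
    · intro m hm
      obtain ⟨z, hz, hmz⟩ := mem_iUnion₂.1 (ht hm)
      rw [mem_ball] at hmz
      by_cases hzz : |pr k z 0| < 20 * (κ * β) ∧ 0 < pr k z 1
      · refine ⟨_, hA, ?_⟩
        have hκβ2 : κ * β ≤ 1 / 640000 := by
          have := mul_le_mul hκ.q1 hβ1 hβ.le (by norm_num)
          linarith
        have hze := eq_of_mem_curve k (hts hz) (by linarith [hzz.1]) hzz.2
        have h4 : dist z (Phi k β κ (pt (rA 0 κ))) ≤ 21 * (κ * β) := by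
          apply abs_le_of_sq_le_sq' _ (by positivity) |>.2
          rw [hze, Phi, norm_emb_sub]
          have e : ∀ j : Fin 4, pt (rA 0 κ) j = rA 0 κ j.succ := by
            intro j
            show rA 0 κ j.succ / rA 0 κ 0 = _
            rw [rA_zero, div_one]
          rw [e, e, e, e]
          show (pr k z 0 - κ * β * 0) ^ 2 + (1 - (1 + κ ^ 2 * β * 0)) ^ 2 +
            (0 - κ ^ 2 * β * (-2)) ^ 2 + (0 - κ ^ 2 * β * 0) ^ 2 ≤ (21 * (κ * β)) ^ 2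
          have h5 : pr k z 0 ^ 2 ≤ (20 * (κ * β)) ^ 2 := by
            have := abs_lt.1 hzz.1
            nlinarith
          have h6 : (pr k z 0 - κ * β * 0) ^ 2 + (1 - (1 + κ ^ 2 * β * 0)) ^ 2 +
            (0 - κ ^ 2 * β * (-2)) ^ 2 + (0 - κ ^ 2 * β * 0) ^ 2 =
              pr k z 0 ^ 2 + (κ * β) ^ 2 * (4 * κ ^ 2) := by ring
          rw [h6]
          have h7 : (κ * β) ^ 2 * (4 * κ ^ 2) ≤ (κ * β) ^ 2 * 1 := by
            apply mul_le_mul_of_nonneg_left _ (sq_nonneg _)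
            linarith [hκ.q2, hκ.q1]
          nlinarith [sq_nonneg (κ * β)]
        have h5 := dist_triangle m z (Phi k β κ (pt (rA 0 κ)))
        linarith
      · exact ⟨z, Or.inl ⟨hz, hzz⟩, by linarith⟩

/-- The final statement. -/
theorem main (N : ℕ) (hN : 4 ≤ N) : ∃ M : Set (E N), IsSmoothClosedCurve M ∧
    ∃ β₁ : ℝ, 0 < β₁ ∧ ∀ β : ℝ, 0 < β → β < β₁ → ∀ δ : ℝ, 0 < δ →
      ∃ S : Set (E N), S.Finite ∧ S.Nonempty ∧ hausdorffDist S M < δ ∧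
        ¬ Nonempty (ContinuousMap.HomotopyEquiv (shadow β S) M) := by
  obtain ⟨k, rfl⟩ := Nat.exists_eq_add_of_le hN
  refine ⟨curve k, isSmoothClosedCurve k, 1 / 64, by norm_num, ?_⟩
  intro β hβ hβ1 δ hδ
  obtain ⟨κ, Z, hf, hZ, hfin, hne, hd⟩ := exists_sample k hβ hβ1.le hδ
  exact ⟨_, hfin, hne, hd, not_homotopyEquiv hβ hβ1.le hf hZ⟩

end Pool.Agent.R796.SC
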