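import Mathlib

/-!
# The cubic dimension filtration of the Vietoris-Rips complexes of hypercubes: definitions
-/

set_option autoImplicit false

namespace Pool.Agent.R796.SS

open Finset

/-- The vertex set `{0,1}^n` of the hypercube graph. -/
abbrev V (n : ℕ) : Type := Fin n → Bool

/-- The simplices of the Vietoris-Rips complex `X^{n,r}`: nonempty sets of vertices with pairwise
Hamming distance at most `r`. -/
def IsSimplex {n : ℕ} (r : ℕ) (s : Finset (V n)) : Prop :=
  s.Nonempty ∧ ∀ u ∈ s, ∀ v ∈ s, hammingDist u v ≤ r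

/-- The cubic dimension: the number of coordinates on which the vertices do not all agree. -/
noncomputable def cubicDim {n : ℕ} (s : Finset (V n)) : ℕ :=
  {j : Fin n | ∃ u ∈ s, ∃ v ∈ s, u j ≠ v j}.ncard

open Classical in
/-- The sign `(-1)^k` where `k` is the number of vertices of `s` which precede `v` in the
lexicographic order of `{0,1}^n`. -/
noncomputable def sgn (k : Type*) [Field k] {n : ℕ} (v : V n) (s : Finset (V n)) : k :=
  (-1) ^ (s.filter fun w => toLex w < toLex v).card

open Classical in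
/-- The simplicial boundary operator. A chain is a function `f` on finite sets of vertices (the
chain `∑ f(s) s`, where every `s` is oriented by the lexicographic order of the vertices). The
coefficient of `∂f` at a nonempty set `t` is the sum over the vertices `v` outside `t` of
`± f(t ∪ {v})`, with the sign `(-1)^i` if `v` is the vertex number `i = 0, 1, …` of `t ∪ {v}`;
that is, `∂ s = ∑_i (-1)^i (s without its vertex number i)`. -/
noncomputable def bd (k : Type*) [Field k] (n : ℕ) :
    (Finset (V n) → k) →ₗ[k] (Finset (V n) → k) where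
  toFun f t := if t.Nonempty then ∑ v ∈ tᶜ, sgn k v t * f (insert v t) else 0
  map_add' f g := by
    funext t
    simp only [Pi.add_apply, mul_add, sum_add_distrib]
    split_ifs <;> simp
  map_smul' a f := by
    funext t
    simp only [Pi.smul_apply, smul_eq_mul, RingHom.id_apply]
    split_ifs
    · rw [mul_sum]
      exact sum_congr rfl fun v _ => by ring
    · simp

/-- `C_m(X^{n,r}_p)`: the chains of degree `m` (combinations of simplices with `m + 1` vertices) of
the subcomplex of simplices of cubic dimension at most `p`. The indices `p` and `m` are integers;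
the space is zero for negative `p` or `m`. -/
def Ch (k : Type*) [Field k] (n r : ℕ) (p m : ℤ) : Submodule k (Finset (V n) → k) where
  carrier := {f | ∀ s, f s ≠ 0 → IsSimplex r s ∧ (cubicDim s : ℤ) ≤ p ∧ (s.card : ℤ) = m + 1}
  add_mem' {f g} hf hg s hs := by
    by_cases h : f s = 0
    · apply hg s
      intro h'
      apply hs
      simp [h, h']
    · exact hf s h
  zero_mem' s hs := absurd rfl hs
  smul_mem' a f hf s hs := by
    apply hf s
    intro h
    apply hs
    simp [h]

theorem mem_Ch {k : Type*} [Field k] {n r : ℕ} {p m : ℤ} {f : Finset (V n) → k} :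
    f ∈ Ch k n r p m ↔
      ∀ s, f s ≠ 0 → IsSimplex r s ∧ (cubicDim s : ℤ) ≤ p ∧ (s.card : ℤ) = m + 1 := Iff.rfl

theorem cubicDim_mono {n : ℕ} {s t : Finset (V n)} (h : s ⊆ t) : cubicDim s ≤ cubicDim t := by
  apply Set.ncard_le_ncard _ (Set.toFinite _)
  rintro j ⟨u, hu, v, hv, huv⟩
  exact ⟨u, h hu, v, h hv, huv⟩

/-- The boundary operator maps `C_m(X_p)` to `C_{m-1}(X_p)`. -/
theorem bd_mem {k : Type*} [Field k] {n r : ℕ} {p a b : ℤ} (hab : a = b + 1)
    {f : Finset (V n) → k} (hf : f ∈ Ch k n r p a) : bd k n f ∈ Ch k n r p b := by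
  classical
  intro t ht
  simp only [bd, LinearMap.coe_mk, AddHom.coe_mk] at ht
  split_ifs at ht with hne
  · obtain ⟨v, hv, hv'⟩ := exists_ne_zero_of_sum_ne_zero ht
    have h1 : f (insert v t) ≠ 0 := right_ne_zero_of_mul hv'
    obtain ⟨h2, h3, h4⟩ := hf _ h1
    refine ⟨⟨hne, fun u hu w hw => h2.2 u (mem_insert_of_mem hu) w (mem_insert_of_mem hw)⟩, ?_, ?_⟩
    · refine le_trans ?_ h3
      exact_mod_cast cubicDim_mono (subset_insert v t)
    · rw [card_insert_of_notMem (mem_compl.1 hv)] at h4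
      push_cast at h4
      linarith
  · exact absurd rfl ht

section Signs

variable {k : Type*} [Field k] {n : ℕ}

theorem sgn_sq (v : V n) (s : Finset (V n)) : sgn k v s * sgn k v s = 1 := by
  unfold sgn
  rw [← pow_add, ← two_mul]
  exact Even.neg_one_pow (even_two_mul _)

/-- Inserting a preceding vertex changes the sign. -/
theorem sgn_insert_lt {u v : V n} {s : Finset (V n)} (hu : u ∉ s) (huv : toLex u < toLex v) :
    sgn k v (insert u s) = - sgn k v s := by
  classical
  unfold sgn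
  rw [filter_insert, if_pos huv, card_insert_of_notMem, pow_succ]
  · ring
  · simp [hu]

theorem sgn_insert_not_lt {u v : V n} {s : Finset (V n)} (huv : ¬ toLex u < toLex v) :
    sgn k v (insert u s) = sgn k v s := by
  classical
  unfold sgn
  rw [filter_insert, if_neg huv]

/-- The sign rule for two different vertices outside `s`. -/
theorem sgn_swap {u v : V n} {s : Finset (V n)} (hu : u ∉ s) (hv : v ∉ s) (huv : u ≠ v) :
    sgn k v s * sgn k u (insert v s) = - (sgn k u s * sgn k v (insert u s)) := by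
  rcases lt_trichotomy (toLex u) (toLex v) with h | h | h
  · rw [sgn_insert_lt hu h, sgn_insert_not_lt (not_lt.2 h.le)]
    ring
  · exact absurd (toLex.injective h) huv
  · rw [sgn_insert_lt hv h, sgn_insert_not_lt (not_lt.2 h.le)]
    ring

end Signs

/-- `∂ ∘ ∂ = 0`. -/
theorem bd_bd {k : Type*} [Field k] {n : ℕ} (f : Finset (V n) → k) : bd k n (bd k n f) = 0 := by
  classical
  funext t
  simp only [bd, LinearMap.coe_mk, AddHom.coe_mk, Pi.zero_apply]
  split_ifs with hne
  · have h1 : ∀ v, (insert v t).Nonempty := fun v => insert_nonempty v t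
    simp only [h1, if_true, mul_sum]
    rw [sum_sigma']
    refine sum_involution (fun x _ => ⟨x.2, x.1⟩) ?_ ?_ ?_ ?_
    · rintro ⟨x, i⟩ hx
      simp only [mem_sigma, mem_compl, mem_insert, not_or] at hx
      obtain ⟨hx, hix, hi⟩ := hx
      have h := sgn_swap (k := k) hx hi (Ne.symm hix)
      simp only
      rw [Finset.insert_comm x i t, ← mul_assoc, ← mul_assoc, ← add_mul]
      have h2 : sgn k x t * sgn k i (insert x t) + sgn k i t * sgn k x (insert i t) = 0 := by
        have := sgn_swap (k := k) hi hx hix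
        rw [this]
        ring
      rw [h2, zero_mul]
    · rintro ⟨x, i⟩ hx _ h
      simp only [mem_sigma, mem_compl, mem_insert, not_or] at hx
      obtain ⟨hx, hix, hi⟩ := hx
      simp only [Sigma.mk.injEq] at h
      exact hix h.1
    · rintro ⟨x, i⟩ hx
      simp only [mem_sigma, mem_compl, mem_insert, not_or] at hx ⊢
      exact ⟨hx.2.2, Ne.symm hx.2.1, hx.1⟩
    · rintro ⟨x, i⟩ hx
      rfl
  · rfl

/-! ### The pages `E^0` and `E^1` -/

/-- `C_m(X_{p-1})` as a subspace of `C_m(X_p)`. -/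
def sub0 (k : Type*) [Field k] (n r : ℕ) (p m : ℤ) : Submodule k (Ch k n r p m) :=
  (Ch k n r (p - 1) m).submoduleOf (Ch k n r p m)

theorem mem_sub0 {k : Type*} [Field k] {n r : ℕ} {p m : ℤ} {f : Ch k n r p m} :
    f ∈ sub0 k n r p m ↔ (f : Finset (V n) → k) ∈ Ch k n r (p - 1) m := Iff.rfl

/-- `E^0_{p,q}`, written with the total degree `m = p + q`: the quotient
`C_m(X_p) / C_m(X_{p-1})`. -/
def E0 (k : Type*) [Field k] (n r : ℕ) (p m : ℤ) : Type _ := Ch k n r p m ⧸ sub0 k n r p m

noncomputable instance (k : Type*) [Field k] (n r : ℕ) (p m : ℤ) : AddCommGroup (E0 k n r p m) :=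
  Submodule.Quotient.addCommGroup (sub0 k n r p m)

noncomputable instance (k : Type*) [Field k] (n r : ℕ) (p m : ℤ) : Module k (E0 k n r p m) :=
  Submodule.Quotient.module (sub0 k n r p m)

/-- The boundary operator as a map `C_a(X_p) → C_b(X_p)`, `b = a - 1`. -/
noncomputable def bdCh (k : Type*) [Field k] (n r : ℕ) (p : ℤ) {a b : ℤ} (h : a = b + 1) :
    Ch k n r p a →ₗ[k] Ch k n r p b :=
  (bd k n).restrict fun _ hf => bd_mem h hf

theorem sub0_le_comap (k : Type*) [Field k] (n r : ℕ) (p : ℤ) {a b : ℤ} (h : a = b + 1) :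
    sub0 k n r p a ≤ (sub0 k n r p b).comap (bdCh k n r p h) := by
  intro x hx
  rw [Submodule.mem_comap, mem_sub0]
  exact bd_mem h hx

/-- The differential `d^0` of `E^0` from total degree `a` to total degree `b = a - 1`, induced by
the simplicial boundary operator. -/
noncomputable def d0 (k : Type*) [Field k] (n r : ℕ) (p : ℤ) {a b : ℤ} (h : a = b + 1) :
    E0 k n r p a →ₗ[k] E0 k n r p b :=
  (sub0 k n r p a).mapQ (sub0 k n r p b) (bdCh k n r p h) (sub0_le_comap k n r p h)

/-- The class of a chain in `E^0`. -/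
noncomputable def cls (k : Type*) [Field k] (n r : ℕ) (p m : ℤ) :
    Ch k n r p m →ₗ[k] E0 k n r p m := (sub0 k n r p m).mkQ

theorem cls_surjective (k : Type*) [Field k] (n r : ℕ) (p m : ℤ) :
    Function.Surjective (cls k n r p m) := Submodule.mkQ_surjective _

theorem d0_cls (k : Type*) [Field k] (n r : ℕ) (p : ℤ) {a b : ℤ} (h : a = b + 1)
    (f : Ch k n r p a) : d0 k n r p h (cls k n r p a f) = cls k n r p b (bdCh k n r p h f) := rfl

theorem cls_eq_zero {k : Type*} [Field k] {n r : ℕ} {p m : ℤ} {f : Ch k n r p m} :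
    cls k n r p m f = 0 ↔ (f : Finset (V n) → k) ∈ Ch k n r (p - 1) m :=
  Submodule.Quotient.mk_eq_zero (sub0 k n r p m)

theorem d0_d0 (k : Type*) [Field k] (n r : ℕ) (p : ℤ) {a b c : ℤ} (h : a = b + 1)
    (h' : b = c + 1) (x : E0 k n r p a) : d0 k n r p h' (d0 k n r p h x) = 0 := by
  obtain ⟨f, rfl⟩ := cls_surjective k n r p a x
  rw [d0_cls, d0_cls, cls_eq_zero]
  change bd k n (bd k n (f : Finset (V n) → k)) ∈ _
  rw [bd_bd]
  exact zero_mem _

/-- The cycles of `d^0` in `E^0_{p,q}`. -/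
noncomputable def Z0 (k : Type*) [Field k] (n r : ℕ) (p q : ℤ) :
    Submodule k (E0 k n r p (p + q)) :=
  LinearMap.ker (d0 k n r p (show p + q = (p + q - 1) + 1 by ring))

/-- The boundaries of `d^0` in `E^0_{p,q}`: the image of `d^0` from `E^0_{p,q+1}`. -/
noncomputable def B0 (k : Type*) [Field k] (n r : ℕ) (p q : ℤ) :
    Submodule k (E0 k n r p (p + q)) :=
  LinearMap.range (d0 k n r p (show p + (q + 1) = (p + q) + 1 by ring))

theorem B0_le_Z0 (k : Type*) [Field k] (n r : ℕ) (p q : ℤ) : B0 k n r p q ≤ Z0 k n r p q := by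
  rintro x ⟨y, rfl⟩
  exact d0_d0 k n r p _ _ y

/-- `E^1_{p,q}(n,r) = H_{p+q}(E^0_{p,•})`: the kernel of `d^0` on `E^0_{p,q}` modulo the image of
`d^0` from `E^0_{p,q+1}`. -/
def E1 (k : Type*) [Field k] (n r : ℕ) (p q : ℤ) : Type _ :=
  Z0 k n r p q ⧸ (B0 k n r p q).submoduleOf (Z0 k n r p q)

/-! ### All pages of the spectral sequence -/

/-- `Z^i_{p,q}`, with the total degree `m = p + q`: the chains `x ∈ C_m(X_p)` with
`∂x ∈ C_{m-1}(X_{p-i})`. -/
noncomputable def Zi (k : Type*) [Field k] (n r : ℕ) (i p m : ℤ) :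
    Submodule k (Finset (V n) → k) :=
  Ch k n r p m ⊓ (Ch k n r (p - i) (m - 1)).comap (bd k n)

/-- The submodule `Z^{i-1}_{p-1,q+1} + ∂ Z^{i-1}_{p+i-1,q-i+2}`, with the total degree
`m = p + q`. -/
noncomputable def Bi (k : Type*) [Field k] (n r : ℕ) (i p m : ℤ) :
    Submodule k (Finset (V n) → k) :=
  Zi k n r (i - 1) (p - 1) m ⊔ (Zi k n r (i - 1) (p + i - 1) (m + 1)).map (bd k n)

theorem Ch_mono {k : Type*} [Field k] {n r : ℕ} {p p' m : ℤ} (h : p ≤ p') :
    Ch k n r p m ≤ Ch k n r p' m := fun _ hf s hs =>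
  ⟨(hf s hs).1, (hf s hs).2.1.trans h, (hf s hs).2.2⟩

theorem mem_Zi {k : Type*} [Field k] {n r : ℕ} {i p m : ℤ} {f : Finset (V n) → k} :
    f ∈ Zi k n r i p m ↔ f ∈ Ch k n r p m ∧ bd k n f ∈ Ch k n r (p - i) (m - 1) := Iff.rfl

theorem Bi_le_Zi {k : Type*} [Field k] {n r : ℕ} {i p m : ℤ} :
    Bi k n r i p m ≤ Zi k n r i p m := by
  apply sup_le
  · intro f hf
    rw [mem_Zi] at hf ⊢
    exact ⟨Ch_mono (by omega) hf.1, Ch_mono (by omega) hf.2⟩
  · rw [Submodule.map_le_iff_le_comap]
    intro f hf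
    rw [mem_Zi] at hf
    rw [Submodule.mem_comap, mem_Zi, bd_bd]
    refine ⟨?_, zero_mem _⟩
    have h := hf.2
    rw [show p + i - 1 - (i - 1) = p by ring, show m + 1 - 1 = m by ring] at h
    exact h

theorem bd_mem_Zi {k : Type*} [Field k] {n r : ℕ} {i p m p' m' : ℤ} (hp : p' = p - i)
    (hm : m' = m - 1) {f : Finset (V n) → k} (hf : f ∈ Zi k n r i p m) :
    bd k n f ∈ Zi k n r i p' m' := by
  subst hp hm
  rw [mem_Zi] at hf ⊢
  rw [bd_bd]
  exact ⟨hf.2, zero_mem _⟩

theorem bd_mem_Bi {k : Type*} [Field k] {n r : ℕ} {i p m p' m' : ℤ} (hp : p' = p - i)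
    (hm : m' = m - 1) {f : Finset (V n) → k} (hf : f ∈ Bi k n r i p m) :
    bd k n f ∈ Bi k n r i p' m' := by
  subst hp hm
  rw [Bi, Submodule.mem_sup] at hf
  obtain ⟨x, hx, y, hy, rfl⟩ := hf
  obtain ⟨z, hz, rfl⟩ := hy
  rw [map_add, bd_bd, add_zero]
  apply Submodule.mem_sup_right
  refine ⟨x, ?_, rfl⟩
  rw [show p - i + i - 1 = p - 1 by ring, show m - 1 + 1 = m by ring]
  exact hx

/-- The submodule `Z^{i-1}_{p-1,q+1} + ∂ Z^{i-1}_{p+i-1,q-i+2}` of `Z^i_{p,q}`. -/
noncomputable def subPage (k : Type*) [Field k] (n r : ℕ) (i p q : ℤ) :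
    Submodule k (Zi k n r i p (p + q)) :=
  (Bi k n r i p (p + q)).submoduleOf (Zi k n r i p (p + q))

theorem mem_subPage {k : Type*} [Field k] {n r : ℕ} {i p q : ℤ} {f : Zi k n r i p (p + q)} :
    f ∈ subPage k n r i p q ↔ (f : Finset (V n) → k) ∈ Bi k n r i p (p + q) := Iff.rfl

/-- The page `E^i_{p,q} = Z^i_{p,q} / (Z^{i-1}_{p-1,q+1} + ∂ Z^{i-1}_{p+i-1,q-i+2})` of the
homology spectral sequence of the filtered complex. -/
def Page (k : Type*) [Field k] (n r : ℕ) (i p q : ℤ) : Type _ :=
  Zi k n r i p (p + q) ⧸ subPage k n r i p q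

noncomputable instance (k : Type*) [Field k] (n r : ℕ) (i p q : ℤ) :
    AddCommGroup (Page k n r i p q) :=
  Submodule.Quotient.addCommGroup (subPage k n r i p q)

noncomputable instance (k : Type*) [Field k] (n r : ℕ) (i p q : ℤ) :
    Module k (Page k n r i p q) :=
  Submodule.Quotient.module (subPage k n r i p q)

/-- The boundary operator as a map `Z^i_{p,q} → Z^i_{p-i,q+i-1}`. -/
noncomputable def bdZi (k : Type*) [Field k] (n r : ℕ) (i p q : ℤ) :
    Zi k n r i p (p + q) →ₗ[k] Zi k n r i (p - i) (p - i + (q + i - 1)) :=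
  (bd k n).restrict fun _ hf => bd_mem_Zi rfl (by ring) hf

theorem subPage_le_comap (k : Type*) [Field k] (n r : ℕ) (i p q : ℤ) :
    subPage k n r i p q ≤ (subPage k n r i (p - i) (q + i - 1)).comap (bdZi k n r i p q) := by
  intro x hx
  rw [Submodule.mem_comap, mem_subPage]
  exact bd_mem_Bi rfl (by ring) hx

/-- The differential `d^i : E^i_{p,q} → E^i_{p-i,q+i-1}`, induced by the simplicial boundary
operator. -/
noncomputable def dPage (k : Type*) [Field k] (n r : ℕ) (i p q : ℤ) :
    Page k n r i p q →ₗ[k] Page k n r i (p - i) (q + i - 1) :=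
  (subPage k n r i p q).mapQ (subPage k n r i (p - i) (q + i - 1)) (bdZi k n r i p q)
    (subPage_le_comap k n r i p q)

end Pool.Agent.R796.SS
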