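import Mathlib
import Pool.Agent.R796.SSDefs

/-!
# Vanishing of the late columns of the cubic dimension spectral sequence
-/

set_option autoImplicit false

namespace Pool.Agent.R796.SS

open Finset

variable {n : ℕ}

open Classical in
/-- The closure of a set of vertices: all `z` which on every set of at most `m` coordinates agree
with some element of the set. -/
noncomputable def cl (m : ℕ) (s : Finset (V n)) : Finset (V n) :=
  univ.filter fun z => ∀ H : Finset (Fin n), H.card ≤ m → ∃ A ∈ s, ∀ h ∈ H, A h = z h

theorem mem_cl {m : ℕ} {s : Finset (V n)} {z : V n} :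
    z ∈ cl m s ↔ ∀ H : Finset (Fin n), H.card ≤ m → ∃ A ∈ s, ∀ h ∈ H, A h = z h := by
  simp [cl]

theorem subset_cl (m : ℕ) (s : Finset (V n)) : s ⊆ cl m s :=
  fun z hz => mem_cl.2 fun _ _ => ⟨z, hz, fun _ _ => rfl⟩

theorem cl_mono (m : ℕ) {s t : Finset (V n)} (h : s ⊆ t) : cl m s ⊆ cl m t := by
  intro z hz
  rw [mem_cl] at hz ⊢
  intro H hH
  obtain ⟨A, hA, hA'⟩ := hz H hH
  exact ⟨A, h hA, hA'⟩

theorem cl_cl (m : ℕ) (s : Finset (V n)) : cl m (cl m s) = cl m s := by
  apply Subset.antisymm _ (subset_cl _ _)
  intro z hz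
  rw [mem_cl] at hz ⊢
  intro H hH
  obtain ⟨A, hA, hA'⟩ := hz H hH
  obtain ⟨B, hB, hB'⟩ := mem_cl.1 hA H hH
  exact ⟨B, hB, fun h hh => (hB' h hh).trans (hA' h hh)⟩

theorem cl_subset_of_subset_cl {m : ℕ} {s t : Finset (V n)} (h : s ⊆ cl m t) :
    cl m s ⊆ cl m t := by
  have := cl_mono m h
  rwa [cl_cl] at this

theorem nonempty_of_mem_cl {m : ℕ} {s : Finset (V n)} {z : V n} (h : z ∈ cl m s) :
    s.Nonempty := by
  obtain ⟨A, hA, _⟩ := mem_cl.1 h ∅ (by simp)
  exact ⟨A, hA⟩

/-- The closure does not increase the diameter. -/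
theorem dist_le_of_mem_cl {r : ℕ} {s : Finset (V n)}
    (hs : ∀ u ∈ s, ∀ v ∈ s, hammingDist u v ≤ r) :
    ∀ u ∈ cl (r + 1) s, ∀ v ∈ cl (r + 1) s, hammingDist u v ≤ r := by
  intro u hu v hv
  by_contra hcon
  push Not at hcon
  obtain ⟨H, hH, hHc⟩ := exists_subset_card_eq (s := univ.filter fun i => u i ≠ v i)
    (n := r + 1) (by simpa [hammingDist] using hcon)
  obtain ⟨A, hA, hA'⟩ := mem_cl.1 hu H (by omega)
  obtain ⟨B, hB, hB'⟩ := mem_cl.1 hv H (by omega)
  have h1 := hs A hA B hB
  have h2 : H ⊆ univ.filter fun i => A i ≠ B i := by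
    intro h hh
    have := hH hh
    simp only [mem_filter, mem_univ, true_and] at this ⊢
    rwa [hA' h hh, hB' h hh]
  have h3 := card_le_card h2
  rw [hHc] at h3
  unfold hammingDist at h1
  omega

/-- The closure does not change the nonconstant coordinates. -/
theorem cubicDim_cl {m : ℕ} (hm : 1 ≤ m) (s : Finset (V n)) : cubicDim (cl m s) = cubicDim s := by
  apply le_antisymm _ (cubicDim_mono (subset_cl m s))
  apply Set.ncard_le_ncard _ (Set.toFinite _)
  rintro j ⟨u, hu, v, hv, huv⟩
  obtain ⟨A, hA, hA'⟩ := mem_cl.1 hu {j} (by simpa using hm)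
  obtain ⟨B, hB, hB'⟩ := mem_cl.1 hv {j} (by simpa using hm)
  refine ⟨A, hA, B, hB, ?_⟩
  rwa [hA' j (by simp), hB' j (by simp)]

open Classical in
/-- The extreme vertices of a closed set. -/
noncomputable def ex (m : ℕ) (F : Finset (V n)) : Finset (V n) :=
  F.filter fun z => z ∉ cl m (F.erase z)

theorem mem_ex {m : ℕ} {F : Finset (V n)} {z : V n} :
    z ∈ ex m F ↔ z ∈ F ∧ z ∉ cl m (F.erase z) := by
  simp [ex]

theorem ex_subset_self (m : ℕ) (F : Finset (V n)) : ex m F ⊆ F := fun _ h => (mem_ex.1 h).1

theorem ex_subset {m : ℕ} {s : Finset (V n)} : ex m (cl m s) ⊆ s := by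
  intro z hz
  obtain ⟨hz, hz'⟩ := mem_ex.1 hz
  by_contra hzs
  apply hz'
  apply cl_mono m _ hz
  intro y hy
  exact mem_erase.2 ⟨fun h => hzs (h ▸ hy), subset_cl _ _ hy⟩

/-- The set of coordinates on which two vertices differ. -/
def df (u v : V n) : Finset (Fin n) := univ.filter fun i => u i ≠ v i

theorem mem_df {u v : V n} {i : Fin n} : i ∈ df u v ↔ u i ≠ v i := by simp [df]

theorem card_df (u v : V n) : (df u v).card = hammingDist u v := rfl

/-- Every element of `F` is dominated, seen from `y`, by an extreme vertex. -/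
theorem exists_ex {r m : ℕ} (hrm : r ≤ m) {F : Finset (V n)}
    (hF : ∀ u ∈ F, ∀ v ∈ F, hammingDist u v ≤ r) {y A : V n} (hy : y ∈ F) (hA : A ∈ F) :
    ∃ B ∈ ex m F, df A y ⊆ df B y := by
  classical
  obtain ⟨B, hB, hmax⟩ := exists_max_image (F.filter fun B => df A y ⊆ df B y)
    (fun B => (df B y).card) ⟨A, by simp [hA]⟩
  simp only [mem_filter] at hB hmax
  refine ⟨B, mem_ex.2 ⟨hB.1, ?_⟩, hB.2⟩
  intro hcl
  obtain ⟨C, hC, hC'⟩ := mem_cl.1 hcl (df B y) (by rw [card_df]; exact (hF B hB.1 y hy).trans hrm)
  obtain ⟨hCB, hCF⟩ := mem_erase.1 hC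
  have h1 : df B y ⊆ df C y := by
    intro h hh
    rw [mem_df, hC' h hh]
    exact mem_df.1 hh
  have h2 := hmax C ⟨hCF, hB.2.trans h1⟩
  have h3 : df B y = df C y := eq_of_subset_of_card_le h1 h2
  apply hCB
  funext j
  by_cases hj : j ∈ df B y
  · exact hC' j hj
  · have h4 := hj
    rw [h3] at h4
    rw [mem_df, not_not] at hj h4
    rw [hj, h4]

/-- The recursive bound. -/
def gg (m : ℕ) : ℕ → ℕ
  | 0 => 0
  | b + 1 => m * (1 + gg m b)

/-- The main counting lemma. -/
theorem card_le_of_forall {m : ℕ} {E : Finset (V n)}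
    (hE : ∀ c : V n, c ∉ cl m (E.erase c)) (b : ℕ) :
    ∀ c : V n, ∃ D : Finset (Fin n), D.card ≤ gg m b ∧
      ∀ A ∈ E, (df A c).card ≤ b → df A c ⊆ D := by
  classical
  induction b with
  | zero =>
    intro c
    refine ⟨∅, by simp, fun A _ h => ?_⟩
    rw [Nat.le_zero, card_eq_zero] at h
    rw [h]
  | succ b ih =>
    intro c
    choose D hD hD' using ih
    have h1 := hE c
    rw [mem_cl] at h1
    push Not at h1
    obtain ⟨H, hH, hH'⟩ := h1
    refine ⟨H.biUnion fun h => insert h (D (Function.update c h (!(c h)))), ?_, ?_⟩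
    · refine (card_biUnion_le_card_mul _ _ (1 + gg m b) ?_).trans ?_
      · intro h _
        refine (card_insert_le _ _).trans ?_
        have := hD (Function.update c h (!(c h)))
        omega
      · exact Nat.mul_le_mul_right _ hH
    · intro A hA hAb
      by_cases hAc : A = c
      · subst hAc
        intro j hj
        exact absurd rfl (mem_df.1 hj)
      · obtain ⟨h, hh, hAh⟩ := hH' A (mem_erase.2 ⟨hAc, hA⟩)
        have h2 : df A (Function.update c h (!(c h))) = (df A c).erase h := by
          ext j
          rw [mem_erase, mem_df, mem_df]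
          by_cases hj : j = h
          · subst hj
            simp only [Function.update_self, ne_eq, not_true_eq_false, false_and, iff_false,
              not_not]
            revert hAh
            cases A j <;> cases c j <;> simp
          · simp [hj]
        have h3 := hD' (Function.update c h (!(c h))) A hA (by
          rw [h2, card_erase_of_mem (mem_df.2 hAh)]
          omega)
        intro j hj
        rw [mem_biUnion]
        refine ⟨h, hh, ?_⟩
        rw [mem_insert]
        by_cases hj' : j = h
        · exact Or.inl hj'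
        · right
          apply h3
          rw [h2]
          exact mem_erase.2 ⟨hj', hj⟩

/-- The explicit bound `s(r) = ∑_{i=1}^r (r+1)^i`. -/
def sBound (r : ℕ) : ℕ := ∑ i ∈ Icc 1 r, (r + 1) ^ i

theorem sum_pow_succ (m b : ℕ) :
    ∑ i ∈ Icc 1 (b + 1), m ^ i = m * (1 + ∑ i ∈ Icc 1 b, m ^ i) := by
  induction b with
  | zero => simp
  | succ b ih =>
    have h : ∑ i ∈ Icc 1 (b + 1), m ^ i = ∑ i ∈ Icc 1 b, m ^ i + m ^ (b + 1) :=
      Finset.sum_Icc_succ_top (by omega) _
    have h2 : ∑ i ∈ Icc 1 (b + 1 + 1), m ^ i = ∑ i ∈ Icc 1 (b + 1), m ^ i + m ^ (b + 1 + 1) :=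
      Finset.sum_Icc_succ_top (by omega) _
    rw [h2]
    nth_rewrite 2 [h]
    rw [ih]
    ring

theorem gg_eq (m b : ℕ) : gg m b = ∑ i ∈ Icc 1 b, m ^ i := by
  induction b with
  | zero => simp [gg]
  | succ b ih => rw [gg, ih, sum_pow_succ]

/-- A closed set of cubic dimension larger than `s(r)` has a redundant toggling vertex. -/
theorem exists_toggle {r : ℕ} {F : Finset (V n)}
    (hF : ∀ u ∈ F, ∀ v ∈ F, hammingDist u v ≤ r) (hdim : sBound r < cubicDim F) :
    ∃ c : V n, c ∈ cl (r + 1) ((ex (r + 1) F).erase c) := by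
  classical
  by_contra hcon
  push Not at hcon
  have hne : ∃ y, y ∈ F := by
    by_contra h
    push Not at h
    have h0 : {j : Fin n | ∃ u ∈ F, ∃ v ∈ F, u j ≠ v j} = ∅ := by
      ext j
      simp [h]
    unfold cubicDim at hdim
    rw [h0] at hdim
    simp at hdim
  obtain ⟨y, hy⟩ := hne
  obtain ⟨D, hD, hD'⟩ := card_le_of_forall hcon r y
  rw [gg_eq] at hD
  have h1 : {j : Fin n | ∃ u ∈ F, ∃ v ∈ F, u j ≠ v j} ⊆ (D : Set (Fin n)) := by
    rintro j ⟨u, hu, v, hv, huv⟩
    obtain ⟨A, hA, hAj⟩ : ∃ A ∈ F, j ∈ df A y := by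
      by_cases h : u j = y j
      · exact ⟨v, hv, mem_df.2 fun h' => huv (h.trans h'.symm)⟩
      · exact ⟨u, hu, mem_df.2 h⟩
    obtain ⟨B, hB, hAB⟩ := exists_ex (Nat.le_succ r) hF hy hA
    exact hD' B hB (by rw [card_df]; exact hF B (ex_subset_self _ _ hB) y hy) (hAB hAj)
  have h2 := Set.ncard_le_ncard h1 (Set.toFinite _)
  rw [Set.ncard_coe_finset] at h2
  unfold cubicDim sBound at hdim
  omega

/-- The choice of the toggling vertex. -/
theorem exists_choice (n r : ℕ) : ∃ c : Finset (V n) → V n, ∀ F : Finset (V n),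
    (∀ u ∈ F, ∀ v ∈ F, hammingDist u v ≤ r) → sBound r < cubicDim F →
      c F ∈ cl (r + 1) ((ex (r + 1) F).erase (c F)) := by
  classical
  refine ⟨fun F => if h : ∃ c : V n, c ∈ cl (r + 1) ((ex (r + 1) F).erase c) then h.choose
    else fun _ => false, fun F h1 h2 => ?_⟩
  have h3 := exists_toggle h1 h2
  simp only [h3, dif_pos]
  exact h3.choose_spec

theorem cl_insert_toggle {m : ℕ} {s : Finset (V n)} {c : V n}
    (hc : c ∈ cl m ((ex m (cl m s)).erase c)) : cl m (insert c s) = cl m s := by
  classical
  apply Subset.antisymm _ (cl_mono m (subset_insert c s))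
  apply cl_subset_of_subset_cl
  intro z hz
  rcases mem_insert.1 hz with rfl | hz
  · have h1 : (ex m (cl m s)).erase z ⊆ cl m s := (erase_subset _ _).trans (ex_subset_self _ _)
    have h2 := cl_mono m h1 hc
    rwa [cl_cl] at h2
  · exact subset_cl _ _ hz

theorem cl_erase_toggle {m : ℕ} {s : Finset (V n)} {c : V n}
    (hc : c ∈ cl m ((ex m (cl m s)).erase c)) : cl m (s.erase c) = cl m s := by
  classical
  apply Subset.antisymm (cl_mono m (erase_subset c s))
  have h1 : c ∈ cl m (s.erase c) := cl_mono m (erase_subset_erase c ex_subset) hc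
  apply cl_subset_of_subset_cl
  intro z hz
  by_cases hzc : z = c
  · exact hzc ▸ h1
  · exact subset_cl _ _ (mem_erase.2 ⟨hzc, hz⟩)

section Chains

variable {k : Type*} [Field k] {r : ℕ}

theorem sgn_swap' {u v : V n} {s : Finset (V n)} (hu : u ∉ s) (hv : v ∉ s) (huv : u ≠ v) :
    sgn k v (insert u s) * sgn k u (insert v s) = - (sgn k u s * sgn k v s) := by
  rcases lt_trichotomy (toLex u) (toLex v) with h | h | h
  · rw [sgn_insert_lt hu h, sgn_insert_not_lt (not_lt.2 h.le)]
    ring
  · exact absurd (toLex.injective h) huv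
  · rw [sgn_insert_lt hv h, sgn_insert_not_lt (not_lt.2 h.le)]
    ring

theorem bd_apply (f : Finset (V n) → k) {t : Finset (V n)} (ht : t.Nonempty) :
    bd k n f t = ∑ v ∈ tᶜ, sgn k v t * f (insert v t) := by
  simp [bd, ht]

/-- The elementary form of the vanishing: every relative cycle of a late column is a relative
boundary. -/
theorem relative (p : ℕ) (hp : sBound r < p) (a b : ℤ) (hab : a = b + 1) (j : ℕ) :
    ∀ f : Finset (V n) → k, f ∈ Ch k n r p a → bd k n f ∈ Ch k n r (p - 1) b →
      (∀ s, f s ≠ 0 → cubicDim s = p → (cl (r + 1) s).card ≤ j) →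
      ∃ w ∈ Ch k n r p (a + 1), f - bd k n w ∈ Ch k n r (p - 1) a := by
  classical
  obtain ⟨c, hc⟩ := exists_choice n r
  induction j with
  | zero =>
    intro f hf _ h0
    refine ⟨0, zero_mem _, ?_⟩
    rw [map_zero, sub_zero]
    intro s hs
    obtain ⟨h1, h2, h3⟩ := hf s hs
    refine ⟨h1, ?_, h3⟩
    by_contra hcon
    have h4 : cubicDim s = p := by omega
    have h5 := h0 s hs h4
    have h6 := card_le_card (subset_cl (r + 1) s)
    have h7 := h1.1.card_pos
    omega
  | succ j ih =>
    intro f hf hbf hj
    -- the toggling chain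
    obtain ⟨w, hw⟩ : ∃ w : Finset (V n) → k, ∀ s, w s =
        if (∀ u ∈ s, ∀ v ∈ s, hammingDist u v ≤ r) ∧ cubicDim s = p ∧
          (cl (r + 1) s).card = j + 1 ∧ c (cl (r + 1) s) ∈ s then
          sgn k (c (cl (r + 1) s)) (s.erase (c (cl (r + 1) s))) *
            f (s.erase (c (cl (r + 1) s))) else 0 := ⟨_, fun s => rfl⟩
    -- facts on simplices of cubic dimension `p`
    have htog : ∀ s : Finset (V n), (∀ u ∈ s, ∀ v ∈ s, hammingDist u v ≤ r) → cubicDim s = p →
        c (cl (r + 1) s) ∈ cl (r + 1) ((ex (r + 1) (cl (r + 1) s)).erase (c (cl (r + 1) s))) := by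
      intro s hs hsp
      apply hc _ (dist_le_of_mem_cl hs)
      rw [cubicDim_cl (by omega), hsp]
      exact hp
    have hdim : ∀ s t : Finset (V n), cl (r + 1) s = cl (r + 1) t → cubicDim s = cubicDim t := by
      intro s t h
      rw [← cubicDim_cl (m := r + 1) (by omega) s, h, cubicDim_cl (by omega)]
    have hdiam : ∀ s t : Finset (V n), cl (r + 1) s = cl (r + 1) t →
        (∀ u ∈ t, ∀ v ∈ t, hammingDist u v ≤ r) → ∀ u ∈ s, ∀ v ∈ s, hammingDist u v ≤ r := by
      intro s t h ht u hu v hv
      exact dist_le_of_mem_cl ht u (h ▸ subset_cl _ s hu) v (h ▸ subset_cl _ s hv)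
    have hwCh : w ∈ Ch k n r p (a + 1) := by
      intro s hs
      rw [hw] at hs
      split_ifs at hs with hcond
      · obtain ⟨h1, h2, h3, h4⟩ := hcond
        have h5 := (hf _ (right_ne_zero_of_mul hs)).2.2
        refine ⟨⟨⟨_, h4⟩, h1⟩, by omega, ?_⟩
        rw [card_erase_of_mem h4] at h5
        have := card_pos.2 ⟨_, h4⟩
        omega
      · exact absurd rfl hs
    have hf' : f - bd k n w ∈ Ch k n r p a := sub_mem hf (bd_mem rfl hwCh)
    have hbf' : bd k n (f - bd k n w) ∈ Ch k n r (p - 1) b := by
      rw [map_sub, bd_bd, sub_zero]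
      exact hbf
    have hj' : ∀ s, (f - bd k n w) s ≠ 0 → cubicDim s = p → (cl (r + 1) s).card ≤ j := by
      intro s hs hsp
      by_contra hcon
      push Not at hcon
      apply hs
      have hsimp := (hf' s hs).1
      rw [Pi.sub_apply, bd_apply w hsimp.1, sub_eq_zero]
      by_cases hcard : (cl (r + 1) s).card = j + 1
      · have hc0 := htog s hsimp.2 hsp
        obtain ⟨c0, hc0'⟩ : ∃ c0, c0 = c (cl (r + 1) s) := ⟨_, rfl⟩
        rw [← hc0'] at hc0
        have hA : ∀ v, w (insert v s) ≠ 0 → cl (r + 1) (insert v s) = cl (r + 1) s := by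
          intro v hv
          rw [hw] at hv
          split_ifs at hv with hcond
          · exact (eq_of_subset_of_card_le (cl_mono _ (subset_insert v s)) (by omega)).symm
          · exact absurd rfl hv
        by_cases hcs : c0 ∈ s
        · -- the vertex is in the simplex
          obtain ⟨s', hs'⟩ : ∃ s', s' = s.erase c0 := ⟨_, rfl⟩
          have hcs' : c0 ∉ s' := by rw [hs']; exact notMem_erase _ _
          have hins : insert c0 s' = s := by rw [hs']; exact insert_erase hcs
          have hcl' : cl (r + 1) s' = cl (r + 1) s := by rw [hs']; exact cl_erase_toggle hc0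
          have hp' : cubicDim s' = p := (hdim _ _ hcl').trans hsp
          have hne' : s'.Nonempty := by
            obtain ⟨y, hy⟩ := hsimp.1
            exact nonempty_of_mem_cl (hcl' ▸ subset_cl _ s hy)
          have hcyc : bd k n f s' = 0 := by
            by_contra h
            have := (hbf s' h).2.1
            omega
          rw [bd_apply f hne'] at hcyc
          have hcompl : s'ᶜ = insert c0 sᶜ := by
            rw [← hins]
            ext z
            simp only [mem_compl, mem_insert]
            by_cases hz : z = c0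
            · simp [hz, hcs']
            · simp [hz]
          rw [hcompl, sum_insert (by simp [hcs]), hins] at hcyc
          have hB : ∀ v ∈ sᶜ, w (insert v s) = sgn k c0 (insert v s') * f (insert v s') := by
            intro v hv
            rw [mem_compl] at hv
            have hvc : v ≠ c0 := fun h => hv (h ▸ hcs)
            have hcomm : insert v s = insert c0 (insert v s') := by
              rw [← hins, insert_comm]
            have her : (insert v s).erase c0 = insert v s' := by
              rw [hcomm, erase_insert]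
              rw [mem_insert, not_or]
              exact ⟨Ne.symm hvc, hcs'⟩
            rw [hw]
            split_ifs with hcond
            · have h1 : cl (r + 1) (insert v s) = cl (r + 1) s :=
                (eq_of_subset_of_card_le (cl_mono _ (subset_insert v s)) (by omega)).symm
              rw [h1, ← hc0', her]
            · by_contra hne
              have hfne := right_ne_zero_of_mul (Ne.symm hne)
              obtain ⟨h1, h2, h3⟩ := hf _ hfne
              have h4 : cubicDim (insert v s') = p := by
                have := cubicDim_mono (subset_insert v s')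
                omega
              have h5 := hj _ hfne h4
              have h6 : cl (r + 1) (insert v s') = cl (r + 1) s := by
                symm
                apply eq_of_subset_of_card_le
                · rw [← hcl']
                  exact cl_mono _ (subset_insert v s')
                · omega
              have h7 : cl (r + 1) (insert v s) = cl (r + 1) s := by
                rw [hcomm, cl_insert_toggle (by rw [h6]; exact hc0), h6]
              apply hcond
              refine ⟨hdiam _ _ h7 hsimp.2, (hdim _ _ h7).trans hsp, by rw [h7, hcard], ?_⟩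
              rw [h7, ← hc0']
              exact mem_insert_of_mem hcs
          have hsum : ∑ v ∈ sᶜ, sgn k v s * w (insert v s) =
              - sgn k c0 s' * ∑ v ∈ sᶜ, sgn k v s' * f (insert v s') := by
            rw [mul_sum]
            apply sum_congr rfl
            intro v hv
            rw [hB v hv, ← hins, ← mul_assoc]
            rw [mem_compl] at hv
            have hvc : v ≠ c0 := fun h => hv (h ▸ hcs)
            have hvs' : v ∉ s' := fun h => hv (hins ▸ mem_insert_of_mem h)
            rw [sgn_swap' hcs' hvs' (Ne.symm hvc)]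
            ring
          rw [hsum, eq_neg_of_add_eq_zero_right hcyc]
          have := sgn_sq (k := k) c0 s'
          linear_combination (-f s) * this
        · -- the vertex is not in the simplex
          have h7 : cl (r + 1) (insert c0 s) = cl (r + 1) s := cl_insert_toggle hc0
          rw [sum_eq_single c0]
          · rw [hw, if_pos, h7, ← hc0', erase_insert hcs, ← mul_assoc, sgn_sq, one_mul]
            refine ⟨hdiam _ _ h7 hsimp.2, (hdim _ _ h7).trans hsp, by rw [h7, hcard], ?_⟩
            rw [h7, ← hc0']
            exact mem_insert_self _ _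
          · intro v hv hvc
            by_contra hne
            have hwne := right_ne_zero_of_mul hne
            have h8 := hA v hwne
            rw [hw] at hwne
            split_ifs at hwne with hcond
            · have h9 := hcond.2.2.2
              rw [h8, ← hc0', mem_insert] at h9
              rcases h9 with h9 | h9
              · exact hvc h9.symm
              · exact hcs h9
            · exact absurd rfl hwne
          · intro h
            rw [mem_compl, not_not] at h
            exact absurd h hcs
      · have h0 : f s = 0 := by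
          by_contra h
          have := hj s h hsp
          omega
        rw [h0]
        symm
        apply sum_eq_zero
        intro v _
        rw [hw, if_neg, mul_zero]
        rintro ⟨_, _, h, _⟩
        have := card_le_card (cl_mono (r + 1) (subset_insert v s))
        omega
    obtain ⟨w', hw', hw''⟩ := ih _ hf' hbf' hj'
    refine ⟨w + w', add_mem hwCh hw', ?_⟩
    rw [map_add, ← sub_sub]
    exact hw''

/-- Every relative cycle of a late column is a relative boundary. -/
theorem exists_relative {p : ℤ} (hp : (sBound r : ℤ) < p) {a b : ℤ} (hab : a = b + 1)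
    {f : Finset (V n) → k} (hf : f ∈ Ch k n r p a) (hbf : bd k n f ∈ Ch k n r (p - 1) b) :
    ∃ w ∈ Ch k n r p (a + 1), f - bd k n w ∈ Ch k n r (p - 1) a := by
  obtain ⟨p', rfl⟩ := Int.eq_ofNat_of_zero_le (by omega : 0 ≤ p)
  exact relative p' (by exact_mod_cast hp) a b hab (univ : Finset (V n)).card f hf hbf
    fun s _ _ => card_le_univ _

end Chains

end Pool.Agent.R796.SS
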