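import Mathlib
import Pool.Agent.R796.SSDefs
import Pool.Agent.R796.SSMain

/-!
# Vanishing of `E^1_{p,q}` for `p > s(r)` and of `d^i` for `i > s(r)`
-/

set_option autoImplicit false

namespace Pool.Agent.R796.SS

open Finset

variable {k : Type*} [Field k] {n r : ℕ}

theorem B0_eq_Z0 {p q : ℤ} (hp : (sBound r : ℤ) < p) : B0 k n r p q = Z0 k n r p q := by
  apply le_antisymm (B0_le_Z0 k n r p q)
  intro y hy
  obtain ⟨f, rfl⟩ := cls_surjective k n r p (p + q) y
  rw [Z0, LinearMap.mem_ker, d0_cls, cls_eq_zero] at hy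
  change bd k n (f : Finset (V n) → k) ∈ Ch k n r (p - 1) (p + q - 1) at hy
  obtain ⟨w, hw, hw'⟩ := exists_relative hp (show p + q = (p + q - 1) + 1 by ring) f.2 hy
  rw [add_assoc] at hw
  refine ⟨cls k n r p (p + (q + 1)) ⟨w, hw⟩, ?_⟩
  rw [d0_cls, eq_comm, ← sub_eq_zero, ← map_sub, cls_eq_zero]
  exact hw'

theorem E1_subsingleton {p q : ℤ} (hp : (sBound r : ℤ) < p) : Subsingleton (E1 k n r p q) := by
  unfold E1
  rw [Submodule.Quotient.subsingleton_iff, B0_eq_Z0 hp, Submodule.submoduleOf_self]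

theorem Page_subsingleton {i p q : ℤ} (hi : 1 ≤ i) (hp : (sBound r : ℤ) < p) :
    Subsingleton (Page k n r i p q) := by
  unfold Page
  rw [Submodule.Quotient.subsingleton_iff, eq_top_iff]
  rintro ⟨f, hf⟩ -
  rw [mem_subPage]
  change f ∈ Bi k n r i p (p + q)
  rw [mem_Zi] at hf
  obtain ⟨w, hw, hw'⟩ := exists_relative hp (show p + q = (p + q - 1) + 1 by ring) hf.1
    (Ch_mono (by omega) hf.2)
  rw [Bi, Submodule.mem_sup]
  refine ⟨f - bd k n w, ?_, bd k n w, ⟨w, ?_, rfl⟩, sub_add_cancel _ _⟩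
  · rw [mem_Zi, map_sub, bd_bd, sub_zero]
    refine ⟨hw', ?_⟩
    rw [show p - 1 - (i - 1) = p - i by ring]
    exact hf.2
  · change w ∈ Zi k n r (i - 1) (p + i - 1) (p + q + 1)
    rw [mem_Zi]
    refine ⟨Ch_mono (by omega) hw, ?_⟩
    rw [show p + i - 1 - (i - 1) = p by ring]
    exact bd_mem (by ring) hw

theorem Page_subsingleton_of_neg {i p q : ℤ} (hp : p < 0) : Subsingleton (Page k n r i p q) := by
  unfold Page
  rw [Submodule.Quotient.subsingleton_iff, eq_top_iff]
  rintro ⟨f, hf⟩ -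
  rw [mem_Zi] at hf
  have h0 : f = 0 := by
    funext s
    by_contra h
    have := (hf.1 s h).2.1
    omega
  subst h0
  exact zero_mem _

theorem dPage_eq_zero {i p q : ℤ} (hi : (sBound r : ℤ) < i) : dPage k n r i p q = 0 := by
  apply LinearMap.ext
  intro x
  rcases lt_or_ge (sBound r : ℤ) p with hp | hp
  · have := Page_subsingleton (k := k) (n := n) (r := r) (i := i) (p := p) (q := q) (by omega) hp
    rw [Subsingleton.elim x 0, map_zero, map_zero]
  · have := Page_subsingleton_of_neg (k := k) (n := n) (r := r) (i := i) (p := p - i)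
      (q := q + i - 1) (by omega)
    exact Subsingleton.elim _ _

end Pool.Agent.R796.SS
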