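import Pool.Agent.R796.ShDefs

/-!
# Radial arcs satisfy the standing assumptions

An arc `c : [0,1] → ℝ^N`, Lipschitz, with `‖c t‖ = t`.
-/

set_option autoImplicit false

namespace Pool.Agent.R796.Sh

open Set Topology Metric
open scoped unitInterval ENNReal

universe u

variable {N : ℕ}

/-- Length of a path in a radial arc. -/
structure RadialArc (c : ℝ → E N) (K : ℝ) : Prop where
  norm : ∀ t ∈ Icc (0 : ℝ) 1, ‖c t‖ = t
  lip : ∀ s ∈ Icc (0 : ℝ) 1, ∀ t ∈ Icc (0 : ℝ) 1, ‖c s - c t‖ ≤ K * |s - t|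
  one_le : 1 ≤ K

namespace RadialArc

variable {c : ℝ → E N} {K : ℝ} (h : RadialArc c K)
include h

theorem expand {s t : ℝ} (hs : s ∈ Icc (0 : ℝ) 1) (ht : t ∈ Icc (0 : ℝ) 1) :
    |s - t| ≤ ‖c s - c t‖ := by
  have h1 := abs_norm_sub_norm_le (c s) (c t)
  rwa [h.norm s hs, h.norm t ht] at h1

theorem lipOn : LipschitzOnWith (Real.toNNReal K) c (Icc 0 1) := by
  apply LipschitzOnWith.of_dist_le_mul
  intro s hs t ht
  rw [Real.coe_toNNReal _ (by linarith [h.one_le]), dist_eq_norm, Real.dist_eq]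
  exact h.lip s hs t ht

theorem continuousOn : ContinuousOn c (Icc 0 1) := h.lipOn.continuousOn

theorem variation_le {s t : ℝ} (hs : 0 ≤ s) (hst : s ≤ t) (ht : t ≤ 1) :
    eVariationOn c (Icc s t) ≤ ENNReal.ofReal (K * (t - s)) := by
  have h1 : eVariationOn (c ∘ id) (Icc s t) ≤ Real.toNNReal K * eVariationOn id (Icc s t) := by
    apply LipschitzOnWith.comp_eVariationOn_le h.lipOn
    intro x hx
    exact ⟨le_trans hs hx.1, le_trans hx.2 ht⟩
  have h2 : eVariationOn (id : ℝ → ℝ) (Icc s t ∩ Icc s t) ≤ ENNReal.ofReal (id t - id s) := by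
    rw [MonotoneOn.eVariationOn_eq (monotone_id.monotoneOn (Icc s t)) (left_mem_Icc.2 hst)
      (right_mem_Icc.2 hst)]
  rw [inter_self] at h2
  refine le_trans h1 ?_
  rw [ENNReal.ofReal_mul (by linarith [h.one_le])]
  exact mul_le_mul_right h2 _

theorem le_variation {s t : ℝ} (hs : 0 ≤ s) (hst : s ≤ t) (ht : t ≤ 1) :
    ENNReal.ofReal (t - s) ≤ eVariationOn c (Icc s t) := by
  refine le_trans ?_ (eVariationOn.edist_le c (s := Icc s t) ⟨hst, le_rfl⟩ ⟨le_rfl, hst⟩)
  rw [edist_dist, dist_eq_norm]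
  apply ENNReal.ofReal_le_ofReal
  refine le_trans (le_abs_self _) (h.expand ⟨by linarith, ht⟩ ⟨hs, by linarith⟩)

/-- arc length from `0` -/
noncomputable def ell (_h : RadialArc c K) (t : ℝ) : ℝ := (eVariationOn c (Icc 0 t)).toReal

theorem variation_ne_top {s t : ℝ} (hs : 0 ≤ s) (hst : s ≤ t) (ht : t ≤ 1) :
    eVariationOn c (Icc s t) ≠ ⊤ :=
  ne_top_of_le_ne_top ENNReal.ofReal_ne_top (h.variation_le hs hst ht)

theorem variation_eq {s t : ℝ} (hs : 0 ≤ s) (hst : s ≤ t) (ht : t ≤ 1) :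
    eVariationOn c (Icc s t) = ENNReal.ofReal (h.ell t - h.ell s) := by
  have h1 : eVariationOn c (Icc 0 s) + eVariationOn c (Icc s t) = eVariationOn c (Icc 0 t) := by
    have := eVariationOn.Icc_add_Icc c (s := univ) hs hst (mem_univ s)
    simpa using this
  have h2 := h.variation_ne_top le_rfl hs (hst.trans ht)
  have h3 := h.variation_ne_top hs hst ht
  have h4 := congrArg ENNReal.toReal h1
  rw [ENNReal.toReal_add h2 h3] at h4
  unfold ell
  rw [← h4, add_sub_cancel_left, ENNReal.ofReal_toReal h3]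

theorem ell_sub {s t : ℝ} (hs : 0 ≤ s) (hst : s ≤ t) (ht : t ≤ 1) :
    t - s ≤ h.ell t - h.ell s ∧ h.ell t - h.ell s ≤ K * (t - s) := by
  have h1 := h.le_variation hs hst ht
  have h2 := h.variation_le hs hst ht
  rw [h.variation_eq hs hst ht] at h1 h2
  constructor
  · by_cases hlt : s = t
    · subst hlt
      simp
    · have hpos : 0 < t - s := by
        have := lt_of_le_of_ne hst hlt
        linarith
      exact (ENNReal.ofReal_le_ofReal_iff' .. |>.1 h1).resolve_right (by linarith)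
  · rcases ENNReal.ofReal_le_ofReal_iff'.1 h2 with h3 | h3
    · exact h3
    · have : 0 ≤ K * (t - s) := by
        apply mul_nonneg
        · linarith [h.one_le]
        · linarith
      linarith

theorem ell_zero : h.ell 0 = 0 := by
  unfold ell
  rw [eVariationOn.subsingleton]
  · rfl
  · rw [Icc_self]
    exact subsingleton_singleton

theorem ell_continuousOn : ContinuousOn h.ell (Icc 0 1) := by
  have : LipschitzOnWith (Real.toNNReal K) h.ell (Icc 0 1) := by
    apply LipschitzOnWith.of_dist_le_mul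
    intro s hs t ht
    rw [Real.coe_toNNReal _ (by linarith [h.one_le]), Real.dist_eq, Real.dist_eq]
    rcases le_total s t with hst | hst
    · have := h.ell_sub hs.1 hst ht.2
      rw [abs_sub_comm, abs_of_nonneg (by linarith), abs_sub_comm, abs_of_nonneg (by linarith)]
      exact this.2
    · have := h.ell_sub ht.1 hst hs.2
      rw [abs_of_nonneg (by linarith), abs_of_nonneg (by linarith)]
      exact this.2
  exact this.continuousOn

/-- The arc as a set. -/
def img (_h : RadialArc c K) : Set (E N) := c '' Icc 0 1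

theorem mem_img {t : ℝ} (ht : t ∈ Icc (0 : ℝ) 1) : c t ∈ h.img := ⟨t, ht, rfl⟩

theorem eq_of_mem {p : E N} (hp : p ∈ h.img) : ‖p‖ ∈ Icc (0 : ℝ) 1 ∧ c ‖p‖ = p := by
  obtain ⟨t, ht, rfl⟩ := hp
  rw [h.norm t ht]
  exact ⟨ht, rfl⟩

/-- lower bound for the lengths of paths -/
theorem le_length {s t : ℝ} (hs : 0 ≤ s) (hst : s ≤ t) (ht : t ≤ 1) (γ : C(I, E N))
    (h0 : γ 0 = c s) (h1 : γ 1 = c t) (hγ : ∀ x, γ x ∈ h.img) :
    eVariationOn c (Icc s t) ≤ eVariationOn γ univ := by
  set u : ℝ → ℝ := fun x => ‖γ (projIcc 0 1 zero_le_one x)‖ with hu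
  have huc : Continuous u := by
    rw [hu]
    exact (γ.continuous.comp continuous_projIcc).norm
  have hu0 : u 0 = s := by
    rw [hu]
    simp only [projIcc_left]
    change ‖γ 0‖ = s
    rw [h0, h.norm s ⟨hs, hst.trans ht⟩]
  have hu1 : u 1 = t := by
    rw [hu]
    simp only [projIcc_right]
    change ‖γ 1‖ = t
    rw [h1, h.norm t ⟨hs.trans hst, ht⟩]
  let S : ℝ → Set ℝ := fun b => {x | x ∈ Icc (0:ℝ) 1 ∧ b ≤ u x}
  have hScl : ∀ b, IsClosed (S b) := fun b =>
    isClosed_Icc.inter (isClosed_le continuous_const huc)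
  have hSne : ∀ b ∈ Icc s t, (S b).Nonempty := fun b hb =>
    ⟨1, ⟨zero_le_one, le_rfl⟩, by rw [hu1]; exact hb.2⟩
  have hSbd : ∀ b, BddBelow (S b) := fun b => ⟨0, fun x hx => hx.1.1⟩
  set x : ℝ → ℝ := fun b => sInf (S b) with hx
  have hxm : ∀ b ∈ Icc s t, x b ∈ S b := fun b hb => (hScl b).csInf_mem (hSne b hb) (hSbd b)
  have hxu : ∀ b ∈ Icc s t, u (x b) = b := by
    intro b hb
    apply le_antisymm _ (hxm b hb).2
    by_contra hcon
    push Not at hcon
    have h2 : b ∈ Icc (u 0) (u (x b)) := ⟨by rw [hu0]; exact hb.1, hcon.le⟩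
    obtain ⟨y, hy, hyb⟩ := intermediate_value_Icc (hxm b hb).1.1 huc.continuousOn h2
    have hyS : y ∈ S b := ⟨⟨hy.1, hy.2.trans (hxm b hb).1.2⟩, hyb.ge⟩
    have h3 : x b ≤ y := csInf_le (hSbd b) hyS
    have h4 : y = x b := le_antisymm hy.2 h3
    rw [h4] at hyb
    linarith
  have hmono : MonotoneOn (fun b => (projIcc 0 1 zero_le_one (x b) : I)) (Icc s t) := by
    intro a ha b hb hab
    apply monotone_projIcc
    apply csInf_le_csInf (hSbd a) (hSne b hb)
    intro y hy
    exact ⟨hy.1, hab.trans hy.2⟩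
  have h2 := eVariationOn.comp_le_of_monotoneOn (γ : I → E N) (s := univ) _ hmono
    (fun _ _ => mem_univ _)
  refine le_trans (le_of_eq ?_) h2
  apply eVariationOn.congr
  intro b hb
  have h5 := (h.eq_of_mem (hγ (projIcc 0 1 zero_le_one (x b)))).2
  have h6 : ‖γ (projIcc 0 1 zero_le_one (x b))‖ = b := hxu b hb
  rw [h6] at h5
  exact h5

theorem dM_symm_le (M : Set (E N)) (p q : E N) : dM M p q ≤ dM M q p := by
  unfold dM
  apply le_iInf
  rintro ⟨γ, h0, h1, hγ⟩
  let γ' : C(I, E N) := ⟨fun t => γ (σ t), by fun_prop⟩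
  refine iInf_le_of_le ⟨γ', ?_, ?_, fun t => hγ _⟩ ?_
  · simp [γ', h1]
  · simp [γ', h0]
  · have : eVariationOn ((γ : I → E N) ∘ (σ : I → I)) univ ≤ eVariationOn γ univ := by
      apply eVariationOn.comp_le_of_antitoneOn (γ : I → E N) (σ : I → I)
      · intro a _ b _ hab
        exact unitInterval.symm_le_symm.2 hab
      · exact fun _ _ => mem_univ _
    exact this

theorem dM_symm (M : Set (E N)) (p q : E N) : dM M p q = dM M q p :=
  le_antisymm (h.dM_symm_le M p q) (h.dM_symm_le M q p)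

theorem dM_eq_le {s t : ℝ} (hs : 0 ≤ s) (hst : s ≤ t) (ht : t ≤ 1) :
    dM h.img (c s) (c t) = ENNReal.ofReal (h.ell t - h.ell s) := by
  rw [← h.variation_eq hs hst ht]
  apply le_antisymm
  · let φ : I → ℝ := fun x => s + (x : ℝ) * (t - s)
    have hφ : ∀ x, φ x ∈ Icc s t := by
      intro x
      have h1 := x.2.1
      have h2 := x.2.2
      constructor
      · have : 0 ≤ (x : ℝ) * (t - s) := mul_nonneg h1 (by linarith)
        simp only [φ]
        linarith
      · have : (x : ℝ) * (t - s) ≤ 1 * (t - s) := mul_le_mul_of_nonneg_right h2 (by linarith)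
        simp only [φ]
        linarith
    have hφ' : ∀ x, φ x ∈ Icc (0:ℝ) 1 := fun x =>
      ⟨hs.trans (hφ x).1, (hφ x).2.trans ht⟩
    have hcont : Continuous fun x : I => c (φ x) := by
      apply h.continuousOn.comp_continuous _ hφ'
      fun_prop
    unfold dM
    refine iInf_le_of_le ⟨⟨fun x => c (φ x), hcont⟩, ?_, ?_, ?_⟩ ?_
    · simp [φ]
    · simp [φ]
    · intro x
      exact h.mem_img (hφ' x)
    · have : eVariationOn (c ∘ φ) univ ≤ eVariationOn c (Icc s t) := by
        apply eVariationOn.comp_le_of_monotoneOn c φ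
        · intro a _ b _ hab
          have : (a : ℝ) ≤ b := hab
          simp only [φ]
          have := mul_le_mul_of_nonneg_right this (sub_nonneg.2 hst)
          linarith
        · exact fun x _ => hφ x
      exact this
  · unfold dM
    apply le_iInf
    rintro ⟨γ, h0, h1, hγ⟩
    exact h.le_length hs hst ht γ h0 h1 hγ

theorem dM_eq {s t : ℝ} (hs : s ∈ Icc (0 : ℝ) 1) (ht : t ∈ Icc (0 : ℝ) 1) :
    dM h.img (c s) (c t) = ENNReal.ofReal |h.ell s - h.ell t| := by
  rcases le_total s t with hst | hst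
  · rw [h.dM_eq_le hs.1 hst ht.2, abs_sub_comm, abs_of_nonneg]
    have := (h.ell_sub hs.1 hst ht.2).1
    linarith
  · rw [h.dM_symm, h.dM_eq_le ht.1 hst hs.2, abs_of_nonneg]
    have := (h.ell_sub ht.1 hst hs.2).1
    linarith

theorem ell_le_of_mem {t : ℝ} (ht : t ∈ Icc (0 : ℝ) 1) : h.ell t ∈ Icc 0 (h.ell 1) := by
  have h1 := (h.ell_sub le_rfl ht.1 ht.2).1
  have h2 := (h.ell_sub ht.1 ht.2 le_rfl).1
  rw [h.ell_zero] at h1
  constructor
  · linarith [ht.1]
  · linarith [ht.2]

theorem exists_inv {a : ℝ} (ha : a ∈ Icc 0 (h.ell 1)) : ∃ t ∈ Icc (0 : ℝ) 1, h.ell t = a := by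
  have := intermediate_value_Icc (zero_le_one (α := ℝ)) h.ell_continuousOn
  rw [h.ell_zero] at this
  exact this ha

theorem ell_inj {s t : ℝ} (hs : s ∈ Icc (0 : ℝ) 1) (ht : t ∈ Icc (0 : ℝ) 1)
    (hst : h.ell s = h.ell t) : s = t := by
  rcases le_total s t with hle | hle
  · have := (h.ell_sub hs.1 hle ht.2).1
    linarith
  · have := (h.ell_sub ht.1 hle hs.2).1
    linarith

theorem isGeodesic : IsGeodesic h.img := by
  classical
  choose! g hg hg' using fun a (ha : a ∈ Icc 0 (h.ell 1)) => h.exists_inv ha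
  rintro _ ⟨s, hs, rfl⟩ _ ⟨t, ht, rfl⟩
  have hes := h.ell_le_of_mem hs
  have het := h.ell_le_of_mem ht
  have hgs : g (h.ell s) = s := h.ell_inj (hg _ hes) hs (hg' _ hes)
  have hgt : g (h.ell t) = t := h.ell_inj (hg _ het) ht (hg' _ het)
  rcases le_total (h.ell s) (h.ell t) with hle | hle
  · have hm : ∀ a ∈ Icc 0 (h.ell t - h.ell s), h.ell s + a ∈ Icc 0 (h.ell 1) := fun a ha =>
      ⟨by linarith [hes.1, ha.1], by linarith [ha.2, het.2]⟩
    refine ⟨h.ell t - h.ell s, fun a => c (g (h.ell s + a)), by linarith, ?_, ?_, ?_, ?_⟩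
    · simp [hgs]
    · simp [hgt]
    · intro a ha
      exact h.mem_img (hg _ (hm a ha))
    · intro a ha b hb
      rw [h.dM_eq (hg _ (hm a ha)) (hg _ (hm b hb)), hg' _ (hm a ha), hg' _ (hm b hb)]
      congr 2
      ring
  · have hm : ∀ a ∈ Icc 0 (h.ell s - h.ell t), h.ell s - a ∈ Icc 0 (h.ell 1) := fun a ha =>
      ⟨by linarith [het.1, ha.2], by linarith [ha.1, hes.2]⟩
    refine ⟨h.ell s - h.ell t, fun a => c (g (h.ell s - a)), by linarith, ?_, ?_, ?_, ?_⟩
    · simp [hgs]
    · simp [hgt]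
    · intro a ha
      exact h.mem_img (hg _ (hm a ha))
    · intro a ha b hb
      rw [h.dM_eq (hg _ (hm a ha)) (hg _ (hm b hb)), hg' _ (hm a ha), hg' _ (hm b hb),
        abs_sub_comm]
      congr 2
      ring

theorem isCompact_img : IsCompact h.img := isCompact_Icc.image_of_continuousOn h.continuousOn

theorem isConnected_img : IsConnected h.img :=
  (isConnected_Icc zero_le_one).image c h.continuousOn

/-- The retraction of the whole space onto the arc. -/
noncomputable def ret (_h : RadialArc c K) (x : E N) : E N := c (min ‖x‖ 1)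

theorem min_mem (x : E N) : min ‖x‖ 1 ∈ Icc (0 : ℝ) 1 :=
  ⟨le_min (norm_nonneg _) zero_le_one, min_le_right _ _⟩

theorem ret_continuous : Continuous h.ret := by
  apply h.continuousOn.comp_continuous (by fun_prop) (fun x => h.min_mem x)

theorem ret_mem (x : E N) : h.ret x ∈ h.img := h.mem_img (h.min_mem x)

theorem ret_eq {x : E N} (hx : x ∈ h.img) : h.ret x = x := by
  have := h.eq_of_mem hx
  unfold ret
  rw [min_eq_left this.1.2, this.2]

theorem condM3 : CondM3 h.img univ h.ret := by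
  refine ⟨fun r => (K + 2) * r, ?_, ?_⟩
  · intro r hr _
    have hK := h.one_le
    refine ⟨by positivity, fun x hx => ?_⟩
    obtain ⟨p, hp, hpx⟩ := h.isCompact_img.exists_infDist_eq_dist h.isConnected_img.nonempty x
    have h1 : ‖x - p‖ ≤ r := by
      rw [← dist_eq_norm, ← hpx]
      exact hx
    have h2 : ‖h.ret x - h.ret p‖ ≤ K * ‖x - p‖ := by
      unfold ret
      refine le_trans (h.lip _ (h.min_mem x) _ (h.min_mem p)) ?_
      apply mul_le_mul_of_nonneg_left _ (by linarith)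
      refine le_trans ?_ (abs_norm_sub_norm_le x p)
      exact abs_min_sub_min_le_max _ _ _ _ |>.trans (by simp)
    rw [h.ret_eq hp] at h2
    have h3 : ‖h.ret x - x‖ ≤ ‖h.ret x - p‖ + ‖x - p‖ := by
      have := norm_sub_le_norm_sub_add_norm_sub (h.ret x) p x
      rwa [norm_sub_rev p x] at this
    nlinarith
  · have : Filter.Tendsto (fun r : ℝ => (K + 2) * r) (𝓝 0) (𝓝 ((K + 2) * 0)) :=
      (continuous_const.mul continuous_id).tendsto 0
    rw [mul_zero] at this
    exact this.mono_left nhdsWithin_le_nhds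

theorem contractible : ContractibleSpace h.img := by
  rw [contractible_iff_id_nullhomotopic]
  refine ⟨⟨c 0, h.mem_img ⟨le_rfl, zero_le_one⟩⟩, ?_⟩
  have hm : ∀ (x : I × h.img), (1 - (x.1 : ℝ)) * ‖(x.2 : E N)‖ ∈ Icc (0:ℝ) 1 := by
    rintro ⟨τ, p⟩
    have h1 := (h.eq_of_mem p.2).1
    have h2 := τ.2
    constructor
    · exact mul_nonneg (by linarith [h2.2]) h1.1
    · calc (1 - (τ : ℝ)) * ‖(p : E N)‖ ≤ 1 * 1 :=
          mul_le_mul (by linarith [h2.1]) h1.2 h1.1 zero_le_one
        _ = 1 := one_mul 1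
  refine ⟨⟨⟨fun x => ⟨c ((1 - (x.1 : ℝ)) * ‖(x.2 : E N)‖), h.mem_img (hm x)⟩, ?_⟩, ?_, ?_⟩⟩
  · apply Continuous.subtype_mk
    apply h.continuousOn.comp_continuous (by fun_prop) hm
  · intro p
    apply Subtype.ext
    simp only [ContinuousMap.coe_mk, Icc.coe_zero, sub_zero, one_mul, ContinuousMap.id_apply]
    exact (h.eq_of_mem p.2).2
  · intro p
    apply Subtype.ext
    simp

theorem condM1 : CondM1.{u} h.img := by
  refine ⟨1, one_pos, fun X _ f g _ => ?_⟩
  have := h.contractible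
  obtain ⟨y, hy⟩ := id_nullhomotopic h.img
  have h1 : ∀ f : C(X, h.img), f.Homotopic (ContinuousMap.const X y) := by
    intro f
    have := ContinuousMap.Homotopic.comp hy (ContinuousMap.Homotopic.refl f)
    simpa using this
  exact (h1 f).trans (h1 g).symm

theorem condM2 : CondM2 h.img := by
  refine ⟨1, K + 1, one_pos, by linarith [h.one_le], ?_⟩
  rintro _ ⟨s, hs, rfl⟩ _ ⟨t, ht, rfl⟩ _
  have key : ∀ s ∈ Icc (0:ℝ) 1, ∀ t ∈ Icc (0:ℝ) 1, s ≤ t →
      ENNReal.ofReal ‖c s - c t‖ ≤ dM h.img (c s) (c t) ∧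
      dM h.img (c s) (c t) ≤ ENNReal.ofReal ((K + 1) * ‖c s - c t‖) := by
    intro s hs t ht hst
    have he := h.expand hs ht
    have hK := h.one_le
    constructor
    · rw [h.dM_eq_le hs.1 hst ht.2, ← h.variation_eq hs.1 hst ht.2]
      rw [← dist_eq_norm, ← edist_dist]
      exact eVariationOn.edist_le c ⟨le_rfl, hst⟩ ⟨hst, le_rfl⟩
    · rw [h.dM_eq_le hs.1 hst ht.2]
      apply ENNReal.ofReal_le_ofReal
      have h1 := (h.ell_sub hs.1 hst ht.2).2
      have h2 : t - s ≤ ‖c s - c t‖ := by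
        rw [abs_sub_comm] at he
        exact (le_abs_self _).trans he
      have : 0 ≤ ‖c s - c t‖ := norm_nonneg _
      nlinarith
  rcases le_total s t with hst | hst
  · exact key s hs t ht hst
  · have := key t ht s hs hst
    rw [norm_sub_rev, h.dM_symm]
    exact this

/-- A radial arc satisfies all standing assumptions. -/
theorem admissible : Admissible.{u} h.img where
  compact := h.isCompact_img
  connected := h.isConnected_img
  geodesic := h.isGeodesic
  m1 := h.condM1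
  m2 := h.condM2
  retract := ⟨univ, h.ret, Filter.univ_mem, h.ret_continuous.continuousOn,
    fun x _ => h.ret_mem x, fun _ hx => h.ret_eq hx, h.condM3⟩

end RadialArc

end Pool.Agent.R796.Sh
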