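import Pool.Agent.R796.ShMain

/-!
# Shadows of samples: the answer to the question in every dimension
-/

set_option autoImplicit false

namespace Pool.Agent.R796.Sh

open Set Topology Metric
open scoped unitInterval ENNReal

universe u

section Embed

variable {N : ℕ} (hN : 2 ≤ N)

/-- first coordinate index -/
def i0 : Fin N := ⟨0, by omega⟩
/-- second coordinate index -/
def i1 : Fin N := ⟨1, by omega⟩

theorem i0_ne : i0 hN ≠ i1 hN := by
  simp [i0, i1]

/-- The plane of the first two coordinates. -/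
noncomputable def emb (z : ℂ) : E N :=
  z.re • EuclideanSpace.single (i0 hN) (1 : ℝ) + z.im • EuclideanSpace.single (i1 hN) (1 : ℝ)

/-- The projection to the first two coordinates. -/
def prj (v : E N) : ℂ := ⟨v (i0 hN), v (i1 hN)⟩

theorem prj_emb (z : ℂ) : prj hN (emb hN z) = z := by
  have h := i0_ne hN
  apply Complex.ext
  · simp [prj, emb, h]
  · simp [prj, emb, h.symm]

theorem norm_emb (z : ℂ) : ‖emb hN z‖ = ‖z‖ := by
  have h := i0_ne hN
  have h1 : ‖emb hN z‖ ^ 2 = ‖z‖ ^ 2 := by
    unfold emb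
    rw [norm_add_sq_real, Complex.sq_norm, Complex.normSq_apply]
    simp [inner_smul_left, inner_smul_right, norm_smul, EuclideanSpace.inner_single_right, h,
      h.symm]
    ring
  exact (pow_left_inj₀ (norm_nonneg _) (norm_nonneg _) two_ne_zero).1 h1

theorem emb_sub (z w : ℂ) : emb hN z - emb hN w = emb hN (z - w) := by
  unfold emb
  simp only [Complex.sub_re, Complex.sub_im]
  module

theorem prj_sub (v w : E N) : prj hN v - prj hN w = prj hN (v - w) := by
  apply Complex.ext <;> simp [prj]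

theorem norm_prj_le (v : E N) : ‖prj hN v‖ ≤ ‖v‖ := by
  have h1 : ‖prj hN v‖ ^ 2 ≤ ‖v‖ ^ 2 := by
    rw [Complex.sq_norm, Complex.normSq_apply, EuclideanSpace.norm_sq_eq]
    have h2 : ∑ i ∈ ({i0 hN, i1 hN} : Finset (Fin N)), ‖v i‖ ^ 2 ≤ ∑ i, ‖v i‖ ^ 2 :=
      Finset.sum_le_sum_of_subset_of_nonneg (Finset.subset_univ _) (fun _ _ _ => by positivity)
    rw [Finset.sum_pair (i0_ne hN)] at h2
    refine le_trans (le_of_eq ?_) h2
    simp only [prj, Real.norm_eq_abs, sq_abs]
    ring
  exact le_of_sq_le_sq h1 (norm_nonneg _)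

theorem continuous_prj : Continuous (prj hN) := by
  unfold prj
  have : (fun v : E N => (⟨v (i0 hN), v (i1 hN)⟩ : ℂ)) =
      fun v => ((v (i0 hN) : ℝ) : ℂ) + ((v (i1 hN) : ℝ) : ℂ) * Complex.I := by
    funext v
    apply Complex.ext <;> simp
  rw [this]
  fun_prop

/-- The arc in `ℝ^N`. -/
noncomputable def cE (t : ℝ) : E N := emb hN (arc t)

theorem radialArc : RadialArc (cE hN) 65 where
  norm := fun t ht => by rw [cE, norm_emb, norm_arc ht.1]
  lip := fun s hs t ht => by
    rw [cE, cE, emb_sub, norm_emb]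
    exact arc_lip hs.1 ht.1
  one_le := by norm_num

end Embed

theorem segment_subset_shadow {N : ℕ} {β : ℝ} {S : Set (E N)} {p q : E N} (hp : p ∈ S)
    (hq : q ∈ S) (hpq : dist p q < β) : segment ℝ p q ⊆ shadow β S := by
  classical
  intro z hz
  simp only [shadow, mem_iUnion]
  refine ⟨{p, q}, ⟨by simp, ?_, ?_⟩, ?_⟩
  · intro w hw
    simp only [Finset.coe_insert, Finset.coe_singleton, mem_insert_iff, mem_singleton_iff] at hw
    rcases hw with rfl | rfl
    · exact hp
    · exact hq
  · simp only [Finset.coe_insert, Finset.coe_singleton, Metric.diam_pair]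
    exact hpq
  · simp only [Finset.coe_insert, Finset.coe_singleton]
    rwa [convexHull_pair]

theorem shadow_near {N : ℕ} {β : ℝ} {S : Set (E N)} {z : E N} (hz : z ∈ shadow β S) :
    ∃ p ∈ S, dist z p < β := by
  simp only [shadow, mem_iUnion] at hz
  obtain ⟨s, ⟨⟨p, hp⟩, hsS, hd⟩, hz⟩ := hz
  refine ⟨p, hsS hp, ?_⟩
  have h1 : convexHull ℝ (s : Set (E N)) ⊆ ball p β := by
    apply convexHull_min _ (convex_ball p β)
    intro q hq
    exact lt_of_le_of_lt (dist_le_diam_of_mem s.finite_toSet.isBounded hq hp) hd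
  exact h1 hz

/-- Change of the imaginary part of a logarithm along a segment in the shadow. -/
theorem seg_change {N : ℕ} {β : ℝ} {S : Set (E N)} (P : E N → ℂ) (hP : Continuous P)
    (L : C(shadow β S, ℂ)) (hL : ∀ x, Complex.exp (L x) = P x.1) {p q : E N}
    (hpq : segment ℝ p q ⊆ shadow β S) :
    ((∀ z ∈ segment ℝ p q, 0 ≤ (P z).im) →
      (L ⟨q, hpq (right_mem_segment ℝ p q)⟩).im - (L ⟨p, hpq (left_mem_segment ℝ p q)⟩).im =
        (P q).arg - (P p).arg) ∧
    ((∀ z ∈ segment ℝ p q, (P z).im ≤ 0) →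
      (L ⟨q, hpq (right_mem_segment ℝ p q)⟩).im - (L ⟨p, hpq (left_mem_segment ℝ p q)⟩).im =
        -((starRingEnd ℂ) (P q)).arg + ((starRingEnd ℂ) (P p)).arg) := by
  let s : I → E N := fun t => AffineMap.lineMap p q (t : ℝ)
  have hs : Continuous s := by
    simp only [s]
    fun_prop
  have hmem : ∀ t, s t ∈ segment ℝ p q := fun t => by
    rw [segment_eq_image_lineMap]
    exact ⟨t, t.2, rfl⟩
  let ℓ : C(I, ℂ) := ⟨fun t => L ⟨s t, hpq (hmem t)⟩, by fun_prop⟩
  let w : C(I, ℂ) := ⟨fun t => P (s t), by fun_prop⟩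
  have hw : ∀ t, Complex.exp (ℓ t) = w t := fun t => hL _
  have h0 : s 0 = p := by simp [s]
  have h1 : s 1 = q := by simp [s]
  have hℓ0 : ℓ 0 = L ⟨p, hpq (left_mem_segment ℝ p q)⟩ := by
    simp only [ℓ, ContinuousMap.coe_mk]
    congr
  have hℓ1 : ℓ 1 = L ⟨q, hpq (right_mem_segment ℝ p q)⟩ := by
    simp only [ℓ, ContinuousMap.coe_mk]
    congr
  have hw0 : w 0 = P p := by
    simp only [w, ContinuousMap.coe_mk, h0]
  have hw1 : w 1 = P q := by
    simp only [w, ContinuousMap.coe_mk, h1]
  constructor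
  · intro him
    have := change_upper ℓ w hw (fun t => him _ (hmem t))
    rwa [hℓ0, hℓ1, hw0, hw1] at this
  · intro him
    have := change_lower ℓ w hw (fun t => him _ (hmem t))
    rwa [hℓ0, hℓ1, hw0, hw1] at this

/-- A polygonal chain `p 0, …, p n` in the shadow. -/
theorem chain_change {N : ℕ} {β : ℝ} {S : Set (E N)} (P : E N → ℂ) (hP : Continuous P)
    (L : C(shadow β S, ℂ)) (hL : ∀ x, Complex.exp (L x) = P x.1) (p : ℕ → E N) (n : ℕ)
    (hsh : ∀ i ≤ n, p i ∈ shadow β S)
    (hpq : ∀ i < n, segment ℝ (p i) (p (i + 1)) ⊆ shadow β S) :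
    ((∀ i < n, ∀ z ∈ segment ℝ (p i) (p (i + 1)), 0 ≤ (P z).im) →
      (L ⟨p n, hsh n le_rfl⟩).im - (L ⟨p 0, hsh 0 (Nat.zero_le _)⟩).im =
        (P (p n)).arg - (P (p 0)).arg) ∧
    ((∀ i < n, ∀ z ∈ segment ℝ (p i) (p (i + 1)), (P z).im ≤ 0) →
      (L ⟨p n, hsh n le_rfl⟩).im - (L ⟨p 0, hsh 0 (Nat.zero_le _)⟩).im =
        -((starRingEnd ℂ) (P (p n))).arg + ((starRingEnd ℂ) (P (p 0))).arg) := by
  constructor
  · intro him
    have key : ∀ m (hm : m ≤ n), (L ⟨p m, hsh m hm⟩).im - (L ⟨p 0, hsh 0 (Nat.zero_le _)⟩).im =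
        (P (p m)).arg - (P (p 0)).arg := by
      intro m
      induction m with
      | zero => intro _; ring
      | succ m ih =>
        intro hm
        have h1 := ih (by omega)
        have h2 := (seg_change P hP L hL (hpq m (by omega))).1 (him m (by omega))
        linarith
    exact key n le_rfl
  · intro him
    have key : ∀ m (hm : m ≤ n), (L ⟨p m, hsh m hm⟩).im - (L ⟨p 0, hsh 0 (Nat.zero_le _)⟩).im =
        -((starRingEnd ℂ) (P (p m))).arg + ((starRingEnd ℂ) (P (p 0))).arg := by
      intro m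
      induction m with
      | zero => intro _; ring
      | succ m ih =>
        intro hm
        have h1 := ih (by omega)
        have h2 := (seg_change P hP L hL (hpq m (by omega))).2 (him m (by omega))
        linarith
    exact key n le_rfl

section Sample

variable {N : ℕ} (hN : 2 ≤ N) (k n : ℕ)

/-- parameters -/
noncomputable def pa (i : ℕ) : ℝ := tau k + (i / n : ℝ) * (tm k - tau k)
noncomputable def pb (i : ℕ) : ℝ := tm k + (i / n : ℝ) * (te k - tm k)
noncomputable def pd (i : ℕ) : ℝ := (i / n : ℝ)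

/-- The sample. -/
noncomputable def smp : Set (E N) :=
  (fun i => cE hN (pa k n i)) '' Iic n ∪ (fun i => cE hN (pb k n i)) '' Iic n ∪
    (fun i => cE hN (pd n i)) '' Iic n

theorem smp_finite : (smp hN k n).Finite :=
  (((finite_Iic n).image _).union ((finite_Iic n).image _)).union ((finite_Iic n).image _)

variable (hk : 1 ≤ k) (hn : 1 ≤ n)
include hk

theorem te_le_one : te k ≤ 1 := by
  have h1 := te_lt k
  have h2 : tau k ≤ Real.exp (-1) := by
    unfold tau
    apply Real.exp_le_exp.2
    have h3 := Real.pi_gt_three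
    have h4 : (1:ℝ) ≤ k := by exact_mod_cast hk
    nlinarith
  have h3 : Real.exp (-1) < 1/2 := by
    have := Real.exp_neg_one_lt_half
    exact this
  linarith

include hn

theorem frac_mem {i : ℕ} (hi : i ≤ n) : (i / n : ℝ) ∈ Icc (0:ℝ) 1 := by
  have hn' : (0:ℝ) < n := by exact_mod_cast hn
  constructor
  · positivity
  · rw [div_le_one hn']
    exact_mod_cast hi

theorem pa_mem {i : ℕ} (hi : i ≤ n) : pa k n i ∈ Icc (tau k) (tm k) := by
  have h1 := frac_mem k n hk hn hi
  have h2 := tau_le_tm k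
  unfold pa
  constructor <;> nlinarith [h1.1, h1.2]

theorem pb_mem {i : ℕ} (hi : i ≤ n) : pb k n i ∈ Icc (tm k) (te k) := by
  have h1 := frac_mem k n hk hn hi
  have h2 := tm_le_te k
  unfold pb
  constructor <;> nlinarith [h1.1, h1.2]

theorem pa_mem' {i : ℕ} (hi : i ≤ n) : pa k n i ∈ Icc (0:ℝ) 1 := by
  have h1 := pa_mem k n hk hn hi
  exact ⟨(tau_pos k).le.trans h1.1, h1.2.trans ((tm_le_te k).trans (te_le_one k hk))⟩

theorem pb_mem' {i : ℕ} (hi : i ≤ n) : pb k n i ∈ Icc (0:ℝ) 1 := by
  have h1 := pb_mem k n hk hn hi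
  exact ⟨(tau_pos k).le.trans ((tau_le_tm k).trans h1.1), h1.2.trans (te_le_one k hk)⟩

theorem pa_step (i : ℕ) : |pa k n i - pa k n (i+1)| ≤ 1 / n := by
  have hn' : (0:ℝ) < n := by exact_mod_cast hn
  have h2 := tau_le_tm k
  have h3 := te_le_one k hk
  have h4 := tm_le_te k
  have h5 := tau_pos k
  unfold pa
  rw [show tau k + (i / n : ℝ) * (tm k - tau k) - (tau k + (((i + 1 : ℕ) : ℝ) / n) * (tm k - tau k))
    = -((tm k - tau k) / n) by push_cast; field_simp; ring]
  rw [abs_neg, abs_of_nonneg (div_nonneg (by linarith) hn'.le)]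
  exact div_le_div_of_nonneg_right (by linarith) hn'.le

theorem pb_step (i : ℕ) : |pb k n i - pb k n (i+1)| ≤ 1 / n := by
  have hn' : (0:ℝ) < n := by exact_mod_cast hn
  have h2 := tau_le_tm k
  have h3 := te_le_one k hk
  have h4 := tm_le_te k
  have h5 := tau_pos k
  unfold pb
  rw [show tm k + (i / n : ℝ) * (te k - tm k) - (tm k + (((i + 1 : ℕ) : ℝ) / n) * (te k - tm k))
    = -((te k - tm k) / n) by push_cast; field_simp; ring]
  rw [abs_neg, abs_of_nonneg (div_nonneg (by linarith) hn'.le)]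
  exact div_le_div_of_nonneg_right (by linarith) hn'.le

theorem smp_subset : smp hN k n ⊆ (radialArc hN).img := by
  rintro _ ((⟨i, hi, rfl⟩ | ⟨i, hi, rfl⟩) | ⟨i, hi, rfl⟩)
  · exact (radialArc hN).mem_img (pa_mem' k n hk hn hi)
  · exact (radialArc hN).mem_img (pb_mem' k n hk hn hi)
  · exact (radialArc hN).mem_img (frac_mem k n hk hn hi)

theorem smp_hausdorff : hausdorffDist (smp hN k n) (radialArc hN).img ≤ 65 / n := by
  have hn' : (0:ℝ) < n := by exact_mod_cast hn
  apply hausdorffDist_le_of_mem_dist (by positivity)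
  · intro x hx
    exact ⟨x, smp_subset hN k n hk hn hx, by rw [dist_self]; positivity⟩
  · rintro _ ⟨t, ht, rfl⟩
    refine ⟨cE hN (pd n ⌊n * t⌋₊), Or.inr ⟨_, ?_, rfl⟩, ?_⟩
    · simp only [mem_Iic]
      apply Nat.floor_le_of_le
      nlinarith [ht.2]
    · have h0 : 0 ≤ n * t := mul_nonneg hn'.le ht.1
      have hfl : ⌊n * t⌋₊ ≤ n := Nat.floor_le_of_le (by nlinarith [ht.2])
      have h1 := (radialArc hN).lip t ht (pd n ⌊n * t⌋₊) (frac_mem k n hk hn hfl)
      rw [dist_eq_norm]
      refine h1.trans ?_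
      have h2 : |t - pd n ⌊n * t⌋₊| ≤ 1 / n := by
        unfold pd
        have h3 := Nat.floor_le h0
        have h4 := Nat.lt_floor_add_one (n * t)
        rw [abs_of_nonneg]
        · rw [sub_le_iff_le_add, ← add_div, le_div_iff₀ hn']
          linarith
        · rw [sub_nonneg, div_le_iff₀ hn']
          linarith
      calc 65 * |t - pd n ⌊n * t⌋₊| ≤ 65 * (1 / n) := by linarith
        _ = 65 / n := by ring

end Sample

theorem im_segment {N : ℕ} (hN : 2 ≤ N) (w : ℝ) {p q z : E N}
    (hz : z ∈ segment ℝ p q) : ∃ a b : ℝ, 0 ≤ a ∧ 0 ≤ b ∧ a + b = 1 ∧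
      (prj hN z + (w : ℂ)).im = a * (prj hN p).im + b * (prj hN q).im := by
  obtain ⟨a, b, ha, hb, hab, rfl⟩ := hz
  refine ⟨a, b, ha, hb, hab, ?_⟩
  simp [prj]

/-- The shadow of the sample is not contractible. -/
theorem not_contractible {N : ℕ} (hN : 2 ≤ N) (k n : ℕ) (hk : 1 ≤ k) (hn : 1 ≤ n)
    (hnβ : 65 / n < tau k / 4) : ¬ ContractibleSpace (shadow (tau k / 4) (smp hN k n)) := by
  intro hcon
  have htau := tau_pos k
  have hn' : (0:ℝ) < n := by exact_mod_cast hn
  set β := tau k / 4 with hβ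
  set S := smp hN k n with hS
  let P : E N → ℂ := fun z => prj hN z + (tau k / 2 : ℝ)
  have hP : Continuous P := (continuous_prj hN).add continuous_const
  have hP0 : ∀ x : shadow β S, P x.1 ≠ 0 := by
    intro x hx
    obtain ⟨p, hp, hxp⟩ := shadow_near x.2
    obtain ⟨t, ht, rfl⟩ := smp_subset hN k n hk hn hp
    have h1 := far k ht.1
    have h2 : ‖prj hN x.1 - prj hN (cE hN t)‖ < β := by
      rw [prj_sub]
      refine lt_of_le_of_lt (norm_prj_le hN _) ?_
      rwa [← dist_eq_norm]
    have h3 : prj hN x.1 = -(tau k / 2 : ℝ) := eq_neg_of_add_eq_zero_left hx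
    rw [h3, cE, prj_emb, ← norm_neg] at h2
    have h4 : -(-((tau k / 2 : ℝ) : ℂ) - arc t) = arc t + (tau k / 2 : ℝ) := by ring
    rw [h4] at h2
    linarith
  obtain ⟨L, hL⟩ := exists_log ⟨fun x : shadow β S => P x.1, by fun_prop⟩ hP0
  -- the two chains
  have haS : ∀ i ≤ n, cE hN (pa k n i) ∈ S := fun i hi => Or.inl (Or.inl ⟨i, hi, rfl⟩)
  have hbS : ∀ i ≤ n, cE hN (pb k n i) ∈ S := fun i hi => Or.inl (Or.inr ⟨i, hi, rfl⟩)
  have hself : ∀ p ∈ S, p ∈ shadow β S := fun p hp => by
    have := segment_subset_shadow (β := β) hp hp (by rw [dist_self]; positivity)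
    exact this (left_mem_segment ℝ p p)
  have hdista : ∀ i < n, dist (cE hN (pa k n i)) (cE hN (pa k n (i+1))) < β := by
    intro i hi
    rw [dist_eq_norm]
    have h1 := (radialArc hN).lip _ (pa_mem' k n hk hn hi.le) _ (pa_mem' k n hk hn hi)
    have h2 := pa_step k n hk hn i
    have h3 : (65:ℝ) * (1 / n) = 65 / n := by ring
    linarith
  have hdistb : ∀ i < n, dist (cE hN (pb k n i)) (cE hN (pb k n (i+1))) < β := by
    intro i hi
    rw [dist_eq_norm]
    have h1 := (radialArc hN).lip _ (pb_mem' k n hk hn hi.le) _ (pb_mem' k n hk hn hi)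
    have h2 := pb_step k n hk hn i
    have h3 : (65:ℝ) * (1 / n) = 65 / n := by ring
    linarith
  have hsega : ∀ i < n, segment ℝ (cE hN (pa k n i)) (cE hN (pa k n (i+1))) ⊆ shadow β S :=
    fun i hi => segment_subset_shadow (haS i hi.le) (haS (i+1) hi) (hdista i hi)
  have hsegb : ∀ i < n, segment ℝ (cE hN (pb k n i)) (cE hN (pb k n (i+1))) ⊆ shadow β S :=
    fun i hi => segment_subset_shadow (hbS i hi.le) (hbS (i+1) hi) (hdistb i hi)
  have hA := (chain_change P hP L hL (fun i => cE hN (pa k n i)) n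
    (fun i hi => hself _ (haS i hi)) hsega).1 (by
      intro i hi z hz
      obtain ⟨a, b, ha, hb, -, h1⟩ := im_segment hN (tau k / 2) hz
      simp only [P]
      rw [h1, cE, cE, prj_emb, prj_emb]
      have h2 := pa_mem k n hk hn hi.le
      have h3 := pa_mem k n hk hn (i := i+1) hi
      exact add_nonneg (mul_nonneg ha (im_upper k h2.1 h2.2)) (mul_nonneg hb (im_upper k h3.1 h3.2)))
  have hB := (chain_change P hP L hL (fun i => cE hN (pb k n i)) n
    (fun i hi => hself _ (hbS i hi)) hsegb).2 (by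
      intro i hi z hz
      obtain ⟨a, b, ha, hb, -, h1⟩ := im_segment hN (tau k / 2) hz
      simp only [P]
      rw [h1, cE, cE, prj_emb, prj_emb]
      have h2 := pb_mem k n hk hn hi.le
      have h3 := pb_mem k n hk hn (i := i+1) hi
      exact add_nonpos (mul_nonpos_of_nonneg_of_nonpos ha (im_lower k h2.1 h2.2))
        (mul_nonpos_of_nonneg_of_nonpos hb (im_lower k h3.1 h3.2)))
  -- end points
  have hpa0 : pa k n 0 = tau k := by simp [pa]
  have hpan : pa k n n = tm k := by
    unfold pa
    rw [div_self hn'.ne']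
    ring
  have hpb0 : pb k n 0 = tm k := by simp [pb]
  have hpbn : pb k n n = te k := by
    unfold pb
    rw [div_self hn'.ne']
    ring
  have hte := te_lt k
  have htm1 := tau_le_tm k
  have htm2 := tm_le_te k
  have hdistc : dist (cE hN (te k)) (cE hN (tau k)) < β := by
    rw [dist_eq_norm, cE, cE, emb_sub, norm_emb, arc_te, arc_tau, ← Complex.ofReal_sub,
      Complex.norm_real, Real.norm_of_nonneg (by linarith)]
    linarith
  have hteS : cE hN (te k) ∈ S := by
    have := hbS n le_rfl
    rwa [hpbn] at this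
  have htauS : cE hN (tau k) ∈ S := by
    have := haS 0 (Nat.zero_le _)
    rwa [hpa0] at this
  have hC := (seg_change P hP L hL (segment_subset_shadow hteS htauS hdistc)).1 (by
      intro z hz
      obtain ⟨a, b, ha, hb, -, h1⟩ := im_segment hN (tau k / 2) hz
      simp only [P]
      rw [h1, cE, cE, prj_emb, prj_emb, arc_te, arc_tau]
      simp)
  -- values of P
  have hPtau : P (cE hN (tau k)) = ((tau k + tau k / 2 : ℝ) : ℂ) := by
    simp only [P, cE]
    rw [prj_emb, arc_tau]
    push_cast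
    ring
  have hPte : P (cE hN (te k)) = ((te k + tau k / 2 : ℝ) : ℂ) := by
    simp only [P, cE]
    rw [prj_emb, arc_te]
    push_cast
    ring
  have hPtm : P (cE hN (tm k)) = ((-tm k + tau k / 2 : ℝ) : ℂ) := by
    simp only [P, cE]
    rw [prj_emb, arc_tm]
    push_cast
    ring
  have harg1 : (P (cE hN (tau k))).arg = 0 := by
    rw [hPtau]
    exact Complex.arg_ofReal_of_nonneg (by linarith)
  have harg2 : (P (cE hN (te k))).arg = 0 := by
    rw [hPte]
    exact Complex.arg_ofReal_of_nonneg (by linarith)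
  have harg2' : ((starRingEnd ℂ) (P (cE hN (te k)))).arg = 0 := by
    rw [hPte, Complex.conj_ofReal]
    exact Complex.arg_ofReal_of_nonneg (by linarith)
  have harg3 : (P (cE hN (tm k))).arg = Real.pi := by
    rw [hPtm]
    exact Complex.arg_ofReal_of_neg (by linarith)
  have harg3' : ((starRingEnd ℂ) (P (cE hN (tm k)))).arg = Real.pi := by
    rw [hPtm, Complex.conj_ofReal]
    exact Complex.arg_ofReal_of_neg (by linarith)
  simp only [hpa0, hpan, harg1, harg3] at hA
  simp only [hpb0, hpbn, harg2', harg3'] at hB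
  rw [harg1, harg2] at hC
  have := Real.pi_pos
  linarith

theorem not_question {N : ℕ} (hN : 2 ≤ N) : ¬ Question.{u} N := by
  intro h
  obtain ⟨β₀, hβ₀, hrec⟩ := h _ (radialArc hN).admissible
  -- choose the scale
  obtain ⟨k, hk1, hk⟩ : ∃ k : ℕ, 1 ≤ k ∧ tau k / 4 < β₀ := by
    have h1 : Filter.Tendsto (fun k : ℕ => tau k) Filter.atTop (𝓝 0) := by
      unfold tau
      apply Real.tendsto_exp_neg_atTop_nhds_zero.comp
      exact Filter.Tendsto.const_mul_atTop (by positivity) tendsto_natCast_atTop_atTop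
    have h2 := h1.eventually (gt_mem_nhds (show (0:ℝ) < 4 * β₀ by positivity))
    obtain ⟨k, hk, hk'⟩ := (h2.and (Filter.eventually_ge_atTop 1)).exists
    exact ⟨k, hk', by linarith⟩
  have htau := tau_pos k
  obtain ⟨η, hη, hS⟩ := hrec (tau k / 4) (by positivity) hk
  obtain ⟨n, hn⟩ := exists_nat_gt (65 / (min η (tau k / 4)))
  have hmin : 0 < min η (tau k / 4) := lt_min hη (by positivity)
  have hn0 : (0:ℝ) < n := lt_trans (by positivity) hn
  have hn1 : 1 ≤ n := by
    have : 0 < n := by exact_mod_cast hn0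
    exact this
  have hn2 : 65 / (n:ℝ) < min η (tau k / 4) := by
    rw [div_lt_iff₀ hmin] at hn
    rw [div_lt_iff₀ hn0]
    linarith
  obtain ⟨e⟩ := hS (smp hN k n) (smp_finite hN k n) ⟨_, Or.inr ⟨0, Nat.zero_le _, rfl⟩⟩
    (lt_of_le_of_lt (smp_hausdorff hN k n hk1 hn1) (lt_of_lt_of_le hn2 (min_le_left _ _)))
  have := (radialArc hN).contractible
  exact not_contractible hN k n hk1 hn1 (lt_of_lt_of_le hn2 (min_le_right _ _))
    e.contractibleSpace

/-! ### Dimension one -/

/-- the coordinate in dimension one -/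
def co (v : E 1) : ℝ := v 0

theorem dist_co (v w : E 1) : dist v w = |co v - co w| := by
  rw [EuclideanSpace.dist_eq]
  simp [co, Real.dist_eq, Real.sqrt_sq_eq_abs]

theorem co_inj {v w : E 1} (h : co v = co w) : v = w := by
  have := dist_co v w
  rw [h, sub_self, abs_zero] at this
  exact dist_eq_zero.1 this

/-- the point with given coordinate -/
noncomputable def pt (x : ℝ) : E 1 := EuclideanSpace.single 0 x

@[simp] theorem co_pt (x : ℝ) : co (pt x) = x := by simp [co, pt]

theorem mem_segment_of_co {a b z : E 1} (h1 : co a ≤ co z) (h2 : co z ≤ co b) :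
    z ∈ segment ℝ a b := by
  rcases h1.eq_or_lt with h | h
  · rw [← co_inj h]
    exact left_mem_segment ℝ a b
  have hab : 0 < co b - co a := by linarith
  refine ⟨(co b - co z) / (co b - co a), (co z - co a) / (co b - co a),
    div_nonneg (by linarith) hab.le, div_nonneg (by linarith) hab.le, ?_, ?_⟩
  · rw [← add_div]
    rw [div_eq_one_iff_eq hab.ne']
    ring
  · apply co_inj
    simp only [co, PiLp.add_apply, PiLp.smul_apply, smul_eq_mul] at *
    field_simp
    ring

theorem continuous_co : Continuous co := by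
  unfold co
  fun_prop

theorem continuous_pt : Continuous pt := by
  have : Isometry pt := by
    apply Isometry.of_dist_eq
    intro x y
    rw [dist_co, co_pt, co_pt, Real.dist_eq]
  exact this.continuous

theorem convex_of_connected {M : Set (E 1)} (hM : IsPreconnected M) : Convex ℝ M := by
  have h1 : (co '' M).OrdConnected := (hM.image co continuous_co.continuousOn).ordConnected
  have h2 : Convex ℝ (co '' M) := h1.convex
  intro x hx y hy a b ha hb hab
  obtain ⟨z, hz, hz'⟩ := h2 ⟨x, hx, rfl⟩ ⟨y, hy, rfl⟩ ha hb hab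
  have : z = a • x + b • y := by
    apply co_inj
    rw [hz']
    simp [co]
  rwa [← this]

theorem question_one : Question.{u} 1 := by
  intro M hM
  refine ⟨1, one_pos, fun β hβ _ => ⟨β / 4, by positivity, fun S hfin hne hd => ?_⟩⟩
  have hMc : Convex ℝ M := convex_of_connected hM.connected.isPreconnected
  have htop : hausdorffEDist S M ≠ ⊤ :=
    hausdorffEDist_ne_top_of_nonempty_of_bounded hne hM.connected.nonempty hfin.isBounded
      hM.compact.isBounded
  have hSsh : S ⊆ shadow β S := fun p hp => by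
    have := segment_subset_shadow (β := β) hp hp (by rw [dist_self]; exact hβ)
    exact this (left_mem_segment ℝ p p)
  have hcov : ∀ a ∈ S, ∀ b ∈ S, ∀ z : E 1, co a ≤ co z → co z ≤ co b → z ∈ shadow β S := by
    intro a ha b hb z haz hzb
    -- the nearest points of `S` on both sides
    have hf1 : {p | p ∈ S ∧ co p ≤ co z}.Finite := hfin.subset fun _ h => h.1
    have hf2 : {p | p ∈ S ∧ co z ≤ co p}.Finite := hfin.subset fun _ h => h.1
    obtain ⟨a', ha', ha'm⟩ := hf1.exists_maximalFor co _ ⟨a, ha, haz⟩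
    obtain ⟨b', hb', hb'm⟩ := hf2.exists_minimalFor co _ ⟨b, hb, hzb⟩
    have hmax : ∀ p ∈ S, co p ≤ co z → co p ≤ co a' := by
      intro p hp hpz
      by_contra hcon
      push Not at hcon
      exact absurd (ha'm ⟨hp, hpz⟩ hcon.le) (not_le.2 hcon)
    have hmin : ∀ p ∈ S, co z ≤ co p → co b' ≤ co p := by
      intro p hp hpz
      by_contra hcon
      push Not at hcon
      exact absurd (hb'm ⟨hp, hpz⟩ hcon.le) (not_le.2 hcon)
    have hlt : dist a' b' < β := by
      by_contra hcon
      push Not at hcon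
      rw [dist_co, abs_sub_comm, abs_of_nonneg (by linarith [ha'.2, hb'.2])] at hcon
      obtain ⟨p, hp, hap⟩ := exists_dist_lt_of_hausdorffDist_lt ha'.1 hd htop
      obtain ⟨q, hq, hbq⟩ := exists_dist_lt_of_hausdorffDist_lt hb'.1 hd htop
      rw [dist_co, abs_lt] at hap hbq
      let m : E 1 := pt ((co a' + co b') / 2)
      have hm : m ∈ M := by
        apply hMc.segment_subset hp hq
        apply mem_segment_of_co
        · simp only [m, co_pt]
          linarith [hap.1, hap.2]
        · simp only [m, co_pt]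
          linarith [hbq.1, hbq.2]
      obtain ⟨s, hs, hsm⟩ := exists_dist_lt_of_hausdorffDist_lt' hm hd htop
      rw [dist_co, abs_lt] at hsm
      simp only [m, co_pt] at hsm
      rcases le_total (co s) (co z) with h | h
      · have := hmax s hs h
        linarith [hsm.1, hsm.2]
      · have := hmin s hs h
        linarith [hsm.1, hsm.2]
    exact segment_subset_shadow ha'.1 hb'.1 hlt (mem_segment_of_co ha'.2 hb'.2)
  have hhull : ∀ z ∈ shadow β S, ∃ a ∈ S, ∃ b ∈ S, co a ≤ co z ∧ co z ≤ co b := by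
    intro z hz
    simp only [shadow, mem_iUnion] at hz
    obtain ⟨s, ⟨hsne, hsS, hsd⟩, hz⟩ := hz
    obtain ⟨a, ha, ham⟩ := s.exists_min_image co hsne
    obtain ⟨b, hb, hbm⟩ := s.exists_max_image co hsne
    refine ⟨a, hsS ha, b, hsS hb, ?_⟩
    have h1 : convexHull ℝ (s : Set (E 1)) ⊆ {z | co a ≤ co z ∧ co z ≤ co b} := by
      apply convexHull_min
      · intro p hp
        exact ⟨ham p hp, hbm p hp⟩
      · intro x hx y hy u v hu hv huv
        have hu' : u = 1 - v := by linarith
        subst hu'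
        have hx' : co a ≤ co x ∧ co x ≤ co b := hx
        have hy' : co a ≤ co y ∧ co y ≤ co b := hy
        have : co ((1 - v) • x + v • y) = (1 - v) * co x + v * co y := by simp [co]
        constructor
        · rw [this]
          nlinarith [hx'.1, hy'.1]
        · rw [this]
          nlinarith [hx'.2, hy'.2]
    exact h1 hz
  have hconv : Convex ℝ (shadow β S) := by
    intro x hx y hy u v hu hv huv
    obtain ⟨a, ha, b, hb, h1, h2⟩ := hhull x hx
    obtain ⟨c, hc, d, hd', h3, h4⟩ := hhull y hy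
    have hu' : u = 1 - v := by linarith
    subst hu'
    have h5 : co ((1 - v) • x + v • y) = (1 - v) * co x + v * co y := by simp [co]
    -- lower end
    have h6 : ∃ a' ∈ S, co a' ≤ co ((1 - v) • x + v • y) := by
      rcases le_total (co a) (co c) with h | h
      · exact ⟨a, ha, by rw [h5]; nlinarith⟩
      · exact ⟨c, hc, by rw [h5]; nlinarith⟩
    have h7 : ∃ b' ∈ S, co ((1 - v) • x + v • y) ≤ co b' := by
      rcases le_total (co b) (co d) with h | h
      · exact ⟨d, hd', by rw [h5]; nlinarith⟩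
      · exact ⟨b, hb, by rw [h5]; nlinarith⟩
    obtain ⟨a', ha', h6⟩ := h6
    obtain ⟨b', hb', h7⟩ := h7
    exact hcov a' ha' b' hb' _ h6 h7
  have : ContractibleSpace (shadow β S) := hconv.contractibleSpace (hne.mono hSsh)
  have : ContractibleSpace M := hMc.contractibleSpace hM.connected.nonempty
  exact ContractibleSpace.hequiv _ _

/-- The answer to the question in every dimension. -/
theorem main (N : ℕ) (hN : 1 ≤ N) : Question.{u} N ↔ N = 1 := by
  constructor
  · intro h
    by_contra hne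
    exact not_question (by omega) h
  · rintro rfl
    exact question_one

end Pool.Agent.R796.Sh
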