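import Pool.Agent.R796.ShArc

/-!
# A planar spiral arc which is not reconstructed by shadows of samples
-/

set_option autoImplicit false

namespace Pool.Agent.R796.Sh

open Set Topology Metric
open scoped unitInterval ENNReal

/-! ### Continuous logarithms on contractible spaces -/

theorem exists_log {X : Type*} [TopologicalSpace X] [ContractibleSpace X] (h : C(X, ℂ))
    (h0 : ∀ x, h x ≠ 0) : ∃ L : C(X, ℂ), ∀ x, Complex.exp (L x) = h x := by
  obtain ⟨y, hy⟩ := id_nullhomotopic X
  obtain ⟨F⟩ := hy.symm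
  let h' : C(X, {z : ℂ // z ≠ 0}) := ⟨fun x => ⟨h x, h0 x⟩, by fun_prop⟩
  let H : C(I × X, {z : ℂ // z ≠ 0}) := h'.comp F.toContinuousMap
  have cov := Complex.isCoveringMap_exp
  let f : C(X, ℂ) := ContinuousMap.const X (Complex.log (h y))
  have H_0 : ∀ a, H (0, a) = (fun z : ℂ ↦ (⟨_, z.exp_ne_zero⟩ : {z : ℂ // z ≠ 0})) (f a) := by
    intro a
    apply Subtype.ext
    simp [H, h', f, Complex.exp_log (h0 y)]
  let G := cov.liftHomotopy H f H_0
  refine ⟨G.comp ((ContinuousMap.const X 1).prodMk (ContinuousMap.id X)), fun x => ?_⟩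
  have := congrFun (cov.liftHomotopy_lifts H f H_0) (1, x)
  have h2 := congrArg Subtype.val this
  simpa [H, h', G] using h2

theorem continuous_log_upper {A : Type*} [TopologicalSpace A] {w : A → ℂ} (hw : Continuous w)
    (h0 : ∀ a, w a ≠ 0) (him : ∀ a, 0 ≤ (w a).im) : Continuous fun a => Complex.log (w a) := by
  rw [continuous_iff_continuousAt]
  intro a
  by_cases h : w a ∈ Complex.slitPlane
  · exact (continuousAt_clog h).comp hw.continuousAt
  · have h1 : (w a).re < 0 ∧ (w a).im = 0 := by
      rw [Complex.mem_slitPlane_iff] at h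
      push Not at h
      refine ⟨lt_of_le_of_ne h.1 ?_, h.2⟩
      intro h2
      exact h0 a (Complex.ext h2 h.2)
    have h2 := Complex.continuousWithinAt_log_of_re_neg_of_im_zero h1.1 h1.2
    have h3 : Filter.Tendsto w (𝓝 a) (𝓝[{z : ℂ | 0 ≤ z.im}] (w a)) :=
      tendsto_nhdsWithin_iff.2 ⟨hw.continuousAt, Filter.Eventually.of_forall him⟩
    exact h2.tendsto.comp h3

/-- the change of a continuous logarithm along a path in the closed upper half plane -/
theorem change_upper (ℓ w : C(I, ℂ)) (h : ∀ t, Complex.exp (ℓ t) = w t)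
    (him : ∀ t, 0 ≤ (w t).im) :
    (ℓ 1).im - (ℓ 0).im = (w 1).arg - (w 0).arg := by
  have h0 : ∀ t, w t ≠ 0 := fun t => by rw [← h t]; exact Complex.exp_ne_zero _
  have cov := Complex.isCoveringMap_exp
  let g2 : I → ℂ := fun t => Complex.log (w t) + (ℓ 0 - Complex.log (w 0))
  have hg2 : Continuous g2 := (continuous_log_upper w.continuous h0 him).add continuous_const
  have he : Complex.exp (ℓ 0 - Complex.log (w 0)) = 1 := by
    rw [Complex.exp_sub, h 0, Complex.exp_log (h0 0), div_self (h0 0)]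
  have h1 : (ℓ : I → ℂ) = g2 := by
    apply cov.eq_of_comp_eq ℓ.continuous hg2 (a := 0)
    · funext t
      apply Subtype.ext
      simp only [Function.comp_apply, g2]
      rw [Complex.exp_add, he, mul_one, Complex.exp_log (h0 t), h t]
    · simp [g2]
  have h2 := congrFun h1 1
  simp only [g2] at h2
  have h3 := congrArg Complex.im h2
  simp only [Complex.add_im, Complex.sub_im, Complex.log_im] at h3
  linarith

/-- the change of a continuous logarithm along a path in the closed lower half plane -/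
theorem change_lower (ℓ w : C(I, ℂ)) (h : ∀ t, Complex.exp (ℓ t) = w t)
    (him : ∀ t, (w t).im ≤ 0) :
    (ℓ 1).im - (ℓ 0).im =
      -((starRingEnd ℂ) (w 1)).arg + ((starRingEnd ℂ) (w 0)).arg := by
  have := change_upper ⟨fun t => (starRingEnd ℂ) (ℓ t), by fun_prop⟩
    ⟨fun t => (starRingEnd ℂ) (w t), by fun_prop⟩ (fun t => by
      simp only [ContinuousMap.coe_mk]
      rw [Complex.exp_conj, h t]) (fun t => by
      simp only [ContinuousMap.coe_mk, Complex.conj_im]
      linarith [him t])
  simp only [ContinuousMap.coe_mk, Complex.conj_im] at this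
  linarith

/-! ### The arc in the plane -/

/-- The angle. -/
noncomputable def ang (t : ℝ) : ℝ := min (max (64 * Real.sin (Real.log t)) 0) (2 * Real.pi)

/-- The planar arc. -/
noncomputable def arc (t : ℝ) : ℂ := t * Complex.exp (Complex.I * ang t)

theorem norm_arc {t : ℝ} (ht : 0 ≤ t) : ‖arc t‖ = t := by
  unfold arc
  rw [norm_mul, mul_comm Complex.I, Complex.norm_exp_ofReal_mul_I, mul_one, Complex.norm_real,
    Real.norm_of_nonneg ht]

theorem ang_sub (s t : ℝ) : |ang s - ang t| ≤ 64 * |Real.log s - Real.log t| := by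
  unfold ang
  have h1 : |min (max (64 * Real.sin (Real.log s)) 0) (2 * Real.pi) -
      min (max (64 * Real.sin (Real.log t)) 0) (2 * Real.pi)| ≤
      |max (64 * Real.sin (Real.log s)) 0 - max (64 * Real.sin (Real.log t)) 0| :=
    (abs_min_sub_min_le_max _ _ _ _).trans (by simp)
  have h2 : |max (64 * Real.sin (Real.log s)) 0 - max (64 * Real.sin (Real.log t)) 0| ≤
      |64 * Real.sin (Real.log s) - 64 * Real.sin (Real.log t)| :=
    (abs_max_sub_max_le_max _ _ _ _).trans (by simp)
  have h3 : |64 * Real.sin (Real.log s) - 64 * Real.sin (Real.log t)| =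
      64 * |Real.sin (Real.log s) - Real.sin (Real.log t)| := by
    rw [← mul_sub, abs_mul]
    norm_num
  have h4 : |Real.sin (Real.log s) - Real.sin (Real.log t)| ≤ |Real.log s - Real.log t| := by
    have := Real.lipschitzWith_sin.dist_le_mul (Real.log s) (Real.log t)
    simpa [Real.dist_eq] using this
  linarith

theorem norm_exp_sub (a b : ℝ) :
    ‖Complex.exp (Complex.I * a) - Complex.exp (Complex.I * b)‖ ≤ |a - b| := by
  have h1 : Complex.exp (Complex.I * a) - Complex.exp (Complex.I * b) =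
      Complex.exp (Complex.I * b) * (Complex.exp (Complex.I * (a - b : ℝ)) - 1) := by
    rw [mul_sub, ← Complex.exp_add]
    congr 2
    · push_cast
      ring
    · ring
  rw [h1, norm_mul, mul_comm Complex.I (b : ℂ), Complex.norm_exp_ofReal_mul_I, one_mul]
  exact Real.norm_exp_I_mul_ofReal_sub_one_le

theorem arc_lip_aux {s t : ℝ} (hs : 0 < s) (hst : s ≤ t) : ‖arc s - arc t‖ ≤ 65 * (t - s) := by
  have ht : 0 < t := lt_of_lt_of_le hs hst
  have h1 : arc s - arc t = s * (Complex.exp (Complex.I * ang s) - Complex.exp (Complex.I * ang t))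
      - ((t - s : ℝ) : ℂ) * Complex.exp (Complex.I * ang t) := by
    unfold arc
    push_cast
    ring
  rw [h1]
  refine (norm_sub_le _ _).trans ?_
  rw [norm_mul, norm_mul, Complex.norm_real, Complex.norm_real, Real.norm_of_nonneg hs.le,
    Real.norm_of_nonneg (by linarith), mul_comm Complex.I (ang t : ℂ),
    Complex.norm_exp_ofReal_mul_I, mul_one]
  have h2 := norm_exp_sub (ang s) (ang t)
  rw [mul_comm Complex.I (ang t : ℂ)] at h2
  have h3 := ang_sub s t
  have h4 : |Real.log s - Real.log t| = Real.log (t / s) := by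
    rw [abs_sub_comm, ← Real.log_div ht.ne' hs.ne', abs_of_nonneg]
    apply Real.log_nonneg
    rwa [le_div_iff₀ hs, one_mul]
  have h5 : Real.log (t / s) ≤ t / s - 1 := Real.log_le_sub_one_of_pos (by positivity)
  have h6 : s * (t / s - 1) = t - s := by
    field_simp
  have h7 : s * ‖Complex.exp (Complex.I * ang s) - Complex.exp (ang t * Complex.I)‖ ≤
      64 * (t - s) := by
    calc s * ‖Complex.exp (Complex.I * ang s) - Complex.exp (ang t * Complex.I)‖
        ≤ s * (64 * (t / s - 1)) := by
          apply mul_le_mul_of_nonneg_left _ hs.le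
          linarith
      _ = 64 * (s * (t / s - 1)) := by ring
      _ = 64 * (t - s) := by rw [h6]
  linarith

theorem arc_zero : arc 0 = 0 := by simp [arc]

theorem arc_lip {s t : ℝ} (hs : 0 ≤ s) (ht : 0 ≤ t) : ‖arc s - arc t‖ ≤ 65 * |s - t| := by
  rcases hs.eq_or_lt with rfl | hs
  · rw [arc_zero, zero_sub, norm_neg, norm_arc ht, zero_sub, abs_neg, abs_of_nonneg ht]
    linarith
  rcases ht.eq_or_lt with rfl | ht
  · rw [arc_zero, sub_zero, norm_arc hs.le, sub_zero, abs_of_nonneg hs.le]
    linarith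
  rcases le_total s t with h | h
  · rw [abs_sub_comm, abs_of_nonneg (by linarith)]
    exact arc_lip_aux hs h
  · rw [norm_sub_rev, abs_of_nonneg (by linarith)]
    exact arc_lip_aux ht h

/-- the angle on one period -/
theorem ang_exp (k : ℕ) (x : ℝ) :
    ang (Real.exp (-(2 * Real.pi * k)) * Real.exp x) =
      min (max (64 * Real.sin x) 0) (2 * Real.pi) := by
  unfold ang
  rw [← Real.exp_add, Real.log_exp]
  have : Real.sin (-(2 * Real.pi * k) + x) = Real.sin x := by
    rw [show -(2 * Real.pi * (k:ℝ)) + x = x - k * (2 * Real.pi) by ring]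
    exact Real.sin_sub_nat_mul_two_pi x k
  rw [this]

theorem arc_of_ang_zero {t : ℝ} (h : ang t = 0) : arc t = t := by
  simp [arc, h]

theorem arc_of_ang_pi {t : ℝ} (h : ang t = Real.pi) : arc t = -t := by
  simp [arc, h, mul_comm Complex.I]

theorem arc_of_ang_two_pi {t : ℝ} (h : ang t = 2 * Real.pi) : arc t = t := by
  simp [arc, h, mul_comm Complex.I, Complex.exp_two_pi_mul_I]

theorem arc_im (t : ℝ) : (arc t).im = t * Real.sin (ang t) := by
  unfold arc
  rw [mul_comm Complex.I, Complex.exp_mul_I]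
  simp [← Complex.ofReal_cos, ← Complex.ofReal_sin]

theorem arc_re (t : ℝ) : (arc t).re = t * Real.cos (ang t) := by
  unfold arc
  rw [mul_comm Complex.I, Complex.exp_mul_I]
  simp [← Complex.ofReal_cos, ← Complex.ofReal_sin]

section Scale

variable (k : ℕ)

/-- The scales. -/
noncomputable def tau : ℝ := Real.exp (-(2 * Real.pi * k))

theorem tau_pos : 0 < tau k := Real.exp_pos _

/-- half turn -/
noncomputable def xm : ℝ := Real.arcsin (Real.pi / 64)
/-- full turn -/
noncomputable def xe : ℝ := Real.arcsin (2 * Real.pi / 64)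

theorem xm_nonneg : 0 ≤ xm := Real.arcsin_nonneg.2 (by positivity)

theorem xm_le : xm ≤ xe := by
  apply Real.monotone_arcsin
  have := Real.pi_pos
  linarith

theorem sin_xm : Real.sin xm = Real.pi / 64 := by
  have h1 := Real.pi_pos
  have h2 := Real.pi_lt_four
  exact Real.sin_arcsin (by linarith) (by linarith)

theorem sin_xe : Real.sin xe = 2 * Real.pi / 64 := by
  have h1 := Real.pi_pos
  have h2 := Real.pi_lt_four
  exact Real.sin_arcsin (by linarith) (by linarith)

theorem xe_le_half : xe ≤ Real.pi / 2 := Real.arcsin_le_pi_div_two _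

theorem xe_le : xe ≤ 1 / 6 := by
  have h1 := Real.mul_le_sin (le_trans xm_nonneg xm_le) xe_le_half
  rw [sin_xe] at h1
  have h2 := Real.pi_pos
  have h3 := Real.pi_lt_d2
  have h4 : xe ≤ Real.pi ^ 2 / 64 := by
    have h5 : 2 / Real.pi * xe * (Real.pi / 2) = xe := by field_simp
    have h6 : 2 / Real.pi * xe * (Real.pi / 2) ≤ 2 * Real.pi / 64 * (Real.pi / 2) :=
      mul_le_mul_of_nonneg_right h1 (by positivity)
    rw [h5] at h6
    linarith [h6]
  nlinarith

theorem exp_xe : Real.exp xe < 5 / 4 := by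
  have h1 : Real.exp xe ≤ Real.exp (1/6) := Real.exp_le_exp.2 xe_le
  have h2 : 1 - 1/6 ≤ Real.exp (-(1/6)) := Real.one_sub_le_exp_neg _
  rw [Real.exp_neg] at h2
  have h3 : 0 < Real.exp (1/6) := Real.exp_pos _
  have h4 : (1 - 1/6) * Real.exp (1/6) ≤ 1 := by
    calc (1 - 1/6) * Real.exp (1/6) ≤ (Real.exp (1/6))⁻¹ * Real.exp (1/6) :=
          mul_le_mul_of_nonneg_right h2 h3.le
      _ = 1 := inv_mul_cancel₀ h3.ne'
  linarith

/-- parameter of the half turn -/
noncomputable def tm : ℝ := tau k * Real.exp xm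
/-- parameter of the full turn -/
noncomputable def te : ℝ := tau k * Real.exp xe

theorem tau_le_tm : tau k ≤ tm k := by
  unfold tm
  have := Real.one_le_exp xm_nonneg
  nlinarith [tau_pos k]

theorem tm_le_te : tm k ≤ te k := by
  unfold tm te
  exact mul_le_mul_of_nonneg_left (Real.exp_le_exp.2 xm_le) (tau_pos k).le

theorem te_lt : te k < 5 / 4 * tau k := by
  unfold te
  have := exp_xe
  nlinarith [tau_pos k]

theorem arc_tau : arc (tau k) = tau k := by
  apply arc_of_ang_zero
  have := ang_exp k 0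
  rw [Real.exp_zero, mul_one, Real.sin_zero, mul_zero, max_self,
    min_eq_left (by positivity)] at this
  exact this

theorem arc_tm : arc (tm k) = -(tm k : ℂ) := by
  apply arc_of_ang_pi
  have h1 := ang_exp k xm
  have h2 := Real.pi_pos
  rw [sin_xm, max_eq_left (by positivity)] at h1
  unfold tm tau
  rw [h1, min_eq_left (by linarith)]
  ring

theorem arc_te : arc (te k) = te k := by
  apply arc_of_ang_two_pi
  have h1 := ang_exp k xe
  have h2 := Real.pi_pos
  rw [sin_xe, max_eq_left (by positivity)] at h1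
  unfold te tau
  rw [h1, min_eq_right]
  linarith

theorem exists_x {t : ℝ} (ht : 0 < t) : ∃ x, t = tau k * Real.exp x := by
  refine ⟨Real.log (t / tau k), ?_⟩
  have := tau_pos k
  rw [Real.exp_log (by positivity)]
  field_simp

theorem le_exp_iff {x y : ℝ} : tau k * Real.exp x ≤ tau k * Real.exp y ↔ x ≤ y := by
  rw [mul_le_mul_iff_right₀ (tau_pos k), Real.exp_le_exp]

theorem im_upper {t : ℝ} (h1 : tau k ≤ t) (h2 : t ≤ tm k) : 0 ≤ (arc t).im := by
  have ht : 0 < t := lt_of_lt_of_le (tau_pos k) h1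
  obtain ⟨x, rfl⟩ := exists_x k ht
  have hx0 : 0 ≤ x := by
    have : tau k * Real.exp 0 ≤ tau k * Real.exp x := by rwa [Real.exp_zero, mul_one]
    exact (le_exp_iff k).1 this
  have hx1 : x ≤ xm := (le_exp_iff k).1 h2
  have h3 : ang (tau k * Real.exp x) = min (max (64 * Real.sin x) 0) (2 * Real.pi) := ang_exp k x
  have h4 : Real.sin x ≤ Real.sin xm :=
    Real.sin_le_sin_of_le_of_le_pi_div_two (by linarith [Real.pi_pos])
      (xm_le.trans xe_le_half) hx1
  have h5 : 0 ≤ Real.sin x := Real.sin_nonneg_of_nonneg_of_le_pi hx0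
    (by linarith [xe_le_half, xm_le, Real.pi_pos])
  rw [sin_xm] at h4
  rw [arc_im, h3, max_eq_left (by linarith), min_eq_left (by linarith [Real.pi_pos])]
  apply mul_nonneg ht.le
  apply Real.sin_nonneg_of_nonneg_of_le_pi (by linarith) (by linarith)

theorem im_lower {t : ℝ} (h1 : tm k ≤ t) (h2 : t ≤ te k) : (arc t).im ≤ 0 := by
  have ht : 0 < t := lt_of_lt_of_le (lt_of_lt_of_le (tau_pos k) (tau_le_tm k)) h1
  obtain ⟨x, rfl⟩ := exists_x k ht
  have hx0 : xm ≤ x := (le_exp_iff k).1 h1
  have hx1 : x ≤ xe := (le_exp_iff k).1 h2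
  have h3 : ang (tau k * Real.exp x) = min (max (64 * Real.sin x) 0) (2 * Real.pi) := ang_exp k x
  have h4 : Real.sin x ≤ Real.sin xe :=
    Real.sin_le_sin_of_le_of_le_pi_div_two (by linarith [Real.pi_pos, xm_nonneg])
      xe_le_half hx1
  have h5 : Real.sin xm ≤ Real.sin x :=
    Real.sin_le_sin_of_le_of_le_pi_div_two (by linarith [Real.pi_pos, xm_nonneg])
      (hx1.trans xe_le_half) hx0
  rw [sin_xe] at h4
  rw [sin_xm] at h5
  have h6 := Real.pi_pos
  rw [arc_im, h3, max_eq_left (by linarith), min_eq_left (by linarith)]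
  apply mul_nonpos_of_nonneg_of_nonpos ht.le
  have h7 : Real.sin (64 * Real.sin x) = - Real.sin (64 * Real.sin x - Real.pi) := by
    rw [Real.sin_sub_pi, neg_neg]
  rw [h7]
  have : 0 ≤ Real.sin (64 * Real.sin x - Real.pi) :=
    Real.sin_nonneg_of_nonneg_of_le_pi (by linarith) (by linarith)
  linarith

/-- The point `-τ/2` is at distance at least `τ/4` from the arc. -/
theorem far {t : ℝ} (ht : 0 ≤ t) : tau k / 4 ≤ ‖arc t + (tau k / 2 : ℝ)‖ := by
  have htau := tau_pos k
  have htri : ∀ t, 0 ≤ t → |t - tau k / 2| ≤ ‖arc t + (tau k / 2 : ℝ)‖ := by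
    intro t ht
    have := abs_norm_sub_norm_le (arc t) (-(tau k / 2 : ℝ) : ℂ)
    rw [norm_arc ht, norm_neg, Complex.norm_real, Real.norm_of_nonneg (by positivity),
      sub_neg_eq_add] at this
    exact this
  by_cases h1 : tau k ≤ t
  · refine le_trans ?_ (htri t ht)
    rw [abs_of_nonneg (by linarith)]
    linarith
  push Not at h1
  by_cases h2 : t ≤ tau k / 4
  · refine le_trans ?_ (htri t ht)
    rw [abs_sub_comm, abs_of_nonneg (by linarith)]
    linarith
  push Not at h2
  have ht' : 0 < t := by linarith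
  obtain ⟨x, hx⟩ := exists_x k ht'
  have hx0 : x ≤ 0 := by
    rw [← le_exp_iff k, ← hx, Real.exp_zero, mul_one]
    exact h1.le
  have hx1 : -Real.pi ≤ x := by
    rw [← le_exp_iff k, ← hx]
    refine le_trans ?_ h2.le
    have h3 : Real.exp (-Real.pi) ≤ 1 / 4 := by
      rw [Real.exp_neg]
      have h4 : Real.pi + 1 ≤ Real.exp Real.pi := Real.add_one_le_exp _
      have h5 := Real.pi_gt_three
      rw [inv_le_comm₀ (Real.exp_pos _) (by norm_num)]
      norm_num
      linarith
    nlinarith
  have h3 : ang t = 0 := by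
    rw [hx]
    have h4 : ang (tau k * Real.exp x) = min (max (64 * Real.sin x) 0) (2 * Real.pi) :=
      ang_exp k x
    have h5 : Real.sin x ≤ 0 := Real.sin_nonpos_of_nonpos_of_neg_pi_le hx0 hx1
    rw [h4, max_eq_right (by linarith), min_eq_left (by positivity)]
  rw [arc_of_ang_zero h3, ← Complex.ofReal_add, Complex.norm_real,
    Real.norm_of_nonneg (by linarith)]
  linarith

end Scale

end Pool.Agent.R796.Sh
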